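import Pool.Agent.DWY.StC

/-!
# DWY [TLin]: the class is multilinear, alternating, linear over the quadratic field and
nondegenerate
-/

set_option autoImplicit false

namespace DWY

open scoped ComplexConjugate
open GAM (H E F pd pdl PLat IsTh OddTor IsDel Gro IsLat GoodN LinN)
open PST DWC
open Pool.Agent.GPC (AbVar hermForm bilForm IsAlgQuadratic)

section TLinLemmas

variable {α β : Type} [Fintype α] [Fintype β] [DecidableEq α] [DecidableEq β]

theorem TLin_XX_inl (X : AbVar) (T : Matrix (Ix α β Unit) (Fin X.g) ℂ)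
    (S : Matrix (Fin X.g) (Ix α β Unit) ℂ) (v : X.H1) (i : α) (k : Unit) :
    XX X T S v (Sum.inl i, k) = cx X T v (Sum.inl i, k) := rfl

theorem TLin_XX_inr (X : AbVar) (T : Matrix (Ix α β Unit) (Fin X.g) ℂ)
    (S : Matrix (Fin X.g) (Ix α β Unit) ℂ) (v : X.H1) (i : β) (k : Unit) :
    XX X T S v (Sum.inr i, k) = cy X S v (Sum.inr i, k) := rfl

theorem TLin_XT_inl (X : AbVar) (T : Matrix (Ix α β Unit) (Fin X.g) ℂ)
    (S : Matrix (Fin X.g) (Ix α β Unit) ℂ) (v : X.H1) (i : α) (k : Unit) :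
    XT X T S v (Sum.inl i, k) = cy X S v (Sum.inl i, k) := rfl

theorem TLin_XT_inr (X : AbVar) (T : Matrix (Ix α β Unit) (Fin X.g) ℂ)
    (S : Matrix (Fin X.g) (Ix α β Unit) ℂ) (v : X.H1) (i : β) (k : Unit) :
    XT X T S v (Sum.inr i, k) = cx X T v (Sum.inr i, k) := rfl

theorem TLin_XX_lin (X : AbVar) (T : Matrix (Ix α β Unit) (Fin X.g) ℂ)
    (S : Matrix (Fin X.g) (Ix α β Unit) ℂ) (hx : IsLinearMap ℂ (cx X T))
    (hy : IsLinearMap ℂ (cy X S)) : IsLinearMap ℂ (XX X T S) := by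
  constructor
  · intro u v
    funext p
    rcases p with ⟨i | j, k⟩
    · rw [Pi.add_apply, TLin_XX_inl, TLin_XX_inl, TLin_XX_inl, hx.map_add, Pi.add_apply]
    · rw [Pi.add_apply, TLin_XX_inr, TLin_XX_inr, TLin_XX_inr, hy.map_add, Pi.add_apply]
  · intro c v
    funext p
    rcases p with ⟨i | j, k⟩
    · rw [Pi.smul_apply, TLin_XX_inl, TLin_XX_inl, hx.map_smul, Pi.smul_apply]
    · rw [Pi.smul_apply, TLin_XX_inr, TLin_XX_inr, hy.map_smul, Pi.smul_apply]

theorem TLin_XT_lin (X : AbVar) (T : Matrix (Ix α β Unit) (Fin X.g) ℂ)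
    (S : Matrix (Fin X.g) (Ix α β Unit) ℂ) (hx : IsLinearMap ℂ (cx X T))
    (hy : IsLinearMap ℂ (cy X S)) : IsLinearMap ℂ (XT X T S) := by
  constructor
  · intro u v
    funext p
    rcases p with ⟨i | j, k⟩
    · rw [Pi.add_apply, TLin_XT_inl, TLin_XT_inl, TLin_XT_inl, hy.map_add, Pi.add_apply]
    · rw [Pi.add_apply, TLin_XT_inr, TLin_XT_inr, TLin_XT_inr, hx.map_add, Pi.add_apply]
  · intro c v
    funext p
    rcases p with ⟨i | j, k⟩
    · rw [Pi.smul_apply, TLin_XT_inl, TLin_XT_inl, hy.map_smul, Pi.smul_apply]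
    · rw [Pi.smul_apply, TLin_XT_inr, TLin_XT_inr, hx.map_smul, Pi.smul_apply]

theorem TLin_XX_surj (X : AbVar) (T : Matrix (Ix α β Unit) (Fin X.g) ℂ)
    (S : Matrix (Fin X.g) (Ix α β Unit) ℂ)
    (hs : ∀ x y : Ix α β Unit → ℂ, ∃ v, cx X T v = x ∧ cy X S v = y) (A : Ix α β Unit → ℂ) :
    ∃ v, XX X T S v = A := by
  obtain ⟨v, h1, h2⟩ := hs A A
  refine ⟨v, ?_⟩
  funext p
  rcases p with ⟨i | j, k⟩
  · rw [TLin_XX_inl, h1]
  · rw [TLin_XX_inr, h2]

theorem TLin_XT_surj (X : AbVar) (T : Matrix (Ix α β Unit) (Fin X.g) ℂ)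
    (S : Matrix (Fin X.g) (Ix α β Unit) ℂ)
    (hs : ∀ x y : Ix α β Unit → ℂ, ∃ v, cx X T v = x ∧ cy X S v = y) (A : Ix α β Unit → ℂ) :
    ∃ v, XT X T S v = A := by
  obtain ⟨v, h1, h2⟩ := hs A A
  refine ⟨v, ?_⟩
  funext p
  rcases p with ⟨i | j, k⟩
  · rw [TLin_XT_inl, h2]
  · rw [TLin_XT_inr, h1]

end TLinLemmas

theorem TLin_bl_add (P P' Q : IY → ℂ) : bl (P + P') Q = bl P Q + bl P' Q := by
  simp only [bl, Pi.add_apply, add_mul, Finset.sum_add_distrib]; ring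

theorem TLin_bl_add' (P Q Q' : IY → ℂ) : bl P (Q + Q') = bl P Q + bl P Q' := by
  simp only [bl, Pi.add_apply, mul_add, Finset.sum_add_distrib]; ring

theorem TLin_bl_smul (c : ℂ) (P Q : IY → ℂ) : bl (c • P) Q = c * bl P Q := by
  simp only [bl, Pi.smul_apply, smul_eq_mul, mul_assoc, ← Finset.mul_sum]; ring

theorem TLin_bl_smul' (c : ℂ) (P Q : IY → ℂ) : bl P (c • Q) = c * bl P Q := by
  simp only [bl, Pi.smul_apply, smul_eq_mul, mul_left_comm _ c, ← Finset.mul_sum]; ring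

theorem TLin_bl_zero (Q : IY → ℂ) : bl 0 Q = 0 := by
  simp [bl]

theorem thm_TLin (h1 : St_CxA) (h2 : St_WedA) : St_TLin := by
  intro d m N M X Y Z T S Tp Tm Ta Tb κ L T' S' Ta' Tb' LY T'' S'' Ta'' Tb'' LZ J JY JZ D
    hJ1 hJ2 hY1 hY2 hZ1 hZ2
  obtain ⟨xl, yl, xs, -, -, -, -⟩ := h1 X d (Fin 3) Unit T S Tp Tm Ta Tb κ L D.nx
  obtain ⟨xl', yl', xs', xi', -, -, -⟩ :=
    h1 Y d (Fin 3) (Fin 3) T' S' (TpY m Tp) (TmY m Tp Tm) Ta' Tb' (kY κ) LY D.ny
  obtain ⟨xl'', yl'', xs'', -, -, -, -⟩ :=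
    h1 Z d Empty Unit T'' S'' 1 (m⁻¹ • (1 : Matrix Unit Unit ℂ)) Ta'' Tb'' 0 LZ D.nz
  obtain ⟨-, -, -, -, -, -, -, wz, wa, ws, wn⟩ := h2
  have aX := TLin_XX_lin X T S xl yl
  have bX := TLin_XT_lin X T S xl yl
  have aY := TLin_XX_lin Y T' S' xl' yl'
  have bY := TLin_XT_lin Y T' S' xl' yl'
  have eJ1 : ∀ v, XX X T S (J v) = zd d • XX X T S v := fun v => by
    funext p; rw [hJ1, Pi.smul_apply, smul_eq_mul]
  have eJ2 : ∀ v, XT X T S (J v) = (-zd d) • XT X T S v := fun v => by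
    funext p; rw [hJ2, Pi.smul_apply, smul_eq_mul, neg_mul]
  have eY1 : ∀ v, XX Y T' S' (JY v) = (-zd d) • XX Y T' S' v := fun v => by
    funext p; rw [hY1, Pi.smul_apply, smul_eq_mul, neg_mul]
  have eY2 : ∀ v, XT Y T' S' (JY v) = zd d • XT Y T' S' v := fun v => by
    funext p; rw [hY2, Pi.smul_apply, smul_eq_mul]
  have eZ1 : ∀ v, cy Z S'' (JZ v) (Sum.inr (), ()) = zd d * cy Z S'' v (Sum.inr (), ()) :=
    fun v => hZ1 v (Sum.inr (), ())
  have eZ2 : ∀ v, cx Z T'' (JZ v) (Sum.inr (), ()) = -(zd d * cx Z T'' v (Sum.inr (), ())) :=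
    fun v => hZ2 v (Sum.inr (), ())
  refine ⟨?_, ?_, ?_, ?_, ?_, ?_, ?_⟩
  · intro v w l
    constructor
    · intro u u'
      simp only [Tcl, aX.map_add, bX.map_add, (wa _ _ _).1, TLin_bl_add]
      ring
    · intro c u
      simp only [Tcl, aX.map_smul, bX.map_smul, (ws _ _ _).1, TLin_bl_smul, smul_eq_mul]
      ring
  · intro u w l
    constructor
    · intro v v'
      simp only [Tcl, aX.map_add, bX.map_add, (wa _ _ _).2, TLin_bl_add]
      ring
    · intro c v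
      simp only [Tcl, aX.map_smul, bX.map_smul, (ws _ _ _).2, TLin_bl_smul, smul_eq_mul]
      ring
  · intro u v l
    constructor
    · intro w w'
      simp only [Tcl, aY.map_add, bY.map_add, TLin_bl_add']
      ring
    · intro c w
      simp only [Tcl, aY.map_smul, bY.map_smul, TLin_bl_smul', smul_eq_mul]
      ring
  · intro u v w
    constructor
    · intro l l'
      simp only [Tcl, xl''.map_add, yl''.map_add, Pi.add_apply]
      ring
    · intro c l
      simp only [Tcl, xl''.map_smul, yl''.map_smul, Pi.smul_apply, smul_eq_mul]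
      ring
  · intro u w l
    simp only [Tcl, wz, TLin_bl_zero]
    ring
  · intro u v w l
    refine ⟨?_, ?_, ?_⟩
    · simp only [Tcl, eJ1, eJ2, (ws _ _ _).1, (ws _ _ _).2]
    · simp only [Tcl, eJ1, eJ2, eY1, eY2, (ws _ _ _).1, TLin_bl_smul, TLin_bl_smul']
    · simp only [Tcl, eJ1, eJ2, eZ1, eZ2, (ws _ _ _).1, TLin_bl_smul]
      ring
  · intro w hw
    have hpi : (2 * (Real.pi : ℂ) * Complex.I) ^ 2 ≠ 0 := by
      have := Real.pi_ne_zero
      have h : (Real.pi : ℂ) ≠ 0 := by exact_mod_cast this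
      exact pow_ne_zero _ (mul_ne_zero (mul_ne_zero two_ne_zero h) Complex.I_ne_zero)
    have k1 : XT Y T' S' w = 0 := by
      refine wn _ fun A B => ?_
      obtain ⟨u, hu⟩ := TLin_XX_surj X T S xs A
      obtain ⟨v, hv⟩ := TLin_XX_surj X T S xs B
      obtain ⟨l, hl1, hl2⟩ := xs'' 0 1
      have := hw u v l
      simp only [Tcl, hu, hv, hl1, hl2, Pi.zero_apply, Pi.one_apply, zero_mul, mul_zero, sub_zero,
        one_mul] at this
      rcases mul_eq_zero.1 this with h | h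
      · exact absurd h hpi
      · exact (mul_eq_zero.1 h).resolve_left Complex.I_ne_zero
    have k2 : XX Y T' S' w = 0 := by
      refine wn _ fun A B => ?_
      obtain ⟨u, hu⟩ := TLin_XT_surj X T S xs A
      obtain ⟨v, hv⟩ := TLin_XT_surj X T S xs B
      obtain ⟨l, hl1, hl2⟩ := xs'' 1 0
      have := hw u v l
      simp only [Tcl, hu, hv, hl1, hl2, Pi.zero_apply, Pi.one_apply, zero_mul, mul_zero, zero_sub,
        one_mul] at this
      rcases mul_eq_zero.1 this with h | h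
      · exact absurd h hpi
      · exact (mul_eq_zero.1 (neg_eq_zero.1 h)).resolve_left Complex.I_ne_zero
    refine xi' w ?_ ?_
    · funext p
      rcases p with ⟨i | j, k⟩
      · exact congrFun k2 (Sum.inl i, k)
      · exact congrFun k1 (Sum.inr j, k)
    · funext p
      rcases p with ⟨i | j, k⟩
      · exact congrFun k1 (Sum.inl i, k)
      · exact congrFun k2 (Sum.inr j, k)

end DWY
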