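import Pool.Agent.DWY.StC
import Pool.Agent.GAM.Asm

/-!
# DWY: the abelian variety of a principal lattice with an operator
-/

set_option autoImplicit false
set_option linter.unusedSectionVars false

namespace DWY

open scoped ComplexConjugate
open GAM
open Pool.Agent.GPC (AbVar hermForm bilForm IsLattice IsAppellHumbert IsTheta IsProjEmbedding
  IsAlgebraicModel IsAlgQuadratic)

section AbVG

variable {ι : Type} [Fintype ι] [DecidableEq ι] {g : ℕ} (e : Fin g ≃ ι) (T S q : Matrix ι ι ℂ)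

/-- the linear map given by `T` -/
noncomputable def AbVG_R (z : Fin g → ℂ) : ι → ℂ := T.mulVec fun a => z (e.symm a)

lemma AbVG_R_eq (z : Fin g → ℂ) : AbVG_R e T z = T.mulVec (AbV_re e z) := rfl

lemma AbVG_R_add (z w : Fin g → ℂ) : AbVG_R e T (z + w) = AbVG_R e T z + AbVG_R e T w := by
  unfold AbVG_R
  rw [← Matrix.mulVec_add]
  rfl

lemma AbVG_R_smul (c : ℂ) (z : Fin g → ℂ) : AbVG_R e T (c • z) = c • AbVG_R e T z := by
  unfold AbVG_R
  rw [← Matrix.mulVec_smul]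
  rfl

lemma AbVG_R_sub (z w : Fin g → ℂ) : AbVG_R e T (z - w) = AbVG_R e T z - AbVG_R e T w := by
  unfold AbVG_R
  rw [← Matrix.mulVec_sub]
  rfl

variable {T S} in
lemma AbVG_inv (hST : S * T = 1) (z : Fin g → ℂ) (a : ι) :
    S.mulVec (AbVG_R e T z) a = z (e.symm a) := by
  unfold AbVG_R
  rw [Matrix.mulVec_mulVec, hST, Matrix.one_mulVec]

variable {T S} in
lemma AbVG_R_eq_zero (hST : S * T = 1) {z : Fin g → ℂ} (h : AbVG_R e T z = 0) : z = 0 := by
  funext j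
  have h1 := AbVG_inv e hST z (e j)
  rw [h, Matrix.mulVec_zero, Equiv.symm_apply_apply] at h1
  exact h1.symm

lemma AbVG_R_apply (z : Fin g → ℂ) (a : ι) : AbVG_R e T z a = ∑ j, T a (e j) * z j := by
  unfold AbVG_R Matrix.mulVec dotProduct
  rw [← e.sum_comp (fun b => T a b * z (e.symm b))]
  simp only [Equiv.symm_apply_apply]

/-- the Hermitian matrix -/
noncomputable def AbVG_H : Matrix (Fin g) (Fin g) ℂ :=
  Matrix.of fun j k => ∑ a, T a (e j) * conj (T a (e k))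

lemma AbVG_herm (z w : Fin g → ℂ) :
    hermForm (AbVG_H e T) z w = H (AbVG_R e T z) (AbVG_R e T w) := by
  unfold hermForm H AbVG_H
  have h1 : ∀ a, AbVG_R e T z a * conj (AbVG_R e T w a) =
      ∑ j, ∑ k, z j * (T a (e j) * conj (T a (e k))) * conj (w k) := by
    intro a
    rw [AbVG_R_apply, AbVG_R_apply, map_sum, Finset.sum_mul_sum]
    refine Finset.sum_congr rfl fun j _ => Finset.sum_congr rfl fun k _ => ?_
    rw [map_mul]
    ring
  simp only [h1, Matrix.of_apply]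
  conv_rhs => rw [Finset.sum_comm]
  refine Finset.sum_congr rfl fun j _ => ?_
  conv_rhs => rw [Finset.sum_comm]
  refine Finset.sum_congr rfl fun k _ => ?_
  rw [Finset.mul_sum, Finset.sum_mul]

/-- the matrix of the bilinear form -/
noncomputable def AbVG_q : Matrix (Fin g) (Fin g) ℂ := Matrix.of fun i j => q (e i) (e j)

lemma AbVG_bil (z w : Fin g → ℂ) : bilForm (AbVG_q e q) z w =
    ∑ a, ∑ b, q a b * AbV_re e z a * AbV_re e w b := by
  unfold bilForm AbVG_q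
  rw [← e.sum_comp (fun a => ∑ b, q a b * AbV_re e z a * AbV_re e w b)]
  refine Finset.sum_congr rfl fun i _ => ?_
  rw [← e.sum_comp (fun b => q (e i) b * AbV_re e z (e i) * AbV_re e w b)]
  refine Finset.sum_congr rfl fun j _ => ?_
  simp only [AbV_re_apply, Equiv.symm_apply_apply, Matrix.of_apply]
  ring

lemma AbVG_bil_add (hq : q.transpose = q) (z l : Fin g → ℂ) :
    1 / 2 * bilForm (AbVG_q e q) (z + l) (z + l) = 1 / 2 * bilForm (AbVG_q e q) z z +
      (bilForm (AbVG_q e q) z l + 1 / 2 * bilForm (AbVG_q e q) l l) := by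
  have h1 : bilForm (AbVG_q e q) l z = bilForm (AbVG_q e q) z l := by
    unfold bilForm AbVG_q
    rw [Finset.sum_comm]
    refine Finset.sum_congr rfl fun i _ => Finset.sum_congr rfl fun j _ => ?_
    have h2 : q (e j) (e i) = q (e i) (e j) := by
      conv_lhs => rw [← hq]
      rfl
    simp only [Matrix.of_apply, h2]
    ring
  have h2 : bilForm (AbVG_q e q) (z + l) (z + l) = bilForm (AbVG_q e q) z z +
      bilForm (AbVG_q e q) z l + (bilForm (AbVG_q e q) l z + bilForm (AbVG_q e q) l l) := by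
    unfold bilForm
    simp only [Pi.add_apply, ← Finset.sum_add_distrib]
    refine Finset.sum_congr rfl fun i _ => Finset.sum_congr rfl fun j _ => ?_
    ring
  rw [h2, h1]
  ring

/-- the multiplication by `N S` as linear equivalence -/
noncomputable def AbVG_T (hTS : T * S = 1) (hST : S * T = 1) (N : ℕ) (hN : N ≠ 0) :
    (ι → ℂ) ≃ₗ[ℂ] (Fin g → ℂ) where
  toFun l j := (N : ℂ) * S.mulVec l (e j)
  invFun z := (N : ℂ)⁻¹ • AbVG_R e T z
  map_add' l m := by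
    funext j
    rw [Matrix.mulVec_add]
    simp only [Pi.add_apply]
    ring
  map_smul' c l := by
    funext j
    rw [Matrix.mulVec_smul]
    simp only [Pi.smul_apply, smul_eq_mul, RingHom.id_apply]
    ring
  left_inv l := by
    have h2 : (N : ℂ) ≠ 0 := Nat.cast_ne_zero.mpr hN
    have h1 : AbVG_R e T (fun j => (N : ℂ) * S.mulVec l (e j)) = (N : ℂ) • l := by
      have h3 : (fun j => (N : ℂ) * S.mulVec l (e j)) = (N : ℂ) • fun j => S.mulVec l (e j) := rfl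
      rw [h3, AbVG_R_smul]
      congr 1
      unfold AbVG_R
      simp only [Equiv.apply_symm_apply]
      show T.mulVec (S.mulVec l) = l
      rw [Matrix.mulVec_mulVec, hTS, Matrix.one_mulVec]
    show (N : ℂ)⁻¹ • AbVG_R e T (fun j => (N : ℂ) * S.mulVec l (e j)) = l
    rw [h1, smul_smul, inv_mul_cancel₀ h2, one_smul]
  right_inv z := by
    funext j
    have h2 : (N : ℂ) ≠ 0 := Nat.cast_ne_zero.mpr hN
    show (N : ℂ) * S.mulVec ((N : ℂ)⁻¹ • AbVG_R e T z) (e j) = z j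
    rw [Matrix.mulVec_smul, Pi.smul_apply, AbVG_inv e hST, Equiv.symm_apply_apply, smul_eq_mul,
      ← mul_assoc, mul_inv_cancel₀ h2, one_mul]

/-- the lattice -/
noncomputable def AbVG_L (L : Submodule ℤ (ι → ℂ)) (hTS : T * S = 1) (hST : S * T = 1) (N : ℕ)
    (hN : N ≠ 0) : Submodule ℤ (Fin g → ℂ) :=
  L.map ((AbVG_T e T S hTS hST N hN).toLinearMap.restrictScalars ℤ)

lemma AbVG_mem (L : Submodule ℤ (ι → ℂ)) (hTS : T * S = 1) (hST : S * T = 1) (N : ℕ)
    (hN : N ≠ 0) (z : Fin g → ℂ) : z ∈ AbVG_L e T S L hTS hST N hN ↔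
      ∃ l ∈ L, ∀ j, z j = (N : ℂ) * S.mulVec l (e j) := by
  unfold AbVG_L
  rw [Submodule.mem_map]
  constructor
  · rintro ⟨l, hl, rfl⟩
    exact ⟨l, hl, fun j => rfl⟩
  · rintro ⟨l, hl, h⟩
    exact ⟨l, hl, funext fun j => (h j).symm⟩

lemma AbVG_R_mem {L : Submodule ℤ (ι → ℂ)} (hTS : T * S = 1) (hST : S * T = 1) {N : ℕ}
    (hN : N ≠ 0) {z : Fin g → ℂ} (hz : z ∈ AbVG_L e T S L hTS hST N hN) :
    ∃ l ∈ L, AbVG_R e T z = (N : ℤ) • l := by
  obtain ⟨l, hl, h⟩ := (AbVG_mem e T S L hTS hST N hN z).mp hz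
  refine ⟨l, hl, ?_⟩
  have h3 : z = (N : ℂ) • fun j => S.mulVec l (e j) := funext h
  rw [h3, AbVG_R_smul]
  have h4 : AbVG_R e T (fun j => S.mulVec l (e j)) = l := by
    unfold AbVG_R
    simp only [Equiv.apply_symm_apply]
    show T.mulVec (S.mulVec l) = l
    rw [Matrix.mulVec_mulVec, hTS, Matrix.one_mulVec]
  rw [h4]
  funext a
  simp only [Pi.smul_apply, smul_eq_mul, zsmul_eq_mul, Int.cast_natCast]

lemma AbVG_mem_of_R {L : Submodule ℤ (ι → ℂ)} (hTS : T * S = 1) (hST : S * T = 1) {N : ℕ}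
    (hN : N ≠ 0) {z : Fin g → ℂ} {l : ι → ℂ} (hl : l ∈ L)
    (h : AbVG_R e T z = (N : ℤ) • l) : z ∈ AbVG_L e T S L hTS hST N hN := by
  rw [AbVG_mem]
  refine ⟨l, hl, fun j => ?_⟩
  have h1 := AbVG_inv e hST z (e j)
  have h2 : (N : ℤ) • l = (N : ℂ) • l := by
    funext a
    simp only [Pi.smul_apply, smul_eq_mul, zsmul_eq_mul, Int.cast_natCast]
  rw [h, h2, Matrix.mulVec_smul, Pi.smul_apply, smul_eq_mul, Equiv.symm_apply_apply] at h1
  exact h1.symm

lemma AbVG_lattice {L : Submodule ℤ (ι → ℂ)} (hL : IsLat L) (hTS : T * S = 1)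
    (hST : S * T = 1) {N : ℕ} (hN : N ≠ 0) : IsLattice (AbVG_L e T S L hTS hST N hN) := by
  obtain ⟨b, hb⟩ := hL
  have h1 : AbVG_L e T S L hTS hST N hN = Submodule.span ℤ
      (Set.range (b.map ((AbVG_T e T S hTS hST N hN).restrictScalars ℝ))) := by
    unfold AbVG_L
    rw [hb, Submodule.map_span, ← Set.range_comp]
    congr 2
  rw [h1]
  exact ⟨inferInstance, Submodule.eq_top_iff'.mpr fun x => by
    have h := ZSpan.span_top (b.map ((AbVG_T e T S hTS hST N hN).restrictScalars ℝ))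
    rw [h]; exact Submodule.mem_top⟩

/-- the character -/
noncomputable def AbVG_chi (χ : (ι → ℂ) → ℂ) (z : Fin g → ℂ) : ℂ := χ (AbVG_R e T z)

lemma AbVG_ah {L : Submodule ℤ (ι → ℂ)} {χ : (ι → ℂ) → ℂ} (hP : PLat L χ) (hTS : T * S = 1)
    (hST : S * T = 1) {N : ℕ} (hN : N ≠ 0) :
    IsAppellHumbert (AbVG_L e T S L hTS hST N hN) (AbVG_H e T) (AbVG_chi e T χ) where
  herm := by
    unfold AbVG_H
    rw [Matrix.IsHermitian]
    ext j k
    rw [Matrix.conjTranspose_apply, Matrix.of_apply, Matrix.of_apply, Complex.star_def, map_sum]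
    refine Finset.sum_congr rfl fun a _ => ?_
    rw [map_mul, Complex.conj_conj, mul_comm]
  pos z hz := by
    rw [AbVG_herm]
    rcases (H_self_nonneg (AbVG_R e T z)).lt_or_eq with h | h
    · exact h
    · exact absurd (AbVG_R_eq_zero e hST (H_self_eq_zero h.symm)) hz
  integral l hl m hm := by
    obtain ⟨l', hl', h1⟩ := AbVG_R_mem e T S hTS hST hN hl
    obtain ⟨m', hm', h2⟩ := AbVG_R_mem e T S hTS hST hN hm
    rw [AbVG_herm, h1, h2]
    exact hP.int _ (L.smul_mem _ hl') _ (L.smul_mem _ hm')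
  norm l hl := by
    obtain ⟨l', hl', h1⟩ := AbVG_R_mem e T S hTS hST hN hl
    unfold AbVG_chi
    rw [h1]
    exact hP.chi_norm (L.smul_mem _ hl')
  add l hl m hm := by
    obtain ⟨l', hl', h1⟩ := AbVG_R_mem e T S hTS hST hN hl
    obtain ⟨m', hm', h2⟩ := AbVG_R_mem e T S hTS hST hN hm
    unfold AbVG_chi
    rw [AbVG_herm, AbVG_R_add, h1, h2]
    exact hP.add _ (L.smul_mem _ hl') _ (L.smul_mem _ hm')

variable (θ : (ι → ℂ) → ℂ) (y : ι → ℂ)

/-- the exponential factor -/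
noncomputable def AbVG_E (z : Fin g → ℂ) : ℂ := Complex.exp (1 / 2 * bilForm (AbVG_q e q) z z)

/-- the theta functions -/
noncomputable def AbVG_th (x : ι → ℂ) (z : Fin g → ℂ) : ℂ := Tg θ T q y x (AbV_re e z)

lemma AbVG_th_apply (x : ι → ℂ) (z : Fin g → ℂ) :
    AbVG_th e T q θ y x z = AbVG_E e q z * F θ x (AbVG_R e T z) / F θ y 0 := by
  unfold AbVG_th Tg AbVG_E
  rw [AbVG_bil, AbVG_R_eq]

lemma AbVG_E_ne (z : Fin g → ℂ) : AbVG_E e q z ≠ 0 := Complex.exp_ne_zero _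

lemma AbVG_th_ne (hy : F θ y 0 ≠ 0) (x : ι → ℂ) (z : Fin g → ℂ) :
    AbVG_th e T q θ y x z ≠ 0 ↔ F θ x (AbVG_R e T z) ≠ 0 := by
  rw [AbVG_th_apply, div_ne_zero_iff, mul_ne_zero_iff]
  exact ⟨fun h => h.1.2, fun h => ⟨⟨AbVG_E_ne e q z, h⟩, hy⟩⟩

lemma AbVG_E_diff : Differentiable ℂ (AbVG_E e q : (Fin g → ℂ) → ℂ) := by
  unfold AbVG_E bilForm
  fun_prop

/-- the linear map `z ↦ T z` -/
noncomputable def AbVG_RL : (Fin g → ℂ) →ₗ[ℂ] (ι → ℂ) where
  toFun := AbVG_R e T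
  map_add' := AbVG_R_add e T
  map_smul' := AbVG_R_smul e T

lemma AbVG_R_diff : Differentiable ℂ (AbVG_R e T : (Fin g → ℂ) → ι → ℂ) :=
  (LinearMap.toContinuousLinearMap (AbVG_RL e T)).differentiable

lemma AbVG_theta (hq : q.transpose = q) {L : Submodule ℤ (ι → ℂ)} {χ : (ι → ℂ) → ℂ}
    (hP : PLat L χ) (hT : IsTh L χ θ) (hTS : T * S = 1) (hST : S * T = 1) {N : ℕ} (hN : N ≠ 0)
    {x : ι → ℂ} (hx : (N : ℤ) • x ∈ L) :
    IsTheta (AbVG_L e T S L hTS hST N hN) (AbVG_H e T) (AbVG_chi e T χ) (AbVG_q e q)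
      (AbVG_th e T q θ y x) where
  entire := by
    have h1 : Differentiable ℂ (AbVG_th e T q θ y x) := by
      have h2 : Differentiable ℂ fun z => F θ x (AbVG_R e T z) :=
        (F_differentiable hT x).comp (AbVG_R_diff e T)
      have h3 : AbVG_th e T q θ y x =
          fun z => AbVG_E e q z * F θ x (AbVG_R e T z) * (F θ y 0)⁻¹ := by
        funext z
        rw [AbVG_th_apply, div_eq_mul_inv]
      rw [h3]
      exact ((AbVG_E_diff e q).mul h2).mul_const _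
    exact thm_Hol (Fin g) Set.univ _ isOpen_univ h1.differentiableOn
  quasi l hl z := by
    obtain ⟨l', hl', h1⟩ := AbVG_R_mem e T S hTS hST hN hl
    rw [AbVG_th_apply, AbVG_th_apply, AbVG_R_add, AbVG_herm, AbVG_herm, h1,
      F_quasi hT (L.smul_mem _ hl')]
    have h2 : E x ((N : ℤ) • l') = E ((N : ℤ) • x) l' := by
      rw [E_zsmul_left, E_zsmul_right]
    rw [h2, exp_two_pi_int (hP.int _ hx _ hl')]
    have h3 : AbVG_E e q (z + l) = AbVG_E e q z *
        Complex.exp (bilForm (AbVG_q e q) z l + 1 / 2 * bilForm (AbVG_q e q) l l) := by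
      unfold AbVG_E
      rw [AbVG_bil_add e q hq, Complex.exp_add]
    unfold AbVG_chi
    rw [h1, h3, mul_one, add_assoc (Real.pi * H (AbVG_R e T z) ((N : ℤ) • l') +
      Real.pi / 2 * H ((N : ℤ) • l') ((N : ℤ) • l')), Complex.exp_add (Real.pi *
      H (AbVG_R e T z) ((N : ℤ) • l') + Real.pi / 2 * H ((N : ℤ) • l') ((N : ℤ) • l'))]
    ring

lemma AbVG_fderiv {L : Submodule ℤ (ι → ℂ)} {χ : (ι → ℂ) → ℂ} (hT : IsTh L χ θ) (x : ι → ℂ)
    (z v : Fin g → ℂ) : ∑ a, v a * Pool.Agent.GPC.pd a (AbVG_th e T q θ y x) z =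
      (fderiv ℂ (AbVG_E e q) z v * F θ x (AbVG_R e T z) +
        AbVG_E e q z * dd (AbVG_R e T v) (F θ x) (AbVG_R e T z)) / F θ y 0 := by
  have h1 : HasFDerivAt (AbVG_R e T) (LinearMap.toContinuousLinearMap (AbVG_RL e T)) z :=
    (LinearMap.toContinuousLinearMap (AbVG_RL e T)).hasFDerivAt
  have h2 := (F_differentiable hT x (AbVG_R e T z)).hasFDerivAt.comp z h1
  have h2' := (AbVG_E_diff e q z).hasFDerivAt.mul h2
  have h4 := h2'.const_mul (F θ y 0)⁻¹
  have h5 : AbVG_th e T q θ y x =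
      fun z => (F θ y 0)⁻¹ * (AbVG_E e q z * (F θ x ∘ AbVG_R e T) z) := by
    funext z
    rw [AbVG_th_apply, div_eq_mul_inv, mul_comm]
    rfl
  have h3 : HasFDerivAt (AbVG_th e T q θ y x) ((F θ y 0)⁻¹ • (AbVG_E e q z •
      (fderiv ℂ (F θ x) (AbVG_R e T z)).comp (LinearMap.toContinuousLinearMap (AbVG_RL e T)) +
      (F θ x ∘ AbVG_R e T) z • fderiv ℂ (AbVG_E e q) z)) z := by
    rw [h5]
    exact h4
  have h6 : ∀ a, Pool.Agent.GPC.pd a (AbVG_th e T q θ y x) z =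
      fderiv ℂ (AbVG_th e T q θ y x) z (Pi.single a 1) := fun a => rfl
  have h7 : ∑ a, v a * fderiv ℂ (AbVG_th e T q θ y x) z (Pi.single a 1) =
      fderiv ℂ (AbVG_th e T q θ y x) z v := by
    conv_rhs => rw [pi_eq_sum_univ' v]
    rw [map_sum]
    refine Finset.sum_congr rfl fun a _ => ?_
    rw [map_smul, smul_eq_mul]
  simp only [h6]
  rw [h7, h3.fderiv]
  show (F θ y 0)⁻¹ * (AbVG_E e q z * (fderiv ℂ (F θ x) (AbVG_R e T z)) (AbVG_R e T v) +
    F θ x (AbVG_R e T z) * fderiv ℂ (AbVG_E e q) z v) = _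
  unfold dd
  rw [div_eq_mul_inv]
  ring

lemma AbVG_emb (hS : St_Sep) (hIA : St_ImA) (hIB : St_ImB) {L : Submodule ℤ (ι → ℂ)}
    {χ : (ι → ℂ) → ℂ} {θ : (ι → ℂ) → ℂ} {y : ι → ℂ} (hP : PLat L χ)
    (hT : IsTh L χ θ) (hne : ∃ v, θ v ≠ 0) (hTS : T * S = 1) (hST : S * T = 1) {N : ℕ}
    (hN : N ≠ 0) (hG : GoodN L θ N) {r : ℕ} {c : Fin (r + 1) → ι → ℂ}
    {κ : Fin (r + 1) → (ι → ℂ) → ℂ} (hL : LinN L θ N r c κ) (hy : F θ y 0 ≠ 0) {M : ℕ}
    {X : Fin (M + 1) → ι → ℂ} (hX : AbV_Rep L N M X) :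
    IsProjEmbedding (AbVG_L e T S L hTS hST N hN) (fun k => AbVG_th e T q θ y (X k)) where
  base_free z := by
    obtain ⟨x, hx, h1⟩ := hG.pt (AbVG_R e T z)
    obtain ⟨j, hj⟩ := hX.ex x hx
    obtain ⟨u, hu, h2⟩ := AbV_unit hP hT hj
    refine ⟨j, (AbVG_th_ne e T q θ y hy _ _).mpr fun h => ?_⟩
    apply (F_ne_iff θ x (AbVG_R e T z)).mpr h1
    rw [h2, h, mul_zero]
  separates z w h := by
    have h1 : ∀ i j, F θ (X i) (AbVG_R e T z) * F θ (X j) (AbVG_R e T w) =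
        F θ (X j) (AbVG_R e T z) * F θ (X i) (AbVG_R e T w) := by
      intro i j
      have h2 := h i j
      simp only [AbVG_th_apply] at h2
      have h3 := AbVG_E_ne e q z
      have h4 := AbVG_E_ne e q w
      have h5 : (AbVG_E e q z * AbVG_E e q w / (F θ y 0 * F θ y 0)) *
          (F θ (X i) (AbVG_R e T z) * F θ (X j) (AbVG_R e T w) -
            F θ (X j) (AbVG_R e T z) * F θ (X i) (AbVG_R e T w)) = 0 := by
        linear_combination h2
      have h6 : AbVG_E e q z * AbVG_E e q w / (F θ y 0 * F θ y 0) ≠ 0 :=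
        div_ne_zero (mul_ne_zero h3 h4) (mul_ne_zero hy hy)
      exact sub_eq_zero.1 ((mul_eq_zero.1 h5).resolve_left h6)
    obtain ⟨m, hm, h3⟩ := hS ι L χ θ N r c κ (AbVG_R e T z) (AbVG_R e T w) hP hT hne hG hL (by
      intro x x' hx hx'
      obtain ⟨i, hi⟩ := hX.ex x hx
      obtain ⟨j, hj⟩ := hX.ex x' hx'
      obtain ⟨u, -, hu⟩ := AbV_unit hP hT hi
      obtain ⟨u', -, hu'⟩ := AbV_unit hP hT hj
      rw [hu, hu', hu, hu']
      linear_combination (u * u') * h1 i j)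
    rw [← AbVG_R_sub] at h3
    exact AbVG_mem_of_R e T S hTS hST hN hm h3
  immersive z v h := by
    have h1 : ∀ i j, F θ (X i) (AbVG_R e T z) * dd (AbVG_R e T v) (F θ (X j)) (AbVG_R e T z) =
        F θ (X j) (AbVG_R e T z) * dd (AbVG_R e T v) (F θ (X i)) (AbVG_R e T z) := by
      intro i j
      have h2 := h i j
      rw [AbVG_fderiv e T q θ y hT, AbVG_fderiv e T q θ y hT] at h2
      simp only [AbVG_th_apply] at h2
      have h3 := AbVG_E_ne e q z
      have h5 : (AbVG_E e q z * AbVG_E e q z / (F θ y 0 * F θ y 0)) *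
          (F θ (X i) (AbVG_R e T z) * dd (AbVG_R e T v) (F θ (X j)) (AbVG_R e T z) -
            F θ (X j) (AbVG_R e T z) * dd (AbVG_R e T v) (F θ (X i)) (AbVG_R e T z)) = 0 := by
        linear_combination h2
      have h6 : AbVG_E e q z * AbVG_E e q z / (F θ y 0 * F θ y 0) ≠ 0 :=
        div_ne_zero (mul_ne_zero h3 h3) (mul_ne_zero hy hy)
      exact sub_eq_zero.1 ((mul_eq_zero.1 h5).resolve_left h6)
    obtain ⟨x₀, hx₀, h3⟩ := hG.pt (AbVG_R e T z)
    obtain ⟨i, hi⟩ := hX.ex x₀ hx₀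
    obtain ⟨u, hu0, hu⟩ := AbV_unit hP hT hi
    have h4 : F θ (X i) (AbVG_R e T z) ≠ 0 := fun h => by
      apply (F_ne_iff θ x₀ (AbVG_R e T z)).mpr h3
      rw [hu, h, mul_zero]
    obtain ⟨η, hη, h5⟩ := hIA ι L χ θ N r c κ (AbVG_R e T z) (AbVG_R e T v)
      (dd (AbVG_R e T v) (F θ (X i)) (AbVG_R e T z) / F θ (X i) (AbVG_R e T z)) hP hT hne hG
        hL (by
      intro x hx
      obtain ⟨j, hj⟩ := hX.ex x hx
      obtain ⟨u, -, hu, hu'⟩ := AbV_unit_dd hP hT hj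
      rw [hu, hu']
      have h6 := h1 i j
      field_simp
      linear_combination u * h6)
    exact AbVG_R_eq_zero e hST (hIB ι L χ θ _ η hP hT hne hη h5)

lemma AbVG_alg (hQ : St_QuaG) {L : Submodule ℤ (ι → ℂ)}
    {χ : (ι → ℂ) → ℂ} {θ : (ι → ℂ) → ℂ} {T S q : Matrix ι ι ℂ} {y : ι → ℂ} (hP : PLat L χ)
    (hT : IsTh L χ θ) (hne : ∃ v, θ v ≠ 0) (hn : NormG L θ T S q y) {N : ℕ}
    (hG : GoodN L θ N) {r : ℕ} {c : Fin (r + 1) → ι → ℂ} {κ : Fin (r + 1) → (ι → ℂ) → ℂ}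
    {κ₁ : ι → Fin (r + 1) → (ι → ℂ) → ℂ} {κ₂ : ι → ι → Fin (r + 1) → ℂ}
    (hL : LinN L θ N r c κ)
    (hW : ∀ a σ ρ v, pd a (F θ (σ + ρ)) v * F θ (σ - ρ) v - F θ (σ + ρ) v * pd a (F θ (σ - ρ)) v =
      ∑ i, κ₁ a i ρ * (F θ (σ + c i) v * F θ (σ - c i) v))
    (hH : ∀ a b σ v, F θ σ v * pd a (pd b (F θ σ)) v - pd a (F θ σ) v * pd b (F θ σ) v =
      ∑ i, κ₂ a b i * (F θ (σ + c i) v * F θ (σ - c i) v))
    {M : ℕ} {X : Fin (M + 1) → ι → ℂ} (hX : AbV_Rep L N M X) :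
    IsAlgebraicModel (fun k => AbVG_th e T q θ y (X k)) := by
  obtain ⟨h1, h2⟩ := hQ ι L χ θ T S q y N r c κ κ₁ κ₂ M X hP hT hne hn hG hL hW hH hX.mem hX.ex
  have hp : ∀ (f : (ι → ℂ) → ℂ) (j : Fin g), Pool.Agent.GPC.pd j (fun z => f (AbV_re e z)) =
      fun z => pd (e j) f (AbV_re e z) := fun f j => AbV_pd e j f
  have hth : ∀ k, AbVG_th e T q θ y (X k) = fun z => Tg θ T q y (X k) (AbV_re e z) :=
    fun k => rfl
  refine ⟨fun a i j => ?_, fun a b i => ?_, fun i j hi => ?_⟩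
  · obtain ⟨Q, hQ1, hQ2⟩ := h1 (e a) i j
    refine ⟨Q, hQ1, fun z => ?_⟩
    simp only [hth, hp]
    exact hQ2 _
  · obtain ⟨Q, hQ1, hQ2⟩ := h2 (e a) (e b) i
    refine ⟨Q, hQ1, fun z => ?_⟩
    simp only [hth, hp]
    exact hQ2 _
  · have h3 : ∀ k, IsAlgebraic ℚ (AbVG_th e T q θ y (X k) 0) := by
      intro k
      rw [thm_Der]
      intro δ
      have hX' : OddTor L (X k) := ⟨N, hG.odd, hX.mem k⟩
      have h4 := (hn.del δ (X k) hX').del []
      have h5 : AbVG_th e T q θ y (X k) 0 = Tg θ T q y (X k) 0 := by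
        rw [hth]
        show Tg θ T q y (X k) (AbV_re e 0) = _
        rw [map_zero]
      rw [h5]
      exact h4.symm
    exact (h3 j).mul (h3 i).inv

end AbVG

theorem thm_AbVG (h1 : St_NorG) (h2 : St_QuaG) : St_AbVG := by
  intro ι _ _ L χ θ T S q k hP hT hne hTS hq hgop
  obtain ⟨r, c, κ, κ₁, κ₂, -, hc, -, -, hind, hlin, hW, hH⟩ := All.Add_ ι L χ θ hP hT hne
  obtain ⟨N₀, hN₀⟩ := All.GNex_ ι L χ θ hP hT hne
  obtain ⟨y, hn⟩ := h1 ι L χ θ T S q k hP hT hne hTS hq hgop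
  obtain ⟨n, hn1, hn2⟩ := exists_common_order c hc
  obtain ⟨N, hNdef⟩ : ∃ N, N = n * (2 * N₀ + 1) := ⟨_, rfl⟩
  have hST : S * T = 1 := mul_eq_one_comm.1 hTS
  have hodd : Odd N := by rw [hNdef]; exact hn1.mul (odd_two_mul_add_one _)
  have hN : N ≠ 0 := fun h => by rw [h] at hodd; simp at hodd
  have hge : N₀ ≤ N := by
    have h1 : 1 ≤ n := hn1.pos
    nlinarith
  have hG := hN₀ N hge hodd
  have hL : LinN L θ N r c κ := ⟨fun i => by rw [hNdef]; exact oddTor_mul (hn2 i) _, hind, hlin⟩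
  obtain ⟨M, X, hX1, hX2⟩ := All.Rep_ ι L N hP.lat hN
  have hX : AbV_Rep L N M X := ⟨hX1, hX2⟩
  let e : Fin (Fintype.card ι) ≃ ι := (Fintype.equivFin ι).symm
  let V : AbVar :=
    { g := Fintype.card ι
      N := M
      Λ := AbVG_L e T S L hTS hST N hN
      lattice := AbVG_lattice e T S hP.lat hTS hST hN
      H := AbVG_H e T
      χ := AbVG_chi e T χ
      appellHumbert := AbVG_ah e T S hP hTS hST hN
      q := AbVG_q e q
      q_symm := by
        unfold Matrix.IsSymm AbVG_q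
        ext i j
        rw [Matrix.transpose_apply, Matrix.of_apply, Matrix.of_apply]
        conv_lhs => rw [← hq]
        rfl
      θ := fun k => AbVG_th e T q θ y (X k)
      theta := fun k => AbVG_theta e T S q θ y hq hP hT hTS hST hN (hX1 k)
      embedding := AbVG_emb e T S q All.Sep_ All.ImA_ All.ImB_ hP hT hne hTS hST hN hG hL hn.ney
        hX
      algebraic := AbVG_alg e h2 hP hT hne hn hG hL hW hH hX }
  exact ⟨V, e, N, hTS, hN, fun z => AbVG_mem e T S L hTS hST N hN z,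
    fun z w => AbVG_herm e T z w, fun i j => rfl⟩

end DWY
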