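import Pool.Agent.DWY.StA

/-!
# DWY, module C2k: the block form of the operator of the second order
-/

set_option autoImplicit false

namespace DWY

open scoped ComplexConjugate
open GAM (H E F pd pdl PLat IsTh OddTor IsDel Gro IsLat Pre)
open PST DWC

/-- a real linear functional that vanishes on a lattice -/
private theorem C2k_lin {ι : Type} [Fintype ι] [DecidableEq ι] (L : Submodule ℤ (ι → ℂ))
    (hL : IsLat L) (p q : ι → ℂ)
    (h : ∀ l ∈ L, ∑ i, p i * l i + ∑ i, q i * conj (l i) = 0) (i : ι) : p i = 0 ∧ q i = 0 := by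
  obtain ⟨b, hb⟩ := hL
  have hbL : ∀ i, b i ∈ L := fun i => by rw [hb]; exact Submodule.subset_span ⟨i, rfl⟩
  have hall : ∀ v : ι → ℂ, ∑ i, p i * v i + ∑ i, q i * conj (v i) = 0 := by
    intro v
    have hv : v ∈ Submodule.span ℝ (Set.range b) := by
      rw [b.span_eq]
      exact Submodule.mem_top
    induction hv using Submodule.span_induction with
    | mem x hx => obtain ⟨i, rfl⟩ := hx; exact h _ (hbL i)
    | zero => simp
    | add x y _ _ hx hy =>
      simp only [Pi.add_apply, map_add, mul_add, Finset.sum_add_distrib] at hx hy ⊢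
      linear_combination hx + hy
    | smul r x _ hx =>
      have e1 : ∑ i, p i * (r • x) i = r * ∑ i, p i * x i := by
        rw [Finset.mul_sum]
        refine Finset.sum_congr rfl fun j _ => ?_
        rw [Pi.smul_apply, Complex.real_smul]
        ring
      have e2 : ∑ i, q i * conj ((r • x) i) = r * ∑ i, q i * conj (x i) := by
        rw [Finset.mul_sum]
        refine Finset.sum_congr rfl fun j _ => ?_
        rw [Pi.smul_apply, Complex.real_smul, map_mul, Complex.conj_ofReal]
        ring
      rw [e1, e2]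
      linear_combination (r : ℂ) * hx
  have sgl : ∀ (u : ι → ℂ) (j : ι) (z : ℂ), ∑ i, u i * (Pi.single j z : ι → ℂ) i = u j * z := by
    intro u j z
    rw [Finset.sum_eq_single j]
    · rw [Pi.single_eq_same]
    · intro i _ hi
      rw [Pi.single_eq_of_ne hi, mul_zero]
    · intro hk
      exact absurd (Finset.mem_univ j) hk
  have sglc : ∀ (u : ι → ℂ) (j : ι) (z : ℂ), ∑ i, u i * conj ((Pi.single j z : ι → ℂ) i) =
      u j * conj z := by
    intro u j z
    rw [Finset.sum_eq_single j]
    · rw [Pi.single_eq_same]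
    · intro i _ hi
      rw [Pi.single_eq_of_ne hi, map_zero, mul_zero]
    · intro hk
      exact absurd (Finset.mem_univ j) hk
  have h1 := hall (Pi.single i 1)
  have h2 := hall (Pi.single i Complex.I)
  rw [sgl, sglc, map_one] at h1
  rw [sgl, sglc, Complex.conj_I] at h2
  have hI : Complex.I ≠ 0 := Complex.I_ne_zero
  have h3 : Complex.I * (p i - q i) = 0 := by linear_combination h2
  have h4 : p i - q i = 0 := (mul_eq_zero.1 h3).resolve_left hI
  constructor
  · linear_combination (1 / 2 : ℂ) * h1 + (1 / 2 : ℂ) * h4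
  · linear_combination (1 / 2 : ℂ) * h1 - (1 / 2 : ℂ) * h4

/-- the diagonal matrix of the action of `N i √d` -/
private noncomputable def C2k_s {α β : Type} (z : ℂ) : Ix α β Unit → ℂ := fun p =>
  Sum.elim (fun _ => z) (fun _ => conj z) p.1

private theorem C2k_act {α β : Type} [Fintype α] [Fintype β] [DecidableEq α] [DecidableEq β]
    (z : ℂ) (x : Ix α β Unit → ℂ) :
    act (z • (1 : Matrix (α ⊕ β) (α ⊕ β) ℂ)) x = fun a => C2k_s z a * x a := by
  funext p
  obtain ⟨p, u⟩ := p
  have hm : ∀ X : Ix α β Unit → ℂ, mu (z • (1 : Matrix (α ⊕ β) (α ⊕ β) ℂ)) X (p, u) = z * X (p, u) := by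
    intro X
    simp only [mu, Matrix.smul_apply, smul_eq_mul, Matrix.one_apply]
    rw [Finset.sum_eq_single p]
    · simp
    · intro b _ hb
      simp [Ne.symm hb]
    · intro hk
      exact absurd (Finset.mem_univ p) hk
  rcases p with i | j
  · have := hm (sw x)
    simp only [act, sw, C2k_s, Sum.elim_inl] at this ⊢
    exact this
  · have := hm (sw x)
    simp only [act, sw, C2k_s, Sum.elim_inr] at this ⊢
    rw [this, map_mul, Complex.conj_conj]

theorem thm_C2k : St_C2k := by
  intro α β _ _ _ _ d N L B C D ld bt hd hN hL hKL hform hC hD hs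
  set z : ℂ := (N : ℂ) * zd d with hz
  have hzsq : z ^ 2 = -((N : ℂ) ^ 2 * (d : ℂ)) := by
    have hd0 : (0 : ℝ) ≤ (d : ℝ) := by exact_mod_cast hd.le
    have e : ((Real.sqrt (d : ℝ) : ℝ) : ℂ) ^ 2 = (d : ℂ) := by
      rw [← Complex.ofReal_pow, Real.sq_sqrt hd0]
      simp
    rw [hz]
    unfold zd
    rw [mul_pow, mul_pow, Complex.I_sq, e]
    ring
  have hdC : (d : ℂ) ≠ 0 := by exact_mod_cast hd.ne'
  have hNC : (N : ℂ) ≠ 0 := by exact_mod_cast hN
  have hz0 : z ≠ 0 := by
    intro h0
    rw [h0] at hzsq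
    have : (N : ℂ) ^ 2 * (d : ℂ) = 0 := by linear_combination hzsq
    exact mul_ne_zero (pow_ne_zero 2 hNC) hdC this
  have hzc : conj z = -z := by
    rw [hz]
    unfold zd
    rw [map_mul, map_mul, Complex.conj_I, Complex.conj_ofReal, map_natCast]
    ring
  have hzalg : IsAlgebraic ℚ z := by
    refine IsAlgebraic.of_pow (n := 2) (by norm_num) ?_
    rw [hzsq]
    have : -((N : ℂ) ^ 2 * (d : ℂ)) = algebraMap ℚ ℂ (-((N : ℚ) ^ 2 * d)) := by
      simp
    rw [this]
    exact isAlgebraic_algebraMap _
  have hsinl : ∀ (i : α) (u : Unit), (C2k_s z : Ix α β Unit → ℂ) (Sum.inl i, u) = z := fun _ _ => rfl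
  have hsinr : ∀ (j : β) (u : Unit), (C2k_s z : Ix α β Unit → ℂ) (Sum.inr j, u) = -z :=
    fun _ _ => hzc
  have hS := hs (C2k_s z)
    (by
      rintro ⟨a | a, u⟩
      · rw [hsinl]; exact hzalg
      · rw [hsinr]; exact hzalg.neg)
    (by
      rintro ⟨a | a, u⟩
      · rw [hsinl]; exact hz0
      · rw [hsinr]; exact neg_ne_zero.2 hz0)
    (by
      intro l hl
      have := hKL l hl
      unfold kap at this
      rwa [← hz, C2k_act] at this)
  have hLs : ∀ l ∈ L, (fun a => C2k_s z a * l a) ∈ L := by
    intro l hl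
    have := hKL l hl
    unfold kap at this
    rwa [← hz, C2k_act] at this
  have hB : ∀ j i, B j i * C2k_s z i - C2k_s z j * B j i = 0 ∧
      D j i * conj (C2k_s z i) - C2k_s z j * D j i = 0 := by
    intro j
    refine C2k_lin L hL (fun i => B j i * C2k_s z i - C2k_s z j * B j i)
      (fun i => D j i * conj (C2k_s z i) - C2k_s z j * D j i) ?_
    intro l hl
    have h1 := (hS l hl j).1
    rw [(hform _ (hLs l hl)).1 j, (hform l hl).1 j] at h1
    simp only [map_mul] at h1
    have e1 : ∑ i, (B j i * C2k_s z i - C2k_s z j * B j i) * l i =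
        ∑ i, B j i * (C2k_s z i * l i) - C2k_s z j * ∑ i, B j i * l i := by
      rw [Finset.mul_sum, ← Finset.sum_sub_distrib]
      exact Finset.sum_congr rfl fun i _ => by ring
    have e2 : ∑ i, (D j i * conj (C2k_s z i) - C2k_s z j * D j i) * conj (l i) =
        ∑ i, D j i * (conj (C2k_s z i) * conj (l i)) - C2k_s z j * ∑ i, D j i * conj (l i) := by
      rw [Finset.mul_sum, ← Finset.sum_sub_distrib]
      exact Finset.sum_congr rfl fun i _ => by ring
    rw [e1, e2]
    linear_combination h1
  have hCC : ∀ j i, C j i * C2k_s z i - conj (C2k_s z j) * C j i = 0 := by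
    intro j i
    refine (C2k_lin L hL (fun i => C j i * C2k_s z i - conj (C2k_s z j) * C j i)
      (fun i => Real.pi * (B i j * conj (C2k_s z i) - conj (C2k_s z j) * B i j)) ?_ i).1
    intro l hl
    have h1 := (hS l hl j).2
    rw [(hform _ (hLs l hl)).2 j, (hform l hl).2 j] at h1
    simp only [map_mul] at h1
    have e1 : ∑ i, (C j i * C2k_s z i - conj (C2k_s z j) * C j i) * l i =
        ∑ i, C j i * (C2k_s z i * l i) - conj (C2k_s z j) * ∑ i, C j i * l i := by
      rw [Finset.mul_sum, ← Finset.sum_sub_distrib]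
      exact Finset.sum_congr rfl fun i _ => by ring
    have e2 : ∑ i, (Real.pi * (B i j * conj (C2k_s z i) - conj (C2k_s z j) * B i j)) * conj (l i) =
        Real.pi * ∑ i, B i j * (conj (C2k_s z i) * conj (l i)) -
          conj (C2k_s z j) * (Real.pi * ∑ i, B i j * conj (l i)) := by
      rw [Finset.mul_sum, Finset.mul_sum, Finset.mul_sum, ← Finset.sum_sub_distrib]
      exact Finset.sum_congr rfl fun i _ => by ring
    rw [e1, e2]
    linear_combination h1
  have key : ∀ w : ℂ, z * w + z * w = 0 → w = 0 := by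
    intro w hw
    have h2 : (2 * z) * w = 0 := by linear_combination hw
    exact (mul_eq_zero.1 h2).resolve_left (mul_ne_zero two_ne_zero hz0)
  have hcz : ∀ w : ℂ, conj w = -z → w = z := by
    intro w hw
    rw [← Complex.conj_conj w, hw, map_neg, hzc, neg_neg]
  refine ⟨Matrix.of fun i i' => B (Sum.inl i, ()) (Sum.inl i', ()),
    Matrix.of fun j j' => B (Sum.inr j, ()) (Sum.inr j', ()),
    Matrix.of fun i j => C (Sum.inl i, ()) (Sum.inr j, ()),
    Matrix.of fun i j => D (Sum.inl i, ()) (Sum.inr j, ()), ?_, ?_, ?_⟩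
  · ext ⟨p, u⟩ ⟨q, v⟩
    cases u
    cases v
    rcases p with i | j <;> rcases q with i' | j'
    · simp [blk]
    · have h := (hB (Sum.inl i, ()) (Sum.inr j', ())).1
      rw [hsinl, hsinr] at h
      have h0 : B (Sum.inl i, ()) (Sum.inr j', ()) = 0 := key _ (by linear_combination - h)
      simp [blk, h0]
    · have h := (hB (Sum.inr j, ()) (Sum.inl i', ())).1
      rw [hsinl, hsinr] at h
      have h0 : B (Sum.inr j, ()) (Sum.inl i', ()) = 0 := key _ (by linear_combination h)
      simp [blk, h0]
    · simp [blk]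
  · ext ⟨p, u⟩ ⟨q, v⟩
    cases u
    cases v
    rcases p with i | j <;> rcases q with i' | j'
    · have h := hCC (Sum.inl i, ()) (Sum.inl i', ())
      rw [hsinl, hsinl, hzc] at h
      have h0 : C (Sum.inl i, ()) (Sum.inl i', ()) = 0 := key _ (by linear_combination h)
      simp [qb, h0]
    · simp [qb]
    · have h0 : C (Sum.inr j, ()) (Sum.inl i', ()) = C (Sum.inl i', ()) (Sum.inr j, ()) := by
        conv_lhs => rw [← hC]
        rfl
      simp [qb, h0]
    · have h := hCC (Sum.inr j, ()) (Sum.inr j', ())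
      rw [hsinr, hsinr, map_neg, hzc, neg_neg] at h
      have h0 : C (Sum.inr j, ()) (Sum.inr j', ()) = 0 := key _ (by linear_combination - h)
      simp [qb, h0]
  · ext ⟨p, u⟩ ⟨q, v⟩
    cases u
    cases v
    rcases p with i | j <;> rcases q with i' | j'
    · have h := (hB (Sum.inl i, ()) (Sum.inl i', ())).2
      rw [hsinl, hsinl, hzc] at h
      have h0 : D (Sum.inl i, ()) (Sum.inl i', ()) = 0 := key _ (by linear_combination - h)
      simp [qb, h0]
    · simp [qb]
    · have h0 : D (Sum.inr j, ()) (Sum.inl i', ()) = D (Sum.inl i', ()) (Sum.inr j, ()) := by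
        conv_lhs => rw [← hD]
        rfl
      simp [qb, h0]
    · have h := (hB (Sum.inr j, ()) (Sum.inr j', ())).2
      rw [hsinr, hsinr, map_neg, hzc, neg_neg] at h
      have h0 : D (Sum.inr j, ()) (Sum.inr j', ()) = 0 := key _ (by linear_combination h)
      simp [qb, h0]

end DWY
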