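import Pool.Agent.DWY.StA
import Pool.Agent.PST.C3g
import Pool.Agent.GAM.FCalc

/-!
# DWY [C3h]: shape of the functions `δ F_x`, with a second order term
-/

set_option autoImplicit false
set_option linter.unusedSectionVars false
set_option linter.unusedVariables false

namespace DWY

open scoped ComplexConjugate Topology
open Filter
open GAM (H E F pd pdl PLat IsTh OddTor IsDel Gro IsLat Pre QD qd jac HasExp)
open GAM (bil bil_add_left bil_add_right bil_symm bil_neg bil_diff lin_diff th_parity del_sign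
  del_neg F_differentiable ent_pd om_quasi F_nz F_ne_lat lat_add eq_of_gen F_quasi gen_ne H_diff
  F_neg pd_neg' pd_const_mul' pd_F_quasi)
open PST

section

variable {ι : Type} [Fintype ι] [DecidableEq ι]

/-- the second order term -/
noncomputable def C3h_t (D : Matrix ι ι ℂ) (f : (ι → ℂ) → ℂ) (v : ι → ℂ) : ℂ :=
  1 / (2 * Real.pi) * ∑ a, ∑ b, D a b * pd a (pd b f) v

theorem C3h_gop2 (k : ℂ) (B C D : Matrix ι ι ℂ) (f : (ι → ℂ) → ℂ) (v : ι → ℂ) :
    gop2 k B C D f v = k * f v + C3g_eu B f v + 1 / 2 * bil C v v * f v + C3h_t D f v := by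
  unfold gop2 C3h_t
  rw [C3g_gop]

theorem C3h_ent {f : (ι → ℂ) → ℂ} (hf : Differentiable ℂ f) (D : Matrix ι ι ℂ) :
    Differentiable ℂ (C3h_t D f) := by
  unfold C3h_t
  exact (Differentiable.fun_sum fun a _ => Differentiable.fun_sum fun b _ =>
    (ent_pd (ent_pd hf b) a).const_mul _).const_mul _

/-- second derivatives at a translated point -/
theorem C3h_dd {L : Submodule ℤ (ι → ℂ)} {χ θ : (ι → ℂ) → ℂ} (hP : PLat L χ) (h : IsTh L χ θ)
    {l : ι → ℂ} (hl : l ∈ L) (x v : ι → ℂ) (a b : ι) (hv : F θ x v ≠ 0) :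
    pd a (pd b (F θ x)) (v + l) / F θ x (v + l) = pd a (pd b (F θ x)) v / F θ x v +
      Real.pi * conj (l b) * (pd a (F θ x) v / F θ x v) +
      Real.pi * conj (l a) * (pd b (F θ x) v / F θ x v) +
      Real.pi ^ 2 * (conj (l a) * conj (l b)) := by
  have hd := F_differentiable h x
  have hF0 := F_ne_lat hP h hl hv
  have h1 : (fun z => pd b (F θ x) (z + l)) = fun z => GAM.fac χ x l z *
      (pd b (F θ x) z + Real.pi * conj (l b) * F θ x z) :=
    funext fun z => pd_F_quasi h hl x z b
  have hH : Differentiable ℂ fun v : ι → ℂ => H v l := GAM.differentiable_H l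
  have hc : DifferentiableAt ℂ (GAM.fac χ x l) v := by
    unfold GAM.fac
    fun_prop
  have h2 : pd a (GAM.fac χ x l) v = GAM.fac χ x l v * (Real.pi * conj (l a)) := by
    unfold GAM.fac
    rw [GAM.pd_const_mul (by fun_prop), GAM.pd_exp (by fun_prop), GAM.pd_add (by fun_prop)
      (by fun_prop), GAM.pd_const, GAM.pd_const_mul (by fun_prop), GAM.pd_H]
    ring
  have hb := ent_pd hd b
  have h3 : pd a (fun z => pd b (F θ x) z + Real.pi * conj (l b) * F θ x z) v =
      pd a (pd b (F θ x)) v + Real.pi * conj (l b) * pd a (F θ x) v := by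
    rw [GAM.pd_add hb.differentiableAt ((hd v).const_mul _), GAM.pd_const_mul (hd v)]
  have h4 : pd a (pd b (F θ x)) (v + l) = GAM.fac χ x l v *
      (pd a (pd b (F θ x)) v + Real.pi * conj (l b) * pd a (F θ x) v +
        Real.pi * conj (l a) * pd b (F θ x) v +
        Real.pi ^ 2 * (conj (l a) * conj (l b)) * F θ x v) := by
    have hs : DifferentiableAt ℂ
        (fun z => pd b (F θ x) z + Real.pi * conj (l b) * F θ x z) v :=
      hb.differentiableAt.add ((hd v).const_mul _)
    rw [← GAM.pd_comp_add, h1, GAM.pd_mul hc hs, h2, h3]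
    ring
  have h5 : F θ x (v + l) = GAM.fac χ x l v * F θ x v := GAM.F_quasi h hl x v
  have h6 : GAM.fac χ x l v ≠ 0 := by
    intro h0
    apply hF0
    rw [h5, h0, zero_mul]
  rw [h4, h5]
  field_simp

theorem C3h_quasi {L : Submodule ℤ (ι → ℂ)} {χ θ : (ι → ℂ) → ℂ} (hP : PLat L χ) (h : IsTh L χ θ)
    {l : ι → ℂ} (hl : l ∈ L) (x v : ι → ℂ) {D : Matrix ι ι ℂ} (hD : D.transpose = D)
    (hv : F θ x v ≠ 0) : C3h_t D (F θ x) (v + l) / F θ x (v + l) =
      C3h_t D (F θ x) v / F θ x v + ∑ a, (∑ i, D a i * conj (l i)) * (pd a (F θ x) v / F θ x v) +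
      Real.pi / 2 * ∑ a, ∑ b, D a b * (conj (l a) * conj (l b)) := by
  have hπ : (Real.pi : ℂ) ≠ 0 := by exact_mod_cast Real.pi_ne_zero
  have hsym : ∀ a b, D a b = D b a := fun a b => congrFun (congrFun hD b) a |>.symm ▸ rfl
  have e1 : ∀ (w : ι → ℂ), C3h_t D (F θ x) w / F θ x w =
      1 / (2 * Real.pi) * ∑ a, ∑ b, D a b * (pd a (pd b (F θ x)) w / F θ x w) := by
    intro w
    unfold C3h_t
    rw [mul_div_assoc, Finset.sum_div]
    congr 1
    refine Finset.sum_congr rfl fun a _ => ?_
    rw [Finset.sum_div]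
    exact Finset.sum_congr rfl fun b _ => mul_div_assoc _ _ _
  rw [e1 (v + l), e1 v]
  have e2 : ∑ a, ∑ b, D a b * (pd a (pd b (F θ x)) (v + l) / F θ x (v + l)) =
      ∑ a, ∑ b, D a b * (pd a (pd b (F θ x)) v / F θ x v) +
      Real.pi * (∑ a, (∑ i, D a i * conj (l i)) * (pd a (F θ x) v / F θ x v)) +
      Real.pi * (∑ a, (∑ i, D a i * conj (l i)) * (pd a (F θ x) v / F θ x v)) +
      Real.pi ^ 2 * ∑ a, ∑ b, D a b * (conj (l a) * conj (l b)) := by
    have e3 : ∑ a, (∑ i, D a i * conj (l i)) * (pd a (F θ x) v / F θ x v) =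
        ∑ a, ∑ b, D a b * (conj (l b) * (pd a (F θ x) v / F θ x v)) := by
      refine Finset.sum_congr rfl fun a _ => ?_
      rw [Finset.sum_mul]
      exact Finset.sum_congr rfl fun b _ => by ring
    have e4 : ∑ a, (∑ i, D a i * conj (l i)) * (pd a (F θ x) v / F θ x v) =
        ∑ a, ∑ b, D a b * (conj (l a) * (pd b (F θ x) v / F θ x v)) := by
      rw [e3, Finset.sum_comm]
      refine Finset.sum_congr rfl fun a _ => Finset.sum_congr rfl fun b _ => ?_
      rw [hsym b a]
    nth_rewrite 2 [e4]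
    rw [e3]
    simp only [Finset.mul_sum, ← Finset.sum_add_distrib]
    refine Finset.sum_congr rfl fun a _ => Finset.sum_congr rfl fun b _ => ?_
    rw [C3h_dd hP h hl x v a b hv]
    ring
  rw [e2]
  field_simp
  ring

end

theorem thm_C3h : St_C3h := by
  intro ι _ _ δ L χ θ G ld β₀ β B C D hP hT h0 hPre hC hD hAB
  have hAl : ∀ l ∈ L, ∀ j, ld l j = ∑ i, B j i * l i + ∑ i, D j i * conj (l i) :=
    fun l hl => (hAB l hl).1
  have hAb : ∀ l ∈ L, ∀ j, β l j = ∑ i, C j i * l i + Real.pi * ∑ i, B i j * conj (l i) :=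
    fun l hl => (hAB l hl).2
  have hUn : GAM.St_ThUn := GAM.thm_ThUn GAM.thm_Four GAM.thm_Avg
  have hUx : GAM.St_ThUx := GAM.thm_ThUx hUn
  have hLin : GAM.St_Lin := GAM.thm_Lin
  have hDel : GAM.St_DelR := GAM.thm_DelR GAM.thm_Hol
  have hR := hDel ι δ
  have hπ : (Real.pi : ℂ) ≠ 0 := by exact_mod_cast Real.pi_ne_zero
  have hd := F_differentiable hT
  set Q : (ι → ℂ) → ℂ := fun v => 1 / 2 * bil C v v with hQ
  -- the normalised logarithmic derivative
  set w : (ι → ℂ) → (ι → ℂ) → ℂ := fun x v =>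
    G x v / F θ x v - ∑ j, B.mulVec v j * (pd j (F θ x) v / F θ x v) - Q v -
      C3h_t D (F θ x) v / F θ x v with hw
  set γ : (ι → ℂ) → ℂ := fun l => β₀ l - Real.pi * ∑ j, B.mulVec l j * conj (l j) - Q l -
    Real.pi / 2 * ∑ a, ∑ b, D a b * (conj (l a) * conj (l b)) with hγ
  have step1 : ∀ l ∈ L, ∀ x, OddTor L x → ∀ v, F θ x v ≠ 0 → w x (v + l) = w x v + γ l := by
    intro l hl x hx v hv
    have e1 := hPre.diff l hl x hx v hv
    have e2 := hAl l hl
    have e3 := hAb l hl
    simp only [e2, e3] at e1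
    have e4 : Q (v + l) = Q v + bil C v l + Q l := by
      simp only [hQ]
      rw [bil_add_left, bil_add_right, bil_add_right, bil_symm hC l v]
      ring
    have e5 : ∑ j, (∑ i, C j i * l i + Real.pi * ∑ i, B i j * conj (l i)) * v j =
        bil C v l + Real.pi * ∑ j, B.mulVec v j * conj (l j) := by
      simp only [add_mul, Finset.sum_add_distrib, bil]
      congr 1
      · refine Finset.sum_congr rfl fun j _ => ?_
        rw [Finset.sum_mul]
        exact Finset.sum_congr rfl fun i _ => by ring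
      · have e7 : ∑ j, B.mulVec v j * conj (l j) = ∑ j, ∑ i, B j i * v i * conj (l j) := by
          refine Finset.sum_congr rfl fun j _ => ?_
          rw [Matrix.mulVec, dotProduct, Finset.sum_mul]
        rw [e7, Finset.sum_comm, Finset.mul_sum]
        refine Finset.sum_congr rfl fun j _ => ?_
        rw [mul_assoc, Finset.sum_mul]
        congr 1
        exact Finset.sum_congr rfl fun i _ => by ring
    have e6 : ∑ j, B.mulVec (v + l) j * (pd j (F θ x) (v + l) / F θ x (v + l)) =
        ∑ j, B.mulVec v j * (pd j (F θ x) v / F θ x v) +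
        ∑ j, B.mulVec l j * (pd j (F θ x) v / F θ x v) +
        Real.pi * ∑ j, B.mulVec v j * conj (l j) +
        Real.pi * ∑ j, B.mulVec l j * conj (l j) := by
      rw [Finset.mul_sum, Finset.mul_sum, ← Finset.sum_add_distrib, ← Finset.sum_add_distrib,
        ← Finset.sum_add_distrib]
      refine Finset.sum_congr rfl fun j _ => ?_
      rw [om_quasi hP hT hl x j hv, Matrix.mulVec_add, Pi.add_apply]
      ring
    have e7 : ∑ j, (∑ i, B j i * l i + ∑ i, D j i * conj (l i)) *
        (pd j (F θ x) v / F θ x v) = ∑ j, B.mulVec l j * (pd j (F θ x) v / F θ x v) +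
        ∑ j, (∑ i, D j i * conj (l i)) * (pd j (F θ x) v / F θ x v) := by
      rw [← Finset.sum_add_distrib]
      refine Finset.sum_congr rfl fun j _ => ?_
      rw [add_mul]
      rfl
    simp only [hw, hγ]
    rw [e4, e6, C3h_quasi hP hT hl x v hD hv]
    rw [e5, e7] at e1
    linear_combination e1
  have step2 : ∀ l ∈ L, ∀ m ∈ L, γ (l + m) = γ l + γ m := by
    intro l hl m hm
    obtain ⟨v, hv⟩ := F_nz h0 (0 : ι → ℂ)
    have e1 := step1 (l + m) (L.add_mem hl hm) 0 OddTor.zero v hv
    have e2 := step1 m hm 0 OddTor.zero v hv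
    have e3 := step1 l hl 0 OddTor.zero (v + m) (F_ne_lat hP hT hm hv)
    have e4 : v + m + l = v + (l + m) := by abel
    rw [e4] at e3
    linear_combination e2 + e3 - e1
  obtain ⟨p, q, hpq⟩ := lat_add hP.lat step2
  -- the entire function of type `F_x`
  set R : (ι → ℂ) → (ι → ℂ) → ℂ := fun x v => G x v - C3g_eu B (F θ x) v - Q v * F θ x v -
    C3h_t D (F θ x) v -
    (∑ j, p j * v j) * F θ x v - ∑ j, (q j / Real.pi) * pd j (F θ x) v with hRdef
  have hRw : ∀ x v, F θ x v ≠ 0 → R x v = (w x v - ∑ j, p j * v j -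
      ∑ j, (q j / Real.pi) * (pd j (F θ x) v / F θ x v)) * F θ x v := by
    intro x v hv
    simp only [hRdef, hw]
    rw [sub_mul, sub_mul, sub_mul, sub_mul, sub_mul, ← C3g_eu_div]
    have e1 : (∑ j, (q j / Real.pi) * (pd j (F θ x) v / F θ x v)) * F θ x v =
        ∑ j, (q j / Real.pi) * pd j (F θ x) v := by
      rw [Finset.sum_mul]
      refine Finset.sum_congr rfl fun j _ => ?_
      field_simp
    rw [e1, div_mul_cancel₀ _ hv, div_mul_cancel₀ _ hv, div_mul_cancel₀ _ hv]
  have hRent : ∀ x, OddTor L x → Differentiable ℂ (R x) := by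
    intro x hx
    have h1 := (hPre.del x hx).ent'
    have h2 := C3g_eu_ent (hd x) B
    have h3 := bil_diff C
    have h4 := lin_diff p
    have h5 : Differentiable ℂ fun v => ∑ j, (q j / Real.pi) * pd j (F θ x) v :=
      Differentiable.fun_sum fun j _ => (ent_pd (hd x) j).const_mul _
    exact ((((h1.sub h2).sub ((h3.const_mul _).mul (hd x))).sub (C3h_ent (hd x) D)).sub
      (h4.mul (hd x))).sub h5
  have hRtype : ∀ x, OddTor L x → ∀ l ∈ L, ∀ v, R x (v + l) =
      χ l * Complex.exp (2 * Real.pi * Complex.I * E x l) *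
      Complex.exp (Real.pi * H v l + Real.pi / 2 * H l l) * R x v := by
    intro x hx l hl
    have hfx : Differentiable ℂ fun v => χ l * Complex.exp (2 * Real.pi * Complex.I * E x l) *
      Complex.exp (Real.pi * H v l + Real.pi / 2 * H l l) := by
      have := H_diff l
      fun_prop
    have key := eq_of_gen (a := fun v => R x (v + l))
      (b := fun v => χ l * Complex.exp (2 * Real.pi * Complex.I * E x l) *
      Complex.exp (Real.pi * H v l + Real.pi / 2 * H l l) * R x v)
      ((hRent x hx).continuous.comp (continuous_id.add continuous_const))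
      (hfx.continuous.mul (hRent x hx).continuous) (by
        filter_upwards [gen_ne (hd x) (F_nz h0 x)] with v hv
        rw [hRw x v hv, hRw x (v + l) (F_ne_lat hP hT hl hv), step1 l hl x hx v hv,
          hpq l hl, F_quasi hT hl x v]
        have e1 : ∑ j, (q j / Real.pi) * (pd j (F θ x) (v + l) /
            (χ l * Complex.exp (2 * Real.pi * Complex.I * E x l) *
              Complex.exp (Real.pi * H v l + Real.pi / 2 * H l l) * F θ x v)) =
            ∑ j, (q j / Real.pi) * (pd j (F θ x) v / F θ x v) + ∑ j, q j * conj (l j) := by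
          rw [← Finset.sum_add_distrib]
          refine Finset.sum_congr rfl fun j _ => ?_
          rw [← F_quasi hT hl x v, om_quasi hP hT hl x j hv]
          field_simp
        rw [e1]
        simp only [Pi.add_apply, mul_add, Finset.sum_add_distrib]
        ring)
    exact fun v => congrFun key v
  have hk : ∀ x, OddTor L x → ∃ k : ℂ, ∀ v, R x v = k * F θ x v := fun x hx =>
    hUx ι L χ θ hP hT h0 x (R x) (hRent x hx) (hRtype x hx)
  choose! k hk using hk
  -- parity
  obtain ⟨s, hs1, hs⟩ := th_parity hUn hP hT h0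
  have hs0 : s ≠ 0 := by rcases hs1 with rfl | rfl <;> norm_num
  have hF0 : ∀ v, F θ 0 (-v) = s * F θ 0 v := by
    intro v
    have := F_neg (θ := θ) hs 0 v
    rwa [neg_zero] at this
  have hG0 : ∀ v, G 0 (-v) = s * G 0 v := by
    have h1 := del_neg hR (hPre.del 0 OddTor.zero)
    have h2 := hR.mul _ _ _ _ (hR.const s) (hPre.del 0 OddTor.zero)
    have e1 : (fun v => F θ 0 (-v)) = fun v => s * F θ 0 v := funext hF0
    rw [e1] at h1
    have h3 := hR.uniq _ _ _ h1 h2
    intro v
    have h4 := congrFun h3 v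
    simp only [del_sign hs1, zero_mul, zero_add] at h4
    exact h4
  have hpd0 : ∀ j v, pd j (F θ 0) (-v) = -(s * pd j (F θ 0) v) := by
    intro j v
    have h1 : pd j (fun z => F θ 0 (-z)) v = -pd j (F θ 0) (-v) := pd_neg' _ _ _
    have e1 : (fun v => F θ 0 (-v)) = fun v => s * F θ 0 v := funext hF0
    rw [e1, pd_const_mul' (hd 0 v)] at h1
    linear_combination h1
  have hpdd : ∀ a b v, pd a (pd b (F θ 0)) (-v) = s * pd a (pd b (F θ 0)) v := by
    intro a b v
    have h1 : pd a (fun z => pd b (F θ 0) (-z)) v = -pd a (pd b (F θ 0)) (-v) := pd_neg' _ _ _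
    have e1 : (fun v => pd b (F θ 0) (-v)) = fun v => (-s) * pd b (F θ 0) v := by
      funext v
      rw [hpd0 b v]
      ring
    rw [e1, pd_const_mul' ((ent_pd (hd 0) b) v)] at h1
    linear_combination h1
  have htt : ∀ v, C3h_t D (F θ 0) (-v) = s * C3h_t D (F θ 0) v := by
    intro v
    unfold C3h_t
    simp only [hpdd, Finset.mul_sum]
    exact Finset.sum_congr rfl fun a _ => Finset.sum_congr rfl fun b _ => by ring
  have hkw : ∀ v, F θ 0 v ≠ 0 → w 0 v - ∑ j, p j * v j -
      ∑ j, (q j / Real.pi) * (pd j (F θ 0) v / F θ 0 v) = k 0 := by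
    intro v hv
    have h1 := hk 0 OddTor.zero v
    rw [hRw 0 v hv] at h1
    exact mul_right_cancel₀ hv h1
  have hpar : ∀ v, F θ 0 v ≠ 0 → (0 : ℂ) + ∑ j, (2 * p j) * v j +
      ∑ j, (2 * (q j / Real.pi)) * (pd j (F θ 0) v / F θ 0 v) = 0 := by
    intro v hv
    have hv' : F θ 0 (-v) ≠ 0 := by rw [hF0]; exact mul_ne_zero hs0 hv
    have e1 := hkw v hv
    have e2 := hkw (-v) hv'
    have e3 : ∀ j, pd j (F θ 0) (-v) / F θ 0 (-v) = -(pd j (F θ 0) v / F θ 0 v) := by
      intro j
      rw [hpd0, hF0]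
      field_simp
    have e4 : w 0 (-v) = w 0 v := by
      simp only [hw, hQ, bil_neg]
      rw [hG0, hF0]
      have e5 : ∑ j, B.mulVec (-v) j * (pd j (F θ 0) (-v) / (s * F θ 0 v)) =
          ∑ j, B.mulVec v j * (pd j (F θ 0) v / F θ 0 v) := by
        refine Finset.sum_congr rfl fun j _ => ?_
        rw [← hF0, e3 j, Matrix.mulVec_neg, Pi.neg_apply]
        ring
      rw [e5, htt]
      have e50 : s * G 0 v / (s * F θ 0 v) = G 0 v / F θ 0 v := mul_div_mul_left _ _ hs0
      have e51 : s * C3h_t D (F θ 0) v / (s * F θ 0 v) = C3h_t D (F θ 0) v / F θ 0 v :=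
        mul_div_mul_left _ _ hs0
      rw [e50, e51]
    rw [e4] at e2
    simp only [e3, Pi.neg_apply] at e2
    have e6 : ∑ j, p j * -v j = -∑ j, p j * v j := by
      rw [← Finset.sum_neg_distrib]; exact Finset.sum_congr rfl fun j _ => by ring
    have e7 : ∑ j, (q j / Real.pi) * -(pd j (F θ 0) v / F θ 0 v) =
        -∑ j, (q j / Real.pi) * (pd j (F θ 0) v / F θ 0 v) := by
      rw [← Finset.sum_neg_distrib]; exact Finset.sum_congr rfl fun j _ => by ring
    have e8 : ∑ j, (2 * p j) * v j = 2 * ∑ j, p j * v j := by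
      rw [Finset.mul_sum]; exact Finset.sum_congr rfl fun j _ => by ring
    have e9 : ∑ j, (2 * (q j / Real.pi)) * (pd j (F θ 0) v / F θ 0 v) =
        2 * ∑ j, (q j / Real.pi) * (pd j (F θ 0) v / F θ 0 v) := by
      rw [Finset.mul_sum]; exact Finset.sum_congr rfl fun j _ => by ring
    rw [e6, e7] at e2
    rw [e8, e9]
    linear_combination e2 - e1
  obtain ⟨-, hp, hq⟩ := hLin ι L χ θ hP hT h0 0 0 (fun j => 2 * p j)
    (fun j => 2 * (q j / Real.pi)) hpar
  have hp' : ∀ j, p j = 0 := by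
    intro j
    have := congrFun hp j
    simpa using this
  have hq' : ∀ j, q j / Real.pi = 0 := by
    intro j
    have := congrFun hq j
    simpa using this
  refine ⟨k, fun x hx v => ?_⟩
  have h1 := hk x hx v
  simp only [hRdef, hp', hq', zero_mul, Finset.sum_const_zero, sub_zero] at h1
  rw [C3h_gop2]
  simp only [hQ] at h1
  linear_combination h1

end DWY
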