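import Pool.Agent.DWY.StA
import Pool.Agent.PST.C5g

/-!
# DWY [C5h]: the constants are equal (operator of the second order)
-/

set_option autoImplicit false
set_option linter.unusedSectionVars false
set_option linter.unusedVariables false

namespace DWY

open scoped ComplexConjugate Topology
open Filter
open PST
open GAM (H E F pd pdl PLat IsTh OddTor IsDel Gro IsLat Pre QD qd jac HasExp)
open GAM (bil F_differentiable exp_order F_add_lat thm_Der F_nz pd_mul' pd_const_mul' pd_sum'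
  del_sum seq_lemma oddTor_mul ent_pd pd_add')

section

variable {ι : Type} [Fintype ι] [DecidableEq ι]

/-- the operator `∑ D_ab ∂_a ∂_b` -/
noncomputable def C5h_s2 (D : Matrix ι ι ℂ) (f : (ι → ℂ) → ℂ) (v : ι → ℂ) : ℂ :=
  ∑ a, ∑ b, D a b * pd a (pd b f) v

theorem C5h_gop2 (k : ℂ) (B C D : Matrix ι ι ℂ) (f : (ι → ℂ) → ℂ) (v : ι → ℂ) :
    gop2 k B C D f v = k * f v + C3g_eu B f v + 1 / 2 * bil C v v * f v +
      1 / (2 * Real.pi) * C5h_s2 D f v := by
  unfold gop2 C5h_s2
  rw [C3g_gop]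

theorem C5h_s2_const_mul {f : (ι → ℂ) → ℂ} (hf : Differentiable ℂ f) (c : ℂ)
    (D : Matrix ι ι ℂ) (v : ι → ℂ) : C5h_s2 D (fun v => c * f v) v = c * C5h_s2 D f v := by
  unfold C5h_s2
  rw [Finset.mul_sum]
  refine Finset.sum_congr rfl fun a _ => ?_
  rw [Finset.mul_sum]
  refine Finset.sum_congr rfl fun b _ => ?_
  have e : pd b (fun v => c * f v) = fun v => c * pd b f v :=
    funext fun w => pd_const_mul' (hf w) c b
  rw [e, pd_const_mul' ((ent_pd hf b) v)]
  ring

theorem C5h_s2_sum {κ : Type} [Fintype κ] {f : κ → (ι → ℂ) → ℂ}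
    (hf : ∀ i, Differentiable ℂ (f i)) (D : Matrix ι ι ℂ) (v : ι → ℂ) :
    C5h_s2 D (fun v => ∑ i, f i v) v = ∑ i, C5h_s2 D (f i) v := by
  unfold C5h_s2
  rw [Finset.sum_comm (s := (Finset.univ : Finset κ))]
  refine Finset.sum_congr rfl fun a _ => ?_
  rw [Finset.sum_comm (s := (Finset.univ : Finset κ))]
  refine Finset.sum_congr rfl fun b _ => ?_
  have e : pd b (fun v => ∑ i, f i v) = fun v => ∑ i, pd b (f i) v :=
    funext fun w => pd_sum' _ (fun i _ => hf i w) b
  rw [e, pd_sum' _ fun i _ => (ent_pd (hf i) b) v, Finset.mul_sum]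

theorem C5h_s2_mul {f g : (ι → ℂ) → ℂ} (hf : Differentiable ℂ f) (hg : Differentiable ℂ g)
    (D : Matrix ι ι ℂ) (v : ι → ℂ) :
    C5h_s2 D (fun v => f v * g v) v = C5h_s2 D f v * g v + f v * C5h_s2 D g v +
      ∑ a, ∑ b, D a b * (pd a f v * pd b g v + pd b f v * pd a g v) := by
  unfold C5h_s2
  rw [Finset.sum_mul, Finset.mul_sum, ← Finset.sum_add_distrib, ← Finset.sum_add_distrib]
  refine Finset.sum_congr rfl fun a _ => ?_
  rw [Finset.sum_mul, Finset.mul_sum, ← Finset.sum_add_distrib, ← Finset.sum_add_distrib]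
  refine Finset.sum_congr rfl fun b _ => ?_
  have e : pd b (fun v => f v * g v) = fun v => pd b f v * g v + f v * pd b g v :=
    funext fun w => pd_mul' (hf w) (hg w) b
  have hf' := ent_pd hf b
  have hg' := ent_pd hg b
  have e1 := pd_add' (f := fun v => pd b f v * g v) (g := fun v => f v * pd b g v)
    ((hf' v).mul (hg v)) ((hf v).mul (hg' v)) a
  have e2 := pd_mul' (hf' v) (hg v) a
  have e3 := pd_mul' (hf v) (hg' v) a
  rw [e, e1, e2, e3]
  ring

end

theorem thm_C5h (h : St_AddH) : St_C5h := by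
  intro ι _ _ δ L χ θ B C D k hP hT h0 hk0
  have hDel : GAM.St_DelR := GAM.thm_DelR GAM.thm_Hol
  have hk : ∀ x, OddTor L x → IsDel δ (F θ x) (fun v => k x * F θ x v +
      C3g_eu B (F θ x) v + 1 / 2 * bil C v v * F θ x v +
      1 / (2 * Real.pi) * C5h_s2 D (F θ x) v) := by
    intro x hx
    have h1 := hk0 x hx
    have e : gop2 (k x) B C D (F θ x) = fun v => k x * F θ x v +
        C3g_eu B (F θ x) v + 1 / 2 * bil C v v * F θ x v +
        1 / (2 * Real.pi) * C5h_s2 D (F θ x) v := funext fun v => C5h_gop2 _ _ _ _ _ _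
    rwa [e] at h1
  have hR := hDel ι δ
  have hd := F_differentiable hT
  obtain ⟨r, c, κ, κ₃, hc0, hodd, hκc, hκ0, hLI, hLin, hQ2⟩ := h ι L χ θ hP hT h0
  -- periodicity of `k`
  have kper : ∀ x, OddTor L x → ∀ l ∈ L, k (x + l) = k x := by
    intro x hx l hl
    obtain ⟨n, hn, hnx⟩ := hx
    have hx : OddTor L x := ⟨n, hn, hnx⟩
    have hn0 : n ≠ 0 := by rintro rfl; exact absurd hn (by decide)
    set ε : ℂ := χ l * Complex.exp (Real.pi * Complex.I * E x l) with hε
    have hε0 : ε ≠ 0 := mul_ne_zero (hP.chi_ne hl) (Complex.exp_ne_zero _)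
    have hεn : ε ^ (2 * n) = 1 := by
      have h1 := exp_order hP hnx hl
      have h2 : Complex.exp (Real.pi * Complex.I * E x l) ^ (2 * n) =
          Complex.exp (2 * Real.pi * Complex.I * E x l) ^ n := by
        rw [pow_mul]
        congr 1
        rw [sq, ← Complex.exp_add]
        congr 1
        ring
      rw [hε, mul_pow, h2, h1, mul_one, pow_mul, sq, hP.chi_sq hl, one_pow]
    have hεa : IsAlgebraic ℚ ε := by
      have h2 : IsAlgebraic ℚ (ε ^ (2 * n)) := by rw [hεn]; exact isAlgebraic_one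
      exact h2.of_pow (by omega)
    have hδε : δ ε = 0 := (thm_Der _).1 hεa δ
    have e1 : F θ (x + l) = fun v => ε * F θ x v := by
      funext v
      rw [F_add_lat hT hl]
    have h1 := hk (x + l) (hx.add (OddTor.of_mem hl))
    have h2 := hR.mul _ _ _ _ (hR.const ε) (hk x hx)
    rw [e1] at h1
    have h3 := hR.uniq _ _ _ h1 h2
    obtain ⟨v, hv⟩ := F_nz h0 x
    have h4 := congrFun h3 v
    simp only [hδε, zero_mul, zero_add] at h4
    rw [C5g_eu_const_mul (hd x), C5h_s2_const_mul (hd x)] at h4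
    have h5 : (k (x + l) - k x) * (ε * F θ x v) = 0 := by linear_combination h4
    rcases mul_eq_zero.1 h5 with h6 | h6
    · exact sub_eq_zero.1 h6
    · exact absurd h6 (mul_ne_zero hε0 hv)
  -- the second order term of a product
  set K : Fin (r + 1) → (ι → ℂ) → ℂ := fun i ρ => ∑ a, ∑ b, D a b * κ₃ a b i ρ with hK
  have hS2 : ∀ σ ρ v, C5h_s2 D (F θ (σ + ρ)) v * F θ (σ - ρ) v +
      F θ (σ + ρ) v * C5h_s2 D (F θ (σ - ρ)) v =
      1 / 2 * C5h_s2 D (fun v => F θ (σ + ρ) v * F θ (σ - ρ) v) v +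
        1 / 2 * ∑ i, K i ρ * (F θ (σ + c i) v * F θ (σ - c i) v) := by
    intro σ ρ v
    have h1 := C5h_s2_mul (hd (σ + ρ)) (hd (σ - ρ)) D v
    have h2 : C5h_s2 D (F θ (σ + ρ)) v * F θ (σ - ρ) v +
        F θ (σ + ρ) v * C5h_s2 D (F θ (σ - ρ)) v -
        ∑ a, ∑ b, D a b * (pd a (F θ (σ + ρ)) v * pd b (F θ (σ - ρ)) v +
          pd b (F θ (σ + ρ)) v * pd a (F θ (σ - ρ)) v) =
        ∑ i, K i ρ * (F θ (σ + c i) v * F θ (σ - c i) v) := by
      have e1 : ∑ i, K i ρ * (F θ (σ + c i) v * F θ (σ - c i) v) =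
          ∑ a, ∑ b, D a b * ∑ i, κ₃ a b i ρ * (F θ (σ + c i) v * F θ (σ - c i) v) := by
        simp only [hK, Finset.sum_mul, Finset.mul_sum]
        rw [Finset.sum_comm]
        refine Finset.sum_congr rfl fun a _ => ?_
        rw [Finset.sum_comm]
        refine Finset.sum_congr rfl fun b _ => Finset.sum_congr rfl fun i _ => ?_
        ring
      rw [e1]
      unfold C5h_s2
      rw [Finset.sum_mul, Finset.mul_sum, ← Finset.sum_add_distrib, ← Finset.sum_sub_distrib]
      refine Finset.sum_congr rfl fun a _ => ?_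
      rw [Finset.sum_mul, Finset.mul_sum, ← Finset.sum_add_distrib, ← Finset.sum_sub_distrib]
      refine Finset.sum_congr rfl fun b _ => ?_
      rw [← hQ2 a b σ ρ v]
      ring
    linear_combination (1 / 2 : ℂ) * h2 - (1 / 2 : ℂ) * h1
  -- second differences
  have kdiff : ∀ ρ, OddTor L ρ → κ 0 ρ ≠ 0 → ∀ σ, OddTor L σ →
      k (σ + ρ) - 2 * k σ + k (σ - ρ) = (δ (κ 0 ρ) +
        1 / (4 * Real.pi) * (∑ i, κ i ρ * K 0 (c i) - K 0 ρ)) / κ 0 ρ := by
    intro ρ hρ hρ0 σ hσ
    set Q : Fin (r + 1) → (ι → ℂ) → ℂ := fun i v => F θ (σ + c i) v * F θ (σ - c i) v with hQ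
    have hQd : ∀ i, Differentiable ℂ (Q i) := fun i => (hd _).mul (hd _)
    have h1 := hR.mul _ _ _ _ (hk _ (hσ.add hρ)) (hk _ (hσ.sub hρ))
    have h2 : IsDel δ (fun v => ∑ i, κ i ρ * Q i v) (fun v => ∑ i, (δ (κ i ρ) * Q i v +
        κ i ρ * ((k (σ + c i) * F θ (σ + c i) v + C3g_eu B (F θ (σ + c i)) v +
          1 / 2 * bil C v v * F θ (σ + c i) v +
          1 / (2 * Real.pi) * C5h_s2 D (F θ (σ + c i)) v) * F θ (σ - c i) v +
          F θ (σ + c i) v * (k (σ - c i) * F θ (σ - c i) v + C3g_eu B (F θ (σ - c i)) v +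
            1 / 2 * bil C v v * F θ (σ - c i) v +
            1 / (2 * Real.pi) * C5h_s2 D (F θ (σ - c i)) v)))) :=
      del_sum hR _ fun i _ => hR.mul _ _ _ _ (hR.const _)
        (hR.mul _ _ _ _ (hk _ (hσ.add (hodd i))) (hk _ (hσ.sub (hodd i))))
    have e1 : (fun v => F θ (σ + ρ) v * F θ (σ - ρ) v) = fun v => ∑ i, κ i ρ * Q i v :=
      funext fun v => hLin σ ρ v
    rw [e1] at h1
    have h3 := hR.uniq _ _ _ h1 h2
    -- linear relation between the `Q i`
    have h4 : ∀ v, ∑ i, ((k (σ + ρ) + k (σ - ρ)) * κ i ρ + 1 / (4 * Real.pi) * K i ρ -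
        (δ (κ i ρ) + κ i ρ * (k (σ + c i) + k (σ - c i)) +
          1 / (4 * Real.pi) * ∑ j, κ j ρ * K i (c j))) * Q i v = 0 := by
      intro v
      have h5 := congrFun h3 v
      have e2 : C3g_eu B (F θ (σ + ρ)) v * F θ (σ - ρ) v + F θ (σ + ρ) v * C3g_eu B (F θ (σ - ρ)) v =
          ∑ i, κ i ρ * (C3g_eu B (F θ (σ + c i)) v * F θ (σ - c i) v +
            F θ (σ + c i) v * C3g_eu B (F θ (σ - c i)) v) := by
        rw [← C5g_eu_mul (hd _) (hd _), e1,
          C5g_eu_sum (f := fun i v => κ i ρ * Q i v) fun i => (hQd i).const_mul _]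
        refine Finset.sum_congr rfl fun i _ => ?_
        rw [C5g_eu_const_mul (hQd i), ← C5g_eu_mul (hd _) (hd _)]
      have e4 : C5h_s2 D (F θ (σ + ρ)) v * F θ (σ - ρ) v + F θ (σ + ρ) v * C5h_s2 D (F θ (σ - ρ)) v =
          ∑ i, κ i ρ * (C5h_s2 D (F θ (σ + c i)) v * F θ (σ - c i) v +
            F θ (σ + c i) v * C5h_s2 D (F θ (σ - c i)) v) +
          1 / 2 * ∑ i, K i ρ * Q i v - 1 / 2 * ∑ i, (∑ j, κ j ρ * K i (c j)) * Q i v := by
        have e5 : C5h_s2 D (fun v => F θ (σ + ρ) v * F θ (σ - ρ) v) v =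
            ∑ i, κ i ρ * C5h_s2 D (Q i) v := by
          rw [e1, C5h_s2_sum (f := fun i v => κ i ρ * Q i v) fun i => (hQd i).const_mul _]
          exact Finset.sum_congr rfl fun i _ => C5h_s2_const_mul (hQd i) _ _ _
        have e6 : ∑ i, κ i ρ * (C5h_s2 D (F θ (σ + c i)) v * F θ (σ - c i) v +
            F θ (σ + c i) v * C5h_s2 D (F θ (σ - c i)) v) =
            1 / 2 * ∑ i, κ i ρ * C5h_s2 D (Q i) v +
              1 / 2 * ∑ i, (∑ j, κ j ρ * K i (c j)) * Q i v := by
          have e7 : ∑ i, (∑ j, κ j ρ * K i (c j)) * Q i v =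
              ∑ j, κ j ρ * ∑ i, K i (c j) * Q i v := by
            simp only [Finset.sum_mul, Finset.mul_sum]
            rw [Finset.sum_comm]
            exact Finset.sum_congr rfl fun i _ => Finset.sum_congr rfl fun j _ => by ring
          rw [e7, Finset.mul_sum, Finset.mul_sum, ← Finset.sum_add_distrib]
          refine Finset.sum_congr rfl fun i _ => ?_
          rw [hS2 σ (c i) v]
          ring
        rw [hS2 σ ρ v, e5, e6]
        ring
      have e3 : ∑ i, ((k (σ + ρ) + k (σ - ρ)) * κ i ρ + 1 / (4 * Real.pi) * K i ρ -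
          (δ (κ i ρ) + κ i ρ * (k (σ + c i) + k (σ - c i)) +
            1 / (4 * Real.pi) * ∑ j, κ j ρ * K i (c j))) * Q i v =
          (k (σ + ρ) + k (σ - ρ)) * ∑ i, κ i ρ * Q i v +
            1 / (4 * Real.pi) * ∑ i, K i ρ * Q i v -
            1 / (4 * Real.pi) * ∑ i, (∑ j, κ j ρ * K i (c j)) * Q i v -
          (∑ i, (δ (κ i ρ) * Q i v + κ i ρ * ((k (σ + c i) * F θ (σ + c i) v +
            C3g_eu B (F θ (σ + c i)) v + 1 / 2 * bil C v v * F θ (σ + c i) v +
            1 / (2 * Real.pi) * C5h_s2 D (F θ (σ + c i)) v) *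
              F θ (σ - c i) v + F θ (σ + c i) v * (k (σ - c i) * F θ (σ - c i) v +
                C3g_eu B (F θ (σ - c i)) v + 1 / 2 * bil C v v * F θ (σ - c i) v +
                1 / (2 * Real.pi) * C5h_s2 D (F θ (σ - c i)) v))) -
          ∑ i, κ i ρ * (C3g_eu B (F θ (σ + c i)) v * F θ (σ - c i) v +
            F θ (σ + c i) v * C3g_eu B (F θ (σ - c i)) v) -
          1 / (2 * Real.pi) * ∑ i, κ i ρ * (C5h_s2 D (F θ (σ + c i)) v * F θ (σ - c i) v +
            F θ (σ + c i) v * C5h_s2 D (F θ (σ - c i)) v) -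
          bil C v v * ∑ i, κ i ρ * Q i v) := by
        simp only [Finset.mul_sum (ι := Fin (r + 1)) (s := Finset.univ) (f := fun i => κ i ρ * Q i v)]
        simp only [Finset.mul_sum (ι := Fin (r + 1)) (s := Finset.univ) (f := fun i => K i ρ * Q i v)]
        rw [Finset.mul_sum (f := fun i => (∑ j, κ j ρ * K i (c j)) * Q i v)]
        rw [Finset.mul_sum (f := fun i => κ i ρ * (C5h_s2 D (F θ (σ + c i)) v * F θ (σ - c i) v +
            F θ (σ + c i) v * C5h_s2 D (F θ (σ - c i)) v))]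
        rw [← Finset.sum_add_distrib, ← Finset.sum_sub_distrib, ← Finset.sum_sub_distrib,
          ← Finset.sum_sub_distrib, ← Finset.sum_sub_distrib, ← Finset.sum_sub_distrib]
        refine Finset.sum_congr rfl fun i _ => ?_
        simp only [hQ]
        ring
      rw [e3, ← h5, ← e2, ← hLin σ ρ v]
      have e8 : ∑ i, κ i ρ * (C5h_s2 D (F θ (σ + c i)) v * F θ (σ - c i) v +
            F θ (σ + c i) v * C5h_s2 D (F θ (σ - c i)) v) =
          C5h_s2 D (F θ (σ + ρ)) v * F θ (σ - ρ) v + F θ (σ + ρ) v * C5h_s2 D (F θ (σ - ρ)) v -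
          1 / 2 * ∑ i, K i ρ * Q i v + 1 / 2 * ∑ i, (∑ j, κ j ρ * K i (c j)) * Q i v := by
        rw [e4]; ring
      rw [e8]
      ring
    have h6 := Fintype.linearIndependent_iff.1 (hLI σ) (fun i =>
      (k (σ + ρ) + k (σ - ρ)) * κ i ρ + 1 / (4 * Real.pi) * K i ρ -
        (δ (κ i ρ) + κ i ρ * (k (σ + c i) + k (σ - c i)) +
          1 / (4 * Real.pi) * ∑ j, κ j ρ * K i (c j))) (by
        funext v
        have := h4 v
        simpa [hQ, Finset.sum_apply] using this) 0
    simp only [hc0, add_zero, sub_zero] at h6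
    rw [eq_div_iff hρ0]
    linear_combination h6
  -- good translations
  have kgood : ∀ ρ, OddTor L ρ → κ 0 ρ ≠ 0 → ∀ σ, OddTor L σ → k (σ + ρ) = k σ := by
    intro ρ hρ hρ0 σ hσ
    obtain ⟨N, hN, hNρ⟩ := id hρ
    have hN0 : N ≠ 0 := by rintro rfl; exact absurd hN (by decide)
    have hnρ : ∀ n : ℕ, OddTor L ((n : ℤ) • ρ) := by
      intro n
      refine ⟨N, hN, ?_⟩
      rw [smul_comm]
      exact L.smul_mem _ hNρ
    have h1 := seq_lemma (t := fun n => k (σ + (n : ℤ) • ρ)) (D := (δ (κ 0 ρ) +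
        1 / (4 * Real.pi) * (∑ i, κ i ρ * K 0 (c i) - K 0 ρ)) / κ 0 ρ)
      (fun n => by
        have h2 := kdiff ρ hρ hρ0 (σ + ((n + 1 : ℕ) : ℤ) • ρ) (hσ.add (hnρ _))
        have e1 : σ + ((n + 1 : ℕ) : ℤ) • ρ + ρ = σ + ((n + 2 : ℕ) : ℤ) • ρ := by
          push_cast
          rw [add_smul, add_smul, one_smul, two_smul]
          abel
        have e2 : σ + ((n + 1 : ℕ) : ℤ) • ρ - ρ = σ + (n : ℤ) • ρ := by
          push_cast
          rw [add_smul, one_smul]
          abel
        rw [e1, e2] at h2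
        exact h2) hN0
      (by
        simp only [Nat.cast_zero, zero_smul, add_zero]
        exact kper σ hσ _ hNρ)
      (by
        simp only [Nat.cast_zero, zero_smul, add_zero]
        apply kper σ hσ
        have : ((2 * N : ℕ) : ℤ) • ρ = (2 : ℤ) • ((N : ℤ) • ρ) := by
          rw [smul_smul]; push_cast; rfl
        rw [this]
        exact L.smul_mem _ hNρ)
    simpa using h1
  -- every point
  have kzero : ∀ x, OddTor L x → k x = k 0 := by
    intro x hx
    obtain ⟨n, hn, hnx⟩ := id hx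
    have hn0 : n ≠ 0 := by rintro rfl; exact absurd hn (by decide)
    obtain ⟨b, hb⟩ := hP.lat
    have hbL : ∀ i, b i ∈ L := fun i => by rw [hb]; exact Submodule.subset_span ⟨i, rfl⟩
    -- choose `M`
    have hlim : ∀ i, ∀ᶠ m : ℕ in atTop, κ 0 (((1 : ℝ) / (n * (2 * m + 1) : ℝ)) • b i) ≠ 0 := by
      intro i
      have h1 : Tendsto (fun m : ℕ => ((1 : ℝ) / (n * (2 * m + 1) : ℝ)) • b i) atTop
          (𝓝 ((0 : ℝ) • b i)) := by
        refine Tendsto.smul_const ?_ _
        refine Tendsto.div_atTop tendsto_const_nhds ?_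
        have hn' : (0 : ℝ) < n := by exact_mod_cast Nat.pos_of_ne_zero hn0
        refine Tendsto.const_mul_atTop hn' ?_
        refine tendsto_atTop_add_const_right _ _ ?_
        exact Tendsto.const_mul_atTop two_pos tendsto_natCast_atTop_atTop
      rw [zero_smul] at h1
      have h2 := (hκc.tendsto 0).comp h1
      rw [hκ0] at h2
      exact h2.eventually_ne one_ne_zero
    obtain ⟨m, hm⟩ := (eventually_all.2 hlim).exists
    set M : ℕ := 2 * m + 1 with hM
    have hMo : Odd M := ⟨m, rfl⟩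
    have hnM : ((n * M : ℕ) : ℝ) ≠ 0 := by
      have : n * M ≠ 0 := Nat.mul_ne_zero hn0 (by omega)
      exact_mod_cast this
    set T : ℝ := 1 / ((n * M : ℕ) : ℝ) with hT'
    have hTM : ∀ z : ι → ℂ, ((n * M : ℕ) : ℤ) • (T • z) = z := by
      intro z
      have e1 : ((n * M : ℕ) : ℤ) • (T • z) = (((n * M : ℕ) : ℤ) : ℝ) • (T • z) := by
        rw [Int.cast_smul_eq_zsmul]
      rw [e1, smul_smul, hT']
      have e2 : ((((n * M : ℕ) : ℤ) : ℝ)) * (1 / ((n * M : ℕ) : ℝ)) = 1 := by
        rw [Int.cast_natCast]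
        field_simp
      rw [e2, one_smul]
    have hodd' : ∀ z ∈ L, OddTor L (T • z) := fun z hz => ⟨n * M, hn.mul hMo, by rwa [hTM]⟩
    have hall : ∀ z ∈ Submodule.span ℤ (Set.range b), ∀ σ, OddTor L σ → k (σ + T • z) = k σ := by
      intro z hz
      induction hz using Submodule.span_induction with
      | mem z hz =>
        obtain ⟨i, rfl⟩ := hz
        intro σ hσ
        refine kgood (T • b i) (hodd' _ (hbL i)) ?_ σ hσ
        have := hm i
        have e : T = (1 : ℝ) / (n * (2 * m + 1) : ℝ) := by rw [hT', hM]; push_cast; ring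
        rw [e]
        exact this
      | zero => intro σ _; simp
      | add y z hy hz ihy ihz =>
        intro σ hσ
        rw [smul_add, ← add_assoc, ihz _ (hσ.add (hodd' y (by rw [hb]; exact hy))), ihy σ hσ]
      | smul a z hz ih =>
        have hzL : z ∈ L := by rw [hb]; exact hz
        have hTz := hodd' z hzL
        have hneg : ∀ σ, OddTor L σ → k (σ - T • z) = k σ := by
          intro σ hσ
          have := ih (σ - T • z) (hσ.sub hTz)
          rw [sub_add_cancel] at this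
          exact this.symm
        have hnat : ∀ j : ℕ, ∀ σ, OddTor L σ → k (σ + (j : ℤ) • (T • z)) = k σ ∧
            k (σ - (j : ℤ) • (T • z)) = k σ := by
          intro j
          induction j with
          | zero => intro σ _; simp
          | succ j ihj =>
            intro σ hσ
            have e1 : σ + ((j + 1 : ℕ) : ℤ) • (T • z) = σ + T • z + (j : ℤ) • (T • z) := by
              push_cast; rw [add_smul, one_smul]; abel
            have e2 : σ - ((j + 1 : ℕ) : ℤ) • (T • z) = σ - T • z - (j : ℤ) • (T • z) := by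
              push_cast; rw [add_smul, one_smul]; abel
            rw [e1, e2, (ihj _ (hσ.add hTz)).1, (ihj _ (hσ.sub hTz)).2]
            exact ⟨ih σ hσ, hneg σ hσ⟩
        intro σ hσ
        have e1 : T • (a • z) = a • (T • z) := smul_comm _ _ _
        rw [e1]
        rcases Int.eq_nat_or_neg a with ⟨j, rfl | rfl⟩
        · exact (hnat j σ hσ).1
        · rw [neg_smul, ← sub_eq_add_neg]
          exact (hnat j σ hσ).2
    have hz : ((n * M : ℕ) : ℤ) • x ∈ Submodule.span ℤ (Set.range b) := by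
      rw [← hb]; exact oddTor_mul hnx M
    have h1 := hall _ hz 0 OddTor.zero
    have e1 : T • (((n * M : ℕ) : ℤ) • x) = x := by
      rw [smul_comm]; exact hTM x
    rw [e1, zero_add] at h1
    exact h1
  intro x y hx hy
  rw [kzero x hx, kzero y hy]

end DWY
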