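import Pool.Agent.DWY.StA
import Pool.Agent.PST.UGr

/-!
# DWY [CmsG]: transport of the pair of lattices (helper99)
-/

set_option autoImplicit false

namespace DWY

open scoped ComplexConjugate
open GAM (H E F pd pdl PLat IsTh OddTor IsDel Gro IsLat Pre)
open PST DWC
open Pool.Agent.GPC (AbVar hermForm bilForm)

/-- the action of a matrix as an integral linear map -/
theorem CmsG_lin {α β μ : Type} [Fintype α] [Fintype β] [Fintype μ] [DecidableEq α]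
    [DecidableEq β] [DecidableEq μ] (g : Matrix (α ⊕ β) (α ⊕ β) ℂ) :
    ∃ f : (Ix α β μ → ℂ) →ₗ[ℤ] (Ix α β μ → ℂ), ∀ x, f x = act g x := by
  obtain ⟨-, -, -, hlin, -, -, -⟩ := thm_UGr α β μ
  exact ⟨(AddMonoidHom.mk' (act g) fun x y => (hlin g x y 0).1).toIntLinearMap, fun x => rfl⟩

theorem thm_CmsG (h : St_WedA) : St_CmsG := by
  intro s M g L₁ L₀ LY₁ LY₀ hg hL hLY hC
  obtain ⟨-, hA, hM, h1, -⟩ := h
  obtain ⟨-, u2, u3, -, -, u6, -⟩ := thm_UGr (Fin 3) Unit Unit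
  obtain ⟨-, v2, v3, v4, -, -, -⟩ := thm_UGr (Fin 3) (Fin 3) Unit
  obtain ⟨-, -, hgi, -, -⟩ := u6 g hg
  obtain ⟨gi, hgie⟩ : ∃ gi, gi = Jm (Fin 3) Unit * g.conjTranspose * Jm (Fin 3) Unit := ⟨_, rfl⟩
  rw [← hgie] at hgi
  have e1 : ∀ x : IX → ℂ, act g (act gi x) = x := fun x => by rw [← u2, hgi, u3]
  have e2' : ∀ x : IY → ℂ, act (e2 g) (act (e2 gi) x) = x := fun x => by
    rw [← v2, ← hM, hgi, h1, v3]
  have hs : ∀ (l m : IX → ℂ), act (e2 g) ((s : ℂ) • we l m) =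
      (s : ℂ) • we (act g l) (act g m) := fun l m => by
    rw [(v4 (e2 g) (we l m) 0 s).2, hA]
  refine ⟨hC.s0, hC.m0, fun l hl m hm => ?_, fun y hy => ?_⟩
  · have h2 : act gi l ∈ L₁ := by rw [hL, e1]; exact hl
    have h3 : act gi m ∈ L₁ := by rw [hL, e1]; exact hm
    have h4 := hC.into _ h2 _ h3
    rw [hLY, hs, e1, e1] at h4
    exact h4
  · have h2 : act (e2 gi) y ∈ LY₁ := by rw [hLY, e2']; exact hy
    have h3 := hC.onto _ h2
    obtain ⟨f, hf⟩ := CmsG_lin (μ := Unit) (e2 g)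
    have h4 := Submodule.mem_map_of_mem (f := f) h3
    rw [Submodule.map_span, map_zsmul, hf, e2'] at h4
    refine Submodule.span_mono ?_ h4
    rintro _ ⟨v, ⟨l, hl, m, hm, rfl⟩, rfl⟩
    refine ⟨act g l, (hL l).1 hl, act g m, (hL m).1 hm, ?_⟩
    rw [hf, hs]

end DWY
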