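import Pool.Agent.DWY.StA

/-!
# DWY, module CmsK: the lattices of the CM point
-/

set_option autoImplicit false

namespace DWY

open scoped ComplexConjugate
open GAM (H E F pd pdl PLat IsTh OddTor IsDel Gro IsLat Pre)
open PST DWC
open Pool.Agent.GPC (AbVar hermForm bilForm)

private abbrev CmsK_S : Type := Fin 3 ⊕ Unit

/-- The two indices of a basis vector of the exterior square. -/
private def CmsK_p : Fin 3 ⊕ Fin 3 → CmsK_S × CmsK_S :=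
  Sum.elim (fun i => (Sum.inl (i + 1), Sum.inl (i + 2))) (fun i => (Sum.inl i, Sum.inr ()))

private theorem CmsK_rY (d : ℚ) (r : CmsK_S → ℝ) (p : Fin 3 ⊕ Fin 3) :
    rY d r p = d4 d * (r (CmsK_p p).1 * r (CmsK_p p).2) := by
  rcases p with i | i <;> rfl

private theorem CmsK_qY (d : ℚ) (q : CmsK_S → ℚ) (p : Fin 3 ⊕ Fin 3) :
    qY d q p = q (CmsK_p p).1 * q (CmsK_p p).2 / d := by
  rcases p with i | i <;> rfl

private theorem CmsK_wd (X Y : IX → ℂ) (p : IY) :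
    wd X Y p = X ((CmsK_p p.1).1, ()) * Y ((CmsK_p p.1).2, ()) -
      X ((CmsK_p p.1).2, ()) * Y ((CmsK_p p.1).1, ()) := by
  obtain ⟨p, _⟩ := p
  rcases p with i | i
  · rfl
  · show X (Sum.inl i, ()) * Y (Sum.inr (), ()) - Y (Sum.inl i, ()) * X (Sum.inr (), ()) = _
    rw [mul_comm (Y (Sum.inl i, ()))]
    rfl

private theorem CmsK_d4 {d : ℚ} (hd : 0 < d) : 0 < d4 d ∧ d4 d ^ 2 * Real.sqrt (d : ℝ) = 1 := by
  have h1 : (0 : ℝ) < (d : ℝ) := by exact_mod_cast hd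
  have h2 : 0 < Real.sqrt (d : ℝ) := Real.sqrt_pos.mpr h1
  have h3 : 0 < Real.sqrt (Real.sqrt (d : ℝ)) := Real.sqrt_pos.mpr h2
  refine ⟨inv_pos.mpr h3, ?_⟩
  unfold d4
  rw [inv_pow, Real.sq_sqrt h2.le]
  exact inv_mul_cancel₀ h2.ne'

private theorem CmsK_R {d : ℚ} {r : CmsK_S → ℝ} {q : CmsK_S → ℚ} (h : IsR d r q) :
    IsR d (rY d r) (qY d q) := by
  obtain ⟨hpos, hr, hq⟩ := h
  obtain ⟨h4, h4'⟩ := CmsK_d4 hpos
  have hd : (0 : ℝ) < (d : ℝ) := by exact_mod_cast hpos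
  refine ⟨hpos, fun s => ?_, fun s => ?_⟩
  · rw [CmsK_rY]
    exact mul_pos h4 (mul_pos (hr _) (hr _))
  · rw [CmsK_rY, CmsK_qY]
    push_cast
    rw [hq, hq]
    have hs : Real.sqrt (d : ℝ) ^ 2 = (d : ℝ) := Real.sq_sqrt hd.le
    have e1 : (r (CmsK_p s).1 ^ 2 * Real.sqrt (d : ℝ) * (r (CmsK_p s).2 ^ 2 * Real.sqrt (d : ℝ))) /
        (d : ℝ) = r (CmsK_p s).1 ^ 2 * r (CmsK_p s).2 ^ 2 := by
      rw [div_eq_iff hd.ne']
      linear_combination (r (CmsK_p s).1 ^ 2 * r (CmsK_p s).2 ^ 2) * hs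
    rw [e1]
    linear_combination (-(r (CmsK_p s).1 ^ 2 * r (CmsK_p s).2 ^ 2)) * h4'

private theorem CmsK_den {κ : Type} [Fintype κ] (f : κ → ℚ) :
    ∃ N : ℕ, N ≠ 0 ∧ ∀ k, ∃ z : ℤ, (N : ℚ) * f k = z := by
  classical
  refine ⟨∏ k, (f k).den, Finset.prod_ne_zero_iff.mpr fun k _ => (f k).den_nz, fun k => ?_⟩
  obtain ⟨c, hc⟩ := Finset.dvd_prod_of_mem (fun k => (f k).den) (Finset.mem_univ k)
  refine ⟨(c : ℤ) * (f k).num, ?_⟩
  rw [hc]
  push_cast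
  have := Rat.mul_den_eq_num (f k)
  linear_combination (c : ℚ) * this

private theorem CmsK_sw (c : ℝ) (X : IY → ℂ) : (c : ℂ) • sw X = sw fun p => (c : ℂ) * X p := by
  funext p
  obtain ⟨p, _⟩ := p
  rcases p with i | i
  · rfl
  · show (c : ℂ) * conj (X (Sum.inr i, _)) = conj ((c : ℂ) * X (Sum.inr i, _))
    rw [map_mul, Complex.conj_ofReal]

private theorem CmsK_sw2 (X : IX → ℂ) : sw (sw X) = X := by
  funext p
  obtain ⟨p, _⟩ := p
  rcases p with i | i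
  · rfl
  · exact Complex.conj_conj _

private theorem CmsK_sq {d : ℚ} (hd : 0 < d) : zd d ^ 2 = -(d : ℂ) := by
  have h0 : (0 : ℝ) ≤ (d : ℝ) := by exact_mod_cast hd.le
  unfold zd
  rw [mul_pow, Complex.I_sq, ← Complex.ofReal_pow, Real.sq_sqrt h0]
  push_cast
  ring

/-- The products. -/
private theorem CmsK_mul {d : ℚ} {r : CmsK_S → ℝ} {q : CmsK_S → ℚ} (h : IsR d r q) (N : ℕ)
    (u : CmsK_S → CmsK_S → ℤ) (v : CmsK_S → ℤ)
    (hu : ∀ s t, (N : ℚ) * (d / (q s * q t)) = u s t) (hv : ∀ s, (N : ℚ) * (q s / d) = v s)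
    (s t : CmsK_S) (a b a' b' : ℤ) :
    ((((N : ℝ) * d4 d : ℝ)) : ℂ) * (((r s : ℂ) * ((a : ℂ) + (b : ℂ) / (q s : ℂ) * zd d)) *
      ((r t : ℂ) * ((a' : ℂ) + (b' : ℂ) / (q t : ℂ) * zd d))) =
    ((d4 d * (r s * r t) : ℝ) : ℂ) * (((N * a * a' - u s t * b * b' : ℤ) : ℂ) +
      ((v t * b * a' + v s * a * b' : ℤ) : ℂ) / ((q s * q t / d : ℚ) : ℂ) * zd d) := by
  have hq : ∀ s, (q s : ℂ) ≠ 0 := by
    intro s
    have h1 : (q s : ℝ) ≠ 0 := by
      rw [h.rq s]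
      exact (mul_pos (pow_pos (h.rpos s) 2)
        (Real.sqrt_pos.mpr (by exact_mod_cast h.pos))).ne'
    exact_mod_cast h1
  have hd : (d : ℂ) ≠ 0 := by
    have := h.pos.ne'
    exact_mod_cast this
  have hz : zd d ^ 2 = -(d : ℂ) := CmsK_sq h.pos
  have hu' : (u s t : ℂ) = (N : ℂ) * ((d : ℂ) / ((q s : ℂ) * (q t : ℂ))) := by
    exact_mod_cast (hu s t).symm
  have hv' : ∀ s, (v s : ℂ) = (N : ℂ) * ((q s : ℂ) / (d : ℂ)) := by
    intro s
    exact_mod_cast (hv s).symm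
  push_cast
  rw [hu', hv', hv']
  have h1 := hq s
  have h2 := hq t
  field_simp
  linear_combination ((N : ℂ) * (d4 d : ℂ) * (r s : ℂ) * b * (r t : ℂ) * b') * hz

/-- The point with the coordinates `a`, `b`. -/
private noncomputable def CmsK_pt {γ δ : Type} (d : ℚ) (r : γ ⊕ δ → ℝ) (q : γ ⊕ δ → ℚ) (a b : γ ⊕ δ → ℤ) :
    Ix γ δ Unit → ℂ :=
  sw fun p => (r p.1 : ℂ) * ((a p.1 : ℂ) + (b p.1 : ℂ) / (q p.1 : ℂ) * zd d)

private def CmsK_A (N : ℕ) (u : CmsK_S → CmsK_S → ℤ) (a b a' b' : CmsK_S → ℤ) (p : Fin 3 ⊕ Fin 3) :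
    ℤ := (N * a (CmsK_p p).1 * a' (CmsK_p p).2 -
      u (CmsK_p p).1 (CmsK_p p).2 * b (CmsK_p p).1 * b' (CmsK_p p).2) -
    (N * a (CmsK_p p).2 * a' (CmsK_p p).1 -
      u (CmsK_p p).2 (CmsK_p p).1 * b (CmsK_p p).2 * b' (CmsK_p p).1)

private def CmsK_B (v : CmsK_S → ℤ) (a b a' b' : CmsK_S → ℤ) (p : Fin 3 ⊕ Fin 3) : ℤ :=
  (v (CmsK_p p).2 * b (CmsK_p p).1 * a' (CmsK_p p).2 +
      v (CmsK_p p).1 * a (CmsK_p p).1 * b' (CmsK_p p).2) -
    (v (CmsK_p p).1 * b (CmsK_p p).2 * a' (CmsK_p p).1 +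
      v (CmsK_p p).2 * a (CmsK_p p).2 * b' (CmsK_p p).1)

private theorem CmsK_we {d : ℚ} {r : CmsK_S → ℝ} {q : CmsK_S → ℚ} (h : IsR d r q) (N : ℕ)
    (u : CmsK_S → CmsK_S → ℤ) (v : CmsK_S → ℤ)
    (hu : ∀ s t, (N : ℚ) * (d / (q s * q t)) = u s t) (hv : ∀ s, (N : ℚ) * (q s / d) = v s)
    (a b a' b' : CmsK_S → ℤ) :
    ((((N : ℝ) * d4 d : ℝ)) : ℂ) • we (CmsK_pt d r q a b) (CmsK_pt d r q a' b') =
      CmsK_pt d (rY d r) (qY d q) (CmsK_A N u a b a' b') (CmsK_B v a b a' b') := by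
  unfold we CmsK_pt
  rw [CmsK_sw2, CmsK_sw2, CmsK_sw]
  congr 1
  funext p
  rw [CmsK_wd, CmsK_rY, CmsK_qY, mul_sub]
  simp only
  rw [CmsK_mul h N u v hu hv, CmsK_mul h N u v hu hv, mul_comm (r (CmsK_p p.1).2),
    mul_comm (q (CmsK_p p.1).2)]
  unfold CmsK_A CmsK_B
  push_cast
  ring

private theorem CmsK_add {d : ℚ} {r : Fin 3 ⊕ Fin 3 → ℝ} {q : Fin 3 ⊕ Fin 3 → ℚ}
    (a b a' b' : Fin 3 ⊕ Fin 3 → ℤ) :
    CmsK_pt d r q a b + CmsK_pt d r q a' b' = CmsK_pt d r q (a + a') (b + b') := by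
  funext p
  obtain ⟨p, _⟩ := p
  rcases p with i | i
  · show (r (Sum.inl i) : ℂ) * _ + (r (Sum.inl i) : ℂ) * _ = (r (Sum.inl i) : ℂ) * _
    simp only [Pi.add_apply]
    push_cast
    ring
  · show conj ((r (Sum.inr i) : ℂ) * _) + conj ((r (Sum.inr i) : ℂ) * _) =
      conj ((r (Sum.inr i) : ℂ) * _)
    rw [← map_add]
    congr 1
    simp only [Pi.add_apply]
    push_cast
    ring

private theorem CmsK_sum {d : ℚ} {r : Fin 3 ⊕ Fin 3 → ℝ} {q : Fin 3 ⊕ Fin 3 → ℚ} {κ : Type}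
    (s : Finset κ) (f g : κ → Fin 3 ⊕ Fin 3 → ℤ) :
    ∑ k ∈ s, CmsK_pt d r q (f k) (g k) = CmsK_pt d r q (∑ k ∈ s, f k) (∑ k ∈ s, g k) := by
  classical
  induction s using Finset.induction_on with
  | empty =>
    funext p
    obtain ⟨p, _⟩ := p
    rcases p with i | i <;> simp [CmsK_pt, sw]
  | insert k s hk ih => rw [Finset.sum_insert hk, Finset.sum_insert hk, Finset.sum_insert hk, ih,
      CmsK_add]

/-- The Kronecker symbol. -/
private def CmsK_k {κ : Type} [DecidableEq κ] (a b : κ) : ℤ := if a = b then 1 else 0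

private theorem CmsK_kk : ∀ p p' : Fin 3 ⊕ Fin 3,
    CmsK_k (CmsK_p p').1 (CmsK_p p).1 * CmsK_k (CmsK_p p').2 (CmsK_p p).2 -
      CmsK_k (CmsK_p p').2 (CmsK_p p).1 * CmsK_k (CmsK_p p').1 (CmsK_p p).2 = CmsK_k p' p := by
  decide

private theorem CmsK_ks {κ : Type} [DecidableEq κ] (a b : κ) (c : ℤ) :
    (Pi.single a c : κ → ℤ) b = c * CmsK_k b a := by
  unfold CmsK_k
  by_cases h : b = a
  · subst h
    simp
  · simp [h]

private theorem CmsK_kv {κ : Type} [DecidableEq κ] (v : κ → ℤ) (a b : κ) :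
    v b * CmsK_k b a = v a * CmsK_k b a := by
  unfold CmsK_k
  by_cases h : b = a
  · subst h
    rfl
  · simp [h]

private theorem CmsK_smul {d : ℚ} {r : Fin 3 ⊕ Fin 3 → ℝ} {q : Fin 3 ⊕ Fin 3 → ℚ} (M : ℤ)
    (a b : Fin 3 ⊕ Fin 3 → ℤ) :
    M • CmsK_pt d r q a b = CmsK_pt d r q (M • a) (M • b) := by
  funext p
  obtain ⟨p, _⟩ := p
  rcases p with i | i
  · show M • ((r (Sum.inl i) : ℂ) * _) = (r (Sum.inl i) : ℂ) * _
    simp only [Pi.smul_apply, smul_eq_mul, zsmul_eq_mul]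
    push_cast
    ring
  · show M • conj ((r (Sum.inr i) : ℂ) * _) = conj ((r (Sum.inr i) : ℂ) * _)
    rw [← map_zsmul]
    congr 1
    simp only [Pi.smul_apply, smul_eq_mul, zsmul_eq_mul]
    push_cast
    ring

/-- The lattices of the CM point. -/
theorem thm_CmsK : St_CmsK := by
  intro d r q h
  refine ⟨CmsK_R h, fun L LY hL hLY => ?_⟩
  obtain ⟨N, hN, hNf⟩ := CmsK_den (κ := (CmsK_S × CmsK_S) ⊕ CmsK_S)
    (Sum.elim (fun p => d / (q p.1 * q p.2)) (fun s => q s / d))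
  choose z hz using hNf
  set u : CmsK_S → CmsK_S → ℤ := fun s t => z (Sum.inl (s, t)) with hudef
  set v : CmsK_S → ℤ := fun s => z (Sum.inr s) with hvdef
  have hu : ∀ s t, (N : ℚ) * (d / (q s * q t)) = u s t := fun s t => hz (Sum.inl (s, t))
  have hv : ∀ s, (N : ℚ) * (q s / d) = v s := fun s => hz (Sum.inr s)
  have hd := h.pos
  have hv0 : ∀ s, v s ≠ 0 := by
    intro s h0
    have h1 := hv s
    rw [h0] at h1
    have hq : q s ≠ 0 := by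
      have h2 : (q s : ℝ) ≠ 0 := by
        rw [h.rq s]
        exact (mul_pos (pow_pos (h.rpos s) 2)
          (Real.sqrt_pos.mpr (by exact_mod_cast h.pos))).ne'
      exact_mod_cast h2
    have hN' : (N : ℚ) ≠ 0 := by exact_mod_cast hN
    exact (mul_ne_zero hN' (div_ne_zero hq hd.ne')) (by rw [h1]; simp)
  set V : ℤ := ∏ s, v s with hV
  have hV0 : V ≠ 0 := Finset.prod_ne_zero_iff.mpr fun s _ => hv0 s
  have hw : ∀ s, ∃ w : ℤ, (V.natAbs : ℤ) = v s * w := by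
    intro s
    exact Int.dvd_natAbs.mpr (Finset.dvd_prod_of_mem v (Finset.mem_univ s))
  choose w hw using hw
  refine ⟨N, N * V.natAbs, ?_, ?_, ?_, ?_⟩
  · exact mul_ne_zero (by exact_mod_cast hN) (CmsK_d4 hd).1.ne'
  · exact mul_ne_zero hN (Int.natAbs_ne_zero.mpr hV0)
  · intro l hl m hm
    obtain ⟨a, b, rfl⟩ := (hL l).mp hl
    obtain ⟨a', b', rfl⟩ := (hL m).mp hm
    exact (hLY _).mpr ⟨_, _, CmsK_we h N u v hu hv a b a' b'⟩
  · intro y hy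
    obtain ⟨a, b, rfl⟩ := (hLY y).mp hy
    have key : ∀ p : Fin 3 ⊕ Fin 3, CmsK_pt d (rY d r) (qY d q)
        (Pi.single p ((N * V.natAbs : ℕ) * a p)) (Pi.single p ((N * V.natAbs : ℕ) * b p)) ∈
        Submodule.span ℤ {v : IY → ℂ | ∃ l ∈ L, ∃ m ∈ L,
          v = ((((N : ℝ) * d4 d : ℝ)) : ℂ) • we l m} := by
      intro p
      refine Submodule.subset_span ⟨CmsK_pt d r q
        (Pi.single (CmsK_p p).1 (V.natAbs * a p)) (Pi.single (CmsK_p p).1 (N * w (CmsK_p p).2 * b p)),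
        (hL _).mpr ⟨_, _, rfl⟩, CmsK_pt d r q (Pi.single (CmsK_p p).2 1) 0,
        (hL _).mpr ⟨_, _, rfl⟩, ?_⟩
      rw [CmsK_we h N u v hu hv]
      congr 1
      · funext p'
        unfold CmsK_A
        simp only [CmsK_ks, Pi.zero_apply, mul_zero, sub_zero]
        rw [Nat.cast_mul]
        linear_combination (-((N : ℤ) * V.natAbs * a p)) * CmsK_kk p p'
      · funext p'
        unfold CmsK_B
        simp only [CmsK_ks, Pi.zero_apply, mul_zero, add_zero]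
        have k1 := CmsK_kv v (CmsK_p p).2 (CmsK_p p').2
        have k2 := CmsK_kv v (CmsK_p p).2 (CmsK_p p').1
        have k3 := hw (CmsK_p p).2
        have k4 := CmsK_kk p p'
        rw [Nat.cast_mul]
        linear_combination ((N : ℤ) * b p * CmsK_k p' p) * k3 -
          ((N : ℤ) * w (CmsK_p p).2 * b p * v (CmsK_p p).2) * k4 -
          ((N : ℤ) * w (CmsK_p p).2 * b p * CmsK_k (CmsK_p p').1 (CmsK_p p).1) * k1 +
          ((N : ℤ) * w (CmsK_p p).2 * b p * CmsK_k (CmsK_p p').2 (CmsK_p p).1) * k2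
    have hsum : ((N * V.natAbs : ℕ) : ℤ) • CmsK_pt d (rY d r) (qY d q) a b =
        ∑ p, CmsK_pt d (rY d r) (qY d q)
        (Pi.single p ((N * V.natAbs : ℕ) * a p)) (Pi.single p ((N * V.natAbs : ℕ) * b p)) := by
      rw [CmsK_sum, CmsK_smul]
      congr 1
      · exact (Finset.univ_sum_single (((N * V.natAbs : ℕ) : ℤ) • a)).symm
      · exact (Finset.univ_sum_single (((N * V.natAbs : ℕ) : ℤ) • b)).symm
    exact hsum ▸ Submodule.sum_mem _ fun p _ => key p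

end DWY
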