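import Pool.Agent.DWY.StA
import Pool.Agent.PST.UGr

/-!
# DWY [CocP]: cocompactness up to half planes for the pair of lattices (helper99)
-/

set_option autoImplicit false

namespace DWY

open scoped ComplexConjugate
open GAM (H E F pd pdl PLat IsTh OddTor IsDel Gro IsLat Pre)
open PST DWC
open Pool.Agent.GPC (AbVar hermForm bilForm)

/-- the action of a matrix as an integral linear map -/
theorem CocP_lin {α β μ : Type} [Fintype α] [Fintype β] [Fintype μ] [DecidableEq α]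
    [DecidableEq β] [DecidableEq μ] (g : Matrix (α ⊕ β) (α ⊕ β) ℂ) :
    ∃ f : (Ix α β μ → ℂ) →ₗ[ℤ] (Ix α β μ → ℂ), ∀ x, f x = act g x := by
  obtain ⟨-, -, -, hlin, -, -, -⟩ := thm_UGr α β μ
  exact ⟨(AddMonoidHom.mk' (act g) fun x y => (hlin g x y 0).1).toIntLinearMap, fun x => rfl⟩

theorem CocP_wz (h : St_WedA) : (∀ (n : ℤ) (x y : IX → ℂ), we (n • x) y = n • we x y) ∧
    ∀ (n : ℤ) (x y : IX → ℂ), we x (n • y) = n • we x y := by
  obtain ⟨-, -, -, -, ha, hb, -⟩ := h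
  constructor
  · intro n x y
    exact map_zsmul (AddMonoidHom.mk' (fun x => we x y) fun x x' => ha x x' y) n x
  · intro n x y
    exact map_zsmul (AddMonoidHom.mk' (fun y => we x y) fun y y' => hb x y y') n y

/-- the congruence for the exterior square -/
theorem CocP_cong (h : St_WedA) {s : ℝ} {M n : ℕ} {L : Submodule ℤ (IX → ℂ)}
    {LY : Submodule ℤ (IY → ℂ)} (hC : Cms s M L LY)
    (g : Matrix (Fin 3 ⊕ Unit) (Fin 3 ⊕ Unit) ℂ)
    (hg : ∀ l ∈ L, ∃ m ∈ L, act g l = l + ((n * M : ℕ) : ℤ) • m) :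
    ∀ y ∈ LY, ∃ m ∈ LY, act (e2 g) y = y + (n : ℤ) • m := by
  obtain ⟨-, -, -, v4, -, -, -⟩ := thm_UGr (Fin 3) (Fin 3) Unit
  obtain ⟨hz1, hz2⟩ := CocP_wz h
  obtain ⟨-, hA, -, -, ha, hb, -⟩ := h
  obtain ⟨f, hf⟩ := CocP_lin (μ := Unit) (e2 g)
  have hspan : ∀ v ∈ Submodule.span ℤ {v : IY → ℂ | ∃ l ∈ L, ∃ m ∈ L, v = (s : ℂ) • we l m},
      ∃ m ∈ LY, f v = v + ((n * M : ℕ) : ℤ) • m := by
    intro v hv
    induction hv using Submodule.span_induction with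
    | mem v hv =>
      obtain ⟨l, hl, m, hm, rfl⟩ := hv
      obtain ⟨l', hl', e1⟩ := hg l hl
      obtain ⟨m', hm', e2'⟩ := hg m hm
      refine ⟨(s : ℂ) • we l' m + (s : ℂ) • we l m' + ((n * M : ℕ) : ℤ) • ((s : ℂ) • we l' m'),
        LY.add_mem (LY.add_mem (hC.into _ hl' _ hm) (hC.into _ hl _ hm'))
          (LY.smul_mem _ (hC.into _ hl' _ hm')), ?_⟩
      rw [hf, (v4 (e2 g) (we l m) 0 s).2, hA, e1, e2', ha, hb, hb, hz1, hz2, hz1, hz2]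
      generalize ((n * M : ℕ) : ℤ) = k
      simp only [smul_add, smul_comm (s : ℂ) k]
      abel
    | zero => exact ⟨0, LY.zero_mem, by simp⟩
    | add v w _ _ hv hw =>
      obtain ⟨m, hm, e1⟩ := hv
      obtain ⟨m', hm', e2'⟩ := hw
      refine ⟨m + m', LY.add_mem hm hm', ?_⟩
      rw [map_add, e1, e2', smul_add]
      abel
    | smul c v _ hv =>
      obtain ⟨m, hm, e1⟩ := hv
      refine ⟨c • m, LY.smul_mem c hm, ?_⟩
      rw [map_smul, e1, smul_add, smul_comm]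
  intro y hy
  obtain ⟨m, hm, e1⟩ := hspan _ (hC.onto y hy)
  refine ⟨m, hm, ?_⟩
  have hM : (M : ℤ) ≠ 0 := by exact_mod_cast hC.m0
  have e3 : (M : ℤ) • act (e2 g) y = (M : ℤ) • (y + (n : ℤ) • m) := by
    rw [← hf, ← map_smul, e1, smul_add, smul_smul, Nat.cast_mul, mul_comm]
  exact smul_right_injective _ hM e3

theorem thm_CocP (h : St_WedA) : St_CocP := by
  intro e s M L LY hC hH n hn
  obtain ⟨-, u2, u3, u4, -, u6, -⟩ := thm_UGr (Fin 3) Unit Unit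
  obtain ⟨-, v2, v3, -, -, -, -⟩ := thm_UGr (Fin 3) (Fin 3) Unit
  have hW := h
  obtain ⟨-, -, hM, h1, -⟩ := h
  obtain ⟨K, C, hK1, hK2, hK3, hK⟩ := hH (n * M) (mul_ne_zero hn hC.m0)
  refine ⟨K, C, hK1, hK2, hK3, fun p hp => ?_⟩
  obtain ⟨U, hU, hU2⟩ := hK p hp
  refine ⟨U, hU, fun w hw => ?_⟩
  obtain ⟨z, hz1, hz2, hz3, hz4, hz5⟩ := hU2 w hw
  refine ⟨z, hz1, hz2, hz3, hz4, fun t => ?_⟩
  obtain ⟨g, hg1, hg2, hg3, hg4, hg5⟩ := hz5 t
  obtain ⟨-, hig, -, -, -⟩ := u6 g hg1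
  obtain ⟨gi, hgie⟩ : ∃ gi, gi = Jm (Fin 3) Unit * g.conjTranspose * Jm (Fin 3) Unit := ⟨_, rfl⟩
  rw [← hgie] at hig
  have e1 : ∀ x : IX → ℂ, act gi (act g x) = x := fun x => by rw [← u2, hig, u3]
  have hgi : g * gi = 1 := mul_eq_one_comm.1 hig
  have e1' : ∀ x : IX → ℂ, act g (act gi x) = x := fun x => by rw [← u2, hgi, u3]
  have e2' : ∀ x : IY → ℂ, act (e2 gi) (act (e2 g) x) = x := fun x => by
    rw [← v2, ← hM, hig, h1, v3]
  have hc := CocP_cong hW hC g hg4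
  obtain ⟨fi, hfi⟩ := CocP_lin (μ := Unit) gi
  have hgic : ∀ l ∈ L, ∃ m ∈ L, act gi l = l + ((n * M : ℕ) : ℤ) • m := by
    intro l hl
    have h2 : act gi l ∈ L := by rw [hg3, e1']; exact hl
    obtain ⟨m, hm, e3⟩ := hg4 _ h2
    rw [e1'] at e3
    refine ⟨-m, L.neg_mem hm, ?_⟩
    rw [smul_neg, ← sub_eq_add_neg]
    exact eq_sub_of_add_eq e3.symm
  have hci := CocP_cong hW hC gi hgic
  refine ⟨g, ⟨hg1, hg2, hg3, fun l hl => ?_⟩, fun x => ⟨fun hx => ?_, fun hx => ?_⟩, hc, hg5⟩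
  · obtain ⟨m, hm, e3⟩ := hg4 l hl
    refine ⟨(M : ℤ) • m, L.smul_mem _ hm, ?_⟩
    rw [e3, smul_smul, Nat.cast_mul]
  · obtain ⟨m, hm, e3⟩ := hc x hx
    rw [e3]
    exact LY.add_mem hx (LY.smul_mem _ hm)
  · obtain ⟨m, hm, e3⟩ := hci _ hx
    rw [e2'] at e3
    rw [e3]
    exact LY.add_mem hx (LY.smul_mem _ hm)

end DWY
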