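import Pool.Agent.DWY.StB
import Pool.Agent.PST.All
import Pool.Agent.GAM.DelDR

/-!
# DWY [CoreY]: the core theorem for the exterior square
-/

set_option autoImplicit false

namespace DWY

open scoped ComplexConjugate
open GAM (H E F pd pdl PLat IsTh OddTor IsDel Gro IsLat Pre)
open PST DWC

private lemma CoreY_id {α β : Type} [Fintype α] [Fintype β] [DecidableEq α] [DecidableEq β]
    {f : (α × β → ℂ) → ℂ} (hf : DifferentiableOn ℂ f (Om α β)) {z₀ : α × β → ℂ}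
    (hz₀ : z₀ ∈ Om α β) (h : ∀ᶠ w in nhds z₀, f w = 0) {w : α × β → ℂ} (hw : w ∈ Om α β) :
    f w = 0 := by
  obtain ⟨hO, hC, -, -⟩ := PST.All.OmT_ α β
  have hGa := GAM.analyticOnNhd_of_differentiableOn hO hf
  exact hGa.eqOn_zero_of_preconnected_of_eventuallyEq_zero hC.isPreconnected hz₀ h hw

private lemma CoreY_hat {α β μ : Type} [Fintype α] [Fintype β] [Fintype μ] [DecidableEq α]
    [DecidableEq β] [DecidableEq μ] {δ : Derivation ℚ ℂ ℂ} {L : Submodule ℤ (Ix α β μ → ℂ)}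
    {θ : (Ix α β μ → ℂ) → ℂ} {k : ℂ} {Bp : Matrix α α ℂ} {Bm : Matrix β β ℂ} {c : Matrix α β ℂ}
    (h : HasHat δ L θ k Bp Bm c) : HasHat2 δ L θ k Bp Bm c 0 := by
  intro x hx
  have e : hop2 k Bp Bm c 0 (F θ x) = hop k Bp Bm c (F θ x) := by
    funext v
    simp [hop2]
  rw [e]
  exact h x hx

private lemma CoreY_xi {α β : Type} [Fintype α] [Fintype β] [DecidableEq α] [DecidableEq β]
    (A : ℂ) (w : α × β → ℂ) (p : α × β) :
    xi (A • (1 : Matrix α α ℂ)) (A • (1 : Matrix β β ℂ)) 0 w p = 2 * A * w p := by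
  unfold xi
  simp only [Matrix.smul_apply, Matrix.one_apply, smul_eq_mul, mul_ite, mul_one, mul_zero, ite_mul,
    zero_mul, Finset.sum_ite_eq, Finset.mem_univ, if_true, Matrix.zero_apply, Finset.sum_const_zero,
    add_zero]
  ring

private lemma CoreY_vY (A : ℂ) (w : WX → ℂ) (p : WY) :
    vY (A • (1 : Matrix (Fin 3) (Fin 3) ℂ)) (A • (1 : Matrix Unit Unit ℂ)) 0 0
      (A • (1 : Matrix (Fin 3) (Fin 3) ℂ)) (A • (1 : Matrix (Fin 3) (Fin 3) ℂ)) 0 0 w p = 0 := by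
  unfold vY
  simp only [CoreY_xi, Matrix.zero_apply, add_zero]
  unfold rho
  split_ifs <;> ring

private lemma CoreY_rhoD (h4 : St_RhoM) : Differentiable ℂ rho := by
  obtain ⟨-, -, -, -, M, -, hM⟩ := h4
  have e : rho = fun w : WX → ℂ => (LinearMap.toContinuousLinearMap (Matrix.mulVecLin M)) w := by
    funext w
    rw [hM w]
    rfl
  rw [e]
  exact ContinuousLinearMap.differentiable _

private lemma CoreY_xiC {α β : Type} [Fintype α] [Fintype β] (Bp : Matrix α α ℂ)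
    (Bm : Matrix β β ℂ) (c : Matrix α β ℂ) (p : α × β) :
    Continuous (fun w : α × β → ℂ => xi Bp Bm c w p) := by
  unfold xi
  fun_prop

private lemma CoreY_vC (h4 : St_RhoM) (Bp : Matrix (Fin 3) (Fin 3) ℂ) (Bm : Matrix Unit Unit ℂ)
    (c b : Matrix (Fin 3) Unit ℂ) (BpY BmY cY bY : Matrix (Fin 3) (Fin 3) ℂ) (p : WY) :
    Continuous (fun w : WX → ℂ => vY Bp Bm c b BpY BmY cY bY w p) := by
  have hr := (CoreY_rhoD h4).continuous
  unfold vY
  refine (((CoreY_xiC BpY BmY cY p).comp hr).add continuous_const).sub ?_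
  have h1 : Continuous (fun w : WX → ℂ => fun q : WX => xi Bp Bm c w q + b q.1 q.2) :=
    continuous_pi fun q => (CoreY_xiC Bp Bm c q).add continuous_const
  exact (continuous_apply p).comp (hr.comp h1)

theorem thm_CoreY (h1 : St_RelY) (h2 : St_DelY) (h3 : St_DelQ) (h4 : St_RhoM) (h5 : St_UE2) :
    St_CoreY := by
  intro δ g L₀ L₁ χ₀ θ₀ χ₁ θ₁ LY₀ LY₁ χY₀ θY₀ χY₁ θY₁ e A k₀ kY₀ k₁ kY₁ Bp Bm c b BpY BmY cY bY
    y' D hy' hne
  have hU := D.maps.uni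
  have hUY : IsU (e2 g) := h5 g hU
  obtain ⟨hiU, hig, hgi, -, -⟩ := (PST.All.UGr_ (Fin 3) Unit Unit).2.2.2.2.2.1 g hU
  set gi : Matrix (Fin 3 ⊕ Unit) (Fin 3 ⊕ Unit) ℂ :=
    Jm (Fin 3) Unit * g.conjTranspose * Jm (Fin 3) Unit with hgi'
  set giY : Matrix (Fin 3 ⊕ Fin 3) (Fin 3 ⊕ Fin 3) ℂ :=
    Jm (Fin 3) (Fin 3) * (e2 g).conjTranspose * Jm (Fin 3) (Fin 3) with hgiY'
  obtain ⟨y, x, x', hy, hx, hx', hpsi, hfp, hfm, hdet⟩ :=
    PST.All.Pts_ (Fin 3) Unit Unit L₀ χ₀ θ₀ () D.pl₀ D.th₀ D.nz₀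
  obtain ⟨m, P, hPm, hP, z₁, hz₁, hPz₁⟩ := h1 L₀ χ₀ θ₀ LY₀ χY₀ θY₀ e y y' D.pl₀ D.th₀ D.nz₀
    D.plY₀ D.thY₀ D.nzY₀ D.coc hy hy' hne hdet
  obtain ⟨K₀, Ξ₀, hB₀⟩ := h2 δ L₀ χ₀ θ₀ LY₀ χY₀ θY₀ k₀ Bp Bm c b kY₀ BpY BmY cY bY D.pl₀ D.th₀
    D.plY₀ D.thY₀ D.op₀ D.opY₀
  obtain ⟨K₁, Ξ₁, hB₁⟩ := h2 δ L₁ χ₁ θ₁ LY₁ χY₁ θY₁ k₁ (A • (1 : Matrix (Fin 3) (Fin 3) ℂ))
    (A • (1 : Matrix Unit Unit ℂ)) 0 0 kY₁ (A • (1 : Matrix (Fin 3) (Fin 3) ℂ))
    (A • (1 : Matrix (Fin 3) (Fin 3) ℂ)) 0 0 D.pl₁ D.th₁ D.plY₁ D.thY₁ (CoreY_hat D.op₁)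
    (CoreY_hat D.opY₁)
  obtain ⟨hO, hCv, h0, -⟩ := PST.All.OmT_ (Fin 3) Unit
  obtain ⟨hOY, -, -, -⟩ := PST.All.OmT_ (Fin 3) (Fin 3)
  -- the two systems of functions
  set f₀ : Option (Option WX) → (WX → ℂ) → ℂ := fun o w => YF θ₀ θY₀ y y' w o with hf₀
  set f₁ : Option (Option WX) → (WX → ℂ) → ℂ := fun o w =>
    YF θ₁ θY₁ (fun i => act gi (y i)) (fun i => act giY (y' i)) w o with hf₁
  have hmt : Set.MapsTo rho (Om (Fin 3) Unit) (Om (Fin 3) (Fin 3)) := fun w hw => h4.2.1 w hw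
  have hpY : ∀ (LY : Submodule ℤ (IY → ℂ)) (χY θY : (IY → ℂ) → ℂ) (t : IY → ℂ), PLat LY χY →
      IsTh LY χY θY → DifferentiableOn ℂ (fun w => psi θY (rho w) t) (Om (Fin 3) Unit) := by
    intro LY χY θY t ha hb
    exact (Core_psiD PST.All.Ell_ ha hb t).comp (CoreY_rhoD h4).differentiableOn hmt
  have hf₀D : ∀ o, DifferentiableOn ℂ (f₀ o) (Om (Fin 3) Unit) := by
    intro o
    rcases o with _ | i
    · exact (Core_psiD PST.All.Ell_ D.pl₀ D.th₀ _).fun_mul (hpY LY₀ χY₀ θY₀ _ D.plY₀ D.thY₀)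
    · exact (Core_psiD PST.All.Ell_ D.pl₀ D.th₀ _).fun_mul (hpY LY₀ χY₀ θY₀ _ D.plY₀ D.thY₀)
  have hf₁D : ∀ o, DifferentiableOn ℂ (f₁ o) (Om (Fin 3) Unit) := by
    intro o
    rcases o with _ | i
    · exact (Core_psiD PST.All.Ell_ D.pl₁ D.th₁ _).fun_mul (hpY LY₁ χY₁ θY₁ _ D.plY₁ D.thY₁)
    · exact (Core_psiD PST.All.Ell_ D.pl₁ D.th₁ _).fun_mul (hpY LY₁ χY₁ θY₁ _ D.plY₁ D.thY₁)
  -- comparison
  have hj : ∀ w ∈ Om (Fin 3) Unit, ∃ j : ℂ, j ≠ 0 ∧ ∀ o, f₀ o (mob g w) = j * f₁ o w := by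
    intro w hw
    obtain ⟨j, hj0, hj⟩ := PST.All.EquP_ (Fin 3) Unit Unit g L₀ L₁ χ₀ θ₀ χ₁ θ₁ D.pl₀ D.pl₁ D.th₀
      D.th₁ D.nz₀ D.nz₁ D.maps w hw
    obtain ⟨i, hi0, hi⟩ := PST.All.EquP_ (Fin 3) (Fin 3) Unit (e2 g) LY₀ LY₁ χY₀ θY₀ χY₁ θY₁
      D.plY₀ D.plY₁ D.thY₀ D.thY₁ D.nzY₀ D.nzY₁ D.mapsY (rho w) (h4.2.1 w hw)
    rw [h4.2.2.1 g hU w hw] at hi
    have hq : ∀ t, psi θ₀ (mob g w) t = j * psi θ₁ w (act gi t) := by
      intro t
      rw [← hj, Core_act PST.All.UGr_ hU]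
    have hqY : ∀ t, psi θY₀ (rho (mob g w)) t = i * psi θY₁ (rho w) (act giY t) := by
      intro t
      rw [← hi, Core_act PST.All.UGr_ hUY]
    refine ⟨j * i, mul_ne_zero hj0 hi0, fun o => ?_⟩
    rcases o with _ | o
    · simp only [hf₀, hf₁, YF, hq, hqY]
      ring
    · simp only [hf₀, hf₁, YF, hq, hqY]
      ring
  have hP1 : ∀ w ∈ Om (Fin 3) Unit, MvPolynomial.eval (fun i => f₁ i w) P = 0 := by
    intro w hw
    obtain ⟨j, hj0, hj1⟩ := hj w hw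
    have h13 := hP (mob g w) (PST.All.UAl_ (Fin 3) Unit Unit g hU w hw).1
    have h14 := GAM.Core_hom hPm j (fun i => f₀ i (mob g w)) (fun i => f₁ i w) hj1
    have h15 : MvPolynomial.eval (fun i => f₀ i (mob g w)) P = 0 := h13
    rw [h14] at h15
    exact (mul_eq_zero.1 h15).resolve_left (pow_ne_zero m hj0)
  have hIO : Om (Fin 3) Unit ∈ nhds (0 : WX → ℂ) := hO.mem_nhds h0
  -- the relation at the CM point
  have hd₁ := h3 WX (Option (Option WX)) δ f₁ _ K₁ Ξ₁ m P hPm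
    (fun o => hB₁ (fun i => act gi (y i)) (fun i => act giY (y' i))
      (fun i => Core_odd PST.All.UGr_ D.maps (hy i))
      (fun i => Core_odd PST.All.UGr_ D.mapsY (hy' i)) o) (by
      filter_upwards [hIO] with w hw using hP1 w hw)
  have hd₁' : ∀ᶠ z in nhds (0 : WX → ℂ), (∑ m ∈ P.support, δ (P.coeff m) *
      MvPolynomial.eval (fun i => f₁ i z) (MvPolynomial.monomial m 1)) = 0 := by
    filter_upwards [hd₁] with z hz
    rw [← hz]
    simp only [CoreY_vY, zero_mul, mul_zero, Finset.sum_const_zero, add_zero]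
  have hE₁ : ∀ w ∈ Om (Fin 3) Unit, (∑ m ∈ P.support, δ (P.coeff m) *
      MvPolynomial.eval (fun i => f₁ i w) (MvPolynomial.monomial m 1)) = 0 := by
    intro w hw
    refine CoreY_id ?_ h0 hd₁' hw
    exact DifferentiableOn.fun_sum fun d _ =>
      (differentiableOn_const _).fun_mul (Core_evD _ f₁ hf₁D)
  have hE₀ : ∀ w ∈ Om (Fin 3) Unit, (∑ m ∈ P.support, δ (P.coeff m) *
      MvPolynomial.eval (fun i => f₀ i w) (MvPolynomial.monomial m 1)) = 0 := by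
    intro w hw
    have h13 := PST.All.UAl_ (Fin 3) Unit Unit gi hiU w hw
    have hw' := h13.1
    have h14 : mob g (mob gi w) = w := by
      rw [← h13.2.2.2.2.2.2.2 g hU, hgi, Core_mob1]
    obtain ⟨j, hj0, hj1⟩ := hj _ hw'
    rw [h14] at hj1
    rw [GAM.Core_mon hPm δ j (fun i => f₀ i w) (fun i => f₁ i (mob gi w)) hj1, hE₁ _ hw', mul_zero]
  -- the relation at the given point
  have hd₀ := h3 WX (Option (Option WX)) δ f₀ _ K₀ Ξ₀ m P hPm
    (fun o => hB₀ y y' hy hy' o) (by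
      filter_upwards [hIO] with w hw using hP w hw)
  -- the bracket
  set q₀ : (WX → ℂ) → ℂ := fun w => psi θY₀ (rho w) (y' false) with hq₀
  set q₁ : (WX → ℂ) → ℂ := fun w => psi θY₀ (rho w) (y' true) with hq₁
  set V₀ : (WX → ℂ) → ℂ := fun w => ∑ p, vY Bp Bm c b BpY BmY cY bY w p *
    pd p (fun u => psi θY₀ u (y' false)) (rho w) with hV₀
  set V₁ : (WX → ℂ) → ℂ := fun w => ∑ p, vY Bp Bm c b BpY BmY cY bY w p *
    pd p (fun u => psi θY₀ u (y' true)) (rho w) with hV₁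
  have hVC : ∀ t : IY → ℂ, ContinuousOn (fun w => ∑ p, vY Bp Bm c b BpY BmY cY bY w p *
      pd p (fun u => psi θY₀ u t) (rho w)) (Om (Fin 3) Unit) := by
    intro t
    refine continuousOn_finset_sum _ fun p _ => ?_
    refine (CoreY_vC h4 Bp Bm c b BpY BmY cY bY p).continuousOn.mul ?_
    have h6 := (GAM.DelDR_pd_hol hOY (Core_psiD PST.All.Ell_ D.plY₀ D.thY₀ t) p).continuousOn
    exact h6.comp (CoreY_rhoD h4).continuous.continuousOn hmt
  have hqC : ∀ t : IY → ℂ, ContinuousOn (fun w => psi θY₀ (rho w) t) (Om (Fin 3) Unit) :=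
    fun t => (hpY LY₀ χY₀ θY₀ t D.plY₀ D.thY₀).continuousOn
  have hBC : ContinuousOn (fun w => q₀ w * V₁ w - q₁ w * V₀ w) (Om (Fin 3) Unit) :=
    ((hqC _).mul (hVC _)).sub ((hqC _).mul (hVC _))
  have hps : ContinuousAt (fun w => psi θ₀ w (y none)) 0 :=
    ((Core_psiD PST.All.Ell_ D.pl₀ D.th₀ (y none)).continuousOn).continuousAt hIO
  have hprod : ∀ᶠ z in nhds (0 : WX → ℂ),
      MvPolynomial.eval (fun i => f₀ i z) (MvPolynomial.pderiv none P) *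
        (q₀ z * V₁ z - q₁ z * V₀ z) = 0 := by
    filter_upwards [hd₀, hIO, hps.eventually_ne hpsi] with z hz hzO hz3
    rw [hE₀ z hzO, zero_add] at hz
    have h11 := congrArg (MvPolynomial.eval fun i => f₀ i z) hPm.sum_X_mul_pderiv
    rw [map_sum, map_nsmul, show MvPolynomial.eval (fun i => f₀ i z) P = 0 from hP z hzO,
      smul_zero] at h11
    simp only [map_mul, MvPolynomial.eval_X] at h11
    rw [Fintype.sum_option] at hz h11
    have h20 : f₀ none z = psi θ₀ z (y none) * q₁ z := rfl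
    have h21 : ∀ o, f₀ (some o) z = psi θ₀ z (y o) * q₀ z := fun o => rfl
    simp only [h20, h21, Option.getD_none, Option.getD_some, Option.isNone_none,
      Option.isNone_some] at hz h11
    set S : ℂ := ∑ o : Option WX, psi θ₀ z (y o) *
      MvPolynomial.eval (fun i => f₀ i z) (MvPolynomial.pderiv (some o) P) with hS
    have h22 : ∑ o : Option WX, psi θ₀ z (y o) * q₀ z *
        MvPolynomial.eval (fun i => f₀ i z) (MvPolynomial.pderiv (some o) P) = q₀ z * S := by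
      rw [hS, Finset.mul_sum]
      exact Finset.sum_congr rfl fun o _ => by ring
    have h23 : ∑ o : Option WX, psi θ₀ z (y o) * V₀ z *
        MvPolynomial.eval (fun i => f₀ i z) (MvPolynomial.pderiv (some o) P) = V₀ z * S := by
      rw [hS, Finset.mul_sum]
      exact Finset.sum_congr rfl fun o _ => by ring
    have h24 : psi θ₀ z (y none) * q₁ z *
        MvPolynomial.eval (fun i => f₀ i z) (MvPolynomial.pderiv none P) + q₀ z * S = 0 := by
      rw [← h22]; exact h11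
    have h25 : psi θ₀ z (y none) * V₁ z *
        MvPolynomial.eval (fun i => f₀ i z) (MvPolynomial.pderiv none P) + V₀ z * S = 0 := by
      rw [← h23]; exact hz
    have h26 : psi θ₀ z (y none) *
        (MvPolynomial.eval (fun i => f₀ i z) (MvPolynomial.pderiv none P) *
        (q₀ z * V₁ z - q₁ z * V₀ z)) = 0 := by
      linear_combination q₀ z * h25 - V₀ z * h24
    exact (mul_eq_zero.1 h26).resolve_left hz3
  -- one of the factors vanishes
  have hmem := hprod.and hIO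
  obtain ⟨U, hU1, hU2, hU3⟩ := eventually_nhds_iff.1 hmem
  filter_upwards [hU2.mem_nhds hU3] with z hz
  by_contra hnz
  have hnz' : q₀ z * V₁ z - q₁ z * V₀ z ≠ 0 := fun h => hnz (sub_eq_zero.1 h)
  have hzO := (hU1 z hz).2
  have hcz : ContinuousAt (fun w => q₀ w * V₁ w - q₁ w * V₀ w) z :=
    hBC.continuousAt (hO.mem_nhds hzO)
  have hev : ∀ᶠ w in nhds z,
      MvPolynomial.eval (fun i => f₀ i w) (MvPolynomial.pderiv none P) = 0 := by
    filter_upwards [hcz.eventually_ne hnz', hU2.mem_nhds hz] with w hw1 hw2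
    exact (mul_eq_zero.1 (hU1 w hw2).1).resolve_right hw1
  exact hPz₁ (CoreY_id (Core_evD _ f₀ hf₀D) hzO hev hz₁)

end DWY
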