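import Pool.Agent.DWY.StC

/-!
# DWY module CxA: the coordinates `cx`, `cy`
-/

set_option autoImplicit false

namespace DWY

open scoped ComplexConjugate
open GAM (H E F pd pdl PLat IsTh OddTor IsDel Gro IsLat GoodN LinN)
open PST DWC
open Pool.Agent.GPC (AbVar hermForm bilForm IsAlgQuadratic)

section CxAblk

variable {α β μ : Type} [Fintype α] [Fintype β] [Fintype μ] [DecidableEq α] [DecidableEq β]
  [DecidableEq μ]

private theorem CxA_blk_mul (P P' : Matrix α α ℂ) (Q Q' : Matrix β β ℂ) :
    blk μ P Q * blk μ P' Q' = blk μ (P * P') (Q * Q') := by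
  ext ⟨p, k⟩ ⟨q, l⟩
  rw [Matrix.mul_apply]
  simp only [blk, Matrix.of_apply, Fintype.sum_prod_type, ite_mul, zero_mul, mul_ite, mul_zero]
  simp only [Finset.sum_ite_eq', Finset.mem_univ, if_true]
  by_cases h : k = l
  · subst h
    simp only [if_true]
    rw [← Matrix.mul_apply, Matrix.fromBlocks_multiply]
    simp
  · simp [h]

private theorem CxA_blk_one : blk μ (1 : Matrix α α ℂ) (1 : Matrix β β ℂ) = 1 := by
  ext ⟨p, k⟩ ⟨q, l⟩
  rw [blk, Matrix.of_apply, Matrix.fromBlocks_one]
  simp only [Matrix.one_apply, Prod.mk.injEq]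
  by_cases h : k = l <;> by_cases h' : p = q <;> simp [h, h']

end CxAblk

private theorem CxA_sum {ι : Type} (s : Finset ι) (f : ι → ℂ)
    (h : ∀ i ∈ s, IsAlgebraic ℚ (f i)) : IsAlgebraic ℚ (∑ i ∈ s, f i) :=
  Finset.sum_induction f (fun x => IsAlgebraic ℚ x) (fun _ _ ha hb => ha.add hb)
    isAlgebraic_zero h

private theorem CxA_mulVec {m n : Type} [Fintype n] (M : Matrix m n ℂ) (v : n → ℂ)
    (hM : ∀ i j, IsAlgebraic ℚ (M i j)) (hv : ∀ j, IsAlgebraic ℚ (v j)) (i : m) :
    IsAlgebraic ℚ (M.mulVec v i) :=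
  CxA_sum _ _ (fun j _ => (hM i j).mul (hv j))

private theorem CxA_eta {ι : Type} [Fintype ι] (X : AbVar) (T : Matrix ι (Fin X.g) ℂ)
    (herm : ∀ z w, hermForm X.H z w = H (T.mulVec z) (T.mulVec w)) (l : Fin X.g → ℂ)
    (a : Fin X.g) : X.eta l a =
      Real.pi * (T.transpose.mulVec (fun p => conj (T.mulVec l p))) a + X.q.mulVec l a := by
  unfold AbVar.eta
  rw [herm]
  have h1 : T.mulVec (Pi.single a 1) = fun p => T p a := by
    rw [Matrix.mulVec_single_one]
    rfl
  have h2 : bilForm X.q (Pi.single a 1) l = X.q.mulVec l a := by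
    unfold bilForm
    rw [Finset.sum_eq_single a]
    · simp only [Pi.single_eq_same, one_mul]
      rfl
    · intro b _ hb
      simp [Pi.single_eq_of_ne hb]
    · intro h
      exact absurd (Finset.mem_univ a) h
  rw [h1, h2]
  rfl

theorem thm_CxA : St_CxA := by
  intro X d α β _ _ _ _ T S Tp Tm Ta Tb κ L hN
  have hpi : (Real.pi : ℂ) ≠ 0 := Complex.ofReal_ne_zero.mpr Real.pi_ne_zero
  have hTS := hN.ts
  have hST := hN.st
  have hSt : T.transpose * S.transpose = 1 := by
    rw [← Matrix.transpose_mul, hST, Matrix.transpose_one]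
  have hTt : S.transpose * T.transpose = 1 := by
    rw [← Matrix.transpose_mul, hTS, Matrix.transpose_one]
  -- linear maps
  have hlx : IsLinearMap ℂ (cx X T) := by
    constructor
    · intro u v
      unfold cx
      rw [map_add, Matrix.mulVec_add]
    · intro c u
      unfold cx
      rw [map_smul, Matrix.mulVec_smul]
  have hly : IsLinearMap ℂ (cy X S) := by
    constructor
    · intro u v
      unfold cy
      funext a
      have h1 : (fun i => (u + v) (Sum.inr i) - X.q.mulVec (X.zz (u + v)) i) =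
          (fun i => u (Sum.inr i) - X.q.mulVec (X.zz u) i) +
            fun i => v (Sum.inr i) - X.q.mulVec (X.zz v) i := by
        funext i
        rw [map_add, Matrix.mulVec_add, Pi.add_apply, Pi.add_apply, Pi.add_apply]
        ring
      rw [h1, Matrix.mulVec_add, Pi.add_apply, Pi.add_apply]
      ring
    · intro c u
      unfold cy
      funext a
      have h1 : (fun i => (c • u) (Sum.inr i) - X.q.mulVec (X.zz (c • u)) i) =
          c • fun i => u (Sum.inr i) - X.q.mulVec (X.zz u) i := by
        funext i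
        rw [map_smul, Matrix.mulVec_smul, Pi.smul_apply, Pi.smul_apply, Pi.smul_apply,
          smul_eq_mul, smul_eq_mul, smul_eq_mul]
        ring
      rw [h1, Matrix.mulVec_smul, Pi.smul_apply, Pi.smul_apply, smul_eq_mul, smul_eq_mul]
      ring
  -- inversion formulas
  have hzx : ∀ v : X.H1, X.zz v = S.mulVec (cx X T v) := by
    intro v
    unfold cx
    rw [Matrix.mulVec_mulVec, hST, Matrix.one_mulVec]
  have hwy : ∀ (v : X.H1) (i : Fin X.g), v (Sum.inr i) =
      Real.pi * T.transpose.mulVec (cy X S v) i + X.q.mulVec (X.zz v) i := by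
    intro v i
    have h1 : cy X S v = (1 / (Real.pi : ℂ)) • S.transpose.mulVec
        (fun i => v (Sum.inr i) - X.q.mulVec (X.zz v) i) := by
      funext a
      rfl
    rw [h1, Matrix.mulVec_smul, Matrix.mulVec_mulVec, hSt, Matrix.one_mulVec, Pi.smul_apply,
      smul_eq_mul]
    field_simp
    ring
  have hker : ∀ v, cx X T v = 0 → cy X S v = 0 → v = 0 := by
    intro v h1 h2
    have h3 : X.zz v = 0 := by
      rw [hzx, h1, Matrix.mulVec_zero]
    funext j
    rcases j with i | i
    · exact congrFun h3 i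
    · rw [hwy v i, h2, h3]
      simp
  have hper : ∀ l : Fin X.g → ℂ, cx X T (X.period l) = T.mulVec l ∧
      cy X S (X.period l) = fun p => conj (T.mulVec l p) := by
    intro l
    have h0 : X.zz (X.period l) = l := X.zz_period l
    refine ⟨?_, ?_⟩
    · unfold cx
      rw [h0]
    · have h1 : (fun i => (X.period l) (Sum.inr i) - X.q.mulVec (X.zz (X.period l)) i) =
          (Real.pi : ℂ) • T.transpose.mulVec (fun p => conj (T.mulVec l p)) := by
        funext i
        rw [h0]
        have h2 : (X.period l) (Sum.inr i) = X.eta l i := rfl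
        rw [h2, CxA_eta X T hN.herm l i, Pi.smul_apply, smul_eq_mul]
        ring
      funext a
      unfold cy
      rw [h1, Matrix.mulVec_smul, Matrix.mulVec_mulVec, hTt, Matrix.one_mulVec, Pi.smul_apply,
        smul_eq_mul]
      field_simp
  have hcxs : ∀ (c : ℂ) (v : X.H1), cx X T (c • v) = c • cx X T v := fun c v => hlx.map_smul c v
  have hcys : ∀ (c : ℂ) (v : X.H1), cy X S (c • v) = c • cy X S v := fun c v => hly.map_smul c v
  -- blocks
  have hB1 : blk Unit Tp Tm * blk Unit Tp⁻¹ Tm⁻¹ = 1 := by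
    rw [CxA_blk_mul, Matrix.mul_nonsing_inv _ (isUnit_iff_ne_zero.mpr hN.dp),
      Matrix.mul_nonsing_inv _ (isUnit_iff_ne_zero.mpr hN.dm), CxA_blk_one]
  have hB2 : blk Unit Tp⁻¹ Tm⁻¹ * blk Unit Tp Tm = 1 := by
    rw [CxA_blk_mul, Matrix.nonsing_inv_mul _ (isUnit_iff_ne_zero.mpr hN.dp),
      Matrix.nonsing_inv_mul _ (isUnit_iff_ne_zero.mpr hN.dm), CxA_blk_one]
  have hTa : Ta = blk Unit Tp⁻¹ Tm⁻¹ * T := by
    rw [hN.fac, ← Matrix.mul_assoc, hB2, Matrix.one_mul]
  have hTbTa : Tb * Ta = 1 := by
    rw [hTa, hN.facb, Matrix.mul_assoc, ← Matrix.mul_assoc (blk Unit Tp Tm), hB1,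
      Matrix.one_mul, hST]
  have hTaTb : Ta * Tb = 1 := by
    rw [hTa, hN.facb, Matrix.mul_assoc, ← Matrix.mul_assoc T, hTS, Matrix.one_mul, hB2]
  have hS : S = Tb * blk Unit Tp⁻¹ Tm⁻¹ := by
    rw [hN.facb, Matrix.mul_assoc, hB1, Matrix.mul_one]
  refine ⟨hlx, hly, ?_, hker, ?_, ?_, ?_⟩
  · intro x y
    refine ⟨Sum.elim (S.mulVec x) (fun i => Real.pi * T.transpose.mulVec y i +
      X.q.mulVec (S.mulVec x) i), ?_, ?_⟩
    · unfold cx
      have h1 : X.zz (Sum.elim (S.mulVec x) (fun i => Real.pi * T.transpose.mulVec y i +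
        X.q.mulVec (S.mulVec x) i)) = S.mulVec x := rfl
      rw [h1, Matrix.mulVec_mulVec, hTS, Matrix.one_mulVec]
    · have h1 : X.zz (Sum.elim (S.mulVec x) (fun i => Real.pi * T.transpose.mulVec y i +
        X.q.mulVec (S.mulVec x) i)) = S.mulVec x := rfl
      have h2 : (fun i => (Sum.elim (S.mulVec x) (fun i => Real.pi * T.transpose.mulVec y i +
          X.q.mulVec (S.mulVec x) i) : X.H1) (Sum.inr i) - X.q.mulVec (X.zz (Sum.elim
          (S.mulVec x) (fun i => Real.pi * T.transpose.mulVec y i +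
          X.q.mulVec (S.mulVec x) i))) i) = (Real.pi : ℂ) • T.transpose.mulVec y := by
        funext i
        rw [h1, Pi.smul_apply, smul_eq_mul, Sum.elim_inr]
        ring
      funext a
      unfold cy
      rw [h2, Matrix.mulVec_smul, Matrix.mulVec_mulVec, hTt, Matrix.one_mulVec, Pi.smul_apply,
        smul_eq_mul]
      field_simp
  · intro v
    constructor
    · intro h
      have h1 : X.zz v = 0 := funext fun a => h a
      unfold cx
      rw [h1, Matrix.mulVec_zero]
    · intro h a
      have h1 : X.zz v = 0 := by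
        rw [hzx, h, Matrix.mulVec_zero]
      exact congrFun h1 a
  · intro v
    constructor
    · rintro ⟨N, hN0, l, hl, hv⟩
      have hNc : (N : ℂ) ≠ 0 := Nat.cast_ne_zero.mpr hN0
      have h1 : (N : ℂ) • cx X T v = T.mulVec l := by
        rw [← hcxs, hv, (hper l).1]
      have h2 : (N : ℂ) • cy X S v = fun p => conj (T.mulVec l p) := by
        rw [← hcys, hv, (hper l).2]
      refine ⟨?_, ?_⟩
      · intro p
        have h3 := congrFun h1 p
        have h4 := congrFun h2 p
        rw [Pi.smul_apply, smul_eq_mul] at h3 h4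
        rw [← h3, map_mul, Complex.conj_natCast] at h4
        exact mul_left_cancel₀ hNc h4
      · have h5 : ∃ n : ℕ, n ≠ 0 ∧ (n : ℤ) • X.zz v ∈ X.Λ := by
          refine ⟨N, hN0, ?_⟩
          have h6 : (N : ℤ) • X.zz v = l := by
            have h7 : X.zz ((N : ℂ) • v) = l := by rw [hv]; exact X.zz_period l
            rw [← h7, map_smul]
            funext i
            simp
          rw [h6]
          exact hl
        obtain ⟨n, hn, h6⟩ := (hN.lat (X.zz v)).mp h5
        refine ⟨n, hn, ?_⟩
        have h7 : T.mulVec ((n : ℤ) • X.zz v) = (n : ℤ) • cx X T v := by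
          unfold cx
          rw [Matrix.mulVec_smul]
        rw [← h7]
        exact h6
    · rintro ⟨hc, n, hn, h6⟩
      have h7 : T.mulVec ((n : ℤ) • X.zz v) = (n : ℤ) • cx X T v := by
        unfold cx
        rw [Matrix.mulVec_smul]
      rw [← h7] at h6
      obtain ⟨N, hN0, hl⟩ := (hN.lat (X.zz v)).mpr ⟨n, hn, h6⟩
      refine ⟨N, hN0, (N : ℤ) • X.zz v, hl, ?_⟩
      have h8 : T.mulVec ((N : ℤ) • X.zz v) = (N : ℂ) • cx X T v := by
        unfold cx
        rw [Matrix.mulVec_smul]
        funext i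
        simp
      have h9 : (N : ℂ) • v - X.period ((N : ℤ) • X.zz v) = 0 := by
        apply hker
        · rw [hlx.map_sub, hcxs, (hper _).1, h8, sub_self]
        · rw [hly.map_sub, hcys, (hper _).2, h8]
          funext p
          rw [Pi.sub_apply, Pi.smul_apply, smul_eq_mul, hc p]
          simp
      exact sub_eq_zero.mp h9
  · intro v
    have hcx : cx X T v = (blk Unit Tp Tm).mulVec (Ta.mulVec (X.zz v)) := by
      unfold cx
      rw [Matrix.mulVec_mulVec, ← hN.fac]
    have hcy : ∀ p, cy X S v p = 1 / Real.pi * (blk Unit Tp⁻¹ Tm⁻¹).transpose.mulVec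
        (Tb.transpose.mulVec (fun i => v (Sum.inr i) - X.q.mulVec (X.zz v) i)) p := by
      intro p
      unfold cy
      rw [Matrix.mulVec_mulVec, ← Matrix.transpose_mul, ← hS]
    have hz : X.zz v = Tb.mulVec (Ta.mulVec (X.zz v)) := by
      rw [Matrix.mulVec_mulVec, hTbTa, Matrix.one_mulVec]
    -- the remainder
    have hR : ∀ (ζ : Ix α β Unit → ℂ), X.zz v = Tb.mulVec ζ →
        Tb.transpose.mulVec (fun i => v (Sum.inr i) - X.q.mulVec (X.zz v) i) =
          Tb.transpose.mulVec (fun i => v (Sum.inr i)) - (qb κ).mulVec ζ -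
            (Tb.transpose * X.q * Tb - qb κ).mulVec ζ := by
      intro ζ hζ
      have h1 : (fun i => v (Sum.inr i) - X.q.mulVec (X.zz v) i) =
          (fun i => v (Sum.inr i)) - X.q.mulVec (X.zz v) := by
        funext i
        rfl
      rw [h1, Matrix.mulVec_sub, hζ, Matrix.sub_mulVec, Matrix.mulVec_mulVec,
        Matrix.mulVec_mulVec, Matrix.mul_assoc]
      abel
    constructor
    · intro hv
      have hζ : ∀ p, IsAlgebraic ℚ (Ta.mulVec (X.zz v) p) := fun p =>
        CxA_mulVec Ta (X.zz v) hN.alg (fun j => hv (Sum.inl j)) p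
      refine ⟨Ta.mulVec (X.zz v), fun p => Tb.transpose.mulVec (fun i => v (Sum.inr i)) p -
        (Tb.transpose * X.q * Tb - qb κ).mulVec (Ta.mulVec (X.zz v)) p, hζ, ?_, hcx, ?_⟩
      · intro p
        refine IsAlgebraic.sub ?_ ?_
        · exact CxA_mulVec Tb.transpose _ (fun i j => hN.algb j i)
            (fun j => hv (Sum.inr j)) p
        · exact CxA_mulVec _ _ (fun i j => hN.qq i j) hζ p
      · intro p
        have h9 : Tb.transpose.mulVec (fun i => v (Sum.inr i)) -
            (qb κ).mulVec (Ta.mulVec (X.zz v)) -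
            (Tb.transpose * X.q * Tb - qb κ).mulVec (Ta.mulVec (X.zz v)) =
            fun p' => (Tb.transpose.mulVec (fun i => v (Sum.inr i)) p' -
            (Tb.transpose * X.q * Tb - qb κ).mulVec (Ta.mulVec (X.zz v)) p') -
            (qb κ).mulVec (Ta.mulVec (X.zz v)) p' := by
          funext p'
          rw [Pi.sub_apply, Pi.sub_apply]
          ring
        rw [hcy p, hR _ hz, h9]
    · rintro ⟨ζ, η, hζ, hη, h1, h2⟩
      have h3 : X.zz v = Tb.mulVec ζ := by
        rw [hzx, h1, Matrix.mulVec_mulVec, ← hN.facb]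
      have h4 : Tb.transpose.mulVec (fun i => v (Sum.inr i) - X.q.mulVec (X.zz v) i) =
          fun p' => η p' - (qb κ).mulVec ζ p' := by
        have h5 : (blk Unit Tp⁻¹ Tm⁻¹).transpose.mulVec
            (Tb.transpose.mulVec (fun i => v (Sum.inr i) - X.q.mulVec (X.zz v) i)) =
            (blk Unit Tp⁻¹ Tm⁻¹).transpose.mulVec (fun p' => η p' - (qb κ).mulVec ζ p') := by
          funext p
          have h6 := h2 p
          rw [hcy p] at h6
          exact mul_left_cancel₀ (one_div_ne_zero hpi) h6
        have h7 : (blk Unit Tp Tm).transpose * (blk Unit Tp⁻¹ Tm⁻¹).transpose = 1 := by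
          rw [← Matrix.transpose_mul, hB2, Matrix.transpose_one]
        have h8 := congrArg (fun u => (blk Unit Tp Tm).transpose.mulVec u) h5
        simp only [Matrix.mulVec_mulVec, h7, Matrix.one_mulVec] at h8
        rw [← Matrix.mul_assoc, h7, Matrix.one_mul] at h8
        exact h8
      have h5 : (fun i => v (Sum.inr i)) = Ta.transpose.mulVec (fun p' => η p' +
          (Tb.transpose * X.q * Tb - qb κ).mulVec ζ p') := by
        have h6 := hR ζ h3
        rw [h4] at h6
        have h7 : Tb.transpose.mulVec (fun i => v (Sum.inr i)) = fun p' => η p' +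
          (Tb.transpose * X.q * Tb - qb κ).mulVec ζ p' := by
          funext p
          have h8 := congrFun h6 p
          rw [Pi.sub_apply, Pi.sub_apply] at h8
          linear_combination -h8
        rw [← h7, Matrix.mulVec_mulVec, ← Matrix.transpose_mul, hTbTa, Matrix.transpose_one,
          Matrix.one_mulVec]
      intro j
      rcases j with j | j
      · have h6 : v (Sum.inl j) = Tb.mulVec ζ j := congrFun h3 j
        rw [h6]
        exact CxA_mulVec Tb ζ hN.algb hζ j
      · have h6 := congrFun h5 j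
        rw [h6]
        exact CxA_mulVec _ _ (fun i j => hN.alg j i) (fun p' => (hη p').add
          (CxA_mulVec _ _ (fun i j => hN.qq i j) hζ p')) j

end DWY
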