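import Pool.Agent.DWY.StA
import Pool.Agent.PST.DelE
import Pool.Agent.PST.DelX
import Pool.Agent.PST.Ell
import Pool.Agent.PST.EllH
import Pool.Agent.PST.EllB
import Pool.Agent.PST.EllZ
import Pool.Agent.PST.EllI
import Pool.Agent.PST.EllW
import Pool.Agent.PST.OmT
import Pool.Agent.PST.HolP
import Pool.Agent.PST.Gau

/-!
# DWY [DelF]: `δ` and the Fock vectors
-/

set_option autoImplicit false

namespace DWY

open scoped ComplexConjugate
open GAM (H E F pd pdl PLat IsTh OddTor IsDel Gro IsLat)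
open PST DWC

private theorem DelF_Ell : St_Ell :=
  thm_Ell (thm_EllH thm_OmT thm_HolP thm_Gau thm_EllI) (thm_EllB thm_Gau thm_EllI)
    (thm_EllZ thm_Gau thm_EllI (thm_EllB thm_Gau thm_EllI)) thm_EllI thm_Gau

private theorem DelF_DelE : PST.St_DelE := thm_DelE DelF_Ell (thm_EllW DelF_Ell thm_OmT) thm_OmT

/-- `δ` and the Fock vectors. -/
theorem thm_DelF (h : St_HatF) : St_DelF := by
  intro α β μ _ _ _ _ _ _ δ L χ θ k Bp Bm c b hL hθ hH y hy
  have hG : Gro (F θ y) := (DelX_Gro (Ix α β μ)).1 L χ θ hL hθ y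
  obtain ⟨g1, g2⟩ := h α β μ k Bp Bm c b (F θ y) hG
  have h5 := DelF_DelE α β μ δ (F θ y) _ hG g1 (hH y hy)
  obtain ⟨hO, -, h0, -⟩ := thm_OmT α β
  refine DelX_congr h5 Filter.EventuallyEq.rfl ?_
  filter_upwards [hO.mem_nhds h0] with w hw
  rw [g2 w hw]
  have e1 : δ ↑Real.pi / ↑Real.pi * ∑ p, w p * pd p (fun w => ell w (F θ y)) w =
      ∑ p, δ ↑Real.pi / ↑Real.pi * w p * pd p (fun w => ell w (F θ y)) w := by
    rw [Finset.mul_sum]
    exact Finset.sum_congr rfl fun p _ => by ring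
  rw [e1]
  simp only [sub_mul, Finset.sum_sub_distrib, psi]
  ring

end DWY
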