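import Pool.Agent.DWY.StA
import Pool.Agent.PST.DelX

/-!
# DWY [DelL]: derivatives by `δ` and linear substitutions with algebraic coefficients
-/

set_option autoImplicit false
set_option linter.unusedSectionVars false

namespace DWY

open scoped Topology
open Filter
open GAM (pd pdl)
open PST

section

variable {κ κ' : Type} [Fintype κ] [DecidableEq κ] [Fintype κ'] [DecidableEq κ']

theorem DelL_pd_an {f : (κ → ℂ) → ℂ} (hf : AnalyticAt ℂ f 0) (j : κ) :
    AnalyticAt ℂ (pd j f) 0 := Pool.Agent.Helper8.analyticAt_dd hf _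

theorem DelL_comp {f : (κ → ℂ) → ℂ} (M : Matrix κ κ' ℂ) (hf : AnalyticAt ℂ f 0) :
    AnalyticAt ℂ (fun w : κ' → ℂ => f (M.mulVec w)) 0 := by
  have h1 : AnalyticAt ℂ (fun w : κ' → ℂ => M.mulVec w) 0 :=
    (LinearMap.toContinuousLinearMap (Matrix.mulVecLin M)).analyticAt 0
  have h2 : AnalyticAt ℂ f (M.mulVec 0) := by rw [Matrix.mulVec_zero]; exact hf
  exact h2.comp (f := fun w : κ' → ℂ => M.mulVec w) h1

/-- chain rule at a point -/
theorem DelL_pd_at (M : Matrix κ κ' ℂ) {a : (κ → ℂ) → ℂ} {z : κ' → ℂ}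
    (ha : AnalyticAt ℂ a (M.mulVec z)) (k : κ') :
    pd k (fun v : κ' → ℂ => a (M.mulVec v)) z = ∑ i, M i k * pd i a (M.mulVec z) := by
  have hT : HasFDerivAt (fun v : κ' → ℂ => M.mulVec v)
      (LinearMap.toContinuousLinearMap (Matrix.mulVecLin M)) z :=
    (LinearMap.toContinuousLinearMap (Matrix.mulVecLin M)).hasFDerivAt
  have hc := ha.differentiableAt.hasFDerivAt.comp z hT
  have h2 : pd k (fun v : κ' → ℂ => a (M.mulVec v)) z =
      fderiv ℂ a (M.mulVec z) (M.mulVec (Pi.single k 1)) := by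
    unfold pd
    have h3 : (fun v : κ' → ℂ => a (M.mulVec v)) = a ∘ fun v : κ' → ℂ => M.mulVec v := rfl
    rw [h3, hc.fderiv]
    rfl
  rw [h2]
  have h4 : M.mulVec (Pi.single k 1) = ∑ i, M i k • (Pi.single i (1 : ℂ) : κ → ℂ) := by
    funext i
    rw [Matrix.mulVec_single_one, Finset.sum_apply]
    simp [Pi.single_apply]
  rw [h4, map_sum]
  refine Finset.sum_congr rfl fun i _ => ?_
  rw [map_smul, smul_eq_mul]
  rfl

/-- chain rule near the origin -/
theorem DelL_pd_ev (M : Matrix κ κ' ℂ) {a : (κ → ℂ) → ℂ} (ha : AnalyticAt ℂ a 0) (k : κ') :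
    pd k (fun v : κ' → ℂ => a (M.mulVec v)) =ᶠ[𝓝 0]
      fun v => ∑ i, M i k * pd i a (M.mulVec v) := by
  have h1 : ContinuousAt (fun v : κ' → ℂ => M.mulVec v) 0 :=
    (LinearMap.toContinuousLinearMap (Matrix.mulVecLin M)).continuous.continuousAt
  have h2 : Tendsto (fun v : κ' → ℂ => M.mulVec v) (𝓝 0) (𝓝 0) := by
    have h3 := h1.tendsto
    rwa [Matrix.mulVec_zero] at h3
  exact (h2.eventually ha.eventually_analyticAt).mono fun z hz => DelL_pd_at M hz k

theorem DelL_pdl_mul {f : (κ → ℂ) → ℂ} (hf : AnalyticAt ℂ f 0) (c : ℂ) (l : List κ) :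
    pdl l (fun v => c * f v) 0 = c * pdl l f 0 := by
  rw [GAM.DelR_pdl_eq, GAM.DelR_pdl_eq]
  exact Pool.Agent.Helper8.dds_const_mul c _ hf

theorem DelL_pdl_sum {τ : Type} (s : Finset τ) {f : τ → (κ → ℂ) → ℂ}
    (hf : ∀ a, AnalyticAt ℂ (f a) 0) (l : List κ) :
    pdl l (fun v => ∑ a ∈ s, f a v) 0 = ∑ a ∈ s, pdl l (f a) 0 := by
  have h := Pool.Agent.Helper8.dds_sum s f (l.map fun a => (Pi.single a (1 : ℂ) : κ → ℂ))
    (z := 0) (fun a _ => hf a)
  have h2 : (∑ a ∈ s, f a) = fun v => ∑ a ∈ s, f a v := by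
    funext v; rw [Finset.sum_apply]
  rw [h2] at h
  rw [GAM.DelR_pdl_eq, h]
  exact Finset.sum_congr rfl fun a _ => by rw [GAM.DelR_pdl_eq]

theorem DelL_pd {δ : Derivation ℚ ℂ ℂ} {a a' : (κ → ℂ) → ℂ} (ha : IsDelG δ a a') (j : κ) :
    IsDelG δ (pd j a) (pd j a') :=
  ⟨DelL_pd_an ha.an j, DelL_pd_an ha.an' j, fun l => by
    rw [← GAM.DelR_snoc, ← GAM.DelR_snoc, ha.del]⟩

theorem DelL_aux (δ : Derivation ℚ ℂ ℂ) (M : Matrix κ κ' ℂ)
    (hM : ∀ i k, IsAlgebraic ℚ (M i k)) (n : ℕ) : ∀ (l : List κ'),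
    l.length = n → ∀ (a a' : (κ → ℂ) → ℂ), IsDelG δ a a' →
    pdl l (fun v : κ' → ℂ => a' (M.mulVec v)) 0 =
      δ (pdl l (fun v : κ' → ℂ => a (M.mulVec v)) 0) := by
  induction n with
  | zero =>
    intro l hl a a' ha
    rw [List.length_eq_zero_iff] at hl
    subst hl
    have h2 := ha.del []
    change a' 0 = δ (a 0) at h2
    change a' (M.mulVec 0) = δ (a (M.mulVec 0))
    rw [Matrix.mulVec_zero, h2]
  | succ n ih =>
    intro l hl a a' ha
    rcases List.eq_nil_or_concat l with rfl | ⟨l', j, rfl⟩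
    · simp at hl
    · rw [List.concat_eq_append] at hl ⊢
      have hl' : l'.length = n := by simpa using hl
      rw [GAM.DelR_snoc, GAM.DelR_snoc, (DelX_pdl_congr (DelL_pd_ev M ha.an j) l').eq_of_nhds,
        (DelX_pdl_congr (DelL_pd_ev M ha.an' j) l').eq_of_nhds]
      rw [DelL_pdl_sum Finset.univ (f := fun i v => M i j * pd i a' (M.mulVec v))
        (fun i => analyticAt_const.mul (DelL_comp M (DelL_pd_an ha.an' i))),
        DelL_pdl_sum Finset.univ (f := fun i v => M i j * pd i a (M.mulVec v))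
        (fun i => analyticAt_const.mul (DelL_comp M (DelL_pd_an ha.an i))), map_sum]
      refine Finset.sum_congr rfl fun i _ => ?_
      rw [DelL_pdl_mul (DelL_comp M (DelL_pd_an ha.an' i)),
        DelL_pdl_mul (DelL_comp M (DelL_pd_an ha.an i)), Derivation.leibniz,
        Pool.Agent.Helper7.derivation_eq_zero δ _ (hM i j), smul_zero,
        add_zero, smul_eq_mul, ih l' hl' (pd i a) (pd i a') (DelL_pd ha i)]

end

theorem thm_DelL : St_DelL := by
  intro κ κ' _ _ _ _ δ M a a' hM ha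
  exact ⟨DelL_comp M ha.an, DelL_comp M ha.an',
    fun l => DelL_aux δ M hM l.length l rfl a a' ha⟩

end DWY
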