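import Pool.Agent.DWY.StB
import Pool.Agent.PST.DelGR
import Pool.Agent.GAM.DelPD

/-!
# DWY [DelQ]: a derivation applied to a homogeneous relation, with additional terms
-/

set_option autoImplicit false

namespace DWY

open scoped Topology
open Filter
open GAM (H E F pd pdl PLat IsTh OddTor IsDel Gro IsLat)
open PST DWC

theorem thm_DelQ : St_DelQ := by
  intro κ τ _ _ _ _ δ f h K Ξ m P hP hf h0
  have hr := thm_DelGR κ δ
  have h2 := hr.poly _ P f _ hf
  have h3 := hr.uniq _ _ _ _ h2 (hr.const 0) h0
  -- all functions are differentiable near `0`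
  have hd : ∀ᶠ z in 𝓝 (0 : κ → ℂ), ∀ i, DifferentiableAt ℂ (f i) z := by
    rw [eventually_all]
    intro i
    exact (hf i).an.eventually_analyticAt.mono fun z hz => hz.differentiableAt
  filter_upwards [h3, hd, h0, eventually_eventually_nhds.2 h0] with z h4 hd h0z h7
  -- the chain rule
  have h5 : ∀ v, ∑ i, MvPolynomial.eval (fun i => f i z) (MvPolynomial.pderiv i P) *
      fderiv ℂ (f i) z v = 0 := by
    intro v
    rw [← (GAM.DelPD_chain f z v hd P).2]
    have h8 : (fun z => MvPolynomial.eval (fun i => f i z) P) =ᶠ[𝓝 z] fun _ => (0 : ℂ) := h7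
    rw [h8.fderiv_eq, fderiv_fun_const]
    rfl
  have h8 : ∑ i, MvPolynomial.eval (fun i => f i z) (MvPolynomial.pderiv i P) *
      (∑ p, Ξ p z * pd p (f i) z) = 0 := by
    simp_rw [Finset.mul_sum]
    rw [Finset.sum_comm]
    refine Finset.sum_eq_zero fun j _ => ?_
    have h9 := congrArg (fun t : ℂ => Ξ j z * t) (h5 (Pi.single j 1))
    simp only [mul_zero] at h9
    rw [Finset.mul_sum] at h9
    rw [← h9]
    refine Finset.sum_congr rfl fun i _ => ?_
    unfold pd
    ring
  -- the Euler identity
  have h10 : ∑ i, MvPolynomial.eval (fun i => f i z) (MvPolynomial.pderiv i P) * f i z = 0 := by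
    have h11 := congrArg (MvPolynomial.eval fun i => f i z) hP.sum_X_mul_pderiv
    rw [map_sum, map_nsmul, h0z, smul_zero] at h11
    rw [← h11]
    refine Finset.sum_congr rfl fun i _ => ?_
    rw [map_mul, MvPolynomial.eval_X, mul_comm]
  have h12 : ∑ i, MvPolynomial.eval (fun i => f i z) (MvPolynomial.pderiv i P) *
      (K z * f i z + ∑ p, Ξ p z * pd p (f i) z + h i z) =
      K z * ∑ i, MvPolynomial.eval (fun i => f i z) (MvPolynomial.pderiv i P) * f i z +
      ∑ i, MvPolynomial.eval (fun i => f i z) (MvPolynomial.pderiv i P) *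
        (∑ p, Ξ p z * pd p (f i) z) +
      ∑ i, h i z * MvPolynomial.eval (fun i => f i z) (MvPolynomial.pderiv i P) := by
    rw [Finset.mul_sum, ← Finset.sum_add_distrib, ← Finset.sum_add_distrib]
    refine Finset.sum_congr rfl fun i _ => ?_
    ring
  rw [h12, h10, h8, map_zero, mul_zero, zero_add, zero_add] at h4
  exact h4

end DWY
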