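import Pool.Agent.DWY.StA
import Pool.Agent.PST.DelGR

/-!
# DWY [DelY]: the action of `δ` on the functions `YF`
-/

set_option autoImplicit false

namespace DWY

open scoped ComplexConjugate Topology
open Filter
open GAM (H E F pd pdl PLat IsTh OddTor IsDel Gro IsLat Pre)
open PST DWC
open Pool.Agent.GPC (AbVar hermForm bilForm)

theorem DelY_exp {κ : Type} [Fintype κ] [DecidableEq κ] (L : (κ → ℂ) →L[ℂ] ℂ) (v : κ → ℂ) :
    L v = ∑ q, v q * L (Pi.single q 1) := by
  have e : v = ∑ q, v q • (Pi.single q (1 : ℂ) : κ → ℂ) := by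
    conv_lhs => rw [← Finset.univ_sum_single v]
    refine Finset.sum_congr rfl fun q _ => ?_
    rw [← Pi.single_smul, smul_eq_mul, mul_one]
  conv_lhs => rw [e]
  rw [map_sum]
  exact Finset.sum_congr rfl fun q _ => by rw [map_smul, smul_eq_mul]

theorem DelY_chain {κ κ' : Type} [Fintype κ] [DecidableEq κ] [Fintype κ'] [DecidableEq κ']
    (M : Matrix κ κ' ℂ) {g : (κ → ℂ) → ℂ} {w : κ' → ℂ} (hg : DifferentiableAt ℂ g (M.mulVec w))
    (p : κ') : pd p (fun w => g (M.mulVec w)) w = ∑ q, M q p * pd q g (M.mulVec w) := by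
  have h1 : HasFDerivAt (fun w : κ' → ℂ => M.mulVec w)
      (LinearMap.toContinuousLinearMap (Matrix.mulVecLin M)) w :=
    (LinearMap.toContinuousLinearMap (Matrix.mulVecLin M)).hasFDerivAt
  have h2 := HasFDerivAt.comp w hg.hasFDerivAt h1
  have h3 : pd p (fun w => g (M.mulVec w)) w =
      ((fderiv ℂ g (M.mulVec w)).comp
        (LinearMap.toContinuousLinearMap (Matrix.mulVecLin M))) (Pi.single p 1) := by
    have h4 := h2.fderiv
    unfold pd
    rw [← h4]
    rfl
  rw [h3, ContinuousLinearMap.comp_apply]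
  rw [DelY_exp (fderiv ℂ g (M.mulVec w))]
  refine Finset.sum_congr rfl fun q _ => ?_
  have h5 : (LinearMap.toContinuousLinearMap (Matrix.mulVecLin M)) (Pi.single p 1) q = M q p := by
    change (M.mulVec (Pi.single p 1)) q = M q p
    rw [Matrix.mulVec_single_one]
    rfl
  rw [h5]
  rfl

theorem DelY_prod {κ : Type} [Fintype κ] [DecidableEq κ] {f h : (κ → ℂ) → ℂ} {w : κ → ℂ}
    (hf : DifferentiableAt ℂ f w) (hh : DifferentiableAt ℂ h w) (p : κ) :
    pd p (fun w => f w * h w) w = pd p f w * h w + f w * pd p h w := by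
  unfold pd
  have := fderiv_fun_mul hf hh
  rw [this]
  simp only [_root_.add_apply, _root_.smul_apply, smul_eq_mul]
  ring

theorem DelY_core (h1 : St_DelF) (h2 : St_DelL) (h3 : St_RhoM) (δ : Derivation ℚ ℂ ℂ)
    (L : Submodule ℤ (IX → ℂ)) (χ θ : (IX → ℂ) → ℂ)
    (LY : Submodule ℤ (IY → ℂ)) (χY θY : (IY → ℂ) → ℂ) (k : ℂ) (Bp : Matrix (Fin 3) (Fin 3) ℂ)
    (Bm : Matrix Unit Unit ℂ) (c b : Matrix (Fin 3) Unit ℂ) (k' : ℂ)
    (BpY BmY cY bY : Matrix (Fin 3) (Fin 3) ℂ) (hL : PLat L χ) (hθ : IsTh L χ θ)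
    (hLY : PLat LY χY) (hθY : IsTh LY χY θY) (hH : HasHat2 δ L θ k Bp Bm c b)
    (hHY : HasHat2 δ LY θY k' BpY BmY cY bY) (y : IX → ℂ) (y' : IY → ℂ) (hy : OddTor L y)
    (hy' : OddTor LY y') :
    IsDelG δ (fun w => psi θ w y * psi θY (rho w) y') (fun w =>
      ((k + Fintype.card Unit / Real.pi * ∑ i, ∑ j, c i j * w (i, j)) +
        (k' + Fintype.card Unit / Real.pi * ∑ i, ∑ j, cY i j * rho w (i, j))) *
        (psi θ w y * psi θY (rho w) y') +
      ∑ p, (xi Bp Bm c w p + b p.1 p.2 - δ Real.pi / Real.pi * w p) *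
        pd p (fun w => psi θ w y * psi θY (rho w) y') w +
        psi θ w y * ∑ p, vY Bp Bm c b BpY BmY cY bY w p *
          pd p (fun u => psi θY u y') (rho w)) := by
  obtain ⟨-, -, -, -, M, hM, hrho⟩ := h3
  have D1 := h1 (Fin 3) Unit Unit δ L χ θ k Bp Bm c b hL hθ hH y hy
  have D2 := h1 (Fin 3) (Fin 3) Unit δ LY χY θY k' BpY BmY cY bY hLY hθY hHY y' hy'
  have D3 := h2 WY WX δ M _ _ hM D2
  have D4 := PST.DelGR_rmul D1 D3
  have hcont : Tendsto (fun w : WX → ℂ => M.mulVec w) (𝓝 0) (𝓝 0) := by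
    have hc : Continuous (fun w : WX → ℂ => M.mulVec w) :=
      (LinearMap.toContinuousLinearMap (Matrix.mulVecLin M)).continuous
    have := hc.tendsto 0
    rwa [Matrix.mulVec_zero] at this
  have hf : ∀ᶠ w in 𝓝 (0 : WX → ℂ), AnalyticAt ℂ (fun w => psi θ w y) w :=
    D1.an.eventually_analyticAt
  have hh : ∀ᶠ w in 𝓝 (0 : WX → ℂ), AnalyticAt ℂ (fun w => psi θY (M.mulVec w) y') w :=
    D3.an.eventually_analyticAt
  have hg : ∀ᶠ w in 𝓝 (0 : WX → ℂ), AnalyticAt ℂ (fun u => psi θY u y') (M.mulVec w) :=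
    hcont.eventually D2.an.eventually_analyticAt
  refine PST.DelGR_congr D4 (Eventually.of_forall fun w => ?_) ?_
  · simp only [hrho]
  · filter_upwards [hf, hh, hg] with w w1 w2 w3
    have hpd : ∀ p, pd p (fun w => psi θ w y * psi θY (rho w) y') w =
        pd p (fun w => psi θ w y) w * psi θY (rho w) y' +
          psi θ w y * ∑ q, M q p * pd q (fun u => psi θY u y') (rho w) := by
      intro p
      have e1 : (fun w => psi θ w y * psi θY (rho w) y') =
          fun w => psi θ w y * psi θY (M.mulVec w) y' := by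
        funext w
        rw [hrho]
      rw [e1, DelY_prod w1.differentiableAt w2.differentiableAt p,
        DelY_chain M w3.differentiableAt p, hrho]
    have hkey : ∑ p, (xi Bp Bm c w p + b p.1 p.2 - δ Real.pi / Real.pi * w p) *
        (∑ q, M q p * pd q (fun u => psi θY u y') (rho w)) +
        ∑ p, vY Bp Bm c b BpY BmY cY bY w p * pd p (fun u => psi θY u y') (rho w) =
        ∑ p, (xi BpY BmY cY (rho w) p + bY p.1 p.2 - δ Real.pi / Real.pi * rho w p) *
        pd p (fun u => psi θY u y') (rho w) := by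
      have e2 : ∑ p, (xi Bp Bm c w p + b p.1 p.2 - δ Real.pi / Real.pi * w p) *
          (∑ q, M q p * pd q (fun u => psi θY u y') (rho w)) =
          ∑ q, (rho (fun p => xi Bp Bm c w p + b p.1 p.2) q - δ Real.pi / Real.pi * rho w q) *
            pd q (fun u => psi θY u y') (rho w) := by
        simp_rw [Finset.mul_sum]
        rw [Finset.sum_comm]
        refine Finset.sum_congr rfl fun q _ => ?_
        have e3 : rho (fun p => xi Bp Bm c w p + b p.1 p.2) q =
            ∑ p, M q p * (xi Bp Bm c w p + b p.1 p.2) := by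
          rw [hrho]
          rfl
        have e4 : rho w q = ∑ p, M q p * w p := by
          rw [hrho]
          rfl
        rw [e3, e4, Finset.mul_sum, ← Finset.sum_sub_distrib, Finset.sum_mul]
        refine Finset.sum_congr rfl fun p _ => ?_
        ring
      rw [e2, ← Finset.sum_add_distrib]
      refine Finset.sum_congr rfl fun q _ => ?_
      simp only [vY]
      ring
    simp only [hpd]
    simp only [← hrho]
    have hs : ∑ p, (xi Bp Bm c w p + b p.1 p.2 - δ Real.pi / Real.pi * w p) *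
        (pd p (fun w => psi θ w y) w * psi θY (rho w) y' +
          psi θ w y * ∑ q, M q p * pd q (fun u => psi θY u y') (rho w)) =
        (∑ p, (xi Bp Bm c w p + b p.1 p.2 - δ Real.pi / Real.pi * w p) *
          pd p (fun w => psi θ w y) w) * psi θY (rho w) y' +
        psi θ w y * ∑ p, (xi Bp Bm c w p + b p.1 p.2 - δ Real.pi / Real.pi * w p) *
          (∑ q, M q p * pd q (fun u => psi θY u y') (rho w)) := by
      rw [Finset.sum_mul, Finset.mul_sum, ← Finset.sum_add_distrib]
      refine Finset.sum_congr rfl fun p _ => ?_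
      ring
    rw [hs]
    linear_combination (-(psi θ w y)) * hkey

theorem thm_DelY (h1 : St_DelF) (h2 : St_DelL) (h3 : St_RhoM) : St_DelY := by
  intro δ L χ θ LY χY θY k Bp Bm c b k' BpY BmY cY bY hL hθ hLY hθY hH hHY
  refine ⟨fun w => (k + Fintype.card Unit / Real.pi * ∑ i, ∑ j, c i j * w (i, j)) +
        (k' + Fintype.card Unit / Real.pi * ∑ i, ∑ j, cY i j * rho w (i, j)),
    fun p w => xi Bp Bm c w p + b p.1 p.2 - δ Real.pi / Real.pi * w p, ?_⟩
  intro y y' hy hy' o
  rcases o with _ | o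
  · exact DelY_core h1 h2 h3 δ L χ θ LY χY θY k Bp Bm c b k' BpY BmY cY bY hL hθ hLY hθY hH hHY
      (y none) (y' true) (hy _) (hy' _)
  · exact DelY_core h1 h2 h3 δ L χ θ LY χY θY k Bp Bm c b k' BpY BmY cY bY hL hθ hLY hθY hH hHY
      (y o) (y' false) (hy _) (hy' _)

end DWY
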