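import Pool.Agent.DWY.StB
import Pool.Agent.GAM.Nor
import Pool.Agent.GAM.ThEx
import Pool.Agent.GAM.Hol
import Pool.Agent.GAM.DelR
import Pool.Agent.GAM.Ind1
import Pool.Agent.GAM.OddD

/-!
# DWY: the exponent is the exponent of a period
-/

set_option autoImplicit false

namespace DWY

open scoped ComplexConjugate
open GAM (H E F pd pdl PLat IsTh OddTor IsDel Gro IsLat Pre)
open PST DWC
open Pool.Agent.GPC (AbVar hermForm bilForm)

theorem ExM_hop (k a : ℂ) (G : (Ix Empty Unit Unit → ℂ) → ℂ) (v : Ix Empty Unit Unit → ℂ) :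
    hop k (a • (1 : Matrix Empty Empty ℂ)) (a • (1 : Matrix Unit Unit ℂ)) 0 G v =
      k * G v + GAM.eul (fun _ => a) G v := by
  unfold hop GAM.eul
  simp [Fintype.sum_prod_type]
  ring

/-- The number `r` with `r ^ 2 * √d = 1`. -/
theorem ExM_r (d : ℚ) (hd : 0 < d) : ∃ r : ℝ, 0 < r ∧ 1 = r ^ 2 * Real.sqrt (d : ℝ) := by
  have h1 : 0 < Real.sqrt (d : ℝ) := Real.sqrt_pos.mpr (by exact_mod_cast hd)
  have h2 : 0 < Real.sqrt (Real.sqrt (d : ℝ)) := Real.sqrt_pos.mpr h1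
  refine ⟨(Real.sqrt (Real.sqrt (d : ℝ)))⁻¹, inv_pos.mpr h2, ?_⟩
  rw [inv_pow, Real.sq_sqrt h1.le, inv_mul_cancel₀ h1.ne']

theorem thm_ExM (h1 : St_ExY) (h2 : St_LatK) : St_ExM := by
  intro d hd
  obtain ⟨A, hA⟩ := h1 d hd
  obtain ⟨r, hr, hrq⟩ := ExM_r d hd
  have hIR : IsR (α := Empty) (β := Unit) d (fun _ => r) (fun _ => 1) :=
    ⟨hd, fun _ => hr, fun _ => by simpa using hrq⟩
  obtain ⟨L, χ, N, hP, hLK, -, -⟩ := h2 Empty Unit d (fun _ => r) (fun _ => 1) hIR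
  obtain ⟨θ, hT, hne⟩ := GAM.thm_ThEx (Ix Empty Unit Unit) L χ hP
  have hk := hA Empty Unit (fun _ => r) (fun _ => 1) L χ θ hIR ⟨Sum.inr ()⟩ hP hLK hT hne
  choose k hk using hk
  obtain ⟨μ, y, hN⟩ := GAM.thm_Nor (GAM.thm_DelR GAM.thm_Hol) (GAM.thm_Ind1 GAM.thm_OddD)
    GAM.thm_OddD (Ix Empty Unit Unit) L χ θ (fun δ _ => A δ) k hP hT hne (by
      intro δ x hx
      have h := hk δ x hx
      have e : hop (k δ) (A δ • (1 : Matrix Empty Empty ℂ)) (A δ • (1 : Matrix Unit Unit ℂ)) 0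
          (F θ x) = fun v => k δ * F θ x v + GAM.eul (fun _ => A δ) (F θ x) v :=
        funext fun v => ExM_hop (k δ) (A δ) (F θ x) v
      rw [e] at h
      exact h)
  exact ⟨A, μ (Sum.inr (), ()), hN.ne _, fun δ => hN.exp δ _, hA⟩

end DWY
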