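import Pool.Agent.DWY.StC
import Pool.Agent.PST.UGr
import Pool.Agent.PST.MapE
import Pool.Agent.PST.Det
import Pool.Agent.GAM.ThEx
import Pool.Agent.Helper39.AF.Proj

/-!
# DWY [ExS]: existence of the exterior square (assembly)
-/

set_option autoImplicit false

namespace DWY

open scoped ComplexConjugate
open GAM (H E F pd pdl PLat IsTh OddTor IsDel Gro IsLat)
open PST DWC
open Pool.Agent.GPC (AbVar hermForm bilForm)

/-- transport of a lattice, with its stability -/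
private theorem ExS_tr {α β : Type} [Fintype α] [Fintype β] [DecidableEq α] [DecidableEq β]
    (d : ℚ) (N : ℕ) (g : Matrix (α ⊕ β) (α ⊕ β) ℂ) (L₁ : Submodule ℤ (Ix α β Unit → ℂ))
    (χ₁ : (Ix α β Unit → ℂ) → ℂ) (hg : IsU g) (hP₁ : PLat L₁ χ₁) (hK₁ : KL d N L₁) :
    ∃ (L₀ : Submodule ℤ (Ix α β Unit → ℂ)) (χ₀ : (Ix α β Unit → ℂ) → ℂ), PLat L₀ χ₀ ∧
      Maps g L₁ L₀ χ₁ χ₀ ∧ KL d N L₀ := by
  obtain ⟨-, u2, u3, -, -, u6, -⟩ := thm_UGr α β Unit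
  obtain ⟨hiU, hig, hgi, -, -⟩ := u6 g hg
  obtain ⟨gi, hgie⟩ : ∃ gi, gi = Jm α β * g.conjTranspose * Jm α β := ⟨_, rfl⟩
  rw [← hgie] at hiU hig hgi
  have e1 : ∀ x : Ix α β Unit → ℂ, act gi (act g x) = x := fun x => by rw [← u2, hig, u3]
  obtain ⟨L₀, χ₀, hP₀, hM'⟩ := thm_MapE thm_UGr α β Unit gi L₁ χ₁ hiU hP₁
  refine ⟨L₀, χ₀, hP₀, ⟨hg, fun x => ?_, fun l hl => ?_⟩, ?_⟩
  · rw [hM'.lat (act g x), e1]
  · have h11 : act g l ∈ L₀ := by rw [hM'.lat, e1]; exact hl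
    have h12 := hM'.chi (act g l) h11
    rw [e1] at h12
    exact h12.symm
  · intro l hl
    rw [hM'.lat] at hl ⊢
    have h11 : act gi (act (kap α β d N) l) = act (kap α β d N) (act gi l) := by
      rw [← u2, ← u2, kap, Matrix.mul_smul, Matrix.smul_mul, Matrix.mul_one, Matrix.one_mul]
    rw [h11]
    exact hK₁ _ hl

private theorem ExS_neg {X : AbVar} {f : X.H1 → X.H1} (hf : X.IsEnd f) :
    X.IsEnd (fun v => - f v) := by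
  have h := Pool.Agent.Helper39.AF.isEnd_ratSmul hf (-1)
  have h2 : (fun v => (((-1 : ℚ)) : ℂ) • f v) = fun v => - f v := by
    funext v
    rw [Rat.cast_neg, Rat.cast_one, neg_smul, one_smul]
  rw [h2] at h
  exact h

private theorem ExS_zd {d : ℚ} (hd : 0 < d) : zd d ^ 2 = -(d : ℂ) := by
  unfold zd
  have h1 : (0 : ℝ) ≤ (d : ℝ) := by exact_mod_cast hd.le
  have h2 : ((Real.sqrt (d : ℝ) : ℝ) : ℂ) ^ 2 = (d : ℂ) := by
    rw [← Complex.ofReal_pow, Real.sq_sqrt h1]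
    norm_cast
  rw [mul_pow, h2, Complex.I_sq]
  ring

private theorem ExS_isR {d : ℚ} (hd : 0 < d) :
    IsR d (fun _ : Empty ⊕ Unit => d4 d) (fun _ => 1) := by
  have h1 : (0 : ℝ) < (d : ℝ) := by exact_mod_cast hd
  have h2 : 0 < Real.sqrt (d : ℝ) := Real.sqrt_pos.mpr h1
  have h3 : 0 < Real.sqrt (Real.sqrt (d : ℝ)) := Real.sqrt_pos.mpr h2
  refine ⟨hd, fun _ => ?_, fun _ => ?_⟩
  · exact inv_pos.mpr h3
  · show ((1 : ℚ) : ℝ) = ((Real.sqrt (Real.sqrt (d : ℝ)))⁻¹) ^ 2 * Real.sqrt (d : ℝ)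
    rw [inv_pow, Real.sq_sqrt h2.le, inv_mul_cancel₀ h2.ne', Rat.cast_one]

private theorem ExS_Tm (m : ℂ) (hm : m ≠ 0) :
    (m⁻¹ • (1 : Matrix Unit Unit ℂ))⁻¹ = m • (1 : Matrix Unit Unit ℂ) := by
  apply Matrix.inv_eq_right_inv
  rw [Matrix.smul_mul, Matrix.mul_smul, Matrix.one_mul, smul_smul, inv_mul_cancel₀ hm, one_smul]

private theorem ExS_Tmd (δ : Derivation ℚ ℂ ℂ) (m A : ℂ) (hm : m ≠ 0) (hδ : δ m = A * m) :
    (m⁻¹ • (1 : Matrix Unit Unit ℂ)) * (m⁻¹ • (1 : Matrix Unit Unit ℂ))⁻¹.map δ =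
      A • (1 : Matrix Unit Unit ℂ) := by
  rw [ExS_Tm m hm]
  ext i j
  rw [Matrix.smul_mul, Matrix.one_mul, Matrix.smul_apply, Matrix.map_apply, Matrix.smul_apply,
    Matrix.smul_apply]
  have hij : i = j := Subsingleton.elim _ _
  subst hij
  rw [Matrix.one_apply_eq, smul_eq_mul, smul_eq_mul, smul_eq_mul, mul_one, mul_one, hδ]
  field_simp

/-- the case `z = i √d` -/
private theorem ExS_core (hNFT : St_NFT) (hLatK : St_LatK) (hCmsK : St_CmsK) (hCmsG : St_CmsG)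
    (hUE2 : St_UE2) (hNSX : St_NSX) (hExM : St_ExM) (hOpY : St_OpY) (hHatY : St_HatY)
    (hNSY : St_NSY) (hCxA : St_CxA) (hJNS : St_JNS) (hXXJ : St_XXJ) (hTBet : St_TBet)
    (hTdR : St_TdR) (hTHod : St_THod) (hTLin : St_TLin)
    (X : AbVar) (d : ℚ) (J : Module.End ℂ X.H1) (hX : X.g = 4) (hJ : IsKs X d J)
    (hz : Module.finrank ℂ (X.filEigen J (zd d)) = 1) :
    ∃ (Y Z : AbVar) (JY : Y.H1 → Y.H1) (JZ : Z.H1 → Z.H1)
      (t : X.H1 → X.H1 → Y.H1 → Z.H1 → ℂ), X.IsExteriorSquare d J Y Z JY JZ t := by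
  have hd := hJ.pos
  obtain ⟨T, S, Tp, Tm, Ta, g, r, q, hN⟩ := hNFT X d J hX hJ hz
  obtain ⟨hR', hC₁⟩ := hCmsK d r q hN.isR
  obtain ⟨L₁, χ₁, N₁, hP₁, hL₁, hN₁, hK₁⟩ := hLatK (Fin 3) Unit d r q hN.isR
  obtain ⟨LY₁, χY₁, N₂, hPY₁, hLY₁, hN₂, hKY₁⟩ := hLatK (Fin 3) (Fin 3) d (rY d r) (qY d q) hR'
  obtain ⟨N, M, hCms₁⟩ := hC₁ L₁ LY₁ hL₁ hLY₁
  obtain ⟨L₀, χ₀, hP₀, hM₀, hK₀⟩ := ExS_tr d N₁ g L₁ χ₁ hN.uni hP₁ hK₁
  obtain ⟨LY₀, χY₀, hPY₀, hMY₀, hKY₀⟩ := ExS_tr d N₂ (e2 g) LY₁ χY₁ (hUE2 g hN.uni) hPY₁ hKY₁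
  have hCms : Cms ((N : ℝ) * d4 d) M L₀ LY₀ :=
    hCmsG _ M g L₁ L₀ LY₁ LY₀ hN.uni hM₀.lat hMY₀.lat hCms₁
  obtain ⟨κ, hNX⟩ := hNSX X d J (Fin 3) Unit T S Tp Tm Ta g r q L₀ L₁ N₁ hJ hN hL₁ hM₀.lat
    hN₁ hK₀
  obtain ⟨A, m, hm, hAm, hOp⟩ := hExM d hd
  obtain ⟨θY₀, hTY₀, hzY₀⟩ := GAM.thm_ThEx (Ix (Fin 3) (Fin 3) Unit) LY₀ χY₀ hPY₀
  have hop := hOpY X d T S Tp Tm Ta (S * blk Unit Tp Tm) κ g r q L₀ L₁ χ₀ χ₁ LY₀ LY₁ χY₀ χY₁ θY₀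
    A m hNX hN.isR hP₀ hP₁ hPY₀ hPY₁ hL₁ hLY₁ hM₀ hMY₀ hN.det hTY₀ hzY₀ hm hAm hOp
  obtain ⟨hdp, hdm, -, -, -⟩ := hHatY 0 Tp Tm κ m 0 hN.dp hN.dm hm (by
    rw [Derivation.coe_zero, Pi.zero_apply, zero_mul])
  obtain ⟨Y, T', S', Ta', Tb', hNY, hgY⟩ := hNSY d (Fin 3) (Fin 3) (TpY m Tp) (TmY m Tp Tm) (kY κ)
    N₂ LY₀ χY₀ θY₀ hd hN₂ hKY₀ hPY₀ hTY₀ hzY₀ hdp hdm hop
  -- the elliptic curve
  obtain ⟨LZ, χZ, N₃, hPZ, hLZ, hN₃, hKZ⟩ := hLatK Empty Unit d (fun _ => d4 d) (fun _ => 1)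
    (ExS_isR hd)
  obtain ⟨θZ, hTZ, hzZ⟩ := GAM.thm_ThEx (Ix Empty Unit Unit) LZ χZ hPZ
  have hopZ : ∀ δ : Derivation ℚ ℂ ℂ, ∃ k : ℂ, HasHat δ LZ θZ k
      ((1 : Matrix Empty Empty ℂ) * (1 : Matrix Empty Empty ℂ)⁻¹.map δ)
      ((m⁻¹ • (1 : Matrix Unit Unit ℂ)) * (m⁻¹ • (1 : Matrix Unit Unit ℂ))⁻¹.map δ)
      (-(((1 : Matrix Empty Empty ℂ)⁻¹).transpose * (0 : Matrix Empty Unit ℂ).map δ *
        (m⁻¹ • (1 : Matrix Unit Unit ℂ))⁻¹)) := by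
    intro δ
    obtain ⟨k, hk⟩ := hOp Empty Unit (fun _ => d4 d) (fun _ => 1) LZ χZ θZ (ExS_isR hd)
      ⟨Sum.inr ()⟩ hPZ hLZ hTZ hzZ δ
    refine ⟨k, ?_⟩
    have h1 : (1 : Matrix Empty Empty ℂ) * (1 : Matrix Empty Empty ℂ)⁻¹.map δ =
        A δ • (1 : Matrix Empty Empty ℂ) := Subsingleton.elim _ _
    have h2 : -(((1 : Matrix Empty Empty ℂ)⁻¹).transpose * (0 : Matrix Empty Unit ℂ).map δ *
        (m⁻¹ • (1 : Matrix Unit Unit ℂ))⁻¹) = 0 := Subsingleton.elim _ _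
    rw [h1, h2, ExS_Tmd δ m (A δ) hm (hAm δ)]
    exact hk
  obtain ⟨Z, T'', S'', Ta'', Tb'', hNZ, hgZ⟩ := hNSY d Empty Unit 1
    (m⁻¹ • (1 : Matrix Unit Unit ℂ)) 0 N₃ LZ χZ θZ hd hN₃ hKZ hPZ hTZ hzZ
    (by rw [Matrix.det_one]; exact one_ne_zero)
    (by
      rw [Matrix.det_smul, Matrix.det_one, mul_one]
      exact pow_ne_zero _ (inv_ne_zero hm)) hopZ
  have hYD : YD d m N M X Y Z T S Tp Tm Ta (S * blk Unit Tp Tm) κ L₀ T' S' Ta' Tb' LY₀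
      T'' S'' Ta'' Tb'' LZ := ⟨hm, hNX, hNY, hNZ, hCms, hPY₀.int, hLZ⟩
  -- the multiplications
  obtain ⟨JY, hJY1, -, hJY3, hJY4⟩ := hJNS Y d (Fin 3) (Fin 3) T' S' _ _ Ta' Tb' _ LY₀ hNY
  obtain ⟨JZ, hJZ1, hJZ2, hJZ3, hJZ4⟩ := hJNS Z d Empty Unit T'' S'' _ _ Ta'' Tb'' _ LZ hNZ
  obtain ⟨hX3, hX4⟩ := hXXJ X d (Fin 3) Unit T S Tp Tm Ta _ κ L₀ J hNX
    hP₀.basis hJ.endo hN.jj
  obtain ⟨hcx, hcy, -⟩ := hCxA Y d (Fin 3) (Fin 3) T' S' _ _ Ta' Tb' _ LY₀ hNY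
  have hXXn : ∀ v p, XX Y T' S' (-v) p = -XX Y T' S' v p := by
    intro v p
    unfold XX
    rw [hcx.map_neg, hcy.map_neg]
    rcases p with ⟨s | s, k⟩
    · rfl
    · rfl
  have hXTn : ∀ v p, XT Y T' S' (-v) p = -XT Y T' S' v p := by
    intro v p
    unfold XT
    rw [hcx.map_neg, hcy.map_neg]
    rcases p with ⟨s | s, k⟩
    · rfl
    · rfl
  obtain ⟨l1, l2, l3, l4, l5, l6, l7⟩ := hTLin d m N M X Y Z T S Tp Tm Ta _ κ L₀ T' S' Ta' Tb'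
    LY₀ T'' S'' Ta'' Tb'' LZ J (fun v => -JY v) JZ hYD hX3 hX4
    (fun v p => by rw [hXXn, hJY3]) (fun v p => by rw [hXTn, hJY4, neg_neg]) hJZ3 hJZ4
  refine ⟨Y, Z, fun v => -JY v, JZ, Tcl X Y Z T S T' S' T'' S'', ?_⟩
  exact
    { dim := ⟨by rw [hgY, Fintype.card_fin], by rw [hgZ, Fintype.card_empty, Fintype.card_unit]⟩
      endo := ⟨ExS_neg hJY1, hJZ1⟩
      sq := hJZ2
      linear1 := l1
      linear2 := l2
      linear3 := l3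
      linear4 := l4
      alt := l5
      lin := l6
      nondeg := l7
      deRham := hTdR d m N M X Y Z T S Tp Tm Ta _ κ L₀ T' S' Ta' Tb' LY₀ T'' S'' Ta'' Tb'' LZ hYD
      betti := hTBet d m N M X Y Z T S Tp Tm Ta _ κ L₀ T' S' Ta' Tb' LY₀ T'' S'' Ta'' Tb'' LZ hYD
      hodge := hTHod d m N M X Y Z T S Tp Tm Ta _ κ L₀ T' S' Ta' Tb' LY₀ T'' S'' Ta'' Tb'' LZ
        hYD }

private theorem ExS_pol {X : AbVar} (u v : X.H1) : X.pol (-u) v = - X.pol u v ∧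
    X.pol u (-v) = - X.pol u v := by
  constructor
  · unfold AbVar.pol
    rw [← Finset.sum_neg_distrib]
    apply Finset.sum_congr rfl
    intro a _
    show (-u (.inl a)) * v (.inr a) - v (.inl a) * (-u (.inr a)) = _
    ring
  · unfold AbVar.pol
    rw [← Finset.sum_neg_distrib]
    apply Finset.sum_congr rfl
    intro a _
    show u (.inl a) * (-v (.inr a)) - (-v (.inl a)) * u (.inr a) = _
    ring

theorem thm_ExS (hNFT : St_NFT) (hLatK : St_LatK) (hCmsK : St_CmsK) (hCmsG : St_CmsG)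
    (hUE2 : St_UE2) (hNSX : St_NSX) (hExM : St_ExM) (hOpY : St_OpY) (hHatY : St_HatY)
    (hNSY : St_NSY) (hCxA : St_CxA) (hJNS : St_JNS) (hXXJ : St_XXJ) (hTBet : St_TBet)
    (hTdR : St_TdR) (hTHod : St_THod) (hTLin : St_TLin) : St_ExS := by
  intro X d J hX hJ hz
  obtain ⟨z, hz2, hz1⟩ := hz
  have h1 : z ^ 2 = zd d ^ 2 := by rw [hz2, ExS_zd hJ.pos]
  rcases sq_eq_sq_iff_eq_or_eq_neg.mp h1 with h2 | h2
  · rw [h2] at hz1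
    exact ExS_core hNFT hLatK hCmsK hCmsG hUE2 hNSX hExM hOpY hHatY hNSY hCxA hJNS hXXJ hTBet hTdR
      hTHod hTLin X d J hX hJ hz1
  · have hJn : ∀ v, (-J : Module.End ℂ X.H1) v = - J v := fun v => rfl
    have hKs : IsKs X d (-J) := by
      refine ⟨hJ.pos, ?_, fun v => ?_, fun u v => ?_⟩
      · exact ExS_neg hJ.endo
      · rw [hJn, hJn, map_neg, neg_neg, hJ.sq]
      · rw [hJn, hJn, (ExS_pol _ _).1, (ExS_pol _ _).2, hJ.adj]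
    have hfil : X.filEigen (-J : Module.End ℂ X.H1) (zd d) = X.filEigen J z := by
      unfold AbVar.filEigen
      congr 1
      ext v
      show ((-J : Module.End ℂ X.H1) v = zd d • v ∧ X.IsFil v) ↔ (J v = z • v ∧ X.IsFil v)
      rw [hJn, h2, neg_smul, neg_eq_iff_eq_neg]
    obtain ⟨Y, Z, JY, JZ, t, ht⟩ := ExS_core hNFT hLatK hCmsK hCmsG hUE2 hNSX hExM hOpY hHatY hNSY
      hCxA hJNS hXXJ hTBet hTdR hTHod hTLin X d (-J) hX hKs (by rw [hfil]; exact hz1)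
    refine ⟨Y, Z, fun v => -JY v, fun v => -JZ v, t, ?_⟩
    exact
      { dim := ht.dim
        endo := ⟨ExS_neg ht.endo.1, ExS_neg ht.endo.2⟩
        sq := fun l => by rw [ht.endo.2.linear.map_neg, neg_neg, ht.sq]
        linear1 := ht.linear1
        linear2 := ht.linear2
        linear3 := ht.linear3
        linear4 := ht.linear4
        alt := ht.alt
        lin := fun u v w l => by
          obtain ⟨e1, e2, e3⟩ := ht.lin u v w l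
          rw [hJn] at e1 e2 e3
          rw [hJn] at e1
          rw [(ht.linear1 v w l).map_neg] at e1 e2 e3
          rw [(ht.linear2 u w l).map_neg] at e1
          refine ⟨neg_injective e1, ?_, ?_⟩
          · rw [(ht.linear3 u v l).map_neg, ← e2, neg_neg]
          · rw [(ht.linear4 u v w).map_neg, ← e3, neg_neg]
        nondeg := ht.nondeg
        deRham := ht.deRham
        betti := ht.betti
        hodge := ht.hodge }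

end DWY
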