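import Pool.Agent.DWY.StB
import Pool.Agent.DWC.ExpUn
import Pool.Agent.DWC.LatK
import Pool.Agent.PST.ExpS
import Pool.Agent.PST.GalC
import Pool.Agent.PST.FinQ

/-!
# DWY, module ExY: one exponent for all lattices with complex multiplication by the same field
-/

set_option autoImplicit false

namespace DWY

open PST DWC

/-- One exponent for all lattices of points with complex multiplication. -/
theorem thm_ExY (h1 : St_CMK) (h2 : St_FldK) (h3 : St_EqK) : St_ExY := by
  intro d hd
  obtain ⟨A, -, hA⟩ := DWC.thm_ExpUn DWC.thm_LatK h1 h2 h3 PST.thm_ExpS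
    (PST.thm_FinQ PST.thm_GalC) d hd
  exact ⟨A, hA⟩

end DWY
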