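import Pool.Agent.DWY.StA
import Pool.Agent.PST.Ell
import Pool.Agent.PST.EllB
import Pool.Agent.PST.EllH
import Pool.Agent.PST.EllI
import Pool.Agent.PST.EllZ
import Pool.Agent.PST.HatE
import Pool.Agent.PST.Gau
import Pool.Agent.PST.OmT
import Pool.Agent.PST.HolP

/-!
# DWY [HatF]: the operator `hop2` and the Fock functional
-/

set_option autoImplicit false

namespace DWY

open scoped ComplexConjugate
open GAM (H E F pd pdl PLat IsTh OddTor IsDel Gro IsLat Pre)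
open PST DWC
open Pool.Agent.GPC (AbVar hermForm bilForm)

section

variable {α β μ : Type} [Fintype α] [Fintype β] [Fintype μ]
  [DecidableEq α] [DecidableEq β] [DecidableEq μ]

/-- finite sums -/
theorem HatF_sum (h : St_Ell) {σ : Type} (s : Finset σ)
    (f : σ → (Ix α β μ → ℂ) → ℂ) (hf : ∀ i ∈ s, Gro (f i)) :
    Gro (fun v => ∑ i ∈ s, f i v) ∧
    ∀ w ∈ Om α β, ell w (fun v => ∑ i ∈ s, f i v) = ∑ i ∈ s, ell w (f i) := by
  classical
  induction s using Finset.induction_on with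
  | empty =>
    refine ⟨⟨?_, ?_⟩, ?_⟩
    · simp only [Finset.sum_empty]
      exact differentiable_const _
    · intro ε _
      refine ⟨0, fun v => ?_⟩
      rw [Finset.sum_empty, norm_zero, zero_mul]
    · intro w _
      unfold ell
      simp only [Finset.sum_empty, zero_mul, MeasureTheory.integral_zero]
  | insert a s ha ih =>
    obtain ⟨h1, h2⟩ := ih fun i hi => hf i (Finset.mem_insert_of_mem hi)
    have h3 : Gro (f a) := hf a (Finset.mem_insert_self _ _)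
    have e : (fun v => ∑ i ∈ insert a s, f i v) = fun v => f a v + ∑ i ∈ s, f i v := by
      funext v
      rw [Finset.sum_insert ha]
    rw [e]
    refine ⟨(GAM.thm_GroC (Ix α β μ)).2.2.2 _ _ h3 h1, fun w hw => ?_⟩
    rw [((h α β μ (f a) h3).2.2 w hw).2.2.2.2 _ h1, h2 w hw, Finset.sum_insert ha]

end

theorem HatF_Ell : St_Ell :=
  thm_Ell (thm_EllH thm_OmT thm_HolP thm_Gau thm_EllI) (thm_EllB thm_Gau thm_EllI)
    (thm_EllZ thm_Gau thm_EllI (thm_EllB thm_Gau thm_EllI)) thm_EllI thm_Gau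

theorem thm_HatF : St_HatF := by
  intro α β μ _ _ _ _ _ _ k Bp Bm c b G hG
  have h : St_Ell := HatF_Ell
  obtain ⟨gpd, gco, gcm, gad⟩ := GAM.thm_GroC (Ix α β μ)
  obtain ⟨hh, hE⟩ := thm_HatE h α β μ k Bp Bm c G hG
  have gD : ∀ p : α × β, Gro (Dij p G) := fun p =>
    (HatF_sum h Finset.univ (fun m => pd (Sum.inr p.2, m) (pd (Sum.inl p.1, m) G))
      fun m _ => gpd _ (gpd G hG _) _).1
  have g1 : ∀ i j, Gro (fun v : Ix α β μ → ℂ => b i j * Dij (i, j) G v) :=
    fun i j => gcm _ (gD (i, j)) _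
  have s1 : ∀ i, Gro (fun v : Ix α β μ → ℂ => ∑ j, b i j * Dij (i, j) G v) :=
    fun i => (HatF_sum h Finset.univ _ fun j _ => g1 i j).1
  have s2 : Gro (fun v : Ix α β μ → ℂ => ∑ i, ∑ j, b i j * Dij (i, j) G v) :=
    (HatF_sum h Finset.univ _ fun i _ => s1 i).1
  have s3 : Gro (fun v : Ix α β μ → ℂ => 1 / (Real.pi : ℂ) * ∑ i, ∑ j, b i j * Dij (i, j) G v) :=
    gcm _ s2 _
  have e0 : hop2 k Bp Bm c b G = fun v => hop k Bp Bm c G v +
      (fun v : Ix α β μ → ℂ => 1 / (Real.pi : ℂ) * ∑ i, ∑ j, b i j * Dij (i, j) G v) v := rfl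
  have hh2 : Gro (hop2 k Bp Bm c b G) := gad _ _ hh s3
  refine ⟨hh2, fun w hw => ?_⟩
  have e1 : ell w (hop2 k Bp Bm c b G) = ell w (hop k Bp Bm c G) +
      ell w (fun v : Ix α β μ → ℂ => 1 / (Real.pi : ℂ) * ∑ i, ∑ j, b i j * Dij (i, j) G v) :=
    ((h α β μ _ hh).2.2 w hw).2.2.2.2 _ s3
  have e2 : ell w (fun v : Ix α β μ → ℂ => 1 / (Real.pi : ℂ) * ∑ i, ∑ j, b i j * Dij (i, j) G v) =
      ∑ i, ∑ j, b i j * pd (i, j) (fun w => ell w G) w := by
    rw [((h α β μ _ s2).2.2 w hw).2.2.2.1, (HatF_sum h Finset.univ _ fun i _ => s1 i).2 w hw,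
      Finset.mul_sum]
    refine Finset.sum_congr rfl fun i _ => ?_
    rw [(HatF_sum h Finset.univ _ fun j _ => g1 i j).2 w hw, Finset.mul_sum]
    refine Finset.sum_congr rfl fun j _ => ?_
    rw [((h α β μ _ (gD (i, j))).2.2 w hw).2.2.2.1, ((h α β μ G hG).2.2 w hw).1 (i, j)]
    ring
  rw [e1, hE w hw, e2]
  have e3 : ∑ p : α × β, (xi Bp Bm c w p + b p.1 p.2) * pd p (fun w => ell w G) w =
      ∑ p : α × β, xi Bp Bm c w p * pd p (fun w => ell w G) w +
        ∑ i, ∑ j, b i j * pd (i, j) (fun w => ell w G) w := by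
    simp only [add_mul, Finset.sum_add_distrib]
    congr 1
    rw [Fintype.sum_prod_type]
  rw [e3]
  ring

end DWY
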