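import Pool.Agent.DWY.StA
import Pool.Agent.GAM.C1
import Pool.Agent.GAM.C2
import Pool.Agent.GAM.DelEx
import Pool.Agent.GAM.Dup
import Pool.Agent.GAM.BasQ
import Pool.Agent.GAM.Quar
import Pool.Agent.GAM.ThUn
import Pool.Agent.GAM.Four
import Pool.Agent.GAM.Avg
import Pool.Agent.GAM.Imm
import Pool.Agent.GAM.Ind1
import Pool.Agent.GAM.OddD
import Pool.Agent.GAM.FinD
import Pool.Agent.GAM.Per
import Pool.Agent.GAM.TorD
import Pool.Agent.GAM.Sieg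
import Pool.Agent.GAM.Hol
import Pool.Agent.GAM.DelR

/-!
# DWY [HatU]: existence of the operator of the second order
-/

set_option autoImplicit false

namespace DWY

open scoped ComplexConjugate
open GAM (H E F pd pdl PLat IsTh OddTor IsDel Gro IsLat Pre)
open PST DWC

private theorem HatU_DelR : GAM.St_DelR := GAM.thm_DelR GAM.thm_Hol

private theorem HatU_Bas : GAM.St_Bas := GAM.thm_Bas (GAM.thm_FinD GAM.thm_Hol) GAM.thm_OddD

private theorem HatU_DelEx : GAM.St_DelEx :=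
  GAM.thm_DelEx (GAM.thm_Dup HatU_Bas (GAM.thm_ThUn GAM.thm_Four GAM.thm_Avg) GAM.thm_OddD)
    (GAM.thm_Quar HatU_DelR) HatU_DelR

private theorem HatU_C1 : GAM.St_C1 :=
  GAM.thm_C1 (GAM.thm_C1a HatU_DelEx (GAM.thm_Imm (GAM.thm_Ind1 GAM.thm_OddD) GAM.thm_OddD)
    (GAM.thm_Per (GAM.thm_TorD GAM.thm_Sieg) HatU_DelR) HatU_DelR)
    (GAM.thm_C1b HatU_DelR) (GAM.thm_C1c HatU_DelR)

/-- The module HatU. -/
theorem thm_HatU (h1 : St_C2h) (h2 : St_PreS) (h3 : St_C2k) (h4 : St_C3h) (h5 : St_C5h)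
    (h6 : St_HopG) : St_HatU := by
  intro α β _ _ _ _ d N δ L χ θ hd hN hP hT h0 hK
  obtain ⟨G, ld, β₀, bt, hPre⟩ := HatU_C1 (Ix α β Unit) δ L χ θ hP hT h0
  have hA := GAM.thm_C2a GAM.thm_Lin (Ix α β Unit) δ L χ θ G ld β₀ bt hP hT h0 hPre
  obtain ⟨B, C, D, hC, hD, hBCD⟩ := h1 (Ix α β Unit) L ld bt hP.basis (fun l hl m hm =>
    ⟨(hA l hl m hm).1, (hA l hl m hm).2.1, (hA l hl m hm).2.2.2⟩)
  obtain ⟨Bp, Bm, c, b, rfl, rfl, rfl⟩ := h3 α β d N L B C D ld bt hd hN hP.basis hK hBCD hC hD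
    (fun s hs hs0 hsL => h2 (Ix α β Unit) δ L χ θ G ld β₀ bt s hP hT h0 hPre hs hs0 hsL)
  obtain ⟨k, hk⟩ := h4 (Ix α β Unit) δ L χ θ G ld β₀ bt (blk Unit Bp Bm) (qb c) (qb b) hP hT h0
    hPre hC hD hBCD
  have hdel : ∀ x, OddTor L x →
      IsDel δ (F θ x) (gop2 (k x) (blk Unit Bp Bm) (qb c) (qb b) (F θ x)) := fun x hx => by
    have e : G x = gop2 (k x) (blk Unit Bp Bm) (qb c) (qb b) (F θ x) := funext (hk x hx)
    rw [← e]
    exact hPre.del x hx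
  have h00 : OddTor L 0 := ⟨1, odd_one, by
    rw [smul_zero]
    exact L.zero_mem⟩
  refine ⟨k 0, Bp, Bm, c, b, fun x hx => ?_⟩
  have h7 := hdel x hx
  rw [← (h6 α β (k 0) Bp Bm c b (F θ x)).2.2 h7.ent,
    h5 (Ix α β Unit) δ L χ θ (blk Unit Bp Bm) (qb c) (qb b) k hP hT h0 hdel 0 x h00 hx]
  exact h7

end DWY
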