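import Pool.Agent.DWY.StB
import Pool.Agent.Helper71.AF.Alg
import Pool.Agent.PST.LinT
import Pool.Agent.PST.LinS
import Pool.Agent.PST.LdB
import Pool.Agent.PST.LdA
import Pool.Agent.PST.C2g
import Pool.Agent.PST.C3g
import Pool.Agent.PST.C5g
import Pool.Agent.PST.GopE
import Pool.Agent.PST.LdG
import Pool.Agent.PST.QuC
import Pool.Agent.PST.ExpQ
import Pool.Agent.PST.AVT
import Pool.Agent.PST.HatA

/-!
# DWY: the operator in the normal form
-/

set_option autoImplicit false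
set_option linter.unusedSectionVars false

namespace DWY

open scoped ComplexConjugate
open GAM (H E F pd pdl PLat IsTh OddTor IsDel Gro IsLat Pre)
open PST DWC
open Pool.Agent.GPC (AbVar hermForm bilForm)
open Module Matrix

section mat

variable {l m n : Type} [Fintype m]

/-- product rule for matrices -/
private theorem HatX_mul (δ : Derivation ℚ ℂ ℂ) (A : Matrix l m ℂ) (B : Matrix m n ℂ) :
    (A * B).map δ = A * B.map δ + A.map δ * B := by
  ext i j
  simp only [Matrix.map_apply, Matrix.add_apply, Matrix.mul_apply, map_sum]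
  rw [← Finset.sum_add_distrib]
  refine Finset.sum_congr rfl fun k _ => ?_
  rw [Derivation.leibniz, smul_eq_mul, smul_eq_mul]
  ring

private theorem HatX_alg (δ : Derivation ℚ ℂ ℂ) (A : Matrix l n ℂ)
    (h : ∀ i j, IsAlgebraic ℚ (A i j)) : A.map δ = 0 := by
  ext i j
  exact Pool.Agent.Helper7.derivation_eq_zero δ _ (h i j)

end mat

section blk

variable {α β μ : Type} [Fintype α] [Fintype β] [Fintype μ] [DecidableEq α] [DecidableEq β]
  [DecidableEq μ]

private theorem HatX_blk_mul (P P' : Matrix α α ℂ) (Q Q' : Matrix β β ℂ) :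
    blk μ P Q * blk μ P' Q' = blk μ (P * P') (Q * Q') := by
  ext ⟨p, k⟩ ⟨q, l⟩
  rw [Matrix.mul_apply]
  simp only [blk, Matrix.of_apply, Fintype.sum_prod_type, ite_mul, zero_mul, mul_ite, mul_zero]
  simp only [Finset.sum_ite_eq', Finset.mem_univ, if_true]
  by_cases h : k = l
  · subst h
    simp only [if_true]
    rw [← Matrix.mul_apply, Matrix.fromBlocks_multiply]
    simp
  · simp [h]

private theorem HatX_blk_one : blk μ (1 : Matrix α α ℂ) (1 : Matrix β β ℂ) = 1 := by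
  ext ⟨p, k⟩ ⟨q, l⟩
  rw [blk, Matrix.of_apply, Matrix.fromBlocks_one]
  simp only [Matrix.one_apply, Prod.mk.injEq]
  by_cases h : k = l <;> by_cases h' : p = q <;> simp [h, h']

private theorem HatX_blk_map (δ : Derivation ℚ ℂ ℂ) (P : Matrix α α ℂ) (Q : Matrix β β ℂ) :
    (blk μ P Q).map δ = blk μ (P.map δ) (Q.map δ) := by
  ext ⟨p, k⟩ ⟨q, l⟩
  simp only [blk, Matrix.map_apply, Matrix.of_apply]
  by_cases h : k = l
  · rw [if_pos h, if_pos h]
    rcases p with p | p <;> rcases q with q | q <;> simp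
  · rw [if_neg h, if_neg h, map_zero]

private theorem HatX_qb_map (δ : Derivation ℚ ℂ ℂ) (κ : Matrix α β ℂ) :
    (qb κ).map δ = qb (κ.map δ) := by
  ext ⟨p, k⟩ ⟨q, l⟩
  simp only [qb, Matrix.map_apply, Matrix.of_apply]
  rcases p with p | p <;> rcases q with q | q <;> simp

private theorem HatX_qb_neg (κ : Matrix α β ℂ) : qb (-κ) = -qb κ := by
  ext ⟨p, k⟩ ⟨q, l⟩
  simp only [qb, Matrix.neg_apply, Matrix.of_apply]
  rcases p with p | p <;> rcases q with q | q <;> simp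

/-- congruence of the symmetric matrix by blocks -/
private theorem HatX_qb_blk (P : Matrix α α ℂ) (Q : Matrix β β ℂ) (κ : Matrix α β ℂ) :
    (blk Unit P Q).transpose * qb κ * blk Unit P Q = qb (P.transpose * κ * Q) := by
  have e0 : ∀ A B : Matrix (Ix α β Unit) (Ix α β Unit) ℂ, ∀ A' B' : Matrix (α ⊕ β) (α ⊕ β) ℂ,
      (∀ p q, A p q = A' p.1 q.1) → (∀ p q, B p q = B' p.1 q.1) →
      ∀ p q, (A * B) p q = (A' * B') p.1 q.1 := by
    intro A B A' B' hA hB p q
    rw [Matrix.mul_apply, Matrix.mul_apply, Fintype.sum_prod_type]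
    refine Finset.sum_congr rfl fun s _ => ?_
    rw [Finset.univ_unique, Finset.sum_singleton, hA, hB]
  have h1 : ∀ p q, blk Unit P Q p q = Matrix.fromBlocks P 0 0 Q p.1 q.1 := by
    intro p q
    rw [blk, Matrix.of_apply, if_pos (Subsingleton.elim _ _)]
  have h2 : ∀ p q, (blk Unit P Q).transpose p q =
      (Matrix.fromBlocks P 0 0 Q).transpose p.1 q.1 := by
    intro p q
    rw [Matrix.transpose_apply, Matrix.transpose_apply, h1]
  have h3 : ∀ p q, qb κ p q = Matrix.fromBlocks 0 κ κ.transpose 0 p.1 q.1 := by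
    intro p q
    rw [qb, Matrix.of_apply]
  ext p q
  rw [e0 _ _ _ _ (e0 _ _ _ _ h2 h3) h1, qb, Matrix.of_apply]
  rw [Matrix.fromBlocks_transpose, Matrix.fromBlocks_multiply, Matrix.fromBlocks_multiply]
  simp [Matrix.mul_assoc, Matrix.transpose_mul]

end blk

/-- the operator for the lattice of an abelian variety -/
private theorem HatX_A : St_HatA :=
  thm_HatA (thm_LdA (thm_LinS thm_LinT) thm_LdB) (thm_GopE thm_C2g thm_C3g thm_C5g)
    (thm_QuC thm_LdG) (thm_AVT (thm_LinS thm_LinT) thm_ExpQ)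

theorem thm_HatX (h : St_HopG) : St_HatX := by
  intro X d α β _ _ _ _ T S Tp Tm Ta Tb κ L χ θ δ hN hL hθ hne
  have up := isUnit_iff_ne_zero.mpr hN.dp
  have um := isUnit_iff_ne_zero.mpr hN.dm
  have b1 : blk Unit Tp Tm * blk Unit Tp⁻¹ Tm⁻¹ = 1 := by
    rw [HatX_blk_mul, Matrix.mul_nonsing_inv _ up, Matrix.mul_nonsing_inv _ um, HatX_blk_one]
  obtain ⟨Bl, hBl⟩ : ∃ Bl, Bl = blk Unit Tp Tm := ⟨_, rfl⟩
  obtain ⟨Bi, hBi⟩ : ∃ Bi, Bi = blk Unit Tp⁻¹ Tm⁻¹ := ⟨_, rfl⟩
  have ts := hN.ts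
  have st := hN.st
  have hfb := hN.facb
  rw [← hBl] at hfb
  rw [← hBl, ← hBi] at b1
  have a4 : Tb.map δ = 0 := HatX_alg δ Tb hN.algb
  have a5 : S = Tb * Bi := by rw [hfb, Matrix.mul_assoc, b1, Matrix.mul_one]
  have hB : T * S.map δ = blk Unit (Tp * Tp⁻¹.map δ) (Tm * Tm⁻¹.map δ) := by
    have e1 : S.map δ = (S * Bl) * Bi.map δ := by
      have e2 := HatX_mul δ Tb Bi
      rw [← a5, a4, Matrix.zero_mul, add_zero, hfb] at e2
      exact e2
    rw [e1, ← Matrix.mul_assoc, ← Matrix.mul_assoc, ts, Matrix.one_mul, hBi, HatX_blk_map, hBl,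
      HatX_blk_mul]
  -- the quadratic part
  have hq : Tb.transpose * X.q.map δ * Tb = qb (κ.map δ) := by
    have e1 : (Tb.transpose * X.q * Tb - qb κ).map δ = 0 := HatX_alg δ _ hN.qq
    have e2 : (Tb.transpose * X.q * Tb).map δ = (qb κ).map δ := by
      rw [← sub_eq_zero, ← Matrix.map_sub _ (fun a b => map_sub δ a b)]
      exact e1
    have e3 : Tb.transpose.map δ = 0 := by
      rw [Matrix.transpose_map, a4, Matrix.transpose_zero]
    rw [HatX_mul, HatX_mul, a4, e3, Matrix.mul_zero, Matrix.zero_mul, zero_add, add_zero,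
      HatX_qb_map] at e2
    exact e2
  have hC : -(S.transpose * X.q.map δ * S) =
      qb (-((Tp⁻¹).transpose * κ.map δ * Tm⁻¹)) := by
    rw [HatX_qb_neg, ← HatX_qb_blk, ← hBi, ← hq]
    rw [neg_inj]
    conv_lhs => rw [a5]
    rw [Matrix.transpose_mul]
    simp only [Matrix.mul_assoc]
  -- the operator
  have hlat : ∀ l ∈ L, ∃ n : ℕ, n ≠ 0 ∧ S.mulVec ((n : ℤ) • l) ∈ X.Λ := by
    intro l hl
    obtain ⟨n, hn, hn'⟩ := (hN.lat (S.mulVec l)).mpr ⟨1, one_ne_zero, by
      rw [Nat.cast_one, one_smul, Matrix.mulVec_mulVec, ts, Matrix.one_mulVec]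
      exact hl⟩
    refine ⟨n, hn, ?_⟩
    have e2 : S.mulVec ((n : ℤ) • l) = (n : ℤ) • S.mulVec l := by
      rw [Matrix.mulVec_smul]
    rw [e2]
    exact hn'
  obtain ⟨k, hk⟩ := HatX_A X (Ix α β Unit) δ S T L χ θ st ts hL hθ hne hN.herm hlat
  rw [hB, hC] at hk
  refine ⟨k, fun x hx => ?_⟩
  have e := hk.del x hx
  rw [(h α β k _ _ _ 0 (F θ x)).1] at e
  exact e

end DWY
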