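import Pool.Agent.DWY.StB

/-!
# DWY, HatY: algebra of the operator of the exterior square
-/

set_option autoImplicit false

namespace DWY

open PST DWC

private theorem HatY_mapmul {l m n : Type} [Fintype m] (δ : Derivation ℚ ℂ ℂ) (M : Matrix l m ℂ)
    (N : Matrix m n ℂ) : (M * N).map δ = M.map δ * N + M * N.map δ := by
  ext i j
  rw [Matrix.map_apply, Matrix.add_apply, Matrix.mul_apply, Matrix.mul_apply, Matrix.mul_apply,
    map_sum, ← Finset.sum_add_distrib]
  refine Finset.sum_congr rfl fun k _ => ?_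
  rw [Derivation.leibniz, Matrix.map_apply, Matrix.map_apply, smul_eq_mul, smul_eq_mul]
  ring

private theorem HatY_mapone {n : Type} [DecidableEq n] (δ : Derivation ℚ ℂ ℂ) :
    (1 : Matrix n n ℂ).map δ = 0 := by
  ext i j
  rw [Matrix.map_apply, Matrix.zero_apply]
  by_cases h : i = j
  · rw [h, Matrix.one_apply_eq, Derivation.map_one_eq_zero]
  · rw [Matrix.one_apply_ne h, map_zero]

private theorem HatY_mapsmul {l m : Type} (δ : Derivation ℚ ℂ ℂ) (c : ℂ) (M : Matrix l m ℂ) :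
    (c • M).map δ = δ c • M + c • M.map δ := by
  ext i j
  rw [Matrix.map_apply, Matrix.add_apply, Matrix.smul_apply, Matrix.smul_apply, Matrix.smul_apply,
    Matrix.map_apply, smul_eq_mul, smul_eq_mul, smul_eq_mul, Derivation.leibniz, smul_eq_mul,
    smul_eq_mul]
  ring

/-- `δ (c⁻¹) * c = - δ c / c` -/
private theorem HatY_dinv (δ : Derivation ℚ ℂ ℂ) (c : ℂ) (hc : c ≠ 0) :
    c * δ c⁻¹ = -(δ c / c) := by
  have h1 : δ (c * c⁻¹) = 0 := by
    rw [mul_inv_cancel₀ hc, Derivation.map_one_eq_zero]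
  rw [Derivation.leibniz, smul_eq_mul, smul_eq_mul] at h1
  have h2 : c * δ c⁻¹ = -(c⁻¹ * δ c) := by
    linear_combination h1
  rw [h2]
  ring

/-- The Jacobi formula. -/
private theorem HatY_jac (δ : Derivation ℚ ℂ ℂ) (P : Matrix (Fin 3) (Fin 3) ℂ) :
    δ P.det = (P.map δ * P.adjugate).trace := by
  rw [Matrix.det_fin_three, Matrix.trace_fin_three]
  simp only [Matrix.mul_apply, Fin.sum_univ_three, Matrix.map_apply, Matrix.adjugate_fin_three,
    Matrix.of_apply, Matrix.cons_val', Matrix.cons_val_zero, Matrix.cons_val_one, Matrix.cons_val,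
    map_add, map_sub, Derivation.leibniz, smul_eq_mul]
  ring

private theorem HatY_jac2 (δ : Derivation ℚ ℂ ℂ) (P : Matrix (Fin 3) (Fin 3) ℂ)
    (hP : P.det ≠ 0) : δ P.det / P.det = -(P * P⁻¹.map δ).trace := by
  have hu : IsUnit P.det := isUnit_iff_ne_zero.mpr hP
  have h1 : P.map δ * P⁻¹ + P * P⁻¹.map δ = 0 := by
    rw [← HatY_mapmul, Matrix.mul_nonsing_inv P hu, HatY_mapone]
  have h2 : P.map δ * P⁻¹ = -(P * P⁻¹.map δ) := eq_neg_of_add_eq_zero_left h1
  rw [← Matrix.trace_neg, ← h2, HatY_jac, Matrix.inv_def, Ring.inverse_eq_inv', Matrix.mul_smul,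
    Matrix.trace_smul, smul_eq_mul]
  ring

/-- The general computation. -/
private theorem HatY_gen (δ : Derivation ℚ ℂ ℂ) (P : Matrix (Fin 3) (Fin 3) ℂ)
    (hP : P.det ≠ 0) (c : ℂ) (hc : c ≠ 0) :
    (c • (P⁻¹).transpose).det ≠ 0 ∧ (c • (P⁻¹).transpose)⁻¹ = c⁻¹ • P.transpose ∧
    (c • (P⁻¹).transpose) * (c • (P⁻¹).transpose)⁻¹.map δ =
      (-(δ c / c)) • (1 : Matrix (Fin 3) (Fin 3) ℂ) - (P * P⁻¹.map δ).transpose := by
  have hu : IsUnit P.det := isUnit_iff_ne_zero.mpr hP
  have hinv : (c • (P⁻¹).transpose)⁻¹ = c⁻¹ • P.transpose := by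
    apply Matrix.inv_eq_right_inv
    rw [Matrix.smul_mul, Matrix.mul_smul, smul_smul, mul_inv_cancel₀ hc, one_smul,
      ← Matrix.transpose_mul, Matrix.mul_nonsing_inv P hu, Matrix.transpose_one]
  refine ⟨?_, hinv, ?_⟩
  · rw [Matrix.det_smul, Matrix.det_transpose]
    refine mul_ne_zero (pow_ne_zero _ hc) ?_
    rw [Matrix.det_nonsing_inv, Ring.inverse_eq_inv']
    exact inv_ne_zero hP
  · rw [hinv, HatY_mapsmul]
    have h1 : P.map δ * P⁻¹ + P * P⁻¹.map δ = 0 := by
      rw [← HatY_mapmul, Matrix.mul_nonsing_inv P hu, HatY_mapone]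
    have h2 : P.map δ * P⁻¹ = -(P * P⁻¹.map δ) := eq_neg_of_add_eq_zero_left h1
    have h3 : P.transpose.map δ = (P.map δ).transpose := rfl
    have h4 : (P⁻¹).transpose * P.transpose = 1 := by
      rw [← Matrix.transpose_mul, Matrix.mul_nonsing_inv P hu, Matrix.transpose_one]
    have h5 : (P⁻¹).transpose * P.transpose.map δ = -(P * P⁻¹.map δ).transpose := by
      rw [h3, ← Matrix.transpose_mul, h2, Matrix.transpose_neg]
    rw [Matrix.mul_add, Matrix.smul_mul, Matrix.mul_smul, Matrix.smul_mul, Matrix.mul_smul, h4, h5,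
      smul_smul, smul_smul, mul_inv_cancel₀ hc, one_smul, HatY_dinv δ c hc, ← sub_eq_add_neg]

private theorem HatY_kap (P : Matrix (Fin 3) (Fin 3) ℂ) (k : Matrix (Fin 3) Unit ℂ) :
    P * kY (P.transpose * k) * P.transpose = P.det • kY k := by
  have hs : ∀ (i : Fin 3), (Pi.single i (1 : ℂ) : Fin 3 → ℂ) = fun j => if j = i then 1 else 0 := by
    intro i
    funext j
    rw [Pi.single_apply]
  have hk : ∀ (x : Matrix (Fin 3) Unit ℂ), kY x = !![0, x 2 (), - x 1 (); - x 2 (), 0, x 0 ();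
      x 1 (), - x 0 (), 0] := by
    intro x
    ext i j
    fin_cases i <;> fin_cases j <;>
      simp [kY, crs, hs]
  rw [hk, hk]
  ext i j
  fin_cases i <;> fin_cases j <;>
    simp [Matrix.mul_apply, Fin.sum_univ_three, Matrix.det_fin_three] <;> ring

theorem thm_HatY : St_HatY := by
  intro δ P Q κ m A hP hQ hm hδ
  have hu : IsUnit P.det := isUnit_iff_ne_zero.mpr hP
  have hQ0 : Q () () ≠ 0 := by
    rw [Matrix.det_unique] at hQ
    exact hQ
  have hc1 : m * P.det ≠ 0 := mul_ne_zero hm hP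
  have hc2 : m⁻¹ * Q () () ≠ 0 := mul_ne_zero (inv_ne_zero hm) hQ0
  obtain ⟨a1, a2, a3⟩ := HatY_gen δ P hP _ hc1
  obtain ⟨b1, b2, b3⟩ := HatY_gen δ P hP _ hc2
  have hQi : Q⁻¹ = (Q () ())⁻¹ • (1 : Matrix Unit Unit ℂ) := by
    apply Matrix.inv_eq_right_inv
    ext i j
    rw [Matrix.mul_smul, Matrix.mul_one, Matrix.smul_apply, smul_eq_mul]
    cases i
    cases j
    rw [inv_mul_cancel₀ hQ0]
    rfl
  refine ⟨a1, b1, ?_, ?_, ?_⟩
  · unfold TpY
    rw [a3]
    congr 2
    rw [Derivation.leibniz, smul_eq_mul, smul_eq_mul, hδ]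
    have h1 := HatY_jac2 δ P hP
    have h2 : (m * δ P.det + P.det * (A * m)) / (m * P.det) = δ P.det / P.det + A := by
      field_simp
    rw [h2, h1]
    ring
  · unfold TmY
    rw [b3]
    congr 2
    have h1 : (Q * Q⁻¹.map δ) () () = -(δ (Q () ()) / Q () ()) := by
      rw [hQi, Matrix.mul_apply, Fintype.sum_unique]
      have h2 : ((Q () ())⁻¹ • (1 : Matrix Unit Unit ℂ)).map δ default () = δ (Q () ())⁻¹ := by
        rw [Matrix.map_apply, Matrix.smul_apply]
        congr 1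
        rw [smul_eq_mul]
        exact mul_one _
      rw [h2]
      exact HatY_dinv δ _ hQ0
    rw [h1]
    have h3 : δ (m⁻¹) = -(A / m) := by
      have h4 := HatY_dinv δ m hm
      rw [hδ, mul_div_assoc, div_self hm, mul_one] at h4
      have h5 : δ m⁻¹ = m⁻¹ * (m * δ m⁻¹) := by
        rw [← mul_assoc, inv_mul_cancel₀ hm, one_mul]
      rw [h5, h4]
      ring
    rw [Derivation.leibniz, smul_eq_mul, smul_eq_mul, h3]
    field_simp
    ring
  · unfold TpY TmY
    rw [a2, b2, Matrix.transpose_smul, Matrix.transpose_transpose, hQi]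
    have hmap : (kY κ).map δ = kY (κ.map δ) := by
      ext i j
      simp only [kY, crs, Matrix.map_apply, Matrix.of_apply, map_sub, Derivation.leibniz,
        smul_eq_mul]
      have hs : ∀ s : Fin 3, δ ((Pi.single i (1 : ℂ) : Fin 3 → ℂ) s) = 0 := by
        intro s
        rw [Pi.single_apply]
        split_ifs
        · exact Derivation.map_one_eq_zero δ
        · exact map_zero δ
      rw [hs, hs]
      ring
    have hlin : ∀ (c : ℂ) (x : Matrix (Fin 3) Unit ℂ), kY (c • x) = c • kY x := by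
      intro c x
      ext i j
      simp only [kY, crs, Matrix.of_apply, Matrix.smul_apply, smul_eq_mul]
      ring
    have hx : P.transpose * ((P⁻¹).transpose * κ.map δ) = κ.map δ := by
      rw [← Matrix.mul_assoc, ← Matrix.transpose_mul, Matrix.nonsing_inv_mul P hu,
        Matrix.transpose_one, Matrix.one_mul]
    have hk := HatY_kap P ((P⁻¹).transpose * κ.map δ)
    rw [hx] at hk
    have hr : -((P⁻¹).transpose * κ.map δ * ((Q () ())⁻¹ • (1 : Matrix Unit Unit ℂ))) =
        (-(Q () ())⁻¹) • ((P⁻¹).transpose * κ.map δ) := by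
      rw [Matrix.mul_smul, Matrix.mul_one, neg_smul]
    rw [hr, hlin, hmap, Matrix.smul_mul, Matrix.smul_mul, Matrix.mul_smul, hk, smul_smul,
      smul_smul, ← neg_smul]
    congr 1
    field_simp

end DWY
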