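import Pool.Agent.DWY.StA
import Pool.Agent.Squeeze.Smooth

/-!
DWY, module HopG: the operator gop2 with blocks is hop2
-/

set_option autoImplicit false

namespace DWY

open GAM (pd)
open PST DWC

/-- symmetry of the second derivatives -/
theorem HopG_symm {ι : Type} [Fintype ι] [DecidableEq ι] {G : (ι → ℂ) → ℂ}
    (hG : Differentiable ℂ G) (a b : ι) (v : ι → ℂ) :
    pd a (pd b G) v = pd b (pd a G) v := by
  have hfo : DifferentiableOn ℂ G Set.univ := hG.differentiableOn
  have hd : Differentiable ℂ (fderiv ℂ G) := by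
    have := Pool.Agent.Squeeze.differentiableOn_fderiv isOpen_univ hfo
    exact differentiableOn_univ.mp this
  have hc : ContDiff ℂ 2 G := by
    have := Pool.Agent.Squeeze.contDiffOn_of_differentiableOn isOpen_univ 2 hfo
    exact contDiffOn_univ.mp this
  have hs : IsSymmSndFDerivAt ℂ G v := by
    refine hc.contDiffAt.isSymmSndFDerivAt ?_
    simp
  have key : ∀ x y : ι → ℂ, fderiv ℂ (fun z => fderiv ℂ G z x) v y = fderiv ℂ (fderiv ℂ G) v y x := by
    intro x y
    have h1 : HasFDerivAt (fun z => fderiv ℂ G z x)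
        ((ContinuousLinearMap.apply ℂ ℂ x).comp (fderiv ℂ (fderiv ℂ G) v)) v :=
      (ContinuousLinearMap.apply ℂ ℂ x).hasFDerivAt.comp v (hd v).hasFDerivAt
    rw [h1.fderiv]
    rfl
  show fderiv ℂ (fun z => fderiv ℂ G z (Pi.single b 1)) v (Pi.single a 1) =
    fderiv ℂ (fun z => fderiv ℂ G z (Pi.single a 1)) v (Pi.single b 1)
  rw [key, key]
  exact hs _ _

/-- sums over pairs of indices, with the matrix `blk` -/
theorem HopG_blk {α β : Type} [Fintype α] [Fintype β] [DecidableEq α] [DecidableEq β]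
    (Bp : Matrix α α ℂ) (Bm : Matrix β β ℂ) (f : Ix α β Unit → Ix α β Unit → ℂ) :
    ∑ a, ∑ b, blk Unit Bp Bm a b * f a b =
      ∑ i, ∑ i', Bp i i' * f (Sum.inl i, ()) (Sum.inl i', ()) +
        ∑ j, ∑ j', Bm j j' * f (Sum.inr j, ()) (Sum.inr j', ()) := by
  simp only [Fintype.sum_prod_type, Fintype.sum_sum_type, Finset.univ_unique, Finset.sum_singleton,
    PUnit.default_eq_unit, blk, Matrix.of_apply, if_true, Matrix.fromBlocks_apply₁₁,
    Matrix.fromBlocks_apply₁₂, Matrix.fromBlocks_apply₂₁, Matrix.fromBlocks_apply₂₂,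
    Matrix.zero_apply, zero_mul, Finset.sum_const_zero, add_zero, zero_add]

/-- sums over pairs of indices, with the matrix `qb` -/
theorem HopG_qb {α β : Type} [Fintype α] [Fintype β] [DecidableEq α] [DecidableEq β]
    (c : Matrix α β ℂ) (f : Ix α β Unit → Ix α β Unit → ℂ) :
    ∑ a, ∑ b, qb c a b * f a b =
      ∑ i, ∑ j, c i j * f (Sum.inl i, ()) (Sum.inr j, ()) +
        ∑ i, ∑ j, c i j * f (Sum.inr j, ()) (Sum.inl i, ()) := by
  simp only [Fintype.sum_prod_type, Fintype.sum_sum_type, Finset.univ_unique, Finset.sum_singleton,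
    PUnit.default_eq_unit, qb, Matrix.of_apply, Matrix.fromBlocks_apply₁₁,
    Matrix.fromBlocks_apply₁₂, Matrix.fromBlocks_apply₂₁, Matrix.fromBlocks_apply₂₂,
    Matrix.zero_apply, zero_mul, Finset.sum_const_zero, add_zero, zero_add,
    Matrix.transpose_apply]
  congr 1
  exact Finset.sum_comm

theorem HopG_one {α β : Type} [Fintype α] [Fintype β] [DecidableEq α] [DecidableEq β]
    (k : ℂ) (Bp : Matrix α α ℂ) (Bm : Matrix β β ℂ) (c : Matrix α β ℂ)
    (G : (Ix α β Unit → ℂ) → ℂ) : gop k (blk Unit Bp Bm) (qb c) G = hop k Bp Bm c G := by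
  funext v
  unfold gop hop
  rw [HopG_blk Bp Bm (fun a b => v b * pd a G v)]
  have h1 : ∑ a, ∑ b, qb c a b * v a * v b = ∑ a, ∑ b, qb c a b * (v a * v b) := by
    simp only [mul_assoc]
  rw [h1, HopG_qb c (fun a b => v a * v b)]
  simp only [Finset.univ_unique, Finset.sum_singleton, PUnit.default_eq_unit]
  have h2 : ∑ i, ∑ j, c i j * (v (Sum.inr j, ()) * v (Sum.inl i, ())) =
      ∑ i, ∑ j, c i j * (v (Sum.inl i, ()) * v (Sum.inr j, ())) := by
    refine Finset.sum_congr rfl fun i _ => Finset.sum_congr rfl fun j _ => ?_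
    ring
  have h3 : ∑ i, ∑ j, c i j * (v (Sum.inl i, ()) * (v (Sum.inr j, ()) * G v)) =
      (∑ i, ∑ j, c i j * (v (Sum.inl i, ()) * v (Sum.inr j, ()))) * G v := by
    rw [Finset.sum_mul]
    refine Finset.sum_congr rfl fun i _ => ?_
    rw [Finset.sum_mul]
    refine Finset.sum_congr rfl fun j _ => ?_
    ring
  rw [h2, h3]
  ring

theorem thm_HopG : St_HopG := by
  intro α β _ _ _ _ k Bp Bm c b G
  refine ⟨HopG_one k Bp Bm c G, ?_, ?_⟩
  · funext v
    simp [hop2]
  · intro hG
    funext v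
    unfold gop2 hop2
    rw [HopG_one, HopG_qb b (fun x y => pd x (pd y G) v)]
    have h1 : ∑ i, ∑ j, b i j * pd (Sum.inl i, ()) (pd (Sum.inr j, ()) G) v =
        ∑ i, ∑ j, b i j * pd (Sum.inr j, ()) (pd (Sum.inl i, ()) G) v := by
      refine Finset.sum_congr rfl fun i _ => Finset.sum_congr rfl fun j _ => ?_
      rw [HopG_symm hG]
    have h2 : ∑ i, ∑ j, b i j * Dij (i, j) G v =
        ∑ i, ∑ j, b i j * pd (Sum.inr j, ()) (pd (Sum.inl i, ()) G) v := by
      refine Finset.sum_congr rfl fun i _ => Finset.sum_congr rfl fun j _ => ?_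
      simp only [Dij, Finset.univ_unique, Finset.sum_singleton, PUnit.default_eq_unit]
    rw [h1, h2]
    have hpi : (Real.pi : ℂ) ≠ 0 := by exact_mod_cast Real.pi_ne_zero
    field_simp
    ring

end DWY
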