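import Pool.Agent.DWY.StB
import Pool.Agent.PST.Core
import Pool.Agent.PST.Pts
import Pool.Agent.PST.DetPt
import Pool.Agent.PST.Ind3
import Pool.Agent.PST.Ell
import Pool.Agent.PST.EllH
import Pool.Agent.PST.EllB
import Pool.Agent.PST.EllZ
import Pool.Agent.PST.EllI
import Pool.Agent.PST.EllW
import Pool.Agent.PST.Gau
import Pool.Agent.PST.HolP
import Pool.Agent.PST.OmT

/-!
# DWY [IndY]: the vector fields agree
-/

set_option autoImplicit false

namespace DWY

open scoped ComplexConjugate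
open GAM (H E F pd pdl PLat IsTh OddTor IsDel Gro IsLat Pre)
open PST DWC
open Pool.Agent.GPC (AbVar hermForm bilForm)

theorem IndY_OmT : St_OmT := thm_OmT
theorem IndY_EllI : St_EllI := thm_EllI
theorem IndY_HolP : St_HolP := thm_HolP
theorem IndY_Gau : St_Gau := thm_Gau
theorem IndY_EllB : St_EllB := thm_EllB IndY_Gau IndY_EllI
theorem IndY_EllZ : St_EllZ := thm_EllZ IndY_Gau IndY_EllI IndY_EllB
theorem IndY_EllH : St_EllH := thm_EllH IndY_OmT IndY_HolP IndY_Gau IndY_EllI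
theorem IndY_Ell : St_Ell := thm_Ell IndY_EllH IndY_EllB IndY_EllZ IndY_EllI IndY_Gau
theorem IndY_Pts : St_Pts := thm_Pts thm_DetPt thm_Ind3 IndY_EllZ

/-- The matrix of the values and of the first derivatives. -/
noncomputable def IndY_M (θ : (IY → ℂ) → ℂ) (y : Option WY → IY → ℂ) (u : WY → ℂ) :
    Matrix (Option WY) (Option WY) ℂ :=
  Matrix.of fun i j => Option.elim j (ell u (F θ (y i))) fun p =>
    1 / (Real.pi : ℂ) * ell u (Dij p (F θ (y i)))

theorem IndY_diff {L : Submodule ℤ (IY → ℂ)} {χ θ : (IY → ℂ) → ℂ} (hL : PLat L χ)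
    (hθ : IsTh L χ θ) (y : Option WY → IY → ℂ) :
    DifferentiableOn ℂ (fun u => (IndY_M θ y u).det) (Om (Fin 3) (Fin 3)) := by
  refine Core_det (fun (i j : Option WY) u => Option.elim j (ell u (F θ (y i))) fun p =>
    1 / (Real.pi : ℂ) * ell u (Dij p (F θ (y i)))) ?_
  intro i j
  cases j with
  | none => exact (IndY_Ell (Fin 3) (Fin 3) Unit (F θ (y i)) (Core_gro hL hθ (y i))).1
  | some p =>
    exact (IndY_Ell (Fin 3) (Fin 3) Unit (Dij p (F θ (y i)))
      (EllW_gro_Dij (Core_gro hL hθ (y i)) p)).1.const_mul _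

theorem IndY_zero {L : Submodule ℤ (IY → ℂ)} {χ θ : (IY → ℂ) → ℂ} (hL : PLat L χ)
    (hθ : IsTh L χ θ) (y : Option WY → IY → ℂ)
    (h : (Matrix.of fun i j : Option WY =>
      Option.elim j (F θ (y i) 0) fun p => Dij p (F θ (y i)) 0).det ≠ 0) :
    (IndY_M θ y 0).det ≠ 0 := by
  have e : IndY_M θ y 0 = Matrix.of fun i j : Option WY =>
      (Option.elim j 1 fun _ => 1 / (Real.pi : ℂ)) * (Matrix.of fun i j : Option WY =>
        Option.elim j (F θ (y i) 0) fun p => Dij p (F θ (y i)) 0) i j := by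
    ext i j
    cases j with
    | none =>
      simp only [IndY_M, Matrix.of_apply, Option.elim]
      rw [(IndY_Ell (Fin 3) (Fin 3) Unit (F θ (y i)) (Core_gro hL hθ (y i))).2.1, one_mul]
    | some p =>
      simp only [IndY_M, Matrix.of_apply, Option.elim]
      rw [(IndY_Ell (Fin 3) (Fin 3) Unit (Dij p (F θ (y i)))
        (EllW_gro_Dij (Core_gro hL hθ (y i)) p)).2.1]
  rw [e, Matrix.det_mul_row]
  refine mul_ne_zero ?_ h
  rw [Finset.prod_ne_zero_iff]
  intro j _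
  have hpi : (Real.pi : ℂ) ≠ 0 := by exact_mod_cast Real.pi_ne_zero
  cases j with
  | none => exact one_ne_zero
  | some p => exact one_div_ne_zero hpi

theorem thm_IndY (h1 : St_CoreY) (h2 : St_RhoM) : St_IndY := by
  intro δ g L₀ L₁ χ₀ θ₀ χ₁ θ₁ LY₀ LY₁ χY₀ θY₀ χY₁ θY₁ e A k₀ kY₀ k₁ kY₁ Bp Bm c b BpY BmY cY bY hD
  obtain ⟨y, x, x', hy, -, -, hy0, -, -, hdet⟩ :=
    IndY_Pts (Fin 3) (Fin 3) Unit LY₀ χY₀ θY₀ () hD.plY₀ hD.thY₀ hD.nzY₀
  obtain ⟨hO, -, h0, -⟩ := IndY_OmT (Fin 3) (Fin 3)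
  obtain ⟨-, -, -, hr0, M, -, hM⟩ := h2
  have hcont : Continuous rho := by
    have : rho = fun w => M.mulVec w := funext hM
    rw [this]
    exact Continuous.matrix_mulVec continuous_const continuous_id
  have ht : Filter.Tendsto rho (nhds 0) (nhds 0) := by
    have := hcont.tendsto 0
    rwa [hr0] at this
  have hOn : Om (Fin 3) (Fin 3) ∈ nhds (0 : WY → ℂ) := hO.mem_nhds h0
  have e1 : ∀ᶠ w in nhds (0 : WX → ℂ), rho w ∈ Om (Fin 3) (Fin 3) := ht hOn
  have e2 : ∀ᶠ w in nhds (0 : WX → ℂ), (IndY_M θY₀ y (rho w)).det ≠ 0 := by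
    have hc : ContinuousAt (fun u => (IndY_M θY₀ y u).det) 0 :=
      ((IndY_diff hD.plY₀ hD.thY₀ y).differentiableAt hOn).continuousAt
    exact ht (hc.eventually_ne (IndY_zero hD.plY₀ hD.thY₀ y hdet))
  have e3 : ∀ᶠ w in nhds (0 : WX → ℂ), psi θY₀ (rho w) (y none) ≠ 0 := by
    have hc : ContinuousAt (fun u => psi θY₀ u (y none)) 0 :=
      ((Core_psiD IndY_Ell hD.plY₀ hD.thY₀ (y none)).differentiableAt hOn).continuousAt
    exact ht (hc.eventually_ne hy0)
  have e4 : ∀ᶠ w in nhds (0 : WX → ℂ), ∀ i : Option WY,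
      psi θY₀ (rho w) (y none) * ∑ p, vY Bp Bm c b BpY BmY cY bY w p *
          pd p (fun u => psi θY₀ u (y i)) (rho w) =
        psi θY₀ (rho w) (y i) * ∑ p, vY Bp Bm c b BpY BmY cY bY w p *
          pd p (fun u => psi θY₀ u (y none)) (rho w) := by
    rw [Filter.eventually_all]
    intro i
    have := h1 δ g L₀ L₁ χ₀ θ₀ χ₁ θ₁ LY₀ LY₁ χY₀ θY₀ χY₁ θY₁ e A k₀ kY₀ k₁ kY₁ Bp Bm c b BpY
      BmY cY bY (fun b => if b = true then y i else y none) hD
      (by intro b; cases b <;> simp only [if_true, Bool.false_eq_true, if_false] <;> exact hy _)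
      (by simpa using hy0)
    simpa using this
  filter_upwards [e1, e2, e3, e4] with w w1 w2 w3 w4
  set V := vY Bp Bm c b BpY BmY cY bY w with hV
  set lam : ℂ := (∑ p, V p * pd p (fun u => psi θY₀ u (y none)) (rho w)) /
    psi θY₀ (rho w) (y none) with hlam
  have hk : (IndY_M θY₀ y (rho w)).mulVec (fun j => Option.elim j (-lam) V) = 0 := by
    funext i
    have h5 : ∀ p, pd p (fun u => psi θY₀ u (y i)) (rho w) =
        1 / (Real.pi : ℂ) * ell (rho w) (Dij p (F θY₀ (y i))) := fun p =>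
      ((IndY_Ell (Fin 3) (Fin 3) Unit (F θY₀ (y i))
        (Core_gro hD.plY₀ hD.thY₀ (y i))).2.2 (rho w) w1).1 p
    have h6 := w4 i
    have h7 : ∑ p, V p * pd p (fun u => psi θY₀ u (y i)) (rho w) =
        lam * psi θY₀ (rho w) (y i) := by
      rw [hlam, div_mul_eq_mul_div, eq_div_iff w3, mul_comm, h6]
      ring
    rw [Matrix.mulVec, dotProduct, Fintype.sum_option]
    simp only [IndY_M, Matrix.of_apply, Option.elim, Pi.zero_apply]
    have h8 : ∑ p, 1 / (Real.pi : ℂ) * ell (rho w) (Dij p (F θY₀ (y i))) * V p =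
        ∑ p, V p * pd p (fun u => psi θY₀ u (y i)) (rho w) := by
      apply Finset.sum_congr rfl
      intro p _
      rw [h5 p]
      ring
    rw [h8, h7]
    unfold psi
    ring
  have hz := Matrix.eq_zero_of_mulVec_eq_zero w2 hk
  intro p
  exact congrFun hz (some p)

end DWY
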