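import Pool.Agent.DWY.StC

/-!
# DWY [JNS]: the multiplication by `i √d`
-/

set_option autoImplicit false

namespace DWY

open scoped ComplexConjugate
open GAM (H E F pd pdl PLat IsTh OddTor IsDel Gro IsLat GoodN LinN)
open PST DWC
open Pool.Agent.GPC (AbVar hermForm bilForm IsAlgQuadratic)

private theorem JNS_conj (d : ℚ) : conj (zd d) = -zd d := by
  unfold zd
  rw [map_mul, Complex.conj_ofReal, Complex.conj_I, mul_neg]

private theorem JNS_sq {d : ℚ} (hd : 0 < d) : zd d * zd d = -(d : ℂ) := by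
  unfold zd
  have h1 : ((Real.sqrt (d : ℝ) : ℝ) : ℂ) * ((Real.sqrt (d : ℝ) : ℝ) : ℂ) = (d : ℂ) := by
    rw [← Complex.ofReal_mul, Real.mul_self_sqrt (by exact_mod_cast hd.le)]
    exact Complex.ofReal_ratCast d
  calc ((Real.sqrt (d : ℝ) : ℝ) : ℂ) * Complex.I * (((Real.sqrt (d : ℝ) : ℝ) : ℂ) * Complex.I)
      = ((Real.sqrt (d : ℝ) : ℝ) : ℂ) * ((Real.sqrt (d : ℝ) : ℝ) : ℂ) *
        (Complex.I * Complex.I) := by ring
    _ = -(d : ℂ) := by rw [h1, Complex.I_mul_I]; ring

private theorem JNS_alg {d : ℚ} (hd : 0 < d) : IsAlgebraic ℚ (zd d) := by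
  have h : IsAlgebraic ℚ (zd d ^ 2) := by
    rw [pow_two, JNS_sq hd]
    exact (isAlgebraic_algebraMap (R := ℚ) (A := ℂ) d).neg
  exact h.of_pow two_pos

private noncomputable def JNS_D {α β : Type} (d : ℚ) (p : Ix α β Unit) : ℂ :=
  Sum.elim (fun _ => zd d) (fun _ => -zd d) p.1

section JNS

variable {α β : Type}

private theorem JNS_DD {d : ℚ} (hd : 0 < d) (p : Ix α β Unit) :
    JNS_D d p * JNS_D d p = -(d : ℂ) := by
  obtain ⟨s, t⟩ := p
  cases s with
  | inl i => exact JNS_sq hd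
  | inr j =>
    have := JNS_sq hd
    simp only [JNS_D, Sum.elim_inr]
    rw [neg_mul_neg, this]

private theorem JNS_Dconj (d : ℚ) (p : Ix α β Unit) : conj (JNS_D d p) = -JNS_D d p := by
  obtain ⟨s, t⟩ := p
  cases s with
  | inl i => exact JNS_conj d
  | inr j =>
    simp only [JNS_D, Sum.elim_inr]
    rw [map_neg, JNS_conj]

private theorem JNS_Dalg {d : ℚ} (hd : 0 < d) (p : Ix α β Unit) :
    IsAlgebraic ℚ (JNS_D d p) := by
  obtain ⟨s, t⟩ := p
  cases s with
  | inl i => exact JNS_alg hd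
  | inr j => exact (JNS_alg hd).neg

private theorem JNS_com [Fintype α] [Fintype β] (M : Matrix (Ix α β Unit) (Ix α β Unit) ℂ) (d : ℚ) (ε : ℂ)
    (hM : ∀ p q, M p q * JNS_D d q = ε * (JNS_D d p * M p q)) (ζ : Ix α β Unit → ℂ)
    (p : Ix α β Unit) :
    M.mulVec (fun q => JNS_D d q * ζ q) p = ε * (JNS_D d p * M.mulVec ζ p) := by
  simp only [Matrix.mulVec, dotProduct]
  rw [Finset.mul_sum, Finset.mul_sum]
  refine Finset.sum_congr rfl fun q _ => ?_
  rw [← mul_assoc, hM]
  ring

private theorem JNS_blk (P : Matrix α α ℂ) (Q : Matrix β β ℂ) (d : ℚ) (p q : Ix α β Unit) :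
    blk Unit P Q p q * JNS_D d q = 1 * (JNS_D d p * blk Unit P Q p q) := by
  obtain ⟨s, t⟩ := p
  obtain ⟨s', t'⟩ := q
  cases s <;> cases s' <;> simp [blk, JNS_D, mul_comm]

private theorem JNS_blkt (P : Matrix α α ℂ) (Q : Matrix β β ℂ) (d : ℚ) (p q : Ix α β Unit) :
    (blk Unit P Q).transpose p q * JNS_D d q =
      1 * (JNS_D d p * (blk Unit P Q).transpose p q) := by
  have h := JNS_blk P Q d q p
  rw [Matrix.transpose_apply]
  rw [one_mul] at h ⊢
  rw [mul_comm, ← h, mul_comm]

private theorem JNS_qb (κ : Matrix α β ℂ) (d : ℚ) (p q : Ix α β Unit) :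
    qb κ p q * JNS_D d q = (-1) * (JNS_D d p * qb κ p q) := by
  obtain ⟨s, t⟩ := p
  obtain ⟨s', t'⟩ := q
  cases s <;> cases s' <;> simp [qb, JNS_D, mul_comm]

private theorem JNS_act [Fintype α] [Fintype β] [DecidableEq α] [DecidableEq β] (d : ℚ) (N : ℕ) (l : Ix α β Unit → ℂ) :
    act (kap α β d N) l = fun p => (N : ℂ) * (JNS_D d p * l p) := by
  funext p
  obtain ⟨s, t⟩ := p
  cases s with
  | inl i =>
    simp only [act, sw, mu, kap, JNS_D, Matrix.smul_apply, Matrix.one_apply, smul_eq_mul,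
      mul_ite, mul_one, mul_zero, ite_mul, zero_mul, Finset.sum_ite_eq, Finset.mem_univ, if_true,
      Sum.elim_inl]
    ring
  | inr j =>
    simp only [act, sw, mu, kap, JNS_D, Matrix.smul_apply, Matrix.one_apply, smul_eq_mul,
      mul_ite, mul_one, mul_zero, ite_mul, zero_mul, Finset.sum_ite_eq, Finset.mem_univ, if_true,
      Sum.elim_inr, map_mul, Complex.conj_conj, JNS_conj, Complex.conj_natCast]
    ring

end JNS

theorem thm_JNS (h : St_CxA) : St_JNS := by
  intro X d α β _ _ _ _ T S Tp Tm Ta Tb κ L hN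
  obtain ⟨hlx, hly, hsur, hinj, hfil, hbet, hdr⟩ := h X d α β T S Tp Tm Ta Tb κ L hN
  have hd := hN.pos
  have hex : ∀ v : X.H1, ∃ w : X.H1, cx X T w = (fun p => JNS_D d p * cx X T v p) ∧
      cy X S w = fun p => -(JNS_D d p * cy X S v p) := fun v => hsur _ _
  choose J hJx hJy using hex
  -- injectivity
  have huniq : ∀ u v : X.H1, cx X T u = cx X T v → cy X S u = cy X S v → u = v := by
    intro u v h1 h2
    have e1 : cx X T (u - v) = 0 := by
      rw [show u - v = u + (-1 : ℂ) • v by rw [neg_one_smul, sub_eq_add_neg], hlx.map_add,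
        hlx.map_smul, h1, neg_one_smul, add_neg_cancel]
    have e2 : cy X S (u - v) = 0 := by
      rw [show u - v = u + (-1 : ℂ) • v by rw [neg_one_smul, sub_eq_add_neg], hly.map_add,
        hly.map_smul, h2, neg_one_smul, add_neg_cancel]
    exact sub_eq_zero.mp (hinj _ e1 e2)
  refine ⟨J, ⟨⟨?_, ?_⟩, ?_, ?_, ?_⟩, ?_, ?_, ?_⟩
  · intro u v
    apply huniq
    · rw [hlx.map_add, hJx, hJx, hJx, hlx.map_add]
      funext p
      simp only [Pi.add_apply]
      ring
    · rw [hly.map_add, hJy, hJy, hJy, hly.map_add]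
      funext p
      simp only [Pi.add_apply]
      ring
  · intro c u
    apply huniq
    · rw [hlx.map_smul, hJx, hJx, hlx.map_smul]
      funext p
      simp only [Pi.smul_apply, smul_eq_mul]
      ring
    · rw [hly.map_smul, hJy, hJy, hly.map_smul]
      funext p
      simp only [Pi.smul_apply, smul_eq_mul]
      ring
  · -- Betti
    intro v hv
    obtain ⟨h1, n, hn, h2⟩ := (hbet v).1 hv
    obtain ⟨N, hN0, hKL⟩ := hN.kl
    rw [hbet (J v)]
    refine ⟨?_, N * n, Nat.mul_ne_zero hN0 hn, ?_⟩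
    · intro p
      rw [hJx, hJy]
      dsimp only
      rw [map_mul, JNS_Dconj, h1 p]
      ring
    · have h3 := hKL _ h2
      rw [JNS_act] at h3
      have e : (((N * n : ℕ) : ℤ) • cx X T (J v)) =
          fun p => (N : ℂ) * (JNS_D d p * ((n : ℤ) • cx X T v) p) := by
        rw [hJx]
        funext p
        simp only [Pi.smul_apply, zsmul_eq_mul]
        push_cast
        ring
      rw [e]
      exact h3
  · -- de Rham
    intro v hv
    obtain ⟨ζ, η, hζ, hη, h1, h2⟩ := (hdr v).1 hv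
    rw [hdr (J v)]
    refine ⟨fun p => JNS_D d p * ζ p, fun p => -(JNS_D d p * η p),
      fun p => (JNS_Dalg hd p).mul (hζ p), fun p => ((JNS_Dalg hd p).mul (hη p)).neg, ?_, ?_⟩
    · rw [hJx, h1]
      funext p
      rw [JNS_com _ d 1 (JNS_blk Tp Tm d)]
      ring
    · intro p
      rw [hJy]
      dsimp only
      rw [h2 p]
      have e : (fun p' => -(JNS_D d p' * η p') -
          (qb κ).mulVec (fun q => JNS_D d q * ζ q) p') =
          fun p' => JNS_D d p' * (-(η p' - (qb κ).mulVec ζ p')) := by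
        funext p'
        rw [JNS_com _ d (-1) (JNS_qb κ d)]
        ring
      rw [e, JNS_com _ d 1 (JNS_blkt Tp⁻¹ Tm⁻¹ d)]
      have e2 : (fun p' => -(η p' - (qb κ).mulVec ζ p')) =
          -(fun p' => η p' - (qb κ).mulVec ζ p') := rfl
      rw [e2, Matrix.mulVec_neg, Pi.neg_apply]
      ring
  · -- Hodge
    intro v hv
    rw [hfil] at hv ⊢
    rw [hJx, hv]
    funext p
    simp
  · -- square
    intro v
    apply huniq
    · rw [hlx.map_smul, hJx, hJx]
      funext p
      simp only [Pi.smul_apply, smul_eq_mul]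
      rw [← mul_assoc, JNS_DD hd]
    · rw [hly.map_smul, hJy, hJy]
      funext p
      simp only [Pi.smul_apply, smul_eq_mul]
      rw [← JNS_DD hd p]
      ring
  · rintro v ⟨s, t⟩
    cases s with
    | inl i =>
      simp only [XX, Sum.elim_inl]
      rw [hJx]
      rfl
    | inr j =>
      simp only [XX, Sum.elim_inr]
      rw [hJy]
      simp only [JNS_D, Sum.elim_inr]
      ring
  · rintro v ⟨s, t⟩
    cases s with
    | inl i =>
      simp only [XT, Sum.elim_inl]
      rw [hJy]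
      rfl
    | inr j =>
      simp only [XT, Sum.elim_inr]
      rw [hJx]
      simp only [JNS_D, Sum.elim_inr]
      ring

end DWY
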