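import Pool.Agent.DWY.StB

/-!
# DWY: the equality of the vector fields determines the operator

Theorem `thm_LinY : St_LinY`.
-/

set_option autoImplicit false

namespace DWY

open PST DWC

/-- The linear part of the difference of the vector fields. -/
private noncomputable def LinY_L (Bp : Matrix (Fin 3) (Fin 3) ℂ) (Bm : Matrix Unit Unit ℂ)
    (BpY BmY : Matrix (Fin 3) (Fin 3) ℂ) (u : WX → ℂ) (p : WY) : ℂ :=
  ∑ i, BpY p.1 i * rho u (i, p.2) + ∑ j, BmY p.2 j * rho u (p.1, j) -
    rho (fun q => ∑ i, Bp q.1 i * u (i, q.2) + ∑ j, Bm q.2 j * u (q.1, j)) p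

/-- The quadratic part of the difference of the vector fields. -/
private noncomputable def LinY_Q (c : Matrix (Fin 3) Unit ℂ) (cY : Matrix (Fin 3) (Fin 3) ℂ)
    (u : WX → ℂ) (p : WY) : ℂ :=
  1 / Real.pi * ∑ i, ∑ j, cY i j * rho u (i, p.2) * rho u (p.1, j) -
    rho (fun q => 1 / Real.pi * ∑ i, ∑ j, c i j * u (i, q.2) * u (q.1, j)) p

private theorem LinY_rho_smul (t : ℂ) (u : WX → ℂ) (p : WY) :
    rho (fun q => t * u q) p = t * rho u p := by
  simp only [rho]
  split_ifs <;> ring

private theorem LinY_rho_add (u v : WX → ℂ) (p : WY) :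
    rho (fun q => u q + v q) p = rho u p + rho v p := by
  simp only [rho]
  split_ifs <;> ring

private theorem LinY_exp (Bp : Matrix (Fin 3) (Fin 3) ℂ) (Bm : Matrix Unit Unit ℂ)
    (c : Matrix (Fin 3) Unit ℂ) (BpY BmY cY bY : Matrix (Fin 3) (Fin 3) ℂ) (u : WX → ℂ)
    (p : WY) (t : ℂ) :
    vY Bp Bm c 0 BpY BmY cY bY (fun q => t * u q) p =
      bY p.1 p.2 + t * LinY_L Bp Bm BpY BmY u p + t ^ 2 * LinY_Q c cY u p := by
  have h1 : xi BpY BmY cY (rho (fun q => t * u q)) p =
      t * (∑ i, BpY p.1 i * rho u (i, p.2) + ∑ j, BmY p.2 j * rho u (p.1, j)) +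
      t ^ 2 * (1 / Real.pi * ∑ i, ∑ j, cY i j * rho u (i, p.2) * rho u (p.1, j)) := by
    simp only [xi, LinY_rho_smul, Fin.sum_univ_three]
    ring
  have h2 : ∀ q : WX, xi Bp Bm c (fun q => t * u q) q + (0 : Matrix (Fin 3) Unit ℂ) q.1 q.2 =
      t * (∑ i, Bp q.1 i * u (i, q.2) + ∑ j, Bm q.2 j * u (q.1, j)) +
      t ^ 2 * (1 / Real.pi * ∑ i, ∑ j, c i j * u (i, q.2) * u (q.1, j)) := by
    intro q
    simp only [xi, Fin.sum_univ_three, Finset.univ_unique, Finset.sum_singleton,
      Matrix.zero_apply]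
    ring
  have h3 : rho (fun q : WX => xi Bp Bm c (fun q => t * u q) q +
      (0 : Matrix (Fin 3) Unit ℂ) q.1 q.2) p =
      t * rho (fun q => ∑ i, Bp q.1 i * u (i, q.2) + ∑ j, Bm q.2 j * u (q.1, j)) p +
      t ^ 2 * rho (fun q => 1 / Real.pi * ∑ i, ∑ j, c i j * u (i, q.2) * u (q.1, j)) p := by
    rw [← LinY_rho_smul, ← LinY_rho_smul, ← LinY_rho_add]
    congr 1
    funext q
    exact h2 q
  unfold vY
  rw [h1, h3, LinY_L, LinY_Q]
  ring

private theorem LinY_zero (Bp : Matrix (Fin 3) (Fin 3) ℂ) (Bm : Matrix Unit Unit ℂ)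
    (c : Matrix (Fin 3) Unit ℂ) (BpY BmY cY bY : Matrix (Fin 3) (Fin 3) ℂ)
    (h : ∀ᶠ w in nhds (0 : WX → ℂ), ∀ p, vY Bp Bm c 0 BpY BmY cY bY w p = 0)
    (u : WX → ℂ) (p : WY) :
    bY p.1 p.2 = 0 ∧ LinY_L Bp Bm BpY BmY u p = 0 ∧ LinY_Q c cY u p = 0 := by
  have hc : Filter.Tendsto (fun t : ℂ => (fun q => t * u q : WX → ℂ)) (nhds 0)
      (nhds (0 : WX → ℂ)) := by
    have : Continuous (fun t : ℂ => (fun q => t * u q : WX → ℂ)) := by fun_prop
    have h0 := this.tendsto 0
    have : (fun q => (0 : ℂ) * u q : WX → ℂ) = 0 := by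
      funext q
      simp
    rwa [this] at h0
  have he := hc.eventually h
  obtain ⟨ε, hε, hb⟩ := Metric.eventually_nhds_iff.1 he
  have key : ∀ t : ℂ, ‖t‖ < ε → bY p.1 p.2 + t * LinY_L Bp Bm BpY BmY u p +
      t ^ 2 * LinY_Q c cY u p = 0 := by
    intro t ht
    rw [← LinY_exp]
    exact hb (by simpa using ht) p
  set s : ℂ := ((ε / 2 : ℝ) : ℂ) with hs
  have hsn : ‖s‖ < ε := by
    rw [hs, Complex.norm_real, Real.norm_eq_abs, abs_of_pos (by positivity)]
    linarith
  have hs0 : s ≠ 0 := by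
    rw [hs]
    exact_mod_cast (by positivity : (ε / 2 : ℝ) ≠ 0)
  have k0 := key 0 (by simpa using hε)
  have k1 := key s hsn
  have k2 := key (-s) (by rwa [norm_neg])
  have a0 : bY p.1 p.2 = 0 := by simpa using k0
  rw [a0] at k1 k2
  refine ⟨a0, ?_, ?_⟩
  · have : s * LinY_L Bp Bm BpY BmY u p = 0 := by linear_combination (k1 - k2) / 2
    exact (mul_eq_zero.1 this).resolve_left hs0
  · have : s ^ 2 * LinY_Q c cY u p = 0 := by linear_combination (k1 + k2) / 2
    exact (mul_eq_zero.1 this).resolve_left (pow_ne_zero _ hs0)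

/-- The basis vectors. -/
private noncomputable def LinY_e (s : Fin 3) : WX → ℂ := fun q => if q.1 = s then 1 else 0

theorem thm_LinY : St_LinY := by
  intro Bp Bm c BpY BmY cY bY h
  have H := LinY_zero Bp Bm c BpY BmY cY bY h
  have hL : ∀ s i j, LinY_L Bp Bm BpY BmY (LinY_e s) (i, j) = 0 := fun s i j =>
    (H (LinY_e s) (i, j)).2.1
  have hQ : ∀ s i j, LinY_Q c cY (LinY_e s) (i, j) = 0 := fun s i j =>
    (H (LinY_e s) (i, j)).2.2
  have hb : bY = 0 := by
    ext i j
    exact (H 0 (i, j)).1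
  have l001 := hL 0 0 1
  have l002 := hL 0 0 2
  have l010 := hL 0 1 0
  have l012 := hL 0 1 2
  have l020 := hL 0 2 0
  have l021 := hL 0 2 1
  have l101 := hL 1 0 1
  have l102 := hL 1 0 2
  have l110 := hL 1 1 0
  have l112 := hL 1 1 2
  have l120 := hL 1 2 0
  have l121 := hL 1 2 1
  have l201 := hL 2 0 1
  have l202 := hL 2 0 2
  have l210 := hL 2 1 0
  have l212 := hL 2 1 2
  have l220 := hL 2 2 0
  have l221 := hL 2 2 1
  simp [LinY_L, rho, LinY_e, Fin.sum_univ_three] at l001 l002 l010 l012 l020 l021 l101 l102 l110 l112 l120 l121 l201 l202 l210 l212 l220 l221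
  have q011 := hQ 0 1 1
  have q022 := hQ 0 2 2
  have q122 := hQ 1 2 2
  have q012 := hQ 0 1 2
  have q021 := hQ 0 2 1
  have q102 := hQ 1 0 2
  have q120 := hQ 1 2 0
  have q201 := hQ 2 0 1
  have q210 := hQ 2 1 0
  simp [LinY_Q, rho, LinY_e, Fin.sum_univ_three] at q011 q022 q122 q012 q021 q102 q120 q201 q210
  have hpi : ((Real.pi : ℝ) : ℂ)⁻¹ ≠ 0 :=
    inv_ne_zero (by exact_mod_cast Real.pi_ne_zero)
  have q012' : cY 1 2 = c 0 () := by
    apply mul_left_cancel₀ hpi
    linear_combination q012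
  have q021' : cY 2 1 = -c 0 () := by
    apply mul_left_cancel₀ hpi
    linear_combination q021
  have q102' : cY 0 2 = -c 1 () := by
    apply mul_left_cancel₀ hpi
    linear_combination q102
  have q120' : cY 2 0 = c 1 () := by
    apply mul_left_cancel₀ hpi
    linear_combination q120
  have q201' : cY 0 1 = c 2 () := by
    apply mul_left_cancel₀ hpi
    linear_combination q201
  have q210' : cY 1 0 = -c 2 () := by
    apply mul_left_cancel₀ hpi
    linear_combination q210
  refine ⟨hb, ?_, Bp 1 1 + Bp 2 2 - BpY 0 0, ?_, ?_⟩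
  · ext i j
    fin_cases i <;> fin_cases j <;>
      simp [kY, crs, Pi.single_apply, q011, q022, q122, q012', q021', q102', q120', q201', q210']
  · ext i j
    fin_cases i <;> fin_cases j <;> simp [Matrix.trace, Fin.sum_univ_three]
    · ring
    · linear_combination l002
    · linear_combination (-1) * l001
    · linear_combination (-1) * l112
    · linear_combination l012 + l102
    · linear_combination l110
    · linear_combination l221
    · linear_combination (-1) * l220
    · linear_combination (-1) * l021 - l201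
  · ext i j
    fin_cases i <;> fin_cases j <;> simp
    · linear_combination l120 + l021 + l201
    · linear_combination (-1) * l020
    · linear_combination l010
    · linear_combination l121
    · linear_combination l201
    · linear_combination (-1) * l101
    · linear_combination (-1) * l212
    · linear_combination l202
    · linear_combination (-1) * l102

end DWY

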