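import Pool.Agent.DWY.StC
import Pool.Agent.Helper7.AFT.Bal

/-!
# DWY, module NFT: the normal form in signature `(3,1)`

The dimension of the `i √d`-eigenspace on `F^0` is the number of coordinates of the second kind (as
in DWC/BalK.lean), and the normal form is reindexed along `Fin 3 ≃ α`, `Unit ≃ β`.
-/

set_option autoImplicit false
set_option linter.unusedSectionVars false

namespace DWY

open scoped ComplexConjugate
open GAM (H E F pd pdl PLat IsTh OddTor IsDel Gro IsLat)
open PST DWC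
open Module Matrix
open Pool.Agent.GPC (AbVar hermForm bilForm)

private lemma NFT_zd_sq (d : ℚ) (hd : 0 < d) : zd d ^ 2 = -(d : ℂ) := by
  unfold zd
  rw [mul_pow, Complex.I_sq, ← Complex.ofReal_pow, Real.sq_sqrt (by exact_mod_cast hd.le)]
  push_cast
  ring

private lemma NFT_conj_zd (d : ℚ) : conj (zd d) = -zd d := by
  unfold zd
  rw [map_mul, Complex.conj_ofReal, Complex.conj_I]
  ring

private lemma NFT_zd_ne (d : ℚ) (hd : 0 < d) : zd d ≠ 0 := by
  intro h
  have h1 := NFT_zd_sq d hd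
  rw [h] at h1
  have h2 : (d : ℂ) = 0 := by linear_combination h1
  have h3 : d = 0 := by exact_mod_cast h2
  exact hd.ne' h3

section aux

variable {α β : Type} [Fintype α] [Fintype β] [DecidableEq α] [DecidableEq β]

/-- the eigenvalues -/
private noncomputable def NFT_c (d : ℚ) (p : Ix α β Unit) : ℂ :=
  Sum.elim (fun _ => zd d) (fun _ => -zd d) p.1

private lemma NFT_rgt (d : ℚ) (x : Ix α β Unit → ℂ) (p : Ix α β Unit) :
    (x ᵥ* rgt α β (zd d • (1 : Matrix Unit Unit ℂ))) p = NFT_c d p * x p := by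
  unfold Matrix.vecMul dotProduct
  rw [Finset.sum_eq_single p]
  · obtain ⟨s, u⟩ := p
    rcases s with i | j
    · simp [rgt, NFT_c, mul_comm]
    · simp [rgt, NFT_c, mul_comm, NFT_conj_zd]
  · intro q _ hq
    have h1 : q.1 ≠ p.1 := fun h => hq (Prod.ext h (Subsingleton.elim _ _))
    simp [rgt, h1]
  · intro h
    exact absurd (Finset.mem_univ _) h

/-- extension by zero -/
private def NFT_ext (x : β → ℂ) : Ix α β Unit → ℂ := fun p => Sum.elim (fun _ => 0) x p.1

/-- the map from the coordinates of the second kind to `F^0` -/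
private noncomputable def NFT_F {g : ℕ} (T : Matrix (Ix α β Unit) (Fin g) ℂ) :
    (β → ℂ) →ₗ[ℂ] (Fin g ⊕ Fin g → ℂ) where
  toFun x := Sum.elim (fun _ => 0) ((NFT_ext x : Ix α β Unit → ℂ) ᵥ* T)
  map_add' x y := by
    have h1 : (NFT_ext (x + y) : Ix α β Unit → ℂ) = NFT_ext x + NFT_ext y := by
      funext p
      obtain ⟨s, u⟩ := p
      rcases s with i | j <;> simp [NFT_ext]
    funext s
    rcases s with a | a
    · simp
    · simp only [Sum.elim_inr, Pi.add_apply]
      rw [h1, Matrix.add_vecMul, Pi.add_apply]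
  map_smul' c x := by
    have h1 : (NFT_ext (c • x) : Ix α β Unit → ℂ) = c • NFT_ext x := by
      funext p
      obtain ⟨s, u⟩ := p
      rcases s with i | j <;> simp [NFT_ext]
    funext s
    rcases s with a | a
    · simp
    · simp only [Sum.elim_inr, Pi.smul_apply, RingHom.id_apply]
      rw [h1, Matrix.smul_vecMul, Pi.smul_apply]

private lemma NFT_F_inj {g : ℕ} (T : Matrix (Ix α β Unit) (Fin g) ℂ)
    (S : Matrix (Fin g) (Ix α β Unit) ℂ) (ts : T * S = 1) : Function.Injective (NFT_F T) := by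
  rw [← LinearMap.ker_eq_bot, LinearMap.ker_eq_bot']
  intro x hx
  have h1 : (NFT_ext x : Ix α β Unit → ℂ) ᵥ* T = 0 := by
    funext a
    exact congrFun hx (.inr a)
  have h2 : (NFT_ext x : Ix α β Unit → ℂ) = 0 := by
    rw [← Matrix.vecMul_one (NFT_ext x : Ix α β Unit → ℂ), ← ts, ← Matrix.vecMul_vecMul, h1,
      Matrix.zero_vecMul]
  funext j
  exact congrFun h2 (.inr j, ())

end aux

private lemma NFT_pol_fil (X : AbVar) (u v : X.H1) (hu : X.IsFil u) :
    X.pol u v = -((fun a => u (.inr a)) ⬝ᵥ X.zz v) := by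
  unfold AbVar.pol dotProduct
  rw [← Finset.sum_neg_distrib]
  refine Finset.sum_congr rfl fun a _ => ?_
  rw [hu a]
  simp only [AbVar.zz_apply]
  ring

private lemma NFT_finrank (X : AbVar) (d : ℚ) (J : Module.End ℂ X.H1)
    (α β : Type) [Fintype α] [Fintype β] [DecidableEq α] [DecidableEq β]
    (T : Matrix (Ix α β Unit) (Fin X.g) ℂ) (S : Matrix (Fin X.g) (Ix α β Unit) ℂ)
    (hd : 0 < d) (hE : X.IsEnd J) (adj : ∀ u v, X.pol (J u) v = - X.pol u (J v))
    (ts : T * S = 1) (st : S * T = 1)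
    (jj : ∀ v, T.mulVec (X.zz (J v)) =
      (rgt α β (zd d • (1 : Matrix Unit Unit ℂ))).mulVec (T.mulVec (X.zz v))) :
    finrank ℂ (X.filEigen J (zd d)) = Fintype.card β := by
  have hl := hE.linear
  have hz0 : zd d ≠ 0 := NFT_zd_ne d hd
  have hR : LinearMap.range (NFT_F T : (β → ℂ) →ₗ[ℂ] X.H1) = X.filEigen J (zd d) := by
    apply le_antisymm
    · rintro _ ⟨x, rfl⟩
      have hf : X.IsFil (NFT_F T x) := fun a => rfl
      rw [Pool.Agent.Helper7.AFT.mem_filEigen hl]
      refine ⟨?_, hf⟩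
      rw [← sub_eq_zero]
      apply Pool.Agent.Helper7.polForm_nondeg X
      intro v
      rw [map_sub, LinearMap.sub_apply, map_smul, LinearMap.smul_apply, smul_eq_mul,
        ← Pool.Agent.Helper7.pol_eq, ← Pool.Agent.Helper7.pol_eq, adj,
        NFT_pol_fil X _ _ hf, NFT_pol_fil X _ _ hf]
      have h1 : (fun a => NFT_F T x (.inr a)) = (NFT_ext x : Ix α β Unit → ℂ) ᵥ* T := rfl
      rw [h1, ← Matrix.dotProduct_mulVec, ← Matrix.dotProduct_mulVec, jj,
        Matrix.dotProduct_mulVec]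
      have h2 : (NFT_ext x : Ix α β Unit → ℂ) ᵥ* rgt α β (zd d • (1 : Matrix Unit Unit ℂ)) =
          (-zd d) • NFT_ext x := by
        funext p
        rw [NFT_rgt]
        obtain ⟨s, u⟩ := p
        rcases s with i | j <;> simp [NFT_ext, NFT_c]
      rw [h2, smul_dotProduct, smul_eq_mul]
      ring
    · intro v hv
      obtain ⟨hv1, hv2⟩ := (Pool.Agent.Helper7.AFT.mem_filEigen hl _ v).mp hv
      set y : Ix α β Unit → ℂ := (fun a => v (.inr a)) ᵥ* S with hy
      have hyT : y ᵥ* T = fun a => v (.inr a) := by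
        rw [hy, Matrix.vecMul_vecMul, st, Matrix.vecMul_one]
      have hy0 : ∀ i, y (.inl i, ()) = 0 := by
        intro i
        set p : Ix α β Unit := (.inl i, ()) with hp
        set w : X.H1 := Sum.elim (S.mulVec (Pi.single p 1)) (fun _ => 0) with hw
        have hzw : X.zz w = S.mulVec (Pi.single p 1) := rfl
        have hTw : T.mulVec (X.zz w) = Pi.single p 1 := by
          rw [hzw, Matrix.mulVec_mulVec, ts, Matrix.one_mulVec]
        have h1 := adj v w
        rw [NFT_pol_fil X _ _ hv2, hv1, NFT_pol_fil X (zd d • v) w (fun a => by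
          rw [Pi.smul_apply, hv2 a, smul_zero])] at h1
        have h2 : (fun a => (zd d • v) (.inr a)) = zd d • (y ᵥ* T) := by
          rw [hyT]
          rfl
        rw [h2, ← hyT, smul_dotProduct, ← Matrix.dotProduct_mulVec y T (X.zz w),
          ← Matrix.dotProduct_mulVec y T (X.zz (J w)), jj, hTw, Matrix.dotProduct_mulVec,
          dotProduct_single, dotProduct_single, NFT_rgt, hp, smul_eq_mul, mul_one,
          mul_one] at h1
        have h3 : NFT_c d ((.inl i, ()) : Ix α β Unit) = zd d := rfl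
        rw [h3] at h1
        have h4 : (2 * zd d) * y (.inl i, ()) = 0 := by linear_combination -h1
        exact (mul_eq_zero.mp h4).resolve_left (mul_ne_zero two_ne_zero hz0)
      refine ⟨fun j => y (.inr j, ()), ?_⟩
      have h1 : (NFT_ext (fun j => y (.inr j, ())) : Ix α β Unit → ℂ) = y := by
        funext p
        obtain ⟨s, u⟩ := p
        rcases s with i | j
        · exact (hy0 i).symm
        · rfl
      funext s
      rcases s with a | a
      · exact (hv2 a).symm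
      · show ((NFT_ext (fun j => y (.inr j, ())) : Ix α β Unit → ℂ) ᵥ* T) a = v (.inr a)
        rw [h1, hyT]
  rw [← hR, LinearMap.finrank_range_of_inj (NFT_F_inj T S ts), finrank_fintype_fun_eq_card]

/-! ## Reindexing -/

section reind

variable {α β α' β' : Type} [Fintype α] [Fintype β] [DecidableEq α] [DecidableEq β]
  [Fintype α'] [Fintype β'] [DecidableEq α'] [DecidableEq β']

/-- the equivalence of the index sets -/
private def NFT_E (e : α' ≃ α) (f : β' ≃ β) : Ix α' β' Unit ≃ Ix α β Unit :=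
  (Equiv.sumCongr e f).prodCongr (Equiv.refl Unit)

private lemma NFT_E_apply (e : α' ≃ α) (f : β' ≃ β) (p : Ix α' β' Unit) :
    NFT_E e f p = (Equiv.sumCongr e f p.1, p.2) := rfl

private lemma NFT_sw (e : α' ≃ α) (f : β' ≃ β) (x : Ix α β Unit → ℂ) :
    sw (x ∘ NFT_E e f) = sw x ∘ NFT_E e f := by
  funext p
  obtain ⟨s, u⟩ := p
  rcases s with i | j <;> rfl

private lemma NFT_mu (e : α' ≃ α) (f : β' ≃ β) (g : Matrix (α ⊕ β) (α ⊕ β) ℂ)
    (x : Ix α β Unit → ℂ) :
    mu (g.submatrix (Equiv.sumCongr e f) (Equiv.sumCongr e f)) (x ∘ NFT_E e f) =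
      mu g x ∘ NFT_E e f := by
  funext p
  exact Equiv.sum_comp (Equiv.sumCongr e f)
    (fun q => g (Equiv.sumCongr e f p.1) q * x (q, p.2))

private lemma NFT_act (e : α' ≃ α) (f : β' ≃ β) (g : Matrix (α ⊕ β) (α ⊕ β) ℂ)
    (x : Ix α β Unit → ℂ) :
    act (g.submatrix (Equiv.sumCongr e f) (Equiv.sumCongr e f)) (x ∘ NFT_E e f) =
      act g x ∘ NFT_E e f := by
  unfold act
  rw [NFT_sw, NFT_mu, NFT_sw]

private lemma NFT_Jm (e : α' ≃ α) (f : β' ≃ β) :
    (Jm α β).submatrix (Equiv.sumCongr e f) (Equiv.sumCongr e f) = Jm α' β' := by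
  ext p q
  rcases p with i | i <;> rcases q with j | j <;>
    simp [Jm, Matrix.one_apply]

private lemma NFT_blk (e : α' ≃ α) (f : β' ≃ β) (P : Matrix α α ℂ) (Q : Matrix β β ℂ) :
    (blk Unit P Q).submatrix (NFT_E e f) (NFT_E e f) =
      blk Unit (P.submatrix e e) (Q.submatrix f f) := by
  ext p q
  obtain ⟨p, u⟩ := p
  obtain ⟨q, v⟩ := q
  rcases p with i | i <;> rcases q with j | j <;>
    simp [blk, NFT_E_apply]

private lemma NFT_rgtE (e : α' ≃ α) (f : β' ≃ β) (r : Matrix Unit Unit ℂ) :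
    (rgt α β r).submatrix (NFT_E e f) (NFT_E e f) = rgt α' β' r := by
  ext p q
  obtain ⟨p, u⟩ := p
  obtain ⟨q, v⟩ := q
  rcases p with i | i <;> rcases q with j | j <;>
    simp [rgt, NFT_E_apply]

private lemma NFT_mulVec (e : α' ≃ α) (f : β' ≃ β) (M : Matrix (Ix α β Unit) (Ix α β Unit) ℂ)
    (x : Ix α β Unit → ℂ) :
    (M.submatrix (NFT_E e f) (NFT_E e f)).mulVec (x ∘ NFT_E e f) =
      M.mulVec x ∘ NFT_E e f := by
  funext p
  exact Equiv.sum_comp (NFT_E e f) (fun q => M (NFT_E e f p) q * x q)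

private lemma NFT_H (e : α' ≃ α) (f : β' ≃ β) (x y : Ix α β Unit → ℂ) :
    H (x ∘ NFT_E e f) (y ∘ NFT_E e f) = H x y :=
  Equiv.sum_comp (NFT_E e f) (fun q => x q * conj (y q))

private lemma NFT_reind (X : AbVar) (d : ℚ) (J : Module.End ℂ X.H1)
    (e : α' ≃ α) (f : β' ≃ β)
    (T : Matrix (Ix α β Unit) (Fin X.g) ℂ)
    (S : Matrix (Fin X.g) (Ix α β Unit) ℂ) (Tp : Matrix α α ℂ) (Tm : Matrix β β ℂ)
    (Ta : Matrix (Ix α β Unit) (Fin X.g) ℂ) (g : Matrix (α ⊕ β) (α ⊕ β) ℂ)
    (r : α ⊕ β → ℝ) (q : α ⊕ β → ℚ) (h : NFK X d J α β T S Tp Tm Ta g r q) :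
    NFK X d J α' β' (T.submatrix (NFT_E e f) id) (S.submatrix id (NFT_E e f))
      (Tp.submatrix e e) (Tm.submatrix f f) (Ta.submatrix (NFT_E e f) id)
      (g.submatrix (Equiv.sumCongr e f) (Equiv.sumCongr e f)) (r ∘ Equiv.sumCongr e f)
      (q ∘ Equiv.sumCongr e f) := by
  have hT : ∀ z : Fin X.g → ℂ, (T.submatrix (NFT_E e f) id).mulVec z =
      T.mulVec z ∘ NFT_E e f := fun z => rfl
  have hinj : ∀ x y : Ix α β Unit → ℂ, x ∘ NFT_E e f = y ∘ NFT_E e f ↔ x = y := by
    intro x y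
    constructor
    · intro hxy
      funext p
      have h1 := congrFun hxy ((NFT_E e f).symm p)
      simpa using h1
    · intro hxy
      rw [hxy]
  refine ⟨?_, ?_, ?_, ?_, ?_, ?_, ?_, ?_, ?_, ?_, ?_, ?_⟩
  · rw [← Matrix.submatrix_mul T S (NFT_E e f) id (NFT_E e f) Function.bijective_id, h.ts]
    exact Matrix.submatrix_one_equiv (NFT_E e f)
  · rw [← Matrix.submatrix_mul S T id (NFT_E e f) id (NFT_E e f).bijective, h.st]
    exact Matrix.submatrix_id_id 1
  · intro z w
    rw [hT, hT, NFT_H, h.herm]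
  · rw [Matrix.det_submatrix_equiv_self]
    exact h.dp
  · rw [Matrix.det_submatrix_equiv_self]
    exact h.dm
  · rw [← NFT_blk, ← Matrix.submatrix_mul (blk Unit Tp Tm) Ta (NFT_E e f) (NFT_E e f) id
      (NFT_E e f).bijective, ← h.fac]
  · intro p a
    exact h.alg _ _
  · unfold IsU
    have h1 : g.conjTranspose * Jm α β * g = Jm α β := h.uni
    rw [← NFT_Jm e f, Matrix.conjTranspose_submatrix,
      ← Matrix.submatrix_mul _ _ _ _ _ (Equiv.sumCongr e f).bijective,
      ← Matrix.submatrix_mul _ _ _ _ _ (Equiv.sumCongr e f).bijective, h1]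
  · rw [Matrix.det_submatrix_equiv_self]
    exact h.det
  · exact ⟨h.isR.pos, fun s => h.isR.rpos _, fun s => h.isR.rq _⟩
  · intro z
    rw [h.lat z, hT]
    constructor
    · rintro ⟨a, b, hab⟩
      refine ⟨a ∘ Equiv.sumCongr e f, b ∘ Equiv.sumCongr e f, ?_⟩
      rw [hab, ← NFT_act, ← NFT_sw]
      rfl
    · rintro ⟨a, b, hab⟩
      refine ⟨a ∘ (Equiv.sumCongr e f).symm, b ∘ (Equiv.sumCongr e f).symm, ?_⟩
      rw [← hinj, hab, ← NFT_act, ← NFT_sw]
      have h1 : (fun p : Ix α' β' Unit => (((r ∘ Equiv.sumCongr e f) p.1 : ℝ) : ℂ) *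
          ((a p.1 : ℂ) + (b p.1 : ℂ) * zd d)) =
          (fun p : Ix α β Unit => (r p.1 : ℂ) *
            ((((a ∘ (Equiv.sumCongr e f).symm) p.1 : ℚ) : ℂ) +
              (((b ∘ (Equiv.sumCongr e f).symm) p.1 : ℚ) : ℂ) * zd d)) ∘ NFT_E e f := by
        funext p
        simp only [Function.comp_apply, NFT_E_apply, Equiv.symm_apply_apply]
      rw [h1]
  · intro v
    rw [hT, hT, h.jj, ← NFT_rgtE e f, NFT_mulVec]

end reind

/-- [NFT] the normal form in signature `(3,1)` -/
theorem thm_NFT (h : St_NFK) : St_NFT := by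
  intro X d J hg hJ hdim
  obtain ⟨α, β, iα, iβ, dα, dβ, T, S, Tp, Tm, Ta, g, r, q, hN⟩ := h X d J hJ
  have h1 := NFT_finrank X d J α β T S hJ.pos hJ.endo hJ.adj hN.ts hN.st hN.jj
  have hβ : Fintype.card β = 1 := h1.symm.trans hdim
  have hα : Fintype.card α = 3 := by
    have h4 := (Matrix.toLin'OfInv hN.ts hN.st).finrank_eq
    rw [finrank_fintype_fun_eq_card, finrank_fintype_fun_eq_card, Fintype.card_fin, hg,
      Fintype.card_prod, Fintype.card_sum, Fintype.card_unit, mul_one, hβ] at h4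
    omega
  have e : Fin 3 ≃ α := Fintype.equivOfCardEq (by rw [Fintype.card_fin, hα])
  have f : Unit ≃ β := Fintype.equivOfCardEq (by rw [Fintype.card_unit, hβ])
  exact ⟨_, _, _, _, _, _, _, _, NFT_reind X d J e f T S Tp Tm Ta g r q hN⟩

end DWY
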