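import Pool.Agent.DWY.StC
import Pool.Agent.PST.QRel
import Pool.Agent.PST.NF4
import Pool.Agent.PST.UGr
import Pool.Agent.Helper71.AF.Alg

/-!
# DWY [NSX]: the normal form and the lattice
-/

set_option autoImplicit false
set_option linter.unusedSectionVars false

namespace DWY

open scoped ComplexConjugate
open GAM (H E F pd pdl PLat IsTh OddTor IsDel Gro IsLat)
open PST DWC
open Pool.Agent.GPC (AbVar hermForm bilForm)
open Matrix

/-! ### algebraic numbers -/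

private theorem NSX_sum {κ : Type} (s : Finset κ) (f : κ → ℂ) (h : ∀ i ∈ s, IsAlgebraic ℚ (f i)) :
    IsAlgebraic ℚ (∑ i ∈ s, f i) := by
  rw [isAlgebraic_iff_isIntegral]
  exact IsIntegral.sum _ fun i hi => isAlgebraic_iff_isIntegral.1 (h i hi)

private theorem NSX_am {l m n : Type} [Fintype m] {A : Matrix l m ℂ} {B : Matrix m n ℂ}
    (hA : ∀ i j, IsAlgebraic ℚ (A i j)) (hB : ∀ i j, IsAlgebraic ℚ (B i j)) (i : l) (j : n) :
    IsAlgebraic ℚ ((A * B) i j) := by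
  rw [Matrix.mul_apply]
  exact NSX_sum _ _ fun k _ => (hA i k).mul (hB k j)

private theorem NSX_sq {d : ℚ} (hd : 0 < d) : zd d * zd d = -(d : ℂ) := by
  show (Real.sqrt (d : ℝ) : ℂ) * Complex.I * ((Real.sqrt (d : ℝ) : ℂ) * Complex.I) = -(d : ℂ)
  have h1 : (Real.sqrt (d : ℝ) : ℂ) * (Real.sqrt (d : ℝ) : ℂ) = (d : ℂ) := by
    rw [← Complex.ofReal_mul, Real.mul_self_sqrt (by exact_mod_cast hd.le)]
    simp
  calc (Real.sqrt (d : ℝ) : ℂ) * Complex.I * ((Real.sqrt (d : ℝ) : ℂ) * Complex.I)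
      = (Real.sqrt (d : ℝ) : ℂ) * (Real.sqrt (d : ℝ) : ℂ) * (Complex.I * Complex.I) := by ring
    _ = -(d : ℂ) := by rw [h1, Complex.I_mul_I]; ring

private theorem NSX_zne {d : ℚ} (hd : 0 < d) : zd d ≠ 0 := by
  intro h
  have h1 := NSX_sq hd
  rw [h, mul_zero] at h1
  have h2 : (d : ℂ) = 0 := by rw [← neg_eq_zero, ← h1]
  exact hd.ne' (by exact_mod_cast h2)

private theorem NSX_zalg {d : ℚ} (hd : 0 < d) : IsAlgebraic ℚ (zd d) := by
  have h1 : IsAlgebraic ℚ (zd d ^ 2) := by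
    rw [pow_two, NSX_sq hd]
    exact (isAlgebraic_algebraMap (R := ℚ) (A := ℂ) d).neg
  rw [isAlgebraic_iff_isIntegral] at h1 ⊢
  exact h1.of_pow (by norm_num)

private theorem NSX_cz (d : ℚ) : conj (zd d) = -zd d := by
  show conj ((Real.sqrt (d : ℝ) : ℂ) * Complex.I) = -((Real.sqrt (d : ℝ) : ℂ) * Complex.I)
  rw [map_mul, Complex.conj_ofReal, Complex.conj_I, mul_neg]

/-- half of an algebraic multiple -/
private theorem NSX_half {d : ℚ} (hd : 0 < d) {x : ℂ} (h : IsAlgebraic ℚ (2 * zd d * x)) :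
    IsAlgebraic ℚ x := by
  have h2 : (2 : ℂ) ≠ 0 := two_ne_zero
  have h3 : x = (2 * zd d)⁻¹ * (2 * zd d * x) := by
    rw [← mul_assoc, inv_mul_cancel₀ (mul_ne_zero h2 (NSX_zne hd)), one_mul]
  rw [h3]
  refine IsAlgebraic.mul (IsAlgebraic.inv ?_) h
  refine IsAlgebraic.mul ?_ (NSX_zalg hd)
  exact_mod_cast isAlgebraic_algebraMap (R := ℚ) (A := ℂ) (2 : ℚ)

/-! ### common denominators -/

private theorem NSX_den {κ : Type} [Fintype κ] (c : κ → ℚ) :
    ∃ n : ℕ, n ≠ 0 ∧ ∀ s, ∃ k : ℤ, (n : ℚ) * c s = k := by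
  classical
  refine ⟨∏ s, (c s).den, Finset.prod_ne_zero_iff.2 fun s _ => (c s).den_ne_zero, fun s => ?_⟩
  rw [← Finset.mul_prod_erase Finset.univ (fun s => (c s).den) (Finset.mem_univ s)]
  refine ⟨(c s).num * ∏ x ∈ Finset.univ.erase s, ((c x).den : ℤ), ?_⟩
  push_cast
  have h1 : ((c s).den : ℚ) * c s = (c s).num := by
    rw [mul_comm]
    exact Rat.mul_den_eq_num (c s)
  calc ((c s).den : ℚ) * (∏ x ∈ Finset.univ.erase s, ((c x).den : ℚ)) * c s
      = ((c s).den : ℚ) * c s * ∏ x ∈ Finset.univ.erase s, ((c x).den : ℚ) := by ring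
    _ = _ := by rw [h1]

section lat

variable {α β : Type} [Fintype α] [Fintype β] [DecidableEq α] [DecidableEq β]

private theorem NSX_q {d : ℚ} {r : α ⊕ β → ℝ} {q : α ⊕ β → ℚ} (h : IsR d r q) (s : α ⊕ β) :
    q s ≠ 0 := by
  have h1 : (0 : ℝ) < (q s : ℝ) := by
    rw [h.rq s]
    exact mul_pos (pow_pos (h.rpos s) 2) (Real.sqrt_pos.2 (by exact_mod_cast h.pos))
  intro h2
  rw [h2] at h1
  simp at h1

private theorem NSX_asmul (g : Matrix (α ⊕ β) (α ⊕ β) ℂ) (t : ℝ) (x : Ix α β Unit → ℂ) :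
    act g (sw ((t : ℂ) • x)) = (t : ℂ) • act g (sw x) := by
  rw [UGr_sw_smul]
  exact ((thm_UGr α β Unit).2.2.2.1 g (sw x) (sw x) t).2

private theorem NSX_lat {X : AbVar} {d : ℚ} {J : Module.End ℂ X.H1}
    {T : Matrix (Ix α β Unit) (Fin X.g) ℂ} {S : Matrix (Fin X.g) (Ix α β Unit) ℂ}
    {Tp : Matrix α α ℂ} {Tm : Matrix β β ℂ} {Ta : Matrix (Ix α β Unit) (Fin X.g) ℂ}
    {g : Matrix (α ⊕ β) (α ⊕ β) ℂ} {r : α ⊕ β → ℝ} {q : α ⊕ β → ℚ}
    {L L₁ : Submodule ℤ (Ix α β Unit → ℂ)} (hN : NFK X d J α β T S Tp Tm Ta g r q)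
    (hL : IsLK d r q L₁) (hm : ∀ x, x ∈ L₁ ↔ act g x ∈ L) (z : Fin X.g → ℂ) :
    (∃ n : ℕ, n ≠ 0 ∧ (n : ℤ) • z ∈ X.Λ) ↔ ∃ n : ℕ, n ≠ 0 ∧ T.mulVec ((n : ℤ) • z) ∈ L := by
  have hsc : ∀ n : ℕ, T.mulVec ((n : ℤ) • z) = (((n : ℝ)) : ℂ) • T.mulVec z := by
    intro n
    rw [Matrix.mulVec_smul]
    funext p
    simp
  constructor
  · intro h
    obtain ⟨a, b, hab⟩ := (hN.lat z).1 h
    obtain ⟨n, hn, hk⟩ := NSX_den (κ := (α ⊕ β) ⊕ (α ⊕ β)) (Sum.elim a fun s => b s * q s)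
    choose k hk using hk
    refine ⟨n, hn, ?_⟩
    have h1 : T.mulVec ((n : ℤ) • z) = act g (sw fun p : Ix α β Unit => (r p.1 : ℂ) *
        ((k (Sum.inl p.1) : ℂ) + (k (Sum.inr p.1) : ℂ) / (q p.1 : ℂ) * zd d)) := by
      rw [hsc, hab, ← NSX_asmul]
      congr 2
      funext p
      have e1 : ((k (Sum.inl p.1) : ℂ)) = (n : ℂ) * (a p.1 : ℂ) := by
        have := hk (Sum.inl p.1)
        simp only [Sum.elim_inl] at this
        exact_mod_cast this.symm
      have e2 : ((k (Sum.inr p.1) : ℂ)) = (n : ℂ) * ((b p.1 : ℂ) * (q p.1 : ℂ)) := by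
        have := hk (Sum.inr p.1)
        simp only [Sum.elim_inr] at this
        exact_mod_cast this.symm
      have e3 : (q p.1 : ℂ) ≠ 0 := by exact_mod_cast NSX_q hN.isR p.1
      rw [e1, e2, Pi.smul_apply, smul_eq_mul]
      field_simp
      push_cast
      ring
    rw [h1]
    exact (hm _).1 ((hL _).2 ⟨fun s => k (Sum.inl s), fun s => k (Sum.inr s), rfl⟩)
  · rintro ⟨n, hn, h⟩
    have hg := UGr_inv' hN.uni
    have hx : act g (act (Jm α β * g.conjTranspose * Jm α β) (T.mulVec ((n : ℤ) • z))) =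
        T.mulVec ((n : ℤ) • z) := by
      rw [← (thm_UGr α β Unit).2.1, hg, (thm_UGr α β Unit).2.2.1]
    rw [← hx] at h
    obtain ⟨a, b, hab⟩ := (hL _).1 ((hm _).2 h)
    rw [hab] at hx
    refine (hN.lat z).2 ⟨fun s => (a s : ℚ) / n, fun s => (b s : ℚ) / (n * q s), ?_⟩
    have hn' : ((n : ℝ)) ≠ 0 := by exact_mod_cast hn
    have hn'' : ((n : ℂ)) ≠ 0 := by exact_mod_cast hn
    have h2 : T.mulVec z = (((n : ℝ)⁻¹ : ℝ) : ℂ) • T.mulVec ((n : ℤ) • z) := by
      rw [hsc, smul_smul, ← Complex.ofReal_mul, inv_mul_cancel₀ hn', Complex.ofReal_one, one_smul]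
    rw [h2, ← hx, ← NSX_asmul]
    congr 2
    funext p
    have e3 : (q p.1 : ℂ) ≠ 0 := by exact_mod_cast NSX_q hN.isR p.1
    rw [Pi.smul_apply, smul_eq_mul]
    push_cast
    field_simp

end lat

/-! ### the quadratic form -/

section mat

variable {α β : Type} [Fintype α] [Fintype β] [DecidableEq α] [DecidableEq β]

/-- the eigenvalues -/
private noncomputable def NSX_e (α β : Type) (d : ℚ) (p : Ix α β Unit) : ℂ :=
  Sum.elim (fun _ => zd d) (fun _ => -zd d) p.1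

private theorem NSX_rgt (d : ℚ) :
    rgt α β (zd d • (1 : Matrix Unit Unit ℂ)) = Matrix.diagonal (NSX_e α β d) := by
  ext ⟨p, k⟩ ⟨p', k'⟩
  rw [Matrix.diagonal_apply]
  simp only [rgt, Matrix.of_apply, Prod.mk.injEq]
  by_cases h : p = p'
  · subst h
    have hk : k = k' := Subsingleton.elim _ _
    subst hk
    rw [if_pos rfl, if_pos ⟨rfl, trivial⟩]
    rcases p with p | p
    · simp [NSX_e]
    · simp [NSX_e, NSX_cz]
  · rw [if_neg h, if_neg fun h' => h h'.1]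

end mat

theorem thm_NSX : St_NSX := by
  intro X d J α β _ _ _ _ T S Tp Tm Ta g r q L L₁ N hK hN hL hm hN0 hKL
  have hd := hK.pos
  have ts := hN.ts
  have st := hN.st
  obtain ⟨Bl, hBl⟩ : ∃ Bl, Bl = blk Unit Tp Tm := ⟨_, rfl⟩
  obtain ⟨Bi, hBi⟩ : ∃ Bi, Bi = blk Unit Tp⁻¹ Tm⁻¹ := ⟨_, rfl⟩
  have hfac := hN.fac
  rw [← hBl] at hfac
  have b1 : Bl * Bi = 1 := by
    rw [hBl, hBi, NF4_blk_mul, Matrix.mul_nonsing_inv _ (isUnit_iff_ne_zero.mpr hN.dp),
      Matrix.mul_nonsing_inv _ (isUnit_iff_ne_zero.mpr hN.dm), NF4_blk_one]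
  have b2 : Bi * Bl = 1 := mul_eq_one_comm.mp b1
  have a1 : Ta * S = Bi := by
    have e1 : Bl * (Ta * S) = 1 := by
      rw [← Matrix.mul_assoc, ← hfac, ts]
    calc Ta * S = Bi * Bl * (Ta * S) := by rw [b2, Matrix.one_mul]
      _ = Bi * (Bl * (Ta * S)) := Matrix.mul_assoc _ _ _
      _ = Bi := by rw [e1, Matrix.mul_one]
  have a2 : (S * Bl) * Ta = 1 := by
    rw [Matrix.mul_assoc, ← hfac, st]
  have a3 : Ta * (S * Bl) = 1 := by
    rw [← Matrix.mul_assoc, a1, b2]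
  have hTb : ∀ i p, IsAlgebraic ℚ ((S * Bl) i p) := fun i p => NF4_alg_inv hN.alg a3 a2 i p
  -- the endomorphism
  obtain ⟨G, hG⟩ : ∃ G, G = rgt α β (zd d • (1 : Matrix Unit Unit ℂ)) := ⟨_, rfl⟩
  have hneg : X.IsEnd ((-J : Module.End ℂ X.H1)) := by
    apply Pool.Agent.Helper7.isEnd_of_isDRB
    exact (Pool.Agent.Helper71.AF.DD (Pool.Agent.Helper7.pData X)).neg_mem
      (Pool.Agent.Helper7.isDRB_of_isEnd X J hK.endo)
  have hM : ∀ v, X.zz (J v) = (S * G * T).mulVec (X.zz v) := by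
    intro v
    have e1 := hN.jj v
    rw [← hG] at e1
    rw [← Matrix.mulVec_mulVec, ← Matrix.mulVec_mulVec, ← e1, Matrix.mulVec_mulVec, st,
      Matrix.one_mulVec]
  have hM' : ∀ v, X.zz ((-J : Module.End ℂ X.H1) v) = (-(S * G * T)).mulVec (X.zz v) := by
    intro v
    rw [LinearMap.neg_apply, map_neg, hM, Matrix.neg_mulVec]
  have hadj : X.IsAdjoint J (-J : Module.End ℂ X.H1) := by
    intro u v
    rw [hK.adj, LinearMap.neg_apply]
    show - X.polForm u (J v) = X.polForm u (-(J v))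
    rw [map_neg]
  obtain ⟨-, q2⟩ := thm_QRel X J (-J : Module.End ℂ X.H1) _ _ hK.endo hneg hadj hM hM'
  -- the form in the algebraic coordinates
  obtain ⟨Tb, hTb'⟩ : ∃ Tb, Tb = S * Bl := ⟨_, rfl⟩
  obtain ⟨Q, hQ⟩ : ∃ Q, Q = Tb.transpose * X.q * Tb := ⟨_, rfl⟩
  rw [← hTb'] at hTb
  have c1 : S * G * T * Tb = Tb * G := by
    rw [hTb']
    calc S * G * T * (S * Bl) = S * G * (T * S) * Bl := by simp only [Matrix.mul_assoc]
      _ = S * (G * Bl) := by rw [ts, Matrix.mul_one, Matrix.mul_assoc]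
      _ = S * Bl * G := by rw [hG, hBl, ← NF4_blk_rgt, Matrix.mul_assoc]
  have c2 : Tb.transpose * (X.q * (S * G * T) - (-(S * G * T)).transpose * X.q) * Tb =
      Q * G + G.transpose * Q := by
    have e1 : Tb.transpose * (S * G * T).transpose = G.transpose * Tb.transpose := by
      rw [← Matrix.transpose_mul, c1, Matrix.transpose_mul]
    calc Tb.transpose * (X.q * (S * G * T) - (-(S * G * T)).transpose * X.q) * Tb
        = Tb.transpose * X.q * (S * G * T * Tb) +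
            (Tb.transpose * (S * G * T).transpose) * X.q * Tb := by
          rw [Matrix.transpose_neg, Matrix.neg_mul, sub_neg_eq_add, Matrix.mul_add,
            Matrix.add_mul]
          simp only [Matrix.mul_assoc]
      _ = Q * G + G.transpose * Q := by
          rw [c1, e1, hQ]
          simp only [Matrix.mul_assoc]
  have c3 : ∀ p p', IsAlgebraic ℚ ((NSX_e α β d p + NSX_e α β d p') * Q p p') := by
    intro p p'
    have e1 : IsAlgebraic ℚ ((Q * G + G.transpose * Q) p p') := by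
      rw [← c2]
      exact NSX_am (NSX_am (fun i j => hTb j i) q2) hTb p p'
    rw [hG, NSX_rgt, Matrix.diagonal_transpose, Matrix.add_apply, Matrix.mul_diagonal,
      Matrix.diagonal_mul] at e1
    have e2 : (NSX_e α β d p + NSX_e α β d p') * Q p p' =
        Q p p' * NSX_e α β d p' + NSX_e α β d p * Q p p' := by ring
    rw [e2]
    exact e1
  have c4 : Q.transpose = Q := by
    have e1 : X.q.transpose = X.q := X.q_symm
    rw [hQ, Matrix.transpose_mul, Matrix.transpose_mul, Matrix.transpose_transpose, e1,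
      Matrix.mul_assoc]
  refine ⟨Matrix.of fun i j => Q (Sum.inl i, ()) (Sum.inr j, ()), ?_⟩
  rw [← hBl, ← hTb']
  refine ⟨hd, ts, st, hN.herm, hN.dp, hN.dm, hN.fac, ?_, hN.alg, hTb, ?_,
    NSX_lat hN hL hm, ⟨N, hN0, hKL⟩⟩
  · rw [hTb', hBl]
  · rw [← hQ]
    rintro ⟨p | p, ⟨⟩⟩ ⟨p' | p', ⟨⟩⟩
    · have e1 := c3 (Sum.inl p, ()) (Sum.inl p', ())
      simp only [NSX_e, Sum.elim_inl] at e1
      rw [← two_mul] at e1
      simp only [qb, Matrix.of_apply, Matrix.fromBlocks_apply₁₁, Matrix.zero_apply, sub_zero]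
      exact NSX_half hd e1
    · simp only [qb, Matrix.of_apply, Matrix.fromBlocks_apply₁₂, sub_self]
      exact isAlgebraic_zero
    · have e1 : Q (Sum.inr p, ()) (Sum.inl p', ()) = Q (Sum.inl p', ()) (Sum.inr p, ()) := by
        conv_lhs => rw [← c4]
        rfl
      simp only [qb, Matrix.of_apply, Matrix.fromBlocks_apply₂₁, Matrix.transpose_apply, e1,
        sub_self]
      exact isAlgebraic_zero
    · have e1 := (c3 (Sum.inr p, ()) (Sum.inr p', ())).neg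
      simp only [NSX_e, Sum.elim_inr] at e1
      have e2 : -((-zd d + -zd d) * Q (Sum.inr p, ()) (Sum.inr p', ())) =
          2 * zd d * Q (Sum.inr p, ()) (Sum.inr p', ()) := by ring
      rw [e2] at e1
      simp only [qb, Matrix.of_apply, Matrix.fromBlocks_apply₂₂, Matrix.zero_apply, sub_zero]
      exact NSX_half hd e1

end DWY
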