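import Pool.Agent.DWY.StC

/-!
# DWY [NSY]: the abelian variety of a lattice with multiplication by an imaginary quadratic field
-/

set_option autoImplicit false

namespace DWY

open scoped ComplexConjugate
open GAM (H E F pd pdl PLat IsTh OddTor IsDel Gro IsLat)
open PST DWC
open Pool.Agent.GPC (AbVar hermForm bilForm)

section mat

set_option linter.unusedSectionVars false

variable {α β : Type} [Fintype α] [Fintype β] [DecidableEq α] [DecidableEq β]

private theorem NSY_bij : Function.Bijective (Prod.fst : Ix α β Unit → α ⊕ β) :=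
  ⟨fun _ _ h => Prod.ext h (Subsingleton.elim _ _), fun s => ⟨(s, ()), rfl⟩⟩

private theorem NSY_blk (P : Matrix α α ℂ) (Q : Matrix β β ℂ) :
    blk Unit P Q = (Matrix.fromBlocks P 0 0 Q).submatrix Prod.fst Prod.fst := by
  ext p q
  simp [blk]

private theorem NSY_qb (κ : Matrix α β ℂ) :
    qb κ = (Matrix.fromBlocks 0 κ κ.transpose 0).submatrix Prod.fst Prod.fst := by
  ext p q
  simp [qb]

private theorem NSY_blk_mul (P P' : Matrix α α ℂ) (Q Q' : Matrix β β ℂ) :
    blk Unit P Q * blk Unit P' Q' = blk Unit (P * P') (Q * Q') := by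
  rw [NSY_blk, NSY_blk, NSY_blk, ← Matrix.submatrix_mul _ _ _ _ _ NSY_bij,
    Matrix.fromBlocks_multiply]
  simp

private theorem NSY_blk_one :
    blk Unit (1 : Matrix α α ℂ) (1 : Matrix β β ℂ) = 1 := by
  rw [NSY_blk, Matrix.fromBlocks_one]
  exact Matrix.submatrix_one _ NSY_bij.injective

private theorem NSY_blk_map (δ : Derivation ℚ ℂ ℂ) (P : Matrix α α ℂ) (Q : Matrix β β ℂ) :
    (blk Unit P Q).map δ = blk Unit (P.map δ) (Q.map δ) := by
  ext p q
  obtain ⟨i | i, k⟩ := p <;> obtain ⟨j | j, l⟩ := q <;> by_cases h : k = l <;>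
    simp [blk, h]

private theorem NSY_qb_map (δ : Derivation ℚ ℂ ℂ) (κ : Matrix α β ℂ) :
    (qb κ).map δ = qb (κ.map δ) := by
  ext p q
  obtain ⟨i | i, k⟩ := p <;> obtain ⟨j | j, l⟩ := q <;> simp [qb]

private theorem NSY_qb_tr (κ : Matrix α β ℂ) : (qb κ).transpose = qb κ := by
  ext p q
  obtain ⟨i | i, k⟩ := p <;> obtain ⟨j | j, l⟩ := q <;> simp [qb]

private theorem NSY_conj (P : Matrix α α ℂ) (Q : Matrix β β ℂ) (c : Matrix α β ℂ) :
    -((blk Unit P Q).transpose * qb c * blk Unit P Q) =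
      qb (-(P.transpose * c * Q)) := by
  rw [NSY_blk, NSY_qb, NSY_qb, Matrix.transpose_submatrix,
    ← Matrix.submatrix_mul _ _ _ _ _ NSY_bij, ← Matrix.submatrix_mul _ _ _ _ _ NSY_bij,
    Matrix.fromBlocks_transpose, Matrix.fromBlocks_multiply, Matrix.fromBlocks_multiply]
  ext p q
  obtain ⟨i | i, k⟩ := p <;> obtain ⟨j | j, l⟩ := q <;>
    simp [Matrix.mul_assoc, Matrix.transpose_mul]

private theorem NSY_alg_one {ι : Type} [DecidableEq ι] (i j : ι) :
    IsAlgebraic ℚ ((1 : Matrix ι ι ℂ) i j) := by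
  by_cases h : i = j
  · subst h
    rw [Matrix.one_apply_eq]
    exact isAlgebraic_one
  · rw [Matrix.one_apply_ne h]
    exact isAlgebraic_zero

end mat

/-- The module NSY. -/
theorem thm_NSY (h1 : St_AbVG) (h2 : St_HopG) : St_NSY := by
  intro d α β _ _ _ _ Tp Tm κ N L χ θ hd hN hKL hP hT h0 hp hm hH
  obtain ⟨T₀, hT₀⟩ : ∃ T₀, T₀ = blk Unit Tp Tm := ⟨_, rfl⟩
  obtain ⟨S₀, hS₀⟩ : ∃ S₀, S₀ = blk Unit Tp⁻¹ Tm⁻¹ := ⟨_, rfl⟩
  have ts : T₀ * S₀ = 1 := by
    rw [hT₀, hS₀, NSY_blk_mul, Matrix.mul_nonsing_inv _ (isUnit_iff_ne_zero.mpr hp),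
      Matrix.mul_nonsing_inv _ (isUnit_iff_ne_zero.mpr hm), NSY_blk_one]
  have st : S₀ * T₀ = 1 := mul_eq_one_comm.mp ts
  choose k hk using hH
  have hG : ∀ δ : Derivation ℚ ℂ ℂ, HasGop δ L θ (k δ) (T₀ * S₀.map δ)
      (-(S₀.transpose * (qb κ).map δ * S₀)) := by
    intro δ
    have e1 : T₀ * S₀.map δ = blk Unit (Tp * Tp⁻¹.map δ) (Tm * Tm⁻¹.map δ) := by
      rw [hT₀, hS₀, NSY_blk_map, NSY_blk_mul]
    have e2 : -(S₀.transpose * (qb κ).map δ * S₀) =
        qb (-((Tp⁻¹).transpose * κ.map δ * Tm⁻¹)) := by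
      rw [hS₀, NSY_qb_map, NSY_conj]
    rw [e1, e2]
    refine ⟨NSY_qb_tr _, fun x hx => ?_⟩
    rw [(h2 α β (k δ) _ _ _ 0 (F θ x)).1]
    exact hk δ x hx
  obtain ⟨Y, e, M, hY⟩ := h1 (Ix α β Unit) L χ θ T₀ S₀ (qb κ) k hP hT h0 ts (NSY_qb_tr κ) hG
  have hq : Y.q = (qb κ).submatrix e e := by
    ext i j
    exact hY.q i j
  have ts' : T₀.submatrix id e * S₀.submatrix e id = 1 := by
    rw [← Matrix.submatrix_mul _ _ _ _ _ e.bijective, ts, Matrix.submatrix_id_id]
  have st' : S₀.submatrix e id * T₀.submatrix id e = 1 := by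
    rw [← Matrix.submatrix_mul _ _ _ _ _ Function.bijective_id, st]
    exact Matrix.submatrix_one _ e.injective
  have hTm : ∀ z : Fin Y.g → ℂ, (T₀.submatrix id e).mulVec z =
      T₀.mulVec (fun a => z (e.symm a)) := by
    intro z
    rw [Matrix.submatrix_mulVec_equiv]
    rfl
  have hSm : ∀ l : Ix α β Unit → ℂ, ∀ j, (S₀.submatrix e id).mulVec l j = S₀.mulVec l (e j) :=
    fun l j => rfl
  have hMC : (M : ℂ) ≠ 0 := Nat.cast_ne_zero.mpr hY.pos
  have hL1 : ∀ w, w ∈ Y.Λ → (T₀.submatrix id e).mulVec w ∈ L := by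
    intro w hw
    obtain ⟨l, hl, hlw⟩ := (hY.lat w).mp hw
    have e3 : w = (M : ℂ) • (S₀.submatrix e id).mulVec l := by
      ext j
      rw [hlw j, Pi.smul_apply, hSm, smul_eq_mul]
    rw [e3, Matrix.mulVec_smul, Matrix.mulVec_mulVec, ts', Matrix.one_mulVec]
    have e4 : (M : ℂ) • l = (M : ℤ) • l := by
      ext j
      simp
    rw [e4]
    exact L.smul_mem _ hl
  have hL2 : ∀ w, (T₀.submatrix id e).mulVec w ∈ L → (M : ℤ) • w ∈ Y.Λ := by
    intro w hw
    refine (hY.lat _).mpr ⟨_, hw, fun j => ?_⟩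
    rw [← hSm, Matrix.mulVec_mulVec, st', Matrix.one_mulVec]
    simp
  refine ⟨Y, T₀.submatrix id e, S₀.submatrix e id,
    (1 : Matrix (Ix α β Unit) (Ix α β Unit) ℂ).submatrix id e,
    (1 : Matrix (Ix α β Unit) (Ix α β Unit) ℂ).submatrix e id, ?_, ?_⟩
  · refine
      { pos := hd
        ts := ts'
        st := st'
        herm := fun z w => ?_
        dp := hp
        dm := hm
        fac := ?_
        facb := ?_
        alg := fun p i => NSY_alg_one _ _
        algb := fun i p => NSY_alg_one _ _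
        qq := fun p p' => ?_
        lat := fun z => ⟨?_, ?_⟩
        kl := ⟨N, hN, hKL⟩ }
    · rw [hY.herm, hTm, hTm]
    · rw [← hT₀]
      have e5 : (T₀ * 1).submatrix id e =
          T₀.submatrix id id * (1 : Matrix (Ix α β Unit) (Ix α β Unit) ℂ).submatrix id e :=
        Matrix.submatrix_mul _ _ _ _ _ Function.bijective_id
      rw [Matrix.mul_one, Matrix.submatrix_id_id] at e5
      exact e5
    · rw [← hT₀]
      have e6 : S₀.submatrix e id * T₀ = S₀.submatrix e id * T₀.submatrix id id := by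
        rw [Matrix.submatrix_id_id]
      rw [e6, ← Matrix.submatrix_mul _ _ _ _ _ Function.bijective_id, st]
    · have e7 : ((1 : Matrix (Ix α β Unit) (Ix α β Unit) ℂ).submatrix e id).transpose * Y.q *
          (1 : Matrix (Ix α β Unit) (Ix α β Unit) ℂ).submatrix e id = qb κ := by
        rw [hq, Matrix.transpose_submatrix, Matrix.transpose_one,
          ← Matrix.submatrix_mul _ _ _ _ _ e.bijective,
          ← Matrix.submatrix_mul _ _ _ _ _ e.bijective, Matrix.one_mul, Matrix.mul_one,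
          Matrix.submatrix_id_id]
      rw [e7, sub_self]
      exact isAlgebraic_zero
    · rintro ⟨n, hn, h⟩
      exact ⟨n, hn, hL1 _ h⟩
    · rintro ⟨n, hn, h⟩
      refine ⟨M * n, Nat.mul_ne_zero hY.pos hn, ?_⟩
      have e8 : ((M * n : ℕ) : ℤ) • z = (M : ℤ) • ((n : ℤ) • z) := by
        rw [Nat.cast_mul, mul_smul]
      rw [e8]
      exact hL2 _ h
  · have e9 := Fintype.card_congr e
    rw [Fintype.card_fin] at e9
    rw [e9]
    simp [Ix]

end DWY
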