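import Pool.Agent.DWY.StC
import Pool.Agent.PST.LinT
import Pool.Agent.PST.ExpQ
import Pool.Agent.GAM.OddD
import Pool.Agent.GAM.Hol
import Pool.Agent.GAM.DelR
import Pool.Agent.GAM.QDF

/-!
# DWY [NorG]: normalisation of the theta functions
-/

set_option autoImplicit false

namespace DWY

open scoped ComplexConjugate
open GAM (H E F pd pdl PLat IsTh OddTor IsDel Gro IsLat GoodN LinN)
open PST DWC

section

variable {ι : Type} [Fintype ι] [DecidableEq ι]

omit [DecidableEq ι] in
private theorem NorG_map_mul (δ : Derivation ℚ ℂ ℂ) (A B : Matrix ι ι ℂ) :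
    (A * B).map δ = A.map δ * B + A * B.map δ := by
  ext i j
  simp only [Matrix.map_apply, Matrix.mul_apply, Matrix.add_apply, map_sum, Derivation.leibniz,
    smul_eq_mul]
  rw [← Finset.sum_add_distrib]
  exact Finset.sum_congr rfl fun k _ => by ring

omit [Fintype ι] in
private theorem NorG_map_one (δ : Derivation ℚ ℂ ℂ) : (1 : Matrix ι ι ℂ).map δ = 0 := by
  ext i j
  rw [Matrix.map_apply, Matrix.one_apply]
  by_cases h : i = j
  · rw [if_pos h, Matrix.zero_apply]
    exact δ.map_one_eq_zero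
  · rw [if_neg h, Matrix.zero_apply]
    exact map_zero δ

private theorem NorG_bt (δ : Derivation ℚ ℂ ℂ) (T S : Matrix ι ι ℂ) (h : T * S = 1) :
    T * S.map δ * T = -(T.map δ) := by
  have h1 : S * T = 1 := mul_eq_one_comm.1 h
  have h2 := NorG_map_mul δ T S
  rw [h, NorG_map_one] at h2
  have h3 : T * S.map δ = -(T.map δ * S) := by
    rw [eq_neg_iff_add_eq_zero, add_comm]
    exact h2.symm
  rw [h3, Matrix.neg_mul, Matrix.mul_assoc, h1, Matrix.mul_one]

omit [DecidableEq ι] in
private theorem NorG_quad (C : Matrix ι ι ℂ) (x : ι → ℂ) :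
    ∑ a, ∑ b, C a b * x a * x b = dotProduct x (C.mulVec x) := by
  simp only [dotProduct, Matrix.mulVec, Finset.mul_sum]
  exact Finset.sum_congr rfl fun a _ => Finset.sum_congr rfl fun b _ => by ring

private theorem NorG_c (T S Q : Matrix ι ι ℂ) (h : T * S = 1) (v : ι → ℂ) :
    ∑ a, ∑ b, (-(S.transpose * Q * S)) a b * T.mulVec v a * T.mulVec v b =
      -∑ a, ∑ b, Q a b * v a * v b := by
  have h1 : S * T = 1 := mul_eq_one_comm.1 h
  have h2 : S.mulVec (T.mulVec v) = v := by rw [Matrix.mulVec_mulVec, h1, Matrix.one_mulVec]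
  rw [NorG_quad, NorG_quad, Matrix.neg_mulVec, dotProduct_neg, ← Matrix.mulVec_mulVec, h2,
    ← Matrix.mulVec_mulVec, Matrix.dotProduct_mulVec, Matrix.vecMul_transpose, h2]

end

/-- [NorG] normalisation -/
theorem thm_NorG : St_NorG := by
  intro ι _ _ L χ θ T S q k hP hT h0 hTS hq hG
  have hDel : GAM.St_DelR := GAM.thm_DelR GAM.thm_Hol
  obtain ⟨v₀, hv₀⟩ := h0
  have hopen : IsOpen {v | θ v ≠ 0} := isOpen_ne_fun hT.ent.continuous continuous_const
  obtain ⟨y, hy1, hy2⟩ := (GAM.thm_OddD ι L hP.lat).exists_mem_open hopen ⟨v₀, hv₀⟩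
  have hy0 : F θ y 0 ≠ 0 := by
    rw [GAM.F_ne_iff, add_zero]
    exact hy2
  -- the functions before the normalisation
  have key : ∀ (δ : Derivation ℚ ℂ ℂ) x, OddTor L x →
      IsDel δ (fun z => Complex.exp (∑ a, ∑ b, ((1 / 2 : ℂ) • q) a b * z a * z b) *
        F θ x (T.mulVec z)) (fun z => k δ *
          (Complex.exp (∑ a, ∑ b, ((1 / 2 : ℂ) • q) a b * z a * z b) * F θ x (T.mulVec z))) := by
    intro δ x hx
    have hR := hDel ι δ
    have h1 := thm_LinT ι ι δ T _ _ ((hG δ).del x hx)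
    have h2 := thm_ExpQ ι δ ((1 / 2 : ℂ) • q)
    have h3 := hR.mul _ _ _ _ h2 h1
    have h4 : (fun v : ι → ℂ => (∑ a, ∑ b, δ (((1 / 2 : ℂ) • q) a b) * v a * v b) *
        Complex.exp (∑ a, ∑ b, ((1 / 2 : ℂ) • q) a b * v a * v b) * F θ x (T.mulVec v) +
        Complex.exp (∑ a, ∑ b, ((1 / 2 : ℂ) • q) a b * v a * v b) *
          (gop (k δ) (T * S.map δ) (-(S.transpose * q.map δ * S)) (F θ x) (T.mulVec v) +
            ∑ i, (∑ b, δ (T i b) * v b) * pd i (F θ x) (T.mulVec v))) =
        fun z => k δ * (Complex.exp (∑ a, ∑ b, ((1 / 2 : ℂ) • q) a b * z a * z b) *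
          F θ x (T.mulVec z)) := by
      funext v
      have e1 : ∑ a, ∑ b, δ (((1 / 2 : ℂ) • q) a b) * v a * v b =
          1 / 2 * ∑ a, ∑ b, (q.map δ) a b * v a * v b := by
        have e2 : ∀ a b, δ (((1 / 2 : ℂ) • q) a b) = 1 / 2 * (q.map δ) a b := by
          intro a b
          have e3 : ((1 / 2 : ℂ) • q) a b = ((1 / 2 : ℚ) : ℂ) * q a b := by
            rw [Matrix.smul_apply, smul_eq_mul]
            push_cast
            rfl
          rw [e3, Derivation.leibniz]
          have e4 : δ ((1 / 2 : ℚ) : ℂ) = 0 := by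
            have := δ.map_algebraMap (1 / 2 : ℚ)
            exact this
          rw [e4, Matrix.map_apply]
          push_cast
          simp
        simp only [e2, Finset.mul_sum]
        exact Finset.sum_congr rfl fun a _ => Finset.sum_congr rfl fun b _ => by ring
      have e5 : ∑ a, ∑ b, (T * S.map δ) a b * (T.mulVec v b * pd a (F θ x) (T.mulVec v)) =
          -∑ i, (∑ b, δ (T i b) * v b) * pd i (F θ x) (T.mulVec v) := by
        rw [← Finset.sum_neg_distrib]
        refine Finset.sum_congr rfl fun a _ => ?_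
        have e6 : ∑ b, (T * S.map δ) a b * (T.mulVec v b * pd a (F θ x) (T.mulVec v)) =
            ((T * S.map δ).mulVec (T.mulVec v)) a * pd a (F θ x) (T.mulVec v) := by
          rw [Matrix.mulVec, dotProduct, Finset.sum_mul]
          exact Finset.sum_congr rfl fun b _ => by ring
        rw [e6, Matrix.mulVec_mulVec, NorG_bt δ T S hTS, Matrix.neg_mulVec, Pi.neg_apply,
          neg_mul]
        rfl
      unfold gop
      rw [e1, e5, NorG_c T S (q.map δ) hTS v]
      ring
    rw [h4] at h3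
    exact h3
  have hky : ∀ δ : Derivation ℚ ℂ ℂ, δ (F θ y 0) = k δ * F θ y 0 := by
    intro δ
    have h1 := (key δ y hy1).del []
    simp only [pdl, List.foldr_nil] at h1
    simpa using h1.symm
  refine ⟨y, hTS, hq, hy1, hy0, fun δ x hx => ?_⟩
  have hR := hDel ι δ
  have h1 := hR.mul _ _ _ _ (key δ x hx) (hR.const (F θ y 0)⁻¹)
  have h2 : δ ((F θ y 0)⁻¹) = -(k δ) * (F θ y 0)⁻¹ := by
    rw [Derivation.leibniz_inv, hky δ]
    simp only [smul_eq_mul]
    field_simp
  have h3 : Tg θ T q y x = fun z =>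
      Complex.exp (∑ a, ∑ b, ((1 / 2 : ℂ) • q) a b * z a * z b) * F θ x (T.mulVec z) *
        (F θ y 0)⁻¹ := by
    funext z
    unfold Tg
    rw [div_eq_mul_inv]
    congr 3
    simp only [Matrix.smul_apply, smul_eq_mul, Finset.mul_sum]
    exact Finset.sum_congr rfl fun a _ => Finset.sum_congr rfl fun b _ => by ring
  rw [h3]
  have h4 : (fun v : ι → ℂ => k δ *
      (Complex.exp (∑ a, ∑ b, ((1 / 2 : ℂ) • q) a b * v a * v b) * F θ x (T.mulVec v)) *
        (F θ y 0)⁻¹ +
      Complex.exp (∑ a, ∑ b, ((1 / 2 : ℂ) • q) a b * v a * v b) * F θ x (T.mulVec v) *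
        δ ((F θ y 0)⁻¹)) = fun _ => 0 := by
    funext v
    rw [h2]
    ring
  rw [← h4]
  exact h1

end DWY
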