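import Pool.Agent.DWY.StB
import Pool.Agent.GAM.ThEx
import Pool.Agent.PST.UGr

/-!
# DWY [OpY]: the operator of the exterior square
-/

set_option autoImplicit false

namespace DWY

open scoped ComplexConjugate
open GAM (H E F pd pdl PLat IsTh OddTor IsDel Gro IsLat Pre)
open PST DWC
open Pool.Agent.GPC (AbVar hermForm bilForm)

/-- Stability under `N i √d` is transported. -/
private theorem OpY_KL {α β : Type} [Fintype α] [Fintype β] [DecidableEq α] [DecidableEq β]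
    {d : ℚ} {N : ℕ} {g : Matrix (α ⊕ β) (α ⊕ β) ℂ} {L₁ L₀ : Submodule ℤ (Ix α β Unit → ℂ)}
    {χ₁ χ₀ : (Ix α β Unit → ℂ) → ℂ} (hM : Maps g L₁ L₀ χ₁ χ₀) (hK : KL d N L₁) :
    KL d N L₀ := by
  obtain ⟨-, u2, u3, -, -, u6, -⟩ := thm_UGr α β Unit
  obtain ⟨hiU, hig, hgi, -, -⟩ := u6 g hM.uni
  obtain ⟨gi, hgie⟩ : ∃ gi, gi = Jm α β * g.conjTranspose * Jm α β := ⟨_, rfl⟩
  rw [← hgie] at hiU hig hgi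
  have e2 : ∀ x : Ix α β Unit → ℂ, act g (act gi x) = x := fun x => by rw [← u2, hgi, u3]
  intro l hl
  have h1 : act gi l ∈ L₁ := by rw [hM.lat, e2]; exact hl
  have h2 := (hM.lat _).1 (hK _ h1)
  have h3 : act g (act (kap α β d N) (act gi l)) = act (kap α β d N) (act g (act gi l)) := by
    rw [← u2 g, ← u2 (kap α β d N) g, kap, Matrix.mul_smul, Matrix.smul_mul, Matrix.mul_one,
      Matrix.one_mul]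
  rw [h3, e2] at h2
  exact h2

/-- The lattice of a CM point is stable under `N i √d`. -/
private theorem OpY_KL1 (hL : St_LatK) {α β : Type} [Fintype α] [Fintype β] [DecidableEq α]
    [DecidableEq β] {d : ℚ} {r : α ⊕ β → ℝ} {q : α ⊕ β → ℚ}
    {L : Submodule ℤ (Ix α β Unit → ℂ)} (hR : IsR d r q) (h : IsLK d r q L) :
    ∃ N : ℕ, N ≠ 0 ∧ KL d N L := by
  obtain ⟨L', χ', N, -, h1, hN, hK⟩ := hL α β d r q hR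
  have hE : L' = L := by
    ext x
    rw [h1 x, h x]
  exact ⟨N, hN, hE ▸ hK⟩

/-- The operator `hop2` with `b = 0` is `hop`. -/
private theorem OpY_hat (hG : St_HopG) {α β : Type} [Fintype α] [Fintype β] [DecidableEq α]
    [DecidableEq β] {δ : Derivation ℚ ℂ ℂ} {L : Submodule ℤ (Ix α β Unit → ℂ)}
    {θ : (Ix α β Unit → ℂ) → ℂ} {k : ℂ} {Bp : Matrix α α ℂ} {Bm : Matrix β β ℂ}
    {c : Matrix α β ℂ} : HasHat2 δ L θ k Bp Bm c 0 ↔ HasHat δ L θ k Bp Bm c := by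
  unfold HasHat2 HasHat
  constructor
  · intro h x hx
    have := h x hx
    rwa [(hG α β k Bp Bm c 0 (F θ x)).2.1] at this
  · intro h x hx
    have := h x hx
    rwa [← (hG α β k Bp Bm c 0 (F θ x)).2.1] at this

theorem thm_OpY (h1 : St_HatX) (h2 : St_HatU) (h3 : St_CocP) (h4 : St_CmsG) (h5 : St_CmsK)
    (h6 : St_IndY) (h7 : St_LinY) (h8 : St_HatY) (h9 : St_CoreH) (h10 : St_CocK)
    (h11 : St_LatK) (_h12 : St_UE2) (h13 : St_DetE) (h14 : St_HopG) : St_OpY := by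
  intro X d T S Tp Tm Ta Tb κ g r q L₀ L₁ χ₀ χ₁ LY₀ LY₁ χY₀ χY₁ θY₀ A m hNS hR hP₀ hP₁ hPY₀ hPY₁
    hL₁ hLY₁ hM hMY hg hTY₀ hzY₀ hm hAm hA δ
  obtain ⟨hRY, hcms⟩ := h5 d r q hR
  obtain ⟨N₁, M, hcm₁⟩ := hcms L₁ LY₁ hL₁ hLY₁
  have hcm₀ := h4 _ M g L₁ L₀ LY₁ LY₀ hM.uni hM.lat hMY.lat hcm₁
  obtain ⟨N, hN, hK₀⟩ := hNS.kl
  obtain ⟨NY, hNY, hKY₁⟩ := OpY_KL1 h11 hRY hLY₁
  have hKY₀ := OpY_KL hMY hKY₁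
  have hC₀ : CocH 12 L₀ := h10 (Fin 3) Unit d N L₀ χ₀ hNS.pos hN hP₀ hK₀
  have hCY₀ : CocH 12 LY₀ := h10 (Fin 3) (Fin 3) d NY LY₀ χY₀ hNS.pos hNY hPY₀ hKY₀
  have hCP := h3 12 _ M L₀ LY₀ hcm₀ hC₀
  obtain ⟨θ₀, hT₀, hz₀⟩ := GAM.thm_ThEx IX L₀ χ₀ hP₀
  obtain ⟨θ₁, hT₁, hz₁⟩ := GAM.thm_ThEx IX L₁ χ₁ hP₁
  obtain ⟨θY₁, hTY₁, hzY₁⟩ := GAM.thm_ThEx IY LY₁ χY₁ hPY₁
  obtain ⟨k₀, hk₀⟩ := h1 X d (Fin 3) Unit T S Tp Tm Ta Tb κ L₀ χ₀ θ₀ δ hNS hP₀ hT₀ hz₀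
  obtain ⟨kY₀, BpY, BmY, cY, bY, hkY₀⟩ := h2 (Fin 3) (Fin 3) d NY δ LY₀ χY₀ θY₀ hNS.pos hNY hPY₀
    hTY₀ hzY₀ hKY₀
  obtain ⟨k₁, hk₁⟩ := hA (Fin 3) Unit r q L₁ χ₁ θ₁ hR inferInstance hP₁ hL₁ hT₁ hz₁ δ
  obtain ⟨kY₁, hkY₁⟩ := hA (Fin 3) (Fin 3) (rY d r) (qY d q) LY₁ χY₁ θY₁ hRY inferInstance hPY₁
    hLY₁ hTY₁ hzY₁ δ
  have hD : CoD δ g L₀ L₁ χ₀ θ₀ χ₁ θ₁ LY₀ LY₁ χY₀ θY₀ χY₁ θY₁ 12 (A δ) k₀ kY₀ k₁ kY₁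
      (Tp * Tp⁻¹.map δ) (Tm * Tm⁻¹.map δ) (-((Tp⁻¹).transpose * κ.map δ * Tm⁻¹)) 0
      BpY BmY cY bY :=
    ⟨hP₀, hP₁, hPY₀, hPY₁, hT₀, hT₁, hTY₀, hTY₁, hz₀, hz₁, hzY₀, hzY₁, hM, hMY, hCP,
      (OpY_hat h14).2 hk₀, hkY₀, hk₁, hkY₁⟩
  have hv := h6 δ g L₀ L₁ χ₀ θ₀ χ₁ θ₁ LY₀ LY₁ χY₀ θY₀ χY₁ θY₁ 12 (A δ) k₀ kY₀ k₁ kY₁ _ _ _ _ BpY
    BmY cY bY hD
  obtain ⟨hb, hc, r₀, hBp, hBm⟩ := h7 _ _ _ BpY BmY cY bY hv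
  subst hb
  have hkY := (OpY_hat h14).1 hkY₀
  have hdet : δ g.det = 0 := by
    rw [hg]
    exact Derivation.map_one_eq_zero δ
  have hdetY : δ (e2 g).det = 0 := by
    rw [h13 g, hg, one_pow]
    exact Derivation.map_one_eq_zero δ
  have t1 := h9 (Fin 3) Unit Unit δ g L₀ L₁ χ₀ θ₀ χ₁ θ₁ 12 k₀ k₁ _ _ _ _ _ _ ⟨()⟩ (by norm_num)
    hP₀ hP₁ hT₀ hT₁ hz₀ hz₁ hM hdet hC₀ hk₀ hk₁
  have t2 := h9 (Fin 3) (Fin 3) Unit δ (e2 g) LY₀ LY₁ χY₀ θY₀ χY₁ θY₁ 12 kY₀ kY₁ _ _ _ _ _ _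
    ⟨()⟩ (by norm_num) hPY₀ hPY₁ hTY₀ hTY₁ hzY₀ hzY₁ hMY hdetY hCY₀ hkY hkY₁
  have hmt : (Tm * Tm⁻¹.map δ).trace = (Tm * Tm⁻¹.map δ) () () := by
    simp [Matrix.trace]
  rw [Matrix.trace_smul, Matrix.trace_smul, Matrix.trace_one, Matrix.trace_one, smul_eq_mul,
    smul_eq_mul, hmt] at t1
  rw [hBp, hBm, Matrix.trace_sub, Matrix.trace_sub, Matrix.trace_smul, Matrix.trace_smul,
    Matrix.trace_one, Matrix.trace_transpose, sub_self, smul_eq_mul, smul_eq_mul] at t2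
  simp only [Fintype.card_fin, Fintype.card_unit, Nat.cast_ofNat, Nat.cast_one] at t1 t2
  have hr : r₀ = A δ := by
    linear_combination (1 / 2 : ℂ) * t1 - (1 / 6 : ℂ) * t2
  obtain ⟨-, -, y1, y2, y3⟩ := h8 δ Tp Tm κ m (A δ) hNS.dp hNS.dm hm (hAm δ)
  refine ⟨kY₀, ?_⟩
  rw [y1, y2, y3, ← hr, ← hBp, ← hBm, ← hc]
  exact hkY

end DWY
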