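import Pool.Agent.DWY.StC
import Pool.Agent.GAM.Quad
import Pool.Agent.GAM.LinD
import Pool.Agent.PST.ExpQ

/-!
# DWY [QuaG]: the Wronskians and the second logarithmic derivatives are quadratic forms with
algebraic coefficients
-/

set_option autoImplicit false
set_option linter.unusedSectionVars false

namespace DWY

open scoped ComplexConjugate
open GAM (H E F pd pdl PLat IsTh OddTor IsDel Gro IsLat GoodN LinN)
open PST DWC

section

variable {ι : Type} [Fintype ι] [DecidableEq ι]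

theorem QuaG_sm_an (Q : Matrix ι ι ℂ) (a : ι) {f : (ι → ℂ) → ℂ}
    (hf : ∀ z, AnalyticAt ℂ f z) (z : ι → ℂ) :
    AnalyticAt ℂ (fun z => ExpQ_q Q a z * f z + pd a f z) z :=
  ((ExpQ_q_an Q a z).mul (hf z)).add (DelX_pd_an hf a z)

theorem QuaG_pd_sm (Q : Matrix ι ι ℂ) (c : ℂ) {f : (ι → ℂ) → ℂ}
    (hf : ∀ z, AnalyticAt ℂ f z) (a : ι) :
    pd a (fun z => c * (ExpQ_e Q z * f z)) =
      fun z => c * (ExpQ_e Q z * (ExpQ_q Q a z * f z + pd a f z)) := by
  funext z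
  rw [DelX_pd_mulc (f := fun z => ExpQ_e Q z * f z) (fun z => (ExpQ_e_an Q z).mul (hf z)),
    GAM.DelR_pd_mul (ExpQ_e_an Q) hf, ExpQ_e_pd]
  ring

theorem QuaG_pd_q (Q : Matrix ι ι ℂ) (a b : ι) (z : ι → ℂ) :
    pd a (ExpQ_q Q b) z = Q b a + Q a b := by
  unfold ExpQ_q
  rw [DelX_pd_sum Finset.univ (f := fun c v => (Q b c + Q c b) * v c)
    (fun c z => analyticAt_const.mul (DelX_coord_an c z))]
  have h1 : ∀ c, pd a (fun v : ι → ℂ => (Q b c + Q c b) * v c) z =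
      if c = a then Q b c + Q c b else 0 := by
    intro c
    rw [DelX_pd_mulc (fun z => DelX_coord_an c z), GAM.DelR_pd_coord]
    by_cases hc : c = a <;> simp [hc]
  rw [Finset.sum_congr rfl fun c _ => h1 c, Finset.sum_ite_eq' Finset.univ a fun c =>
    Q b c + Q c b, if_pos (Finset.mem_univ _)]

theorem QuaG_pd2_sm (Q : Matrix ι ι ℂ) (c : ℂ) {f : (ι → ℂ) → ℂ}
    (hf : ∀ z, AnalyticAt ℂ f z) (a b : ι) :
    pd a (pd b (fun z => c * (ExpQ_e Q z * f z))) =
      fun z => c * (ExpQ_e Q z * (ExpQ_q Q a z * (ExpQ_q Q b z * f z + pd b f z) +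
        ((Q b a + Q a b) * f z + ExpQ_q Q b z * pd a f z + pd a (pd b f) z))) := by
  rw [QuaG_pd_sm Q c hf b, QuaG_pd_sm Q c (QuaG_sm_an Q b hf) a]
  funext z
  rw [DelX_pd_add (f := fun z => ExpQ_q Q b z * f z) (g := pd b f)
    (fun z => (ExpQ_q_an Q b z).mul (hf z)) (DelX_pd_an hf b),
    GAM.DelR_pd_mul (ExpQ_q_an Q b) hf]
  simp only []
  rw [QuaG_pd_q]

theorem QuaG_Tg (θ : (ι → ℂ) → ℂ) (T q : Matrix ι ι ℂ) (y x : ι → ℂ) :
    Tg θ T q y x = fun z => (F θ y 0)⁻¹ *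
      (ExpQ_e ((1 / 2 : ℂ) • q) z * F θ x (T.mulVec z)) := by
  funext z
  have h1 : ExpQ_p ((1 / 2 : ℂ) • q) z = 1 / 2 * ∑ a, ∑ b, q a b * z a * z b := by
    unfold ExpQ_p
    rw [Finset.mul_sum]
    refine Finset.sum_congr rfl fun a _ => ?_
    rw [Finset.mul_sum]
    refine Finset.sum_congr rfl fun b _ => ?_
    rw [Matrix.smul_apply, smul_eq_mul]
    ring
  unfold Tg ExpQ_e
  rw [h1, div_eq_inv_mul]

theorem QuaG_an {L : Submodule ℤ (ι → ℂ)} {χ θ : (ι → ℂ) → ℂ} (hT : IsTh L χ θ)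
    (x : ι → ℂ) (z : ι → ℂ) : AnalyticAt ℂ (F θ x) z :=
  GAM.DelR_an GAM.thm_Hol (GAM.F_differentiable hT x) z

theorem QuaG_anT {L : Submodule ℤ (ι → ℂ)} {χ θ : (ι → ℂ) → ℂ} (hT : IsTh L χ θ)
    (T : Matrix ι ι ℂ) (x : ι → ℂ) (z : ι → ℂ) :
    AnalyticAt ℂ (fun z => F θ x (T.mulVec z)) z := by
  refine GAM.DelR_an GAM.thm_Hol ?_ z
  exact (GAM.F_differentiable hT x).comp
    (LinearMap.toContinuousLinearMap (Matrix.mulVecLin T)).differentiable

theorem QuaG_pdT {L : Submodule ℤ (ι → ℂ)} {χ θ : (ι → ℂ) → ℂ} (hT : IsTh L χ θ)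
    (T : Matrix ι ι ℂ) (x : ι → ℂ) (a : ι) :
    pd a (fun z => F θ x (T.mulVec z)) =
      fun z => ∑ c, T c a * pd c (F θ x) (T.mulVec z) :=
  GAM.DelR_pd_lin T (QuaG_an hT x) a

theorem QuaG_pd2T {L : Submodule ℤ (ι → ℂ)} {χ θ : (ι → ℂ) → ℂ} (hT : IsTh L χ θ)
    (T : Matrix ι ι ℂ) (x : ι → ℂ) (a b : ι) (z : ι → ℂ) :
    pd a (pd b (fun z => F θ x (T.mulVec z))) z =
      ∑ c, ∑ c', T c b * T c' a * pd c' (pd c (F θ x)) (T.mulVec z) := by
  rw [QuaG_pdT hT]
  have h1 : ∀ c, ∀ z, AnalyticAt ℂ (fun z : ι → ℂ => pd c (F θ x) (T.mulVec z)) z := by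
    intro c z
    refine GAM.DelR_an GAM.thm_Hol ?_ z
    exact (GAM.DelR_pd_diff (QuaG_an hT x) c).comp
      (LinearMap.toContinuousLinearMap (Matrix.mulVecLin T)).differentiable
  rw [DelX_pd_sum Finset.univ (f := fun c z => T c b * pd c (F θ x) (T.mulVec z))
    (fun c z => analyticAt_const.mul (h1 c z))]
  refine Finset.sum_congr rfl fun c _ => ?_
  rw [DelX_pd_mulc (f := fun z => pd c (F θ x) (T.mulVec z)) (h1 c),
    GAM.DelR_pd_lin T (DelX_pd_an (QuaG_an hT x) c) a]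
  simp only []
  rw [Finset.mul_sum]
  refine Finset.sum_congr rfl fun c' _ => ?_
  ring

/-- **The common part.** -/
theorem QuaG_core (hLin : GAM.St_LinD) {L : Submodule ℤ (ι → ℂ)}
    {χ θ : (ι → ℂ) → ℂ} {T S q : Matrix ι ι ℂ} {y : ι → ℂ} {N r : ℕ}
    {c : Fin (r + 1) → ι → ℂ} {κ : Fin (r + 1) → (ι → ℂ) → ℂ} {M : ℕ}
    {X : Fin (M + 1) → ι → ℂ} (hP : PLat L χ) (hT : IsTh L χ θ) (hn : NormG L θ T S q y)
    (hG : GoodN L θ N) (hL : LinN L θ N r c κ) (hX : ∀ j, (N : ℤ) • X j ∈ L)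
    (hX' : ∀ x, (N : ℤ) • x ∈ L → ∃ j, x - X j ∈ L) {σ : ι → ℂ} (hσ : (N : ℤ) • σ ∈ L)
    (g : (ι → ℂ) → ℂ) (hg : ∀ δ : Derivation ℚ ℂ ℂ, IsDel δ g fun _ => 0)
    (d : Fin (r + 1) → ℂ)
    (hd : ∀ z, g z = ∑ i, d i * (Tg θ T q y (σ + c i) z * Tg θ T q y (σ - c i) z)) :
    ∃ Q : MvPolynomial (Fin (M + 1)) ℂ, Pool.Agent.GPC.IsAlgQuadratic Q ∧
      ∀ z, g z = MvPolynomial.eval (fun k => Tg θ T q y (X k) z) Q := by
  have hN0 : N ≠ 0 := by
    rintro rfl
    exact absurd hG.odd (by decide)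
  have hp : ∀ i, (N : ℤ) • (σ + c i) ∈ L := fun i => by
    rw [smul_add]
    exact L.add_mem hσ (hL.lev i)
  have hm : ∀ i, (N : ℤ) • (σ - c i) ∈ L := fun i => by
    rw [smul_sub]
    exact L.sub_mem hσ (hL.lev i)
  have hR := fun δ : Derivation ℚ ℂ ℂ => GAM.thm_DelR GAM.thm_Hol ι δ
  -- the coefficients are algebraic
  have halg : ∀ i, IsAlgebraic ℚ (d i) := by
    refine hLin ι (Fin (r + 1)) (fun i z => Tg θ T q y (σ + c i) z * Tg θ T q y (σ - c i) z)
      g d ?_ (fun δ i => ?_) hg hd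
    · rw [Fintype.linearIndependent_iff]
      intro t ht
      refine Fintype.linearIndependent_iff.mp (hL.ind σ) t ?_
      funext v
      have hv : T.mulVec (S.mulVec v) = v := by
        rw [Matrix.mulVec_mulVec, hn.ts, Matrix.one_mulVec]
      have h1 := congrFun ht (S.mulVec v)
      rw [Finset.sum_apply] at h1 ⊢
      simp only [Pi.smul_apply, smul_eq_mul, Pi.zero_apply, QuaG_Tg, hv] at h1 ⊢
      have h2 : ∑ i, t i * ((F θ y 0)⁻¹ * (ExpQ_e ((1 / 2 : ℂ) • q) (S.mulVec v) *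
          F θ (σ + c i) v) *
          ((F θ y 0)⁻¹ * (ExpQ_e ((1 / 2 : ℂ) • q) (S.mulVec v) * F θ (σ - c i) v))) =
          ((F θ y 0)⁻¹ * ExpQ_e ((1 / 2 : ℂ) • q) (S.mulVec v)) ^ 2 *
          ∑ i, t i * (F θ (σ + c i) v * F θ (σ - c i) v) := by
        rw [Finset.mul_sum]
        refine Finset.sum_congr rfl fun i _ => ?_
        ring
      rw [h2, mul_eq_zero] at h1
      refine h1.resolve_left ?_
      exact pow_ne_zero 2 (mul_ne_zero (inv_ne_zero hn.ney) (Complex.exp_ne_zero _))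
    · exact GAM.Quad_del_mul (hR δ) (hn.del δ _ ⟨N, hG.odd, hp i⟩)
        (hn.del δ _ ⟨N, hG.odd, hm i⟩)
  -- the functions are multiples of the given ones
  have key : ∀ x, (N : ℤ) • x ∈ L → ∃ (k : Fin (M + 1)) (ω : ℂ), IsAlgebraic ℚ ω ∧
      ∀ z, Tg θ T q y x z = ω * Tg θ T q y (X k) z := by
    intro x hx
    obtain ⟨k, hk⟩ := hX' x hx
    refine ⟨k, _, GAM.Quad_root hP hN0 (hX k) hk, fun z => ?_⟩
    have e : x = X k + (x - X k) := by abel
    rw [QuaG_Tg, QuaG_Tg]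
    have h1 := GAM.F_add_lat hT hk (X k) (T.mulVec z)
    rw [← e] at h1
    simp only []
    rw [h1]
    ring
  choose k1 ω1 hω1 hk1 using fun i => key _ (hp i)
  choose k2 ω2 hω2 hk2 using fun i => key _ (hm i)
  refine ⟨∑ i, MvPolynomial.C (d i * ω1 i * ω2 i) *
    (MvPolynomial.X (k1 i) * MvPolynomial.X (k2 i)),
    GAM.Quad_sum _ _ fun i _ => GAM.Quad_XX _ _ (((halg i).mul (hω1 i)).mul (hω2 i)),
    fun z => ?_⟩
  rw [hd, map_sum]
  refine Finset.sum_congr rfl fun i _ => ?_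
  rw [hk1, hk2]
  simp only [map_mul, MvPolynomial.eval_C, MvPolynomial.eval_X]
  ring

end

theorem thm_QuaG : St_QuaG := by
  intro ι _ _ L χ θ T S q y N r c κ κ₁ κ₂ M X hP hT hne hn hG hLin h1 h2 hX hX'
  have hDR : GAM.St_DelR := GAM.thm_DelR GAM.thm_Hol
  have hLD : GAM.St_LinD := GAM.thm_LinD hDR
  have hR := fun δ : Derivation ℚ ℂ ℂ => hDR ι δ
  constructor
  · intro a i j
    obtain ⟨k, hk⟩ := hG.odd
    set σ : ι → ℂ := ((k + 1 : ℕ) : ℤ) • (X j + X i) with hσd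
    set ρ : ι → ℂ := ((k + 1 : ℕ) : ℤ) • (X j - X i) with hρd
    have hσ : (N : ℤ) • σ ∈ L := by
      rw [hσd, smul_comm]
      refine L.smul_mem _ ?_
      rw [smul_add]
      exact L.add_mem (hX j) (hX i)
    have hN : (N : ℤ) = 2 * k + 1 := by
      rw [hk]
      push_cast
      ring
    have e1 : σ + ρ = X j + (N : ℤ) • X j := by
      rw [hσd, hρd, hN]
      push_cast
      module
    have e2 : σ - ρ = X i + (N : ℤ) • X i := by
      rw [hσd, hρd, hN]
      push_cast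
      module
    have hF : ∀ x, (N : ℤ) • x ∈ L → F θ (x + (N : ℤ) • x) =
        fun v => χ ((N : ℤ) • x) * F θ x v := by
      intro x hx
      funext v
      rw [GAM.F_add_lat hT hx, GAM.E_zsmul_right, GAM.E_self, mul_zero, Complex.ofReal_zero,
        mul_zero, Complex.exp_zero, mul_one]
    have hpF : ∀ c x, (N : ℤ) • x ∈ L → pd c (F θ (x + (N : ℤ) • x)) =
        fun v => χ ((N : ℤ) • x) * pd c (F θ x) v := by
      intro c x hx
      rw [hF x hx]
      funext v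
      exact DelX_pd_mulc (QuaG_an hT x) _ _ _
    have hεj := hP.chi_sq (hX j)
    have hεi := hP.chi_sq (hX i)
    refine QuaG_core hLD hP hT hn hG hLin hX hX' hσ _ (fun δ => ?_)
      (fun l => ∑ c, T c a * (χ ((N : ℤ) • X j) * χ ((N : ℤ) • X i)) * κ₁ c l ρ) fun z => ?_
    · have hdj := hn.del δ (X j) ⟨N, hG.odd, hX j⟩
      have hdi := hn.del δ (X i) ⟨N, hG.odd, hX i⟩
      exact GAM.Quad_del_sub (hR δ) (GAM.Quad_del_mul (hR δ) hdi (GAM.Quad_del_pd (hR δ) a hdj))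
        (GAM.Quad_del_mul (hR δ) hdj (GAM.Quad_del_pd (hR δ) a hdi))
    · set w : ι → ℂ := T.mulVec z with hw
      set ε : ℂ := χ ((N : ℤ) • X j) * χ ((N : ℤ) • X i) with hε
      have hW : ∀ p, F θ (X i) w * pd p (F θ (X j)) w - F θ (X j) w * pd p (F θ (X i)) w =
          ∑ l, ε * κ₁ p l ρ * (F θ (σ + c l) w * F θ (σ - c l) w) := by
        intro p
        have h3 := h1 p σ ρ w
        rw [e1, e2, hF _ (hX j), hF _ (hX i)] at h3
        have h4 := congrFun (hpF p _ (hX j)) w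
        have h5 := congrFun (hpF p _ (hX i)) w
        rw [hF _ (hX j)] at h4
        rw [hF _ (hX i)] at h5
        rw [h4, h5] at h3
        have h6 : ∑ l, ε * κ₁ p l ρ * (F θ (σ + c l) w * F θ (σ - c l) w) =
            ε * ∑ l, κ₁ p l ρ * (F θ (σ + c l) w * F θ (σ - c l) w) := by
          rw [Finset.mul_sum]
          refine Finset.sum_congr rfl fun l _ => ?_
          ring
        rw [h6, ← h3, hε]
        linear_combination (-(F θ (X i) w * pd p (F θ (X j)) w -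
          F θ (X j) w * pd p (F θ (X i)) w)) *
          ((χ ((N : ℤ) • X i) * χ ((N : ℤ) • X i)) * hεj + hεi)
      have hB : ∑ l, (∑ p, T p a * ε * κ₁ p l ρ) *
          (Tg θ T q y (σ + c l) z * Tg θ T q y (σ - c l) z) =
          ((F θ y 0)⁻¹ * ExpQ_e ((1 / 2 : ℂ) • q) z) ^ 2 *
            ∑ p, T p a * ∑ l, ε * κ₁ p l ρ * (F θ (σ + c l) w * F θ (σ - c l) w) := by
        simp only [Finset.mul_sum, Finset.sum_mul, QuaG_Tg]
        rw [Finset.sum_comm]
        refine Finset.sum_congr rfl fun p _ => Finset.sum_congr rfl fun l _ => ?_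
        ring
      rw [hB, Finset.sum_congr rfl fun p _ => by rw [← hW p]]
      simp only [QuaG_Tg]
      rw [QuaG_pd_sm _ _ (QuaG_anT hT T (X j)), QuaG_pd_sm _ _ (QuaG_anT hT T (X i)),
        QuaG_pdT hT, QuaG_pdT hT]
      simp only [mul_sub, Finset.sum_sub_distrib]
      have h7 : ∀ x x' : ι → ℂ, ∑ p, T p a * (F θ x w * pd p (F θ x') w) =
          F θ x w * ∑ p, T p a * pd p (F θ x') w := by
        intro x x'
        rw [Finset.mul_sum]
        refine Finset.sum_congr rfl fun p _ => ?_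
        ring
      rw [h7, h7]
      ring
  · intro a b i
    refine QuaG_core hLD hP hT hn hG hLin hX hX' (hX i) _ (fun δ => ?_)
      (fun l => (((1 / 2 : ℂ) • q) b a + ((1 / 2 : ℂ) • q) a b) * κ l 0 +
        ∑ p, ∑ p', T p b * T p' a * κ₂ p' p l) fun z => ?_
    · have hdi := hn.del δ (X i) ⟨N, hG.odd, hX i⟩
      exact GAM.Quad_del_sub (hR δ)
        (GAM.Quad_del_mul (hR δ) hdi (GAM.Quad_del_pd (hR δ) a (GAM.Quad_del_pd (hR δ) b hdi)))
        (GAM.Quad_del_mul (hR δ) (GAM.Quad_del_pd (hR δ) a hdi) (GAM.Quad_del_pd (hR δ) b hdi))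
    · set w : ι → ℂ := T.mulVec z with hw
      have h3 : F θ (X i) w * F θ (X i) w =
          ∑ l, κ l 0 * (F θ (X i + c l) w * F θ (X i - c l) w) := by
        have h := hLin.lin (X i) 0 w
        rwa [add_zero, sub_zero] at h
      have h4 : ∀ p p', F θ (X i) w * pd p' (pd p (F θ (X i))) w -
          pd p' (F θ (X i)) w * pd p (F θ (X i)) w =
          ∑ l, κ₂ p' p l * (F θ (X i + c l) w * F θ (X i - c l) w) :=
        fun p p' => h2 p' p (X i) w
      have hB : ∑ l, ((((1 / 2 : ℂ) • q) b a + ((1 / 2 : ℂ) • q) a b) * κ l 0 +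
            ∑ p, ∑ p', T p b * T p' a * κ₂ p' p l) *
          (Tg θ T q y (X i + c l) z * Tg θ T q y (X i - c l) z) =
          ((F θ y 0)⁻¹ * ExpQ_e ((1 / 2 : ℂ) • q) z) ^ 2 *
            ((((1 / 2 : ℂ) • q) b a + ((1 / 2 : ℂ) • q) a b) *
              (∑ l, κ l 0 * (F θ (X i + c l) w * F θ (X i - c l) w)) +
              ∑ p, ∑ p', T p b * T p' a *
                ∑ l, κ₂ p' p l * (F θ (X i + c l) w * F θ (X i - c l) w)) := by
        have h8 : ∑ p, ∑ p', T p b * T p' a *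
            ∑ l, κ₂ p' p l * (F θ (X i + c l) w * F θ (X i - c l) w) =
            ∑ l, (∑ p, ∑ p', T p b * T p' a * κ₂ p' p l) *
              (F θ (X i + c l) w * F θ (X i - c l) w) := by
          simp only [Finset.mul_sum, Finset.sum_mul]
          rw [Finset.sum_congr rfl fun p _ => Finset.sum_comm, Finset.sum_comm]
          refine Finset.sum_congr rfl fun l _ => Finset.sum_congr rfl fun p _ =>
            Finset.sum_congr rfl fun p' _ => ?_
          ring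
        rw [h8, Finset.mul_sum Finset.univ _ (((1 / 2 : ℂ) • q) b a + ((1 / 2 : ℂ) • q) a b),
          ← Finset.sum_add_distrib, Finset.mul_sum]
        refine Finset.sum_congr rfl fun l _ => ?_
        simp only [QuaG_Tg]
        ring
      rw [hB, ← h3, Finset.sum_congr rfl fun p _ => Finset.sum_congr rfl fun p' _ => by
        rw [← h4 p p']]
      simp only [QuaG_Tg]
      rw [QuaG_pd2_sm _ _ (QuaG_anT hT T (X i)), QuaG_pd_sm _ _ (QuaG_anT hT T (X i)),
        QuaG_pd_sm _ _ (QuaG_anT hT T (X i))]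
      simp only []
      rw [QuaG_pd2T hT, QuaG_pdT hT, QuaG_pdT hT]
      simp only []
      rw [← hw]
      have h9 : ∑ p, ∑ p', T p b * T p' a * (F θ (X i) w * pd p' (pd p (F θ (X i))) w -
          pd p' (F θ (X i)) w * pd p (F θ (X i)) w) =
          F θ (X i) w * (∑ p, ∑ p', T p b * T p' a * pd p' (pd p (F θ (X i))) w) -
          (∑ p, T p a * pd p (F θ (X i)) w) * (∑ p, T p b * pd p (F θ (X i)) w) := by
        rw [mul_comm (∑ p, T p a * pd p (F θ (X i)) w), Finset.sum_mul_sum, Finset.mul_sum,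
          ← Finset.sum_sub_distrib]
        refine Finset.sum_congr rfl fun p _ => ?_
        rw [Finset.mul_sum, ← Finset.sum_sub_distrib]
        refine Finset.sum_congr rfl fun p' _ => ?_
        ring
      rw [h9]
      ring

end DWY
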