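import Pool.Agent.DWY.StA
import Pool.Agent.PST.UAl
import Pool.Agent.PST.UGr

/-!
# DWY [RhoM]: the embedding of the ball (helper46)
-/

set_option autoImplicit false

namespace DWY

open scoped ComplexConjugate
open PST

private theorem RhoM_vec (w : WX → ℂ) (y : Fin 3 → ℂ) (i : Fin 3) :
    ∑ j, rho w (i, j) * y j = w (i + 2, ()) * y (i + 1) - w (i + 1, ()) * y (i + 2) := by
  unfold rho
  simp only [sub_mul, ite_mul, zero_mul, Finset.sum_sub_distrib, Finset.sum_ite_eq',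
    Finset.mem_univ, if_true]

private theorem RhoM_lag (w : Fin 3 → ℂ) (y : Fin 3 → ℂ) :
    ∑ i, ‖w (i + 2) * y (i + 1) - w (i + 1) * y (i + 2)‖ ^ 2 ≤ (∑ i, ‖w i‖ ^ 2) * ∑ i, ‖y i‖ ^ 2 := by
  have h : ∑ i, ‖w (i + 2) * y (i + 1) - w (i + 1) * y (i + 2)‖ ^ 2 =
      (∑ i, ‖w i‖ ^ 2) * (∑ i, ‖y i‖ ^ 2) - ‖∑ i, y i * conj (w i)‖ ^ 2 := by
    simp only [Fin.sum_univ_three, Complex.sq_norm, Complex.normSq_apply]
    have e0 : (0 : Fin 3) + 1 = 1 := rfl
    have e1 : (0 : Fin 3) + 2 = 2 := rfl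
    have e2 : (1 : Fin 3) + 1 = 2 := rfl
    have e3 : (1 : Fin 3) + 2 = 0 := rfl
    have e4 : (2 : Fin 3) + 1 = 0 := rfl
    have e5 : (2 : Fin 3) + 2 = 1 := rfl
    simp only [e0, e1, e2, e3, e4, e5, Complex.add_re, Complex.add_im, Complex.sub_re,
      Complex.sub_im, Complex.mul_re, Complex.mul_im, Complex.conj_re, Complex.conj_im]
    ring
  rw [h]
  have := sq_nonneg ‖∑ i, y i * conj (w i)‖
  linarith

private theorem RhoM_OmC (ρ : ℝ) (w : WX → ℂ) (hw : w ∈ OmC (Fin 3) Unit ρ) :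
    rho w ∈ OmC (Fin 3) (Fin 3) ρ := by
  intro y
  have h1 : ∑ i, ‖w (i, ())‖ ^ 2 ≤ ρ ^ 2 := by
    have h := hw fun _ => 1
    simpa using h
  simp only [RhoM_vec]
  refine (RhoM_lag (fun i => w (i, ())) y).trans ?_
  exact mul_le_mul_of_nonneg_right h1 (Finset.sum_nonneg fun _ _ => sq_nonneg _)

/-- `(w, 1)` -/
private def RhoM_X (w : Fin 3 → ℂ) : IX → ℂ := fun p => Sum.elim w (fun _ => 1) p.1

/-- `(- y, 0)` -/
private def RhoM_Y (y : Fin 3 → ℂ) : IX → ℂ := fun p => Sum.elim (fun i => -y i) (fun _ => 0) p.1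

private theorem RhoM_gr (w : WX → ℂ) (y : Fin 3 → ℂ) (p : IY) :
    wd (RhoM_X fun i => w (i, ())) (RhoM_Y y) p =
      Sum.elim (fun i => ∑ j, rho w (i, j) * y j) y p.1 := by
  obtain ⟨p, u⟩ := p
  rcases p with i | i
  · simp only [Sum.elim_inl, RhoM_vec]
    unfold wd wdv crs RhoM_X RhoM_Y
    simp only [Sum.elim_inl]
    ring
  · simp only [Sum.elim_inr]
    unfold wd wdv RhoM_X RhoM_Y
    simp only [Sum.elim_inl, Sum.elim_inr]
    ring

private theorem RhoM_Yl (y : Fin 3 → ℂ) (i : Fin 3) (u : Unit) : RhoM_Y y (Sum.inl i, u) = -y i := rfl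

private theorem RhoM_Yr (y : Fin 3 → ℂ) (i u : Unit) : RhoM_Y y (Sum.inr i, u) = 0 := rfl

private theorem RhoM_Xl (w : Fin 3 → ℂ) (i : Fin 3) (u : Unit) : RhoM_X w (Sum.inl i, u) = w i := rfl

private theorem RhoM_Xr (w : Fin 3 → ℂ) (i u : Unit) : RhoM_X w (Sum.inr i, u) = 1 := rfl

private theorem RhoM_mob (h1 : St_WedA) (h2 : St_UE2)
    (g : Matrix (Fin 3 ⊕ Unit) (Fin 3 ⊕ Unit) ℂ) (hg : IsU g) (w : WX → ℂ)
    (hw : w ∈ Om (Fin 3) Unit) (hrw : rho w ∈ Om (Fin 3) (Fin 3)) :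
    mob (e2 g) (rho w) = rho (mob g w) := by
  obtain ⟨hmu, -, -, -, -, -, -, hXX, hadd, hsm, -⟩ := h1
  obtain ⟨-, hu, -⟩ := thm_UAl thm_UGr (Fin 3) Unit Unit g hg w hw
  obtain ⟨-, huE, -⟩ := thm_UAl thm_UGr (Fin 3) (Fin 3) Unit (e2 g) (h2 g hg) (rho w) hrw
  -- the image of `(w, 1)`
  obtain ⟨δ, hδ⟩ : ∃ δ : ℂ, δ = cd g w () () := ⟨_, rfl⟩
  have hdet : (cd g w).det = δ := by
    rw [hδ, Matrix.det_unique]
  have hδ0 : δ ≠ 0 := by
    rw [← hdet]
    exact hu.ne_zero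
  have hmt : mt (mob g w) = (g.toBlocks₁₁ * mt w + g.toBlocks₁₂) * (cd g w)⁻¹ := rfl
  have hW : mt (mob g w) * cd g w = g.toBlocks₁₁ * mt w + g.toBlocks₁₂ := by
    rw [hmt, Matrix.mul_assoc, Matrix.nonsing_inv_mul _ hu, Matrix.mul_one]
  have hW' : ∀ i, mob g w (i, ()) * δ = ∑ s, g (Sum.inl i) (Sum.inl s) * w (s, ()) +
      g (Sum.inl i) (Sum.inr ()) := by
    intro i
    have h := congrFun (congrFun hW i) ()
    rw [Matrix.mul_apply, Matrix.add_apply, Matrix.mul_apply] at h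
    simp only [Finset.univ_unique, Finset.sum_singleton] at h
    rw [hδ]
    exact h
  have hδ' : δ = ∑ s, g (Sum.inr ()) (Sum.inl s) * w (s, ()) + g (Sum.inr ()) (Sum.inr ()) := by
    rw [hδ]
    unfold cd
    rw [Matrix.add_apply, Matrix.mul_apply]
    rfl
  have hX : mu g (RhoM_X fun i => w (i, ())) = δ • RhoM_X fun i => mob g w (i, ()) := by
    funext p
    obtain ⟨p, u⟩ := p
    unfold mu RhoM_X
    rw [Pi.smul_apply, Fintype.sum_sum_type]
    simp only [Finset.univ_unique, Finset.sum_singleton, Sum.elim_inl, Sum.elim_inr, mul_one,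
      smul_eq_mul]
    rcases p with i | i
    · simp only [Sum.elim_inl]
      rw [mul_comm δ, hW' i]
    · simp only [Sum.elim_inr, mul_one]
      rw [hδ']
  -- the image of `(- y, 0)`
  have hY : ∀ y : Fin 3 → ℂ, ∃ (t : ℂ) (z : Fin 3 → ℂ),
      mu g (RhoM_Y y) = t • (RhoM_X fun i => mob g w (i, ())) + RhoM_Y z := by
    intro y
    refine ⟨mu g (RhoM_Y y) (Sum.inr (), ()), fun i => -(mu g (RhoM_Y y) (Sum.inl i, ()) -
      mu g (RhoM_Y y) (Sum.inr (), ()) * mob g w (i, ())), ?_⟩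
    funext p
    obtain ⟨p, u⟩ := p
    obtain rfl : u = () := rfl
    rw [Pi.add_apply, Pi.smul_apply, smul_eq_mul]
    rcases p with i | i
    · rw [RhoM_Yl, RhoM_Xl]
      ring
    · obtain rfl : i = () := rfl
      rw [RhoM_Yr, RhoM_Xr]
      ring
  -- the relation
  have hrel : ∀ y : Fin 3 → ℂ, ∃ z : Fin 3 → ℂ,
      (∀ i, ∑ j, ((e2 g).toBlocks₁₁ * mt (rho w) + (e2 g).toBlocks₁₂) i j * y j =
        ∑ j, rho (mob g w) (i, j) * z j) ∧
      ∀ i, ∑ j, cd (e2 g) (rho w) i j * y j = z i := by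
    intro y
    obtain ⟨t, z, hz⟩ := hY y
    have h3 : mu (e2 g) (wd (RhoM_X fun i => w (i, ())) (RhoM_Y y)) =
        wd (RhoM_X fun i => mob g w (i, ())) (RhoM_Y fun i => δ * z i) := by
      rw [hmu, hX, hz, (hadd _ _ _).2, (hsm _ _ _).2, (hsm _ _ _).1, hXX, smul_zero, smul_zero,
        zero_add, (hsm _ _ _).1, ← (hsm _ _ _).2]
      congr 1
      funext p
      obtain ⟨p, u⟩ := p
      rw [Pi.smul_apply]
      unfold RhoM_Y
      rcases p with i | i
      · simp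
      · simp
    have h4 : ∀ p, ∑ j, (e2 g) p (Sum.inl j) * (∑ s, rho w (j, s) * y s) +
        ∑ j, (e2 g) p (Sum.inr j) * y j =
        Sum.elim (fun i => ∑ j, rho (mob g w) (i, j) * (δ * z j)) (fun i => δ * z i) p := by
      intro p
      have h := congrFun h3 (p, ())
      rw [RhoM_gr (mob g w)] at h
      rw [← h]
      unfold mu
      rw [Fintype.sum_sum_type]
      congr 1
      · refine Finset.sum_congr rfl fun j _ => ?_
        rw [RhoM_gr]
        rfl
      · refine Finset.sum_congr rfl fun j _ => ?_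
        rw [RhoM_gr]
        rfl
    have h5 : ∀ (p : Fin 3 ⊕ Fin 3), ∑ j, (e2 g) p (Sum.inl j) * (∑ s, rho w (j, s) * y s) +
        ∑ j, (e2 g) p (Sum.inr j) * y j =
        ∑ j, ((∑ s, (e2 g) p (Sum.inl s) * rho w (s, j)) + (e2 g) p (Sum.inr j)) * y j := by
      intro p
      simp only [add_mul, Finset.sum_add_distrib, Finset.sum_mul, Finset.mul_sum]
      congr 1
      rw [Finset.sum_comm]
      refine Finset.sum_congr rfl fun j _ => Finset.sum_congr rfl fun s _ => by ring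
    refine ⟨fun i => δ * z i, fun i => ?_, fun i => ?_⟩
    · have h := (h5 (Sum.inl i)).symm.trans (h4 (Sum.inl i))
      rw [Sum.elim_inl] at h
      rw [← h]
      refine Finset.sum_congr rfl fun j _ => ?_
      rw [Matrix.add_apply, Matrix.mul_apply]
      rfl
    · have h := (h5 (Sum.inr i)).symm.trans (h4 (Sum.inr i))
      rw [Sum.elim_inr] at h
      show _ = δ * z i
      rw [← h]
      refine Finset.sum_congr rfl fun j _ => ?_
      unfold cd
      rw [Matrix.add_apply, Matrix.mul_apply]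
      rfl
  have hmat : (e2 g).toBlocks₁₁ * mt (rho w) + (e2 g).toBlocks₁₂ =
      mt (rho (mob g w)) * cd (e2 g) (rho w) := by
    apply Matrix.toLin'.injective
    apply LinearMap.ext
    intro y
    rw [Matrix.toLin'_apply, Matrix.toLin'_apply]
    obtain ⟨z, hz1, hz2⟩ := hrel y
    rw [← Matrix.mulVec_mulVec]
    have e1 : (cd (e2 g) (rho w)).mulVec y = z := by
      funext i
      exact hz2 i
    rw [e1]
    funext i
    exact hz1 i
  have hfin : mt (mob (e2 g) (rho w)) = mt (rho (mob g w)) := by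
    have e1 : mt (mob (e2 g) (rho w)) = ((e2 g).toBlocks₁₁ * mt (rho w) + (e2 g).toBlocks₁₂) *
        (cd (e2 g) (rho w))⁻¹ := rfl
    rw [e1, hmat, Matrix.mul_assoc, Matrix.mul_nonsing_inv _ huE, Matrix.mul_one]
  funext p
  obtain ⟨i, j⟩ := p
  exact congrFun (congrFun hfin i) j

private theorem RhoM_lin : ∃ M : Matrix WY WX ℂ, (∀ i j, IsAlgebraic ℚ (M i j)) ∧
    ∀ w, rho w = M.mulVec w := by
  refine ⟨Matrix.of fun p q => (if p.2 = p.1 + 1 ∧ q.1 = p.1 + 2 then 1 else 0) -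
    (if p.2 = p.1 + 2 ∧ q.1 = p.1 + 1 then 1 else 0), fun p q => ?_, fun w => ?_⟩
  · rw [Matrix.of_apply]
    refine IsAlgebraic.sub ?_ ?_ <;> split_ifs
    · exact isAlgebraic_one
    · exact isAlgebraic_zero
    · exact isAlgebraic_one
    · exact isAlgebraic_zero
  · funext p
    unfold rho Matrix.mulVec dotProduct
    rw [Fintype.sum_prod_type]
    simp only [Finset.univ_unique, Finset.sum_singleton, Matrix.of_apply, sub_mul, ite_mul, one_mul,
      zero_mul, Finset.sum_sub_distrib]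
    congr 1
    · by_cases h : p.2 = p.1 + 1
      · simp only [h, true_and, Finset.sum_ite_eq', Finset.mem_univ, if_true]
      · simp only [h, false_and, if_false, Finset.sum_const_zero]
    · by_cases h : p.2 = p.1 + 2
      · simp only [h, true_and, Finset.sum_ite_eq', Finset.mem_univ, if_true]
      · simp only [h, false_and, if_false, Finset.sum_const_zero]

/-- [RhoM] -/
theorem thm_RhoM (h1 : St_WedA) (h2 : St_UE2) : St_RhoM := by
  have hOm : ∀ w ∈ Om (Fin 3) Unit, rho w ∈ Om (Fin 3) (Fin 3) := by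
    rintro w ⟨ρ, h0, h1, hw⟩
    exact ⟨ρ, h0, h1, RhoM_OmC ρ w hw⟩
  refine ⟨fun ρ _ w hw => RhoM_OmC ρ w hw, hOm, fun g hg w hw => RhoM_mob h1 h2 g hg w hw (hOm w hw), ?_,
    RhoM_lin⟩
  funext p
  unfold rho
  simp

end DWY
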