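import Pool.Agent.DWY.StC

/-!
# DWY [TBet]: the class of the exterior square is rational
-/

set_option autoImplicit false

namespace DWY

open scoped ComplexConjugate
open GAM (H E)
open PST DWC
open Pool.Agent.GPC (AbVar hermForm bilForm)

section gen

variable {α β : Type}

private lemma TBet_sw (x : Ix α β Unit → ℂ) : sw (sw x) = x := by
  funext p
  rcases p with ⟨p | p, u⟩
  · rfl
  · simp [sw]

private lemma TBet_XX (X : AbVar) (T : Matrix (Ix α β Unit) (Fin X.g) ℂ)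
    (S : Matrix (Fin X.g) (Ix α β Unit) ℂ) (v : X.H1)
    (h : ∀ p, cy X S v p = conj (cx X T v p)) : XX X T S v = sw (cx X T v) := by
  funext p
  rcases p with ⟨p | p, u⟩
  · rfl
  · show cy X S v (Sum.inr p, u) = conj (cx X T v (Sum.inr p, u))
    exact h _

private lemma TBet_XT (X : AbVar) (T : Matrix (Ix α β Unit) (Fin X.g) ℂ)
    (S : Matrix (Fin X.g) (Ix α β Unit) ℂ) (v : X.H1)
    (h : ∀ p, cy X S v p = conj (cx X T v p)) :
    XT X T S v = fun p => conj (sw (cx X T v) p) := by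
  funext p
  rcases p with ⟨p | p, u⟩
  · show cy X S v (Sum.inl p, u) = conj (cx X T v (Sum.inl p, u))
    exact h _
  · show cx X T v (Sum.inr p, u) = conj (conj (cx X T v (Sum.inr p, u)))
    rw [Complex.conj_conj]

private lemma TBet_act [Fintype α] [Fintype β] [DecidableEq α] [DecidableEq β] (d : ℚ) (N : ℕ) (x : Ix α β Unit → ℂ) :
    act (kap α β d N) x = sw (fun p => ((N : ℂ) * zd d) * sw x p) := by
  unfold act
  congr 1
  funext p
  show ∑ q, kap α β d N p.1 q * sw x (q, p.2) = _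
  rw [Finset.sum_eq_single p.1]
  · simp [kap]
  · intro q _ hq
    simp [kap, Matrix.one_apply_ne (Ne.symm hq)]
  · intro h
    exact absurd (Finset.mem_univ _) h

end gen

private lemma TBet_wdc (X Y : IX → ℂ) :
    wd (fun p => conj (X p)) (fun p => conj (Y p)) = fun p => conj (wd X Y p) := by
  funext p
  rcases p with ⟨p | p, u⟩ <;>
    simp only [wd, wdv, crs, Sum.elim_inl, Sum.elim_inr, map_sub, map_mul]

private lemma TBet_blc (P Q : IY → ℂ) :
    bl (fun p => conj (P p)) (fun p => conj (Q p)) = conj (bl P Q) := by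
  simp only [bl, map_sub, map_sum, map_mul]

private lemma TBet_blc' (P Q : IY → ℂ) :
    bl (fun p => conj (P p)) Q = conj (bl P (fun p => conj (Q p))) := by
  rw [← TBet_blc]
  simp only [Complex.conj_conj]

private lemma TBet_bls (c : ℂ) (P Q : IY → ℂ) : c * bl P Q = bl (fun p => c * P p) Q := by
  simp only [bl, mul_sub, Finset.mul_sum, mul_assoc]

private lemma TBet_E (y x : IY → ℂ) : (bl (sw y) (fun p => conj (sw x p))).im = E y x := by
  unfold E H bl
  rw [Fintype.sum_prod_type, Fintype.sum_sum_type]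
  simp only [Finset.univ_unique, Finset.sum_singleton, PUnit.default_eq_unit, sw, Sum.elim_inl,
    Sum.elim_inr, Complex.conj_conj, Complex.sub_im, Complex.add_im, Complex.im_sum]
  rw [sub_eq_add_neg, ← Finset.sum_neg_distrib]
  congr 1
  refine Finset.sum_congr rfl (fun i _ => ?_)
  simp only [Complex.mul_im, Complex.conj_re, Complex.conj_im]
  ring

private lemma TBet_im (h : ℂ) : Complex.I * h - Complex.I * conj h = ((-2 * h.im : ℝ) : ℂ) := by
  apply Complex.ext
  · simp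
    ring
  · simp

theorem thm_TBet (h1 : St_CxA) (h2 : St_WedA) : St_TBet := by
  intro d m N M X Y Z T S Tp Tm Ta Tb κ L T' S' Ta' Tb' LY T'' S'' Ta'' Tb'' LZ hD u v w l hu hv
    hw hl
  obtain ⟨-, -, -, -, -, bX, -⟩ := h1 X d (Fin 3) Unit T S Tp Tm Ta Tb κ L hD.nx
  obtain ⟨-, -, -, -, -, bY, -⟩ := h1 Y d (Fin 3) (Fin 3) T' S' _ _ Ta' Tb' _ LY hD.ny
  obtain ⟨-, -, -, -, -, bZ, -⟩ := h1 Z d Empty Unit T'' S'' _ _ Ta'' Tb'' _ LZ hD.nz
  obtain ⟨cu, nu, nu0, lu⟩ := (bX u).1 hu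
  obtain ⟨cv, nv, nv0, lv⟩ := (bX v).1 hv
  obtain ⟨cw, nw, nw0, lw⟩ := (bY w).1 hw
  obtain ⟨cl, nl, nl0, ll⟩ := (bZ l).1 hl
  obtain ⟨a, b, hab⟩ := (hD.lz _).1 ll
  obtain ⟨N', hN', kl⟩ := hD.ny.kl
  set xu := cx X T u with hxu
  set xv := cx X T v with hxv
  set xw := cx Y T' w with hxw
  set e := cx Z T'' l (Sum.inr (), ()) with he
  have hN : (N : ℝ) ≠ 0 := fun h => hD.cms.s0 (by rw [h, zero_mul])
  -- the scalar
  have hsc : (nl : ℂ) * conj e = (d4 d : ℂ) * ((a (Sum.inr ()) : ℂ) + (b (Sum.inr ()) : ℂ) * zd d) := by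
    have h3 := congrFun hab (Sum.inr (), ())
    have h4 : (nl : ℂ) * e = conj ((d4 d : ℂ) * ((a (Sum.inr ()) : ℂ) +
        (b (Sum.inr ()) : ℂ) * zd d)) := by
      have h5 : ((nl : ℤ) • cx Z T'' l) (Sum.inr (), ()) = (nl : ℂ) * e := by
        rw [Pi.smul_apply, zsmul_eq_mul, Int.cast_natCast]
      rw [← h5, h3]
      simp [sw]
    have h6 := congrArg conj h4
    rw [Complex.conj_conj, map_mul, map_natCast] at h6
    exact h6
  -- the vector
  obtain ⟨W, hW⟩ : ∃ W, W = we xu xv := ⟨_, rfl⟩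
  obtain ⟨W', hW'⟩ : ∃ W' : IY → ℂ, W' = fun p => ((N : ℂ) * (d4 d : ℂ) * nu * nv) * W p := ⟨_, rfl⟩
  have hW'm : W' ∈ LY := by
    have h3 := hD.cms.into _ lu _ lv
    have h4 : ((((N : ℝ) * d4 d : ℝ) : ℂ) • we ((nu : ℤ) • xu) ((nv : ℤ) • xv)) = W' := by
      have h5 : ((nu : ℤ) • xu : IX → ℂ) = ((nu : ℝ) : ℂ) • xu := by
        funext p
        rw [Pi.smul_apply, Pi.smul_apply, zsmul_eq_mul, Int.cast_natCast, Complex.ofReal_natCast,
          smul_eq_mul]
      have h6 : ((nv : ℤ) • xv : IX → ℂ) = ((nv : ℝ) : ℂ) • xv := by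
        funext p
        rw [Pi.smul_apply, Pi.smul_apply, zsmul_eq_mul, Int.cast_natCast, Complex.ofReal_natCast,
          smul_eq_mul]
      obtain ⟨-, -, -, -, -, -, hr, -⟩ := h2
      rw [h5, h6, (hr _ _ _).1, (hr _ _ _).2, hW', ← hW]
      funext p
      simp only [Pi.smul_apply, smul_eq_mul]
      push_cast
      ring
    rw [h4] at h3
    exact h3
  obtain ⟨y, hy⟩ : ∃ y : IY → ℂ, y = sw (fun p => conj e * sw W p) := ⟨_, rfl⟩
  obtain ⟨D, hDd⟩ : ∃ D : ℕ, D = N' * nl * N * nu * nv := ⟨_, rfl⟩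
  have hD0 : D ≠ 0 := by
    rw [hDd]
    have : N ≠ 0 := fun h => hN (by rw [h]; simp)
    positivity
  have hym : (fun p => (D : ℂ) * y p) ∈ LY := by
    have h3 : ((N' : ℤ) * a (Sum.inr ())) • W' + (b (Sum.inr ())) • act (kap (Fin 3) (Fin 3) d N') W'
        ∈ LY := LY.add_mem (LY.smul_mem _ hW'm) (LY.smul_mem _ (kl _ hW'm))
    have h4 : ((N' : ℤ) * a (Sum.inr ())) • W' +
        (b (Sum.inr ())) • act (kap (Fin 3) (Fin 3) d N') W' = fun p => (D : ℂ) * y p := by
      rw [TBet_act]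
      have hsc' := congrArg conj hsc
      simp only [map_mul, map_add, Complex.conj_conj, map_natCast, map_intCast,
        Complex.conj_ofReal] at hsc'
      funext p
      rcases p with ⟨p | p, s⟩
      · rw [Pi.add_apply, Pi.smul_apply, Pi.smul_apply, zsmul_eq_mul, zsmul_eq_mul]
        simp only [sw, Sum.elim_inl, hy, hW', hDd]
        push_cast
        linear_combination (-(N' : ℂ) * N * nu * nv * W (Sum.inl p, s)) * hsc
      · rw [Pi.add_apply, Pi.smul_apply, Pi.smul_apply, zsmul_eq_mul, zsmul_eq_mul]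
        simp only [sw, Sum.elim_inr, hy, hW', hDd, map_mul, Complex.conj_conj, map_natCast,
          Complex.conj_ofReal]
        push_cast
        linear_combination (-(N' : ℂ) * N * nu * nv * W (Sum.inr p, s)) * hsc'
    rw [h4] at h3
    exact h3
  obtain ⟨k, hk⟩ := hD.intY _ hym _ lw
  have hk2 : (D : ℝ) * nw * E y xw = k := by
    rw [← hk]
    unfold E
    have h3 : (fun p => (D : ℂ) * y p) = (D : ℂ) • y := by
      funext p
      rfl
    have h4 : ((nw : ℤ) • xw : IY → ℂ) = (nw : ℂ) • xw := by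
      funext p
      rw [Pi.smul_apply, Pi.smul_apply, zsmul_eq_mul, Int.cast_natCast, smul_eq_mul]
    rw [h3, h4, GAM.H_smul_left, GAM.H_smul_right, map_natCast]
    simp
    ring
  -- the class
  have hT : Tcl X Y Z T S T' S' T'' S'' u v w l =
      (2 * Real.pi * Complex.I) ^ 2 * ((-2 * E y xw : ℝ) : ℂ) := by
    unfold Tcl
    rw [TBet_XX X T S u cu, TBet_XX X T S v cv, TBet_XX Y T' S' w cw, TBet_XT X T S u cu,
      TBet_XT X T S v cv, TBet_XT Y T' S' w cw, ← hxu, ← hxv, ← hxw, TBet_wdc, TBet_blc', cl, ← he]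
    have hA : wd (sw xu) (sw xv) = sw W := by
      rw [hW]
      unfold we
      rw [TBet_sw]
    rw [hA]
    have h3 : conj e * bl (sw W) (fun p => conj (sw xw p)) =
        bl (sw y) (fun p => conj (sw xw p)) := by
      rw [TBet_bls, hy, TBet_sw]
    have h4 : e * conj (bl (sw W) (fun p => conj (sw xw p))) =
        conj (conj e * bl (sw W) (fun p => conj (sw xw p))) := by
      rw [map_mul, Complex.conj_conj]
    rw [h4, h3, TBet_im, TBet_E]
  refine ⟨-2 * (k : ℚ) / (D * nw), ?_⟩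
  rw [hT]
  congr 1
  have hD1 : (D : ℝ) ≠ 0 := Nat.cast_ne_zero.2 hD0
  have hn1 : (nw : ℝ) ≠ 0 := Nat.cast_ne_zero.2 nw0
  have h5 : (-2 * E y xw : ℝ) = -2 * (k : ℝ) / (D * nw) := by
    rw [← hk2]
    field_simp
  rw [h5]
  push_cast
  ring

end DWY
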