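import Pool.Agent.DWY.StC

/-!
# DWY [THod]: the class of the exterior square is a Hodge class
-/

set_option autoImplicit false

namespace DWY

open scoped ComplexConjugate
open PST DWC
open Pool.Agent.GPC (AbVar hermForm bilForm)

/-- both `cx` vanish: the exterior product of the `XX` is zero -/
private theorem THod_a (P Q : IX → ℂ) (hP : ∀ i : Fin 3, P (Sum.inl i, ()) = 0)
    (hQ : ∀ i : Fin 3, Q (Sum.inl i, ()) = 0) : wd P Q = 0 := by
  funext p
  obtain ⟨s, u⟩ := p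
  cases s with
  | inl i => simp [wd, wdv, crs, hP]
  | inr i => simp [wd, wdv, hP, hQ]

private theorem THod_b (P Q : IX → ℂ) (hP : P (Sum.inr (), ()) = 0) (hQ : Q (Sum.inr (), ()) = 0)
    (i : Fin 3) : wd P Q (Sum.inr i, ()) = 0 := by
  simp [wd, wdv, hP, hQ]

private theorem THod_c (P Q : IX → ℂ) (hP : ∀ i : Fin 3, P (Sum.inl i, ()) = 0)
    (i : Fin 3) : wd P Q (Sum.inl i, ()) = 0 := by
  simp [wd, wdv, crs, hP]

private theorem THod_bl0 (Q : IY → ℂ) : bl 0 Q = 0 := by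
  simp [bl]

theorem thm_THod (h : St_CxA) : St_THod := by
  intro d m N M X Y Z T S Tp Tm Ta Tb κ L T' S' Ta' Tb' LY T'' S'' Ta'' Tb'' LZ hY u v w l hfil
  have hX := (h X d (Fin 3) Unit T S Tp Tm Ta Tb κ L hY.nx).2.2.2.2.1
  have hYY := (h Y d (Fin 3) (Fin 3) T' S' _ _ Ta' Tb' _ LY hY.ny).2.2.2.2.1
  have hZ := (h Z d Empty Unit T'' S'' _ _ Ta'' Tb'' _ LZ hY.nz).2.2.2.2.1
  -- consequences
  have x1 : ∀ u, X.IsFil u → ∀ i : Fin 3, XX X T S u (Sum.inl i, ()) = 0 := by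
    intro u hu i
    have e := congrFun ((hX u).1 hu) (Sum.inl i, ())
    simpa [XX] using e
  have x2 : ∀ u, X.IsFil u → XT X T S u (Sum.inr (), ()) = 0 := by
    intro u hu
    have e := congrFun ((hX u).1 hu) (Sum.inr (), ())
    simpa [XT] using e
  have y1 : ∀ w, Y.IsFil w → ∀ i : Fin 3, XX Y T' S' w (Sum.inl i, ()) = 0 := by
    intro w hw i
    have e := congrFun ((hYY w).1 hw) (Sum.inl i, ())
    simpa [XX] using e
  have y2 : ∀ w, Y.IsFil w → ∀ i : Fin 3, XT Y T' S' w (Sum.inr i, ()) = 0 := by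
    intro w hw i
    have e := congrFun ((hYY w).1 hw) (Sum.inr i, ())
    simpa [XT] using e
  have z1 : ∀ l, Z.IsFil l → cx Z T'' l (Sum.inr (), ()) = 0 := by
    intro l hl
    have e := congrFun ((hZ l).1 hl) (Sum.inr (), ())
    simpa using e
  unfold Tcl
  rcases hfil with ⟨hu, hv, hw⟩ | ⟨hu, hv, hl⟩ | ⟨hu, hw, hl⟩
  · have e1 : wd (XX X T S u) (XX X T S v) = 0 := THod_a _ _ (x1 u hu) (x1 v hv)
    have e2 : bl (wd (XT X T S u) (XT X T S v)) (XX Y T' S' w) = 0 := by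
      unfold bl
      simp only [THod_b _ _ (x2 u hu) (x2 v hv), y1 w hw, mul_zero, zero_mul,
        Finset.sum_const_zero, sub_zero]
    rw [e1, THod_bl0, e2]
    ring
  · have e1 : wd (XX X T S u) (XX X T S v) = 0 := THod_a _ _ (x1 u hu) (x1 v hv)
    rw [e1, THod_bl0, z1 l hl]
    ring
  · have e2 : bl (wd (XX X T S u) (XX X T S v)) (XT Y T' S' w) = 0 := by
      unfold bl
      simp only [THod_c _ _ (x1 u hu), y2 w hw, mul_zero, zero_mul,
        Finset.sum_const_zero, sub_zero]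
    rw [e2, z1 l hl]
    ring

end DWY
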