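import Pool.Agent.DWY.StC

/-!
# DWY [TdR]: the class of the exterior square is algebraic on de Rham vectors
-/

set_option autoImplicit false

namespace DWY

open scoped ComplexConjugate
open PST DWC
open Pool.Agent.GPC (AbVar hermForm bilForm)

private lemma TdR_01 : (0 : Fin 3) + 1 = 1 := rfl
private lemma TdR_11 : (1 : Fin 3) + 1 = 2 := rfl
private lemma TdR_21 : (2 : Fin 3) + 1 = 0 := rfl
private lemma TdR_02 : (0 : Fin 3) + 2 = 2 := rfl
private lemma TdR_12 : (1 : Fin 3) + 2 = 0 := rfl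
private lemma TdR_22 : (2 : Fin 3) + 2 = 1 := rfl

/-- the cofactor identity -/
private lemma TdR_cof (P : Matrix (Fin 3) (Fin 3) ℂ) (x y : Fin 3 → ℂ) :
    P.transpose.mulVec (crs (P.mulVec x) (P.mulVec y)) = P.det • crs x y := by
  funext i
  rw [Matrix.det_fin_three]
  fin_cases i <;>
    simp only [crs, Matrix.mulVec, dotProduct, Matrix.transpose_apply, Fin.sum_univ_three,
      Pi.smul_apply, smul_eq_mul, Fin.zero_eta, Fin.mk_one, Fin.reduceFinMk, TdR_01,
      TdR_11, TdR_21, TdR_02, TdR_12, TdR_22] <;>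
    ring

/-- cross products and the transposed inverse -/
private lemma TdR_crs {P Q : Matrix (Fin 3) (Fin 3) ℂ} (h : P.transpose * Q = 1)
    (x y : Fin 3 → ℂ) : crs (P.mulVec x) (P.mulVec y) = P.det • Q.mulVec (crs x y) := by
  have h2 : Q * P.transpose = 1 := mul_eq_one_comm.1 h
  calc crs (P.mulVec x) (P.mulVec y)
      = (Q * P.transpose).mulVec (crs (P.mulVec x) (P.mulVec y)) := by
        rw [h2, Matrix.one_mulVec]
    _ = Q.mulVec (P.transpose.mulVec (crs (P.mulVec x) (P.mulVec y))) := by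
        rw [Matrix.mulVec_mulVec]
    _ = P.det • Q.mulVec (crs x y) := by
        rw [TdR_cof, Matrix.mulVec_smul]

private lemma TdR_dot {P Q : Matrix (Fin 3) (Fin 3) ℂ} (h : P.transpose * Q = 1)
    (a b : Fin 3 → ℂ) : ∑ i, Q.mulVec a i * P.mulVec b i = ∑ i, a i * b i := by
  have e : ∑ i, Q.mulVec a i * P.mulVec b i = (P.mulVec b) ⬝ᵥ (Q.mulVec a) := by
    simp only [dotProduct]
    exact Finset.sum_congr rfl fun i _ => mul_comm _ _
  rw [e, Matrix.dotProduct_mulVec, ← Matrix.mulVec_transpose, Matrix.mulVec_mulVec]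
  have h2 : Q.transpose * P = 1 := by
    have := congrArg Matrix.transpose h
    rwa [Matrix.transpose_mul, Matrix.transpose_transpose, Matrix.transpose_one] at this
  rw [h2, Matrix.one_mulVec]
  simp only [dotProduct]
  exact Finset.sum_congr rfl fun i _ => mul_comm _ _

/-! ## blocks -/

set_option linter.unusedSectionVars false

section blocks

variable {α β : Type} [Fintype α] [Fintype β] [DecidableEq α] [DecidableEq β]

private lemma TdR_blk_inl (A : Matrix α α ℂ) (B : Matrix β β ℂ) (x : Ix α β Unit → ℂ) (i : α) :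
    (blk Unit A B).mulVec x (Sum.inl i, ()) = ∑ j, A i j * x (Sum.inl j, ()) := by
  simp [Matrix.mulVec, dotProduct, blk, Fintype.sum_prod_type, Fintype.sum_sum_type]

private lemma TdR_blk_inr (A : Matrix α α ℂ) (B : Matrix β β ℂ) (x : Ix α β Unit → ℂ) (i : β) :
    (blk Unit A B).mulVec x (Sum.inr i, ()) = ∑ j, B i j * x (Sum.inr j, ()) := by
  simp [Matrix.mulVec, dotProduct, blk, Fintype.sum_prod_type, Fintype.sum_sum_type]

private lemma TdR_blkT_inl (A : Matrix α α ℂ) (B : Matrix β β ℂ) (x : Ix α β Unit → ℂ) (i : α) :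
    (blk Unit A B).transpose.mulVec x (Sum.inl i, ()) =
      ∑ j, A.transpose i j * x (Sum.inl j, ()) := by
  simp [Matrix.mulVec, dotProduct, blk, Fintype.sum_prod_type, Fintype.sum_sum_type]

private lemma TdR_blkT_inr (A : Matrix α α ℂ) (B : Matrix β β ℂ) (x : Ix α β Unit → ℂ) (i : β) :
    (blk Unit A B).transpose.mulVec x (Sum.inr i, ()) =
      ∑ j, B.transpose i j * x (Sum.inr j, ()) := by
  simp [Matrix.mulVec, dotProduct, blk, Fintype.sum_prod_type, Fintype.sum_sum_type]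

private lemma TdR_qb_inl (κ : Matrix α β ℂ) (x : Ix α β Unit → ℂ) (i : α) :
    (qb κ).mulVec x (Sum.inl i, ()) = ∑ j, κ i j * x (Sum.inr j, ()) := by
  simp [Matrix.mulVec, dotProduct, qb, Fintype.sum_prod_type, Fintype.sum_sum_type]

private lemma TdR_qb_inr (κ : Matrix α β ℂ) (x : Ix α β Unit → ℂ) (i : β) :
    (qb κ).mulVec x (Sum.inr i, ()) = ∑ j, κ j i * x (Sum.inl j, ()) := by
  simp [Matrix.mulVec, dotProduct, qb, Fintype.sum_prod_type, Fintype.sum_sum_type]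

end blocks

/-- the first product -/
private lemma TdR_B1 {P Q : Matrix (Fin 3) (Fin 3) ℂ} (h : P.transpose * Q = 1)
    (zu zv k zY eY : Fin 3 → ℂ) (eu ev c c2 c3 : ℂ) (U V : IX → ℂ) (W : IY → ℂ)
    (hU : ∀ i, U (Sum.inl i, ()) = P.mulVec zu i)
    (hU' : U (Sum.inr (), ()) = c * (eu - ∑ j, k j * zu j))
    (hV : ∀ i, V (Sum.inl i, ()) = P.mulVec zv i)
    (hV' : V (Sum.inr (), ()) = c * (ev - ∑ j, k j * zv j))
    (hW : ∀ i, W (Sum.inl i, ()) = c2 * P.mulVec (fun j => eY j - crs zY k j) i)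
    (hW' : ∀ i, W (Sum.inr i, ()) = c3 * Q.mulVec zY i) (hc : c2 * P.det = c3 * c) :
    bl (wd U V) W = c3 * c * (∑ i, crs zu zv i * eY i - (ev * ∑ i, zu i * zY i -
      eu * ∑ i, zv i * zY i)) := by
  have e1 : ∀ i : Fin 3, wd U V (Sum.inl i, ()) * W (Sum.inl i, ()) =
      c2 * P.det * (Q.mulVec (crs zu zv) i * P.mulVec (fun j => eY j - crs zY k j) i) := by
    intro i
    have e2 : wd U V (Sum.inl i, ()) = crs (P.mulVec zu) (P.mulVec zv) i := by
      simp only [wd, wdv, Sum.elim_inl]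
      congr 1
      · funext j
        exact hU j
      · funext j
        exact hV j
    rw [e2, TdR_crs h, hW, Pi.smul_apply, smul_eq_mul]
    ring
  have e2 : ∀ i : Fin 3, wd U V (Sum.inr i, ()) * W (Sum.inr i, ()) =
      c3 * c * ((ev - ∑ j, k j * zv j) * (Q.mulVec zY i * P.mulVec zu i) -
        (eu - ∑ j, k j * zu j) * (Q.mulVec zY i * P.mulVec zv i)) := by
    intro i
    have e3 : wd U V (Sum.inr i, ()) = U (Sum.inl i, ()) * V (Sum.inr (), ()) -
        V (Sum.inl i, ()) * U (Sum.inr (), ()) := rfl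
    rw [e3, hU, hV, hU', hV', hW']
    ring
  rw [bl, Finset.sum_congr rfl fun i _ => e1 i, Finset.sum_congr rfl fun i _ => e2 i,
    ← Finset.mul_sum, ← Finset.mul_sum, Finset.sum_sub_distrib, ← Finset.mul_sum,
    ← Finset.mul_sum, TdR_dot h, TdR_dot h, TdR_dot h, hc]
  simp only [crs, Fin.sum_univ_three, TdR_01, TdR_11, TdR_21, TdR_02, TdR_12, TdR_22]
  ring

/-- the second product -/
private lemma TdR_B2 {P Q : Matrix (Fin 3) (Fin 3) ℂ} (h : P.transpose * Q = 1)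
    (eu ev k zY eY : Fin 3 → ℂ) (zu zv c c1 c2 c3 : ℂ) (U V : IX → ℂ) (W : IY → ℂ)
    (hU : ∀ i, U (Sum.inl i, ()) = c1 * Q.mulVec (fun j => eu j - k j * zu) i)
    (hU' : U (Sum.inr (), ()) = c * zu)
    (hV : ∀ i, V (Sum.inl i, ()) = c1 * Q.mulVec (fun j => ev j - k j * zv) i)
    (hV' : V (Sum.inr (), ()) = c * zv)
    (hW : ∀ i, W (Sum.inl i, ()) = c2 * Q.mulVec zY i)
    (hW' : ∀ i, W (Sum.inr i, ()) = c3 * P.mulVec (fun j => eY j - crs k zY j) i)
    (hc : c1 * Q.det * c2 = c3 * c) :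
    bl (wd U V) W = c1 * c3 * c * ((∑ i, crs eu ev i * zY i) -
      (zv * ∑ i, eu i * eY i - zu * ∑ i, ev i * eY i)) := by
  have h' : Q.transpose * P = 1 := by
    have := congrArg Matrix.transpose h
    rwa [Matrix.transpose_mul, Matrix.transpose_transpose, Matrix.transpose_one] at this
  have e1 : ∀ i : Fin 3, wd U V (Sum.inl i, ()) * W (Sum.inl i, ()) =
      c1 * (c1 * Q.det * c2) * (P.mulVec (crs (fun j => eu j - k j * zu)
        (fun j => ev j - k j * zv)) i * Q.mulVec zY i) := by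
    intro i
    have e2 : wd U V (Sum.inl i, ()) = c1 * (c1 * crs (Q.mulVec fun j => eu j - k j * zu)
        (Q.mulVec fun j => ev j - k j * zv) i) := by
      simp only [wd, wdv, Sum.elim_inl, crs, hU, hV]
      ring
    rw [e2, TdR_crs h', hW, Pi.smul_apply, smul_eq_mul]
    ring
  have e2 : ∀ i : Fin 3, wd U V (Sum.inr i, ()) * W (Sum.inr i, ()) =
      c1 * (c3 * c) * (zv * (Q.mulVec (fun j => eu j - k j * zu) i *
        P.mulVec (fun j => eY j - crs k zY j) i) - zu * (Q.mulVec (fun j => ev j - k j * zv) i *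
        P.mulVec (fun j => eY j - crs k zY j) i)) := by
    intro i
    have e3 : wd U V (Sum.inr i, ()) = U (Sum.inl i, ()) * V (Sum.inr (), ()) -
        V (Sum.inl i, ()) * U (Sum.inr (), ()) := rfl
    rw [e3, hU, hV, hU', hV', hW']
    ring
  rw [bl, Finset.sum_congr rfl fun i _ => e1 i, Finset.sum_congr rfl fun i _ => e2 i,
    ← Finset.mul_sum, ← Finset.mul_sum, Finset.sum_sub_distrib, ← Finset.mul_sum,
    ← Finset.mul_sum, TdR_dot h', TdR_dot h, TdR_dot h, hc]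
  simp only [crs, Fin.sum_univ_three, TdR_01, TdR_11, TdR_21, TdR_02, TdR_12, TdR_22]
  ring

/-! ## algebraic numbers -/

private lemma TdR_mem {x : ℂ} : x ∈ algebraicClosure ℚ ℂ ↔ IsAlgebraic ℚ x :=
  mem_algebraicClosure_iff

private lemma TdR_I : IsAlgebraic ℚ Complex.I :=
  (IsIntegral.of_pow (n := 4) (by norm_num) (by
    rw [Complex.I_pow_four]
    exact isIntegral_one)).isAlgebraic

private lemma TdR_algSum {x y : Fin 3 → ℂ} (hx : ∀ i, IsAlgebraic ℚ (x i))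
    (hy : ∀ i, IsAlgebraic ℚ (y i)) : IsAlgebraic ℚ (∑ i, x i * y i) := by
  rw [← TdR_mem]
  exact sum_mem fun i _ => mul_mem (TdR_mem.2 (hx i)) (TdR_mem.2 (hy i))

private lemma TdR_algCrs {x y : Fin 3 → ℂ} (hx : ∀ i, IsAlgebraic ℚ (x i))
    (hy : ∀ i, IsAlgebraic ℚ (y i)) (i : Fin 3) : IsAlgebraic ℚ (crs x y i) := by
  rw [← TdR_mem]
  exact sub_mem (mul_mem (TdR_mem.2 (hx _)) (TdR_mem.2 (hy _)))
    (mul_mem (TdR_mem.2 (hx _)) (TdR_mem.2 (hy _)))

/-! ## the theorem -/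

private lemma TdR_unit (A : Matrix Unit Unit ℂ) : A⁻¹ () () = (A () ())⁻¹ := by
  rw [Matrix.inv_def, Matrix.adjugate_subsingleton, Matrix.det_unique, Ring.inverse_eq_inv',
    Matrix.smul_apply, Matrix.one_apply_eq, smul_eq_mul, mul_one]

private lemma TdR_kY1 (κ : Matrix (Fin 3) Unit ℂ) (z : Fin 3 → ℂ) (j : Fin 3) :
    ∑ l, kY κ j l * z l = crs z (fun i => κ i ()) j := by
  fin_cases j <;>
    simp only [kY, Matrix.of_apply, crs, Fin.sum_univ_three, Fin.zero_eta, Fin.mk_one,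
      Fin.reduceFinMk, TdR_01, TdR_11, TdR_21, TdR_02, TdR_12, TdR_22, Pi.single_apply] <;>
    simp <;> ring

private lemma TdR_kY2 (κ : Matrix (Fin 3) Unit ℂ) (z : Fin 3 → ℂ) (j : Fin 3) :
    ∑ l, kY κ l j * z l = crs (fun i => κ i ()) z j := by
  fin_cases j <;>
    simp only [kY, Matrix.of_apply, crs, Fin.sum_univ_three, Fin.zero_eta, Fin.mk_one,
      Fin.reduceFinMk, TdR_01, TdR_11, TdR_21, TdR_02, TdR_12, TdR_22, Pi.single_apply] <;>
    simp <;> ring

theorem thm_TdR (h : St_CxA) : St_TdR := by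
  intro d m N M X Y Z T S Tp Tm Ta Tb κ L T' S' Ta' Tb' LY T'' S'' Ta'' Tb'' LZ hY
    u v w l hu hv hw hl
  have hX := (h X d (Fin 3) Unit T S Tp Tm Ta Tb κ L hY.nx).2.2.2.2.2.2
  have hYY := (h Y d (Fin 3) (Fin 3) T' S' _ _ Ta' Tb' _ LY hY.ny).2.2.2.2.2.2
  have hZ := (h Z d Empty Unit T'' S'' _ _ Ta'' Tb'' _ LZ hY.nz).2.2.2.2.2.2
  have hm := hY.m0
  have hD : Tp.det ≠ 0 := hY.nx.dp
  have ht : Tm () () ≠ 0 := by
    have := hY.nx.dm
    rwa [Matrix.det_unique] at this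
  have hπ : (Real.pi : ℂ) ≠ 0 := Complex.ofReal_ne_zero.2 Real.pi_ne_zero
  have hPQ : Tp.transpose * (Tp⁻¹).transpose = 1 := by
    rw [← Matrix.transpose_mul, Matrix.nonsing_inv_mul _ (isUnit_iff_ne_zero.2 hD),
      Matrix.transpose_one]
  have hQP : (Tp⁻¹).transpose * Tp.transpose = 1 := mul_eq_one_comm.1 hPQ
  have hQd : ((Tp⁻¹).transpose).det = (Tp.det)⁻¹ := by
    rw [Matrix.det_transpose, Matrix.det_nonsing_inv, Ring.inverse_eq_inv']
  -- the fourfold
  have kX : ∀ u, X.IsDeRham u → ∃ (z e : Fin 3 → ℂ) (zm em : ℂ), (∀ i, IsAlgebraic ℚ (z i)) ∧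
      (∀ i, IsAlgebraic ℚ (e i)) ∧ IsAlgebraic ℚ zm ∧ IsAlgebraic ℚ em ∧
      (∀ i, XX X T S u (Sum.inl i, ()) = Tp.mulVec z i) ∧
      XX X T S u (Sum.inr (), ()) = 1 / Real.pi * (Tm () ())⁻¹ * (em - ∑ j, κ j () * z j) ∧
      (∀ i, XT X T S u (Sum.inl i, ()) =
        1 / Real.pi * (Tp⁻¹).transpose.mulVec (fun j => e j - κ j () * zm) i) ∧
      XT X T S u (Sum.inr (), ()) = Tm () () * zm := by
    intro u hu
    obtain ⟨ζ, η, hζ, hη, hcx, hcy⟩ := (hX u).1 hu
    refine ⟨fun i => ζ (Sum.inl i, ()), fun i => η (Sum.inl i, ()), ζ (Sum.inr (), ()),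
      η (Sum.inr (), ()), fun i => hζ _, fun i => hη _, hζ _, hη _, ?_, ?_, ?_, ?_⟩
    · intro i
      show cx X T u (Sum.inl i, ()) = _
      rw [hcx, TdR_blk_inl]
      rfl
    · show cy X S u (Sum.inr (), ()) = _
      rw [hcy, TdR_blkT_inr]
      simp only [Finset.univ_unique, Finset.sum_singleton, PUnit.default_eq_unit,
        Matrix.transpose_apply, TdR_unit, TdR_qb_inr]
      ring
    · intro i
      show cy X S u (Sum.inl i, ()) = _
      rw [hcy, TdR_blkT_inl]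
      simp only [TdR_qb_inl, Finset.univ_unique, Finset.sum_singleton, PUnit.default_eq_unit]
      rfl
    · show cx X T u (Sum.inr (), ()) = _
      rw [hcx, TdR_blk_inr]
      simp only [Finset.univ_unique, Finset.sum_singleton, PUnit.default_eq_unit]
  -- the sixfold
  have hTpY : ((TpY m Tp)⁻¹).transpose = (m * Tp.det)⁻¹ • Tp := by
    have e : (TpY m Tp)⁻¹ = (m * Tp.det)⁻¹ • Tp.transpose := by
      apply Matrix.inv_eq_right_inv
      rw [TpY, Matrix.smul_mul, Matrix.mul_smul, hQP, smul_smul,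
        mul_inv_cancel₀ (mul_ne_zero hm hD), one_smul]
    rw [e, Matrix.transpose_smul, Matrix.transpose_transpose]
  have hTmY : ((TmY m Tp Tm)⁻¹).transpose = (m * (Tm () ())⁻¹) • Tp := by
    have e : (TmY m Tp Tm)⁻¹ = (m * (Tm () ())⁻¹) • Tp.transpose := by
      apply Matrix.inv_eq_right_inv
      rw [TmY, Matrix.smul_mul, Matrix.mul_smul, hQP, smul_smul]
      have e1 : m⁻¹ * Tm () () * (m * (Tm () ())⁻¹) = 1 := by
        field_simp
      rw [e1, one_smul]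
    rw [e, Matrix.transpose_smul, Matrix.transpose_transpose]
  have kYY : ∃ (z e zm em : Fin 3 → ℂ), (∀ i, IsAlgebraic ℚ (z i)) ∧
      (∀ i, IsAlgebraic ℚ (e i)) ∧ (∀ i, IsAlgebraic ℚ (zm i)) ∧ (∀ i, IsAlgebraic ℚ (em i)) ∧
      (∀ i, XX Y T' S' w (Sum.inl i, ()) = m * Tp.det * (Tp⁻¹).transpose.mulVec z i) ∧
      (∀ i, XX Y T' S' w (Sum.inr i, ()) = 1 / Real.pi * (m * (Tm () ())⁻¹) *
        Tp.mulVec (fun j => em j - crs (fun i => κ i ()) z j) i) ∧
      (∀ i, XT Y T' S' w (Sum.inl i, ()) = 1 / Real.pi * (m * Tp.det)⁻¹ *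
        Tp.mulVec (fun j => e j - crs zm (fun i => κ i ()) j) i) ∧
      (∀ i, XT Y T' S' w (Sum.inr i, ()) = m⁻¹ * Tm () () * (Tp⁻¹).transpose.mulVec zm i) := by
    obtain ⟨ζ, η, hζ, hη, hcx, hcy⟩ := (hYY w).1 hw
    refine ⟨fun i => ζ (Sum.inl i, ()), fun i => η (Sum.inl i, ()), fun i => ζ (Sum.inr i, ()),
      fun i => η (Sum.inr i, ()), fun i => hζ _, fun i => hη _, fun i => hζ _, fun i => hη _,
      ?_, ?_, ?_, ?_⟩
    · intro i
      show cx Y T' w (Sum.inl i, ()) = _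
      rw [hcx, TdR_blk_inl]
      simp only [TpY, Matrix.smul_apply, smul_eq_mul, Matrix.mulVec, dotProduct, Finset.mul_sum]
      exact Finset.sum_congr rfl fun j _ => by ring
    · intro i
      show cy Y S' w (Sum.inr i, ()) = _
      rw [hcy, TdR_blkT_inr, hTmY, mul_assoc]
      refine congrArg (fun t => 1 / (Real.pi : ℂ) * t) ?_
      rw [Matrix.mulVec, dotProduct, Finset.mul_sum]
      refine Finset.sum_congr rfl fun j _ => ?_
      rw [TdR_qb_inr, TdR_kY2 κ (fun i => ζ (Sum.inl i, ())), Matrix.smul_apply, smul_eq_mul]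
      ring
    · intro i
      show cy Y S' w (Sum.inl i, ()) = _
      rw [hcy, TdR_blkT_inl, hTpY, mul_assoc]
      refine congrArg (fun t => 1 / (Real.pi : ℂ) * t) ?_
      rw [Matrix.mulVec, dotProduct, Finset.mul_sum]
      refine Finset.sum_congr rfl fun j _ => ?_
      rw [TdR_qb_inl, TdR_kY1 κ (fun i => ζ (Sum.inr i, ())), Matrix.smul_apply, smul_eq_mul]
      ring
    · intro i
      show cx Y T' w (Sum.inr i, ()) = _
      rw [hcx, TdR_blk_inr]
      simp only [TmY, Matrix.smul_apply, smul_eq_mul, Matrix.mulVec, dotProduct, Finset.mul_sum]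
      exact Finset.sum_congr rfl fun j _ => by ring
  -- the elliptic curve
  have kZ : ∃ z e : ℂ, IsAlgebraic ℚ z ∧ IsAlgebraic ℚ e ∧
      cx Z T'' l (Sum.inr (), ()) = m⁻¹ * z ∧
      cy Z S'' l (Sum.inr (), ()) = 1 / Real.pi * m * e := by
    obtain ⟨ζ, η, hζ, hη, hcx, hcy⟩ := (hZ l).1 hl
    refine ⟨ζ (Sum.inr (), ()), η (Sum.inr (), ()), hζ _, hη _, ?_, ?_⟩
    · rw [hcx, TdR_blk_inr]
      simp
    · rw [hcy, TdR_blkT_inr]
      simp only [Finset.univ_unique, Finset.sum_singleton, PUnit.default_eq_unit,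
        Matrix.transpose_apply, TdR_unit, TdR_qb_inr, Finset.univ_eq_empty, Finset.sum_empty,
        sub_zero, Matrix.smul_apply, Matrix.one_apply_eq, smul_eq_mul, mul_one, inv_inv]
      ring
  obtain ⟨zu, eu, zmu, emu, a1, a2, a3, a4, b1, b2, b3, b4⟩ := kX u hu
  obtain ⟨zv, ev, zmv, emv, a1', a2', a3', a4', b1', b2', b3', b4'⟩ := kX v hv
  obtain ⟨zY, eY, zmY, emY, c1, c2, c3, c4, d1, d2, d3, d4⟩ := kYY
  obtain ⟨zE, eE, f1, f2, g1, g2⟩ := kZ
  have E1 := TdR_B1 hPQ zu zv (fun i => κ i ()) zmY eY emu emv (1 / Real.pi * (Tm () ())⁻¹)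
    (1 / Real.pi * (m * Tp.det)⁻¹) (m⁻¹ * Tm () ()) _ _ _ b1 b2 b1' b2' d3 d4 (by
      field_simp)
  have E2 := TdR_B2 hPQ eu ev (fun i => κ i ()) zY emY zmu zmv (Tm () ()) (1 / Real.pi)
    (m * Tp.det) (1 / Real.pi * (m * (Tm () ())⁻¹)) _ _ _ b3 b4 b3' b4' d1 d2 (by
      rw [hQd]
      field_simp)
  have E3 : Tcl X Y Z T S T' S' T'' S'' u v w l = -4 * Complex.I *
      (eE * (∑ i, crs zu zv i * eY i - (emv * ∑ i, zu i * zmY i - emu * ∑ i, zv i * zmY i)) -
      zE * ((∑ i, crs eu ev i * zY i) - (zmv * ∑ i, eu i * emY i - zmu * ∑ i, ev i * emY i))) := by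
    rw [Tcl, E1, E2, g1, g2]
    generalize (∑ i, crs zu zv i * eY i - (emv * ∑ i, zu i * zmY i - emu * ∑ i, zv i * zmY i)) = A
    generalize ((∑ i, crs eu ev i * zY i) - (zmv * ∑ i, eu i * emY i -
      zmu * ∑ i, ev i * emY i)) = B
    have hI : Complex.I ^ 2 = -1 := Complex.I_sq
    field_simp
    rw [hI]
    ring
  rw [E3, ← TdR_mem]
  have q4 : (-4 : ℂ) ∈ algebraicClosure ℚ ℂ := by
    have := (algebraicClosure ℚ ℂ).algebraMap_mem (-4 : ℚ)
    simpa using this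
  refine mul_mem (mul_mem q4 (TdR_mem.2 TdR_I)) (sub_mem (mul_mem (TdR_mem.2 f2) (sub_mem
    (TdR_mem.2 (TdR_algSum (TdR_algCrs a1 a1') c2)) (sub_mem (mul_mem (TdR_mem.2 a4')
    (TdR_mem.2 (TdR_algSum a1 c3))) (mul_mem (TdR_mem.2 a4) (TdR_mem.2 (TdR_algSum a1' c3))))))
    (mul_mem (TdR_mem.2 f1) (sub_mem (TdR_mem.2 (TdR_algSum (TdR_algCrs a2 a2') c1)) (sub_mem
    (mul_mem (TdR_mem.2 a3') (TdR_mem.2 (TdR_algSum a2 c4))) (mul_mem (TdR_mem.2 a3)
    (TdR_mem.2 (TdR_algSum a2' c4)))))))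

end DWY
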