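import Pool.Agent.DWY.StB
import Pool.Agent.PST.UGr
import Pool.Agent.PST.UAl
import Pool.Agent.PST.UTr
import Pool.Agent.PST.MapE
import Pool.Agent.PST.OmT
import Pool.Agent.PST.HolP
import Pool.Agent.PST.Gau
import Pool.Agent.PST.PsiC
import Pool.Agent.PST.PsiE
import Pool.Agent.PST.PsiL
import Pool.Agent.PST.PsiN
import Pool.Agent.PST.PsiT
import Pool.Agent.PST.EquP
import Pool.Agent.GAM.Bas

/-!
# DWY [TorQ]: invariance of the Fock vectors at the points of finite order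

The argument of `PST/GamI.lean`, for one point and without the derivatives.
Module of helper7, written by helper17.
-/

set_option autoImplicit false

namespace DWY

open scoped ComplexConjugate
open GAM (H E F pd pdl PLat IsTh OddTor IsDel Gro IsLat Pre)
open PST DWC

/-- the equivariance of the Fock vectors -/
private theorem TorQ_EquP : St_EquP :=
  thm_EquP thm_UGr (thm_UAl thm_UGr) thm_UTr (thm_MapE thm_UGr)
    (thm_PsiT thm_UGr (thm_UAl thm_UGr) thm_OmT thm_PsiC (thm_PsiE thm_HolP thm_Gau) thm_PsiL)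
    (thm_PsiN thm_Gau)

private theorem TorQ_zsmul {α β μ : Type} [Fintype α] [Fintype β] [Fintype μ]
    [DecidableEq α] [DecidableEq β] [DecidableEq μ] (g : Matrix (α ⊕ β) (α ⊕ β) ℂ) (n : ℤ)
    (x : Ix α β μ → ℂ) : act g (n • x) = n • act g x := by
  have e : ∀ y : Ix α β μ → ℂ, n • y = ((n : ℝ) : ℂ) • y := by
    intro y
    rw [← Int.cast_smul_eq_zsmul ℂ n y]
    congr 1
  rw [e, e]
  exact ((thm_UGr α β μ).2.2.2.1 g x x n).2

/-- an element of order `n` is moved by an element of `2 n L` -/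
private theorem TorQ_move {α β μ : Type} [Fintype α] [Fintype β] [Fintype μ]
    [DecidableEq α] [DecidableEq β] [DecidableEq μ] {g : Matrix (α ⊕ β) (α ⊕ β) ℂ}
    {L : Submodule ℤ (Ix α β μ → ℂ)} {n : ℕ} (hn : n ≠ 0)
    (hg : ∀ l ∈ L, ∃ m ∈ L, act g l = l + ((2 * n ^ 2 : ℕ) : ℤ) • m)
    {t : Ix α β μ → ℂ} (ht : (n : ℤ) • t ∈ L) :
    ∃ m ∈ L, act g t = t + ((n : ℤ) • m + (n : ℤ) • m) := by
  obtain ⟨m, hm, h⟩ := hg _ ht
  refine ⟨m, hm, ?_⟩
  rw [TorQ_zsmul] at h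
  have hn' : (n : ℤ) ≠ 0 := by exact_mod_cast hn
  apply smul_right_injective (Ix α β μ → ℂ) hn'
  simp only
  rw [h, smul_add, ← add_smul, smul_smul]
  congr 2
  push_cast
  ring

/-- translation by `2 n m` does nothing at points of order `n` -/
private theorem TorQ_fac {α β μ : Type} [Fintype α] [Fintype β] [Fintype μ]
    [DecidableEq α] [DecidableEq β] [DecidableEq μ]
    {L : Submodule ℤ (Ix α β μ → ℂ)} {χ : (Ix α β μ → ℂ) → ℂ} (hL : PLat L χ) {n : ℕ}
    {t m : Ix α β μ → ℂ} (ht : (n : ℤ) • t ∈ L) (hm : m ∈ L) :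
    χ ((n : ℤ) • m + (n : ℤ) • m) *
      Complex.exp (Real.pi * Complex.I * E t ((n : ℤ) • m + (n : ℤ) • m)) = 1 := by
  rw [hL.chi_two (L.smul_mem _ hm), one_mul, GAM.E_add_right, GAM.E_zsmul_right,
    ← GAM.E_zsmul_left]
  rw [← GAM.exp_two_pi_int (hL.int _ ht _ hm)]
  congr 1
  push_cast
  ring

/-- [TorQ] invariance of the Fock vectors at the points of finite order -/
theorem thm_TorQ : St_TorQ := by
  intro α β μ _ _ _ _ _ _ g L χ θ n hL hθ hne hn hU hgL hg w hw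
  have hM : Maps g L L χ χ := by
    refine ⟨hU, hgL, ?_⟩
    intro l hl
    obtain ⟨m, hm, h⟩ := hg l hl
    have e : ((2 * n ^ 2 : ℕ) : ℤ) • m = ((n ^ 2 : ℕ) : ℤ) • m + ((n ^ 2 : ℕ) : ℤ) • m := by
      rw [← add_smul]
      congr 1
      push_cast
      ring
    rw [h, e]
    exact hL.chi_add_two hl (L.smul_mem _ hm)
  obtain ⟨j, hj, h1⟩ := TorQ_EquP α β μ g L L χ θ χ θ hL hL hθ hθ hne hne hM w hw
  refine ⟨j, hj, h1, ?_⟩
  intro y hy
  obtain ⟨m, hm, h⟩ := TorQ_move hn hg hy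
  have hmem : (n : ℤ) • m + (n : ℤ) • m ∈ L := L.add_mem (L.smul_mem _ hm) (L.smul_mem _ hm)
  obtain ⟨k1, -⟩ := thm_PsiL α β μ L χ θ hL hθ (mob g w) _ hmem y
  rw [← h1, h, k1, TorQ_fac hL hy hm, one_mul]

end DWY
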