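import Pool.Agent.DWY.StA

/-!
# DWY [UE2]: the exterior square of the unitary group
-/

set_option autoImplicit false

namespace DWY

open scoped ComplexConjugate
open PST DWC

private lemma UE2_Jm (α β : Type) [DecidableEq α] [DecidableEq β] :
    Jm α β = Matrix.diagonal (Sum.elim (fun _ => (1 : ℂ)) (fun _ => (-1 : ℂ))) := by
  ext a b
  rcases a with a | a <;> rcases b with b | b
  · by_cases h : a = b
    · subst h; simp [Jm]
    · simp [Jm, h]
  · simp [Jm]
  · simp [Jm]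
  · by_cases h : a = b
    · subst h; simp [Jm]
    · simp [Jm, h]

private lemma UE2_entry (α β : Type) [Fintype α] [Fintype β] [DecidableEq α] [DecidableEq β]
    (g : Matrix (α ⊕ β) (α ⊕ β) ℂ) (a b : α ⊕ β) :
    (g.conjTranspose * Jm α β * g) a b =
      (∑ i, conj (g (Sum.inl i) a) * g (Sum.inl i) b) -
        ∑ j, conj (g (Sum.inr j) a) * g (Sum.inr j) b := by
  rw [Matrix.mul_apply, UE2_Jm, Fintype.sum_sum_type, sub_eq_add_neg, ← Finset.sum_neg_distrib]
  congr 1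
  · refine Finset.sum_congr rfl (fun i _ => ?_)
    rw [Matrix.mul_diagonal, Matrix.conjTranspose_apply, Sum.elim_inl, mul_one]
    rfl
  · refine Finset.sum_congr rfl (fun i _ => ?_)
    rw [Matrix.mul_diagonal, Matrix.conjTranspose_apply, Sum.elim_inr, mul_neg, mul_one, neg_mul]
    rfl

private def UE2_h (A B : Fin 3 ⊕ Unit → ℂ) : ℂ :=
  (∑ i : Fin 3, conj (A (Sum.inl i)) * B (Sum.inl i)) - conj (A (Sum.inr ())) * B (Sum.inr ())

private lemma UE2_lag (A B A' B' : Fin 3 ⊕ Unit → ℂ) :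
    (∑ i : Fin 3, conj (wdv A B (Sum.inl i)) * wdv A' B' (Sum.inl i)) -
      ∑ i : Fin 3, conj (wdv A B (Sum.inr i)) * wdv A' B' (Sum.inr i) =
    UE2_h A A' * UE2_h B B' - UE2_h A B' * UE2_h B A' := by
  have e1 : (0 : Fin 3) + 1 = 1 := rfl
  have e2 : (1 : Fin 3) + 1 = 2 := rfl
  have e3 : (2 : Fin 3) + 1 = 0 := rfl
  have e4 : (0 : Fin 3) + 2 = 2 := rfl
  have e5 : (1 : Fin 3) + 2 = 0 := rfl
  have e6 : (2 : Fin 3) + 2 = 1 := rfl
  simp only [wdv, crs, UE2_h, Fin.sum_univ_three, Sum.elim_inl, Sum.elim_inr, map_sub, map_mul, e1,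
    e2, e3, e4, e5, e6]
  ring

private lemma UE2_J (p q : Fin 3 ⊕ Fin 3) :
    Jm (Fin 3) Unit (Sum.elim (fun i => Sum.inl (i + 1)) (fun i => Sum.inl i) p)
        (Sum.elim (fun i => Sum.inl (i + 1)) (fun i => Sum.inl i) q) *
      Jm (Fin 3) Unit (Sum.elim (fun i => Sum.inl (i + 2)) (fun _ => Sum.inr ()) p)
        (Sum.elim (fun i => Sum.inl (i + 2)) (fun _ => Sum.inr ()) q) -
      Jm (Fin 3) Unit (Sum.elim (fun i => Sum.inl (i + 1)) (fun i => Sum.inl i) p)
        (Sum.elim (fun i => Sum.inl (i + 2)) (fun _ => Sum.inr ()) q) *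
      Jm (Fin 3) Unit (Sum.elim (fun i => Sum.inl (i + 2)) (fun _ => Sum.inr ()) p)
        (Sum.elim (fun i => Sum.inl (i + 1)) (fun i => Sum.inl i) q) =
    Jm (Fin 3) (Fin 3) p q := by
  rw [UE2_Jm, UE2_Jm]
  rcases p with p | p <;> rcases q with q | q <;> fin_cases p <;> fin_cases q <;>
    simp [Matrix.diagonal_apply]

theorem thm_UE2 : St_UE2 := by
  intro g hg
  have h0 : ∀ a b, UE2_h (fun s => g s a) (fun s => g s b) = Jm (Fin 3) Unit a b := by
    intro a b
    have h1 : g.conjTranspose * Jm (Fin 3) Unit * g = Jm (Fin 3) Unit := hg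
    have h2 := UE2_entry (Fin 3) Unit g a b
    rw [h1] at h2
    rw [h2]
    simp [UE2_h]
  show (e2 g).conjTranspose * Jm (Fin 3) (Fin 3) * (e2 g) = Jm (Fin 3) (Fin 3)
  ext p q
  rw [UE2_entry]
  have h3 := UE2_lag
    (fun s => g s (Sum.elim (fun i => Sum.inl (i + 1)) (fun i => Sum.inl i) p))
    (fun s => g s (Sum.elim (fun i => Sum.inl (i + 2)) (fun _ => Sum.inr ()) p))
    (fun s => g s (Sum.elim (fun i => Sum.inl (i + 1)) (fun i => Sum.inl i) q))
    (fun s => g s (Sum.elim (fun i => Sum.inl (i + 2)) (fun _ => Sum.inr ()) q))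
  simp only [h0] at h3
  rw [UE2_J] at h3
  exact h3

end DWY
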