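import Pool.Agent.DWY.StA

/-!
# DWY [WedA]: algebra of the exterior square
-/

set_option autoImplicit false

namespace DWY

open scoped ComplexConjugate
open PST DWC

private lemma WedA_01 : (0 : Fin 3) + 1 = 1 := rfl
private lemma WedA_11 : (1 : Fin 3) + 1 = 2 := rfl
private lemma WedA_21 : (2 : Fin 3) + 1 = 0 := rfl
private lemma WedA_02 : (0 : Fin 3) + 2 = 2 := rfl
private lemma WedA_12 : (1 : Fin 3) + 2 = 0 := rfl
private lemma WedA_22 : (2 : Fin 3) + 2 = 1 := rfl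

private lemma WedA_core (g : Matrix (Fin 3 ⊕ Unit) (Fin 3 ⊕ Unit) ℂ) (X Y : Fin 3 ⊕ Unit → ℂ)
    (p : Fin 3 ⊕ Fin 3) :
    ∑ r, e2 g p r * wdv X Y r =
      wdv (fun s => ∑ t, g s t * X t) (fun s => ∑ t, g s t * Y t) p := by
  rcases p with p | p <;> fin_cases p <;>
    simp only [wdv, crs, e2, Matrix.of_apply, Fintype.sum_sum_type, Fin.sum_univ_three,
      Finset.univ_unique, Finset.sum_singleton, Sum.elim_inl, Sum.elim_inr, PUnit.default_eq_unit,
      Fin.zero_eta, Fin.mk_one, Fin.reduceFinMk, WedA_01, WedA_11, WedA_21, WedA_02, WedA_12,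
      WedA_22] <;>
    ring

private lemma WedA_mu (g : Matrix (Fin 3 ⊕ Unit) (Fin 3 ⊕ Unit) ℂ) (X Y : IX → ℂ) :
    mu (e2 g) (wd X Y) = wd (mu g X) (mu g Y) := by
  funext p
  rcases p with ⟨p, u⟩
  exact WedA_core g (fun s => X (s, ())) (fun s => Y (s, ())) p

private lemma WedA_sw {α β : Type} (x : Ix α β Unit → ℂ) : sw (sw x) = x := by
  funext p
  rcases p with ⟨p | p, u⟩
  · rfl
  · simp [sw]

private lemma WedA_act (g : Matrix (Fin 3 ⊕ Unit) (Fin 3 ⊕ Unit) ℂ) (x y : IX → ℂ) :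
    act (e2 g) (we x y) = we (act g x) (act g y) := by
  unfold act we
  rw [WedA_sw, WedA_mu, WedA_sw, WedA_sw]

private lemma WedA_mul (g h : Matrix (Fin 3 ⊕ Unit) (Fin 3 ⊕ Unit) ℂ) :
    e2 (g * h) = e2 g * e2 h := by
  ext p q
  rw [Matrix.mul_apply]
  have h1 := WedA_core g
    (fun s => h s (Sum.elim (fun i => Sum.inl (i + 1)) (fun i => Sum.inl i) q))
    (fun s => h s (Sum.elim (fun i => Sum.inl (i + 2)) (fun _ => Sum.inr ()) q)) p
  exact h1.symm

private lemma WedA_one : e2 (1 : Matrix (Fin 3 ⊕ Unit) (Fin 3 ⊕ Unit) ℂ) = 1 := by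
  ext p q
  rcases p with p | p <;> rcases q with q | q <;> fin_cases p <;> fin_cases q <;>
    simp [e2, wdv, crs, Matrix.one_apply]

private lemma WedA_swadd {α β : Type} (x y : Ix α β Unit → ℂ) : sw (x + y) = sw x + sw y := by
  funext p
  rcases p with ⟨p | p, u⟩
  · rfl
  · simp [sw]

private lemma WedA_swsmul {α β : Type} (r : ℝ) (x : Ix α β Unit → ℂ) :
    sw ((r : ℂ) • x) = (r : ℂ) • sw x := by
  funext p
  rcases p with ⟨p | p, u⟩
  · rfl
  · simp [sw]

private lemma WedA_addl (X X' Y : IX → ℂ) : wd (X + X') Y = wd X Y + wd X' Y := by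
  funext p
  rcases p with ⟨p | p, u⟩ <;> simp only [wd, wdv, crs, Pi.add_apply, Sum.elim_inl, Sum.elim_inr] <;>
    ring

private lemma WedA_addr (X Y Y' : IX → ℂ) : wd X (Y + Y') = wd X Y + wd X Y' := by
  funext p
  rcases p with ⟨p | p, u⟩ <;> simp only [wd, wdv, crs, Pi.add_apply, Sum.elim_inl, Sum.elim_inr] <;>
    ring

private lemma WedA_sml (c : ℂ) (X Y : IX → ℂ) : wd (c • X) Y = c • wd X Y := by
  funext p
  rcases p with ⟨p | p, u⟩ <;> simp only [wd, wdv, crs, Pi.smul_apply, smul_eq_mul, Sum.elim_inl,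
    Sum.elim_inr] <;> ring

private lemma WedA_smr (c : ℂ) (X Y : IX → ℂ) : wd X (c • Y) = c • wd X Y := by
  funext p
  rcases p with ⟨p | p, u⟩ <;> simp only [wd, wdv, crs, Pi.smul_apply, smul_eq_mul, Sum.elim_inl,
    Sum.elim_inr] <;> ring

private lemma WedA_self (X : IX → ℂ) : wd X X = 0 := by
  funext p
  rcases p with ⟨p | p, u⟩ <;> simp only [wd, wdv, crs, Pi.zero_apply, Sum.elim_inl,
    Sum.elim_inr] <;> ring

private lemma WedA_nd (P : IY → ℂ) (h : ∀ X Y : IX → ℂ, bl (wd X Y) P = 0) : P = 0 := by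
  have hl : ∀ i : Fin 3, P (Sum.inl i, ()) = 0 := by
    intro i
    have h1 := h (Pi.single (Sum.inl (i + 1), ()) 1) (Pi.single (Sum.inl (i + 2), ()) 1)
    fin_cases i <;>
      simpa [bl, wd, wdv, crs, Fin.sum_univ_three, Pi.single_apply] using h1
  have hr : ∀ i : Fin 3, P (Sum.inr i, ()) = 0 := by
    intro i
    have h1 := h (Pi.single (Sum.inl i, ()) 1) (Pi.single (Sum.inr (), ()) 1)
    fin_cases i <;>
      simpa [bl, wd, wdv, crs, Fin.sum_univ_three, Pi.single_apply] using h1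
  funext p
  rcases p with ⟨p | p, u⟩
  · exact hl p
  · exact hr p

theorem thm_WedA : St_WedA := by
  refine ⟨WedA_mu, WedA_act, WedA_mul, WedA_one, ?_, ?_, ?_, WedA_self, ?_, ?_, WedA_nd⟩
  · intro x x' y
    unfold we
    rw [WedA_swadd, WedA_addl, WedA_swadd]
  · intro x y y'
    unfold we
    rw [WedA_swadd, WedA_addr, WedA_swadd]
  · intro r x y
    unfold we
    rw [WedA_swsmul, WedA_sml, WedA_swsmul, WedA_swsmul, WedA_smr, WedA_swsmul]
    exact ⟨rfl, rfl⟩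
  · exact fun X X' Y => ⟨WedA_addl X X' Y, WedA_addr Y X X'⟩
  · exact fun c X Y => ⟨WedA_sml c X Y, WedA_smr c X Y⟩

end DWY
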