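import Pool.Agent.DWY.StC
import Pool.Agent.Helper8.HomFil

/-!
# DWY [XXJ]: the given multiplication by `i √d`
-/

set_option autoImplicit false

namespace DWY

open scoped ComplexConjugate
open GAM (H E F pd pdl PLat IsTh OddTor IsDel Gro IsLat GoodN LinN)
open PST DWC
open Pool.Agent.GPC (AbVar hermForm bilForm IsAlgQuadratic)

theorem XXJ_conj_zd (d : ℚ) : conj (zd d) = -zd d := by
  unfold zd
  rw [map_mul, Complex.conj_ofReal, Complex.conj_I]
  ring

section XXJLemmas

variable {α β : Type} [Fintype α] [Fintype β] [DecidableEq α] [DecidableEq β]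

theorem XXJ_rgt_inl (z : ℂ) (y : Ix α β Unit → ℂ) (i : α) (k : Unit) :
    (rgt α β (z • (1 : Matrix Unit Unit ℂ))).mulVec y (Sum.inl i, k) = z * y (Sum.inl i, k) := by
  rw [Matrix.mulVec, dotProduct, Finset.sum_eq_single (Sum.inl i, k)]
  · simp [rgt]
  · rintro ⟨q, k'⟩ - hq
    have : Sum.inl i ≠ q := fun h => hq (by rw [← h])
    simp [rgt, this]
  · intro h
    exact absurd (Finset.mem_univ _) h

theorem XXJ_rgt_inr (z : ℂ) (y : Ix α β Unit → ℂ) (i : β) (k : Unit) :
    (rgt α β (z • (1 : Matrix Unit Unit ℂ))).mulVec y (Sum.inr i, k) =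
      conj z * y (Sum.inr i, k) := by
  rw [Matrix.mulVec, dotProduct, Finset.sum_eq_single (Sum.inr i, k)]
  · simp [rgt]
  · rintro ⟨q, k'⟩ - hq
    have : Sum.inr i ≠ q := fun h => hq (by rw [← h])
    simp [rgt, this]
  · intro h
    exact absurd (Finset.mem_univ _) h

end XXJLemmas

theorem thm_XXJ (h : St_CxA) : St_XXJ := by
  intro X d α β _ _ _ _ T S Tp Tm Ta Tb κ L J ns _ hJ hz
  obtain ⟨xl, yl, -, -, -, hb, -⟩ := h X d α β T S Tp Tm Ta Tb κ L ns
  have c1 : ∀ v i k, cx X T (J v) (Sum.inl i, k) = zd d * cx X T v (Sum.inl i, k) := by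
    intro v i k
    have := congrFun (hz v) (Sum.inl i, k)
    rw [XXJ_rgt_inl] at this
    exact this
  have c2 : ∀ v i k, cx X T (J v) (Sum.inr i, k) = -zd d * cx X T v (Sum.inr i, k) := by
    intro v i k
    have := congrFun (hz v) (Sum.inr i, k)
    rw [XXJ_rgt_inr, XXJ_conj_zd] at this
    exact this
  have d1 : ∀ v i k, cy X S (J v) (Sum.inl i, k) = -zd d * cy X S v (Sum.inl i, k) := by
    intro v i k
    have hv := Pool.Agent.GPC.span_betti X v
    induction hv using Submodule.span_induction with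
    | mem x hx =>
      rw [((hb (J x)).1 (hJ.betti x hx)).1, ((hb x).1 hx).1, c1, map_mul, XXJ_conj_zd]
    | zero =>
      have e : J 0 = 0 := hJ.linear.map_zero
      rw [e]
      have e' : cy X S 0 = 0 := yl.map_zero
      rw [e', Pi.zero_apply, mul_zero]
    | add x y _ _ ix iy =>
      rw [hJ.linear.map_add, yl.map_add, yl.map_add, Pi.add_apply, Pi.add_apply, ix, iy]
      ring
    | smul a x _ ix =>
      rw [hJ.linear.map_smul, yl.map_smul, yl.map_smul, Pi.smul_apply, Pi.smul_apply, ix,
        smul_eq_mul, smul_eq_mul]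
      ring
  have d2 : ∀ v i k, cy X S (J v) (Sum.inr i, k) = zd d * cy X S v (Sum.inr i, k) := by
    intro v i k
    have hv := Pool.Agent.GPC.span_betti X v
    induction hv using Submodule.span_induction with
    | mem x hx =>
      rw [((hb (J x)).1 (hJ.betti x hx)).1, ((hb x).1 hx).1, c2, map_mul, map_neg, XXJ_conj_zd,
        neg_neg]
    | zero =>
      have e : J 0 = 0 := hJ.linear.map_zero
      rw [e]
      have e' : cy X S 0 = 0 := yl.map_zero
      rw [e', Pi.zero_apply, mul_zero]
    | add x y _ _ ix iy =>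
      rw [hJ.linear.map_add, yl.map_add, yl.map_add, Pi.add_apply, Pi.add_apply, ix, iy]
      ring
    | smul a x _ ix =>
      rw [hJ.linear.map_smul, yl.map_smul, yl.map_smul, Pi.smul_apply, Pi.smul_apply, ix,
        smul_eq_mul, smul_eq_mul]
      ring
  constructor
  · intro v p
    rcases p with ⟨i | j, k⟩
    · exact c1 v i k
    · exact d2 v j k
  · intro v p
    rcases p with ⟨i | j, k⟩
    · rw [← neg_mul]; exact d1 v i k
    · rw [← neg_mul]; exact c2 v j k

end DWY
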