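import Pool.Agent.DWC.All
import Pool.Agent.DWY.AbVG
import Pool.Agent.DWY.AddH
import Pool.Agent.DWY.C2h
import Pool.Agent.DWY.C2k
import Pool.Agent.DWY.C3h
import Pool.Agent.DWY.C5h
import Pool.Agent.DWY.CmsG
import Pool.Agent.DWY.CmsK
import Pool.Agent.DWY.CocP
import Pool.Agent.DWY.CoreY
import Pool.Agent.DWY.CxA
import Pool.Agent.DWY.DelF
import Pool.Agent.DWY.DelL
import Pool.Agent.DWY.DelQ
import Pool.Agent.DWY.DelY
import Pool.Agent.DWY.DetE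
import Pool.Agent.DWY.ExM
import Pool.Agent.DWY.ExS
import Pool.Agent.DWY.ExY
import Pool.Agent.DWY.HatF
import Pool.Agent.DWY.HatU
import Pool.Agent.DWY.HatX
import Pool.Agent.DWY.HatY
import Pool.Agent.DWY.HopG
import Pool.Agent.DWY.IndY
import Pool.Agent.DWY.JNS
import Pool.Agent.DWY.LinY
import Pool.Agent.DWY.NFT
import Pool.Agent.DWY.NSX
import Pool.Agent.DWY.NSY
import Pool.Agent.DWY.NorG
import Pool.Agent.DWY.OpY
import Pool.Agent.DWY.PreS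
import Pool.Agent.DWY.QuaG
import Pool.Agent.DWY.RelY
import Pool.Agent.DWY.RhoM
import Pool.Agent.DWY.SieY
import Pool.Agent.DWY.TBet
import Pool.Agent.DWY.THod
import Pool.Agent.DWY.TLin
import Pool.Agent.DWY.TdR
import Pool.Agent.DWY.TorQ
import Pool.Agent.DWY.UE2
import Pool.Agent.DWY.WedA
import Pool.Agent.DWY.XXJ

/-!
# DWY: assembly
-/

set_option autoImplicit false

namespace DWY

namespace All

open PST DWC

theorem NorG_ : St_NorG := thm_NorG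
theorem QuaG_ : St_QuaG := thm_QuaG
theorem AbVG_ : St_AbVG := thm_AbVG NorG_ QuaG_
theorem AddH_ : St_AddH := thm_AddH
theorem C2h_ : St_C2h := thm_C2h
theorem C2k_ : St_C2k := thm_C2k
theorem C3h_ : St_C3h := thm_C3h
theorem C5h_ : St_C5h := thm_C5h AddH_
theorem WedA_ : St_WedA := thm_WedA
theorem CmsG_ : St_CmsG := thm_CmsG WedA_
theorem CmsK_ : St_CmsK := thm_CmsK
theorem CocP_ : St_CocP := thm_CocP WedA_
theorem TorQ_ : St_TorQ := thm_TorQ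
theorem UE2_ : St_UE2 := thm_UE2
theorem RhoM_ : St_RhoM := thm_RhoM WedA_ UE2_
theorem SieY_ : St_SieY := thm_SieY TorQ_ RhoM_ UE2_
theorem RelY_ : St_RelY := thm_RelY SieY_ RhoM_
theorem HatF_ : St_HatF := thm_HatF
theorem DelF_ : St_DelF := thm_DelF HatF_
theorem DelL_ : St_DelL := thm_DelL
theorem DelY_ : St_DelY := thm_DelY DelF_ DelL_ RhoM_
theorem DelQ_ : St_DelQ := thm_DelQ
theorem CoreY_ : St_CoreY := thm_CoreY RelY_ DelY_ DelQ_ RhoM_ UE2_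
theorem CxA_ : St_CxA := thm_CxA
theorem DetE_ : St_DetE := thm_DetE WedA_
theorem ExY_ : St_ExY := thm_ExY DWC.All.CMK_ DWC.All.FldK_ DWC.All.EqK_
theorem ExM_ : St_ExM := thm_ExM ExY_ DWC.All.LatK_
theorem NFT_ : St_NFT := thm_NFT DWC.All.NFK_
theorem NSX_ : St_NSX := thm_NSX
theorem HopG_ : St_HopG := thm_HopG
theorem HatX_ : St_HatX := thm_HatX HopG_
theorem PreS_ : St_PreS := thm_PreS
theorem HatU_ : St_HatU := thm_HatU C2h_ PreS_ C2k_ C3h_ C5h_ HopG_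
theorem IndY_ : St_IndY := thm_IndY CoreY_ RhoM_
theorem LinY_ : St_LinY := thm_LinY
theorem HatY_ : St_HatY := thm_HatY
theorem OpY_ : St_OpY := thm_OpY HatX_ HatU_ CocP_ CmsG_ CmsK_ IndY_ LinY_ HatY_ DWC.All.CoreH_ DWC.All.CocK_ DWC.All.LatK_ UE2_ DetE_ HopG_
theorem NSY_ : St_NSY := thm_NSY AbVG_ HopG_
theorem JNS_ : St_JNS := thm_JNS CxA_
theorem XXJ_ : St_XXJ := thm_XXJ CxA_
theorem TBet_ : St_TBet := thm_TBet CxA_ WedA_
theorem TdR_ : St_TdR := thm_TdR CxA_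
theorem THod_ : St_THod := thm_THod CxA_
theorem TLin_ : St_TLin := thm_TLin CxA_ WedA_
theorem ExS_ : St_ExS := thm_ExS NFT_ DWC.All.LatK_ CmsK_ CmsG_ UE2_ NSX_ ExM_ OpY_ HatY_ NSY_ CxA_ JNS_ XXJ_ TBet_ TdR_ THod_ TLin_

end All

end DWY
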