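import Pool.Agent.DWC.StK

/-!
# DWY: the exterior square of a Weil structure of signature (3,1) (definitions)

Campaign: existence of the exterior square of an abelian fourfold with multiplication by an
imaginary quadratic field of signature `(3,1)`. The theta functions of the lattice of the fourfold
and of the lattice of its exterior square are compared on the domain of type `I_{3,1}` (the ball),
embedded in the domain of type `I_{3,3}`.
-/

set_option autoImplicit false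

namespace DWY

open scoped ComplexConjugate
open GAM (H E F pd pdl PLat IsTh OddTor IsDel Gro IsLat)
open PST DWC
open Pool.Agent.GPC (AbVar hermForm bilForm)

/-! ## Exterior squares -/

section ext

/-- Coordinates of the fourfold. -/
abbrev IX : Type := Ix (Fin 3) Unit Unit

/-- Coordinates of the exterior square. -/
abbrev IY : Type := Ix (Fin 3) (Fin 3) Unit

/-- Coordinates of the ball. -/
abbrev WX : Type := Fin 3 × Unit

/-- Coordinates of the domain of type `I_{3,3}`. -/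
abbrev WY : Type := Fin 3 × Fin 3

/-- The cross product. -/
def crs (u v : Fin 3 → ℂ) : Fin 3 → ℂ := fun i => u (i + 1) * v (i + 2) - u (i + 2) * v (i + 1)

/-- The exterior product of vectors of `ℂ^(3+1)`, with the coordinates `e_(i+1) ∧ e_(i+2)` and
`e_i ∧ e_4`. -/
def wdv (X Y : Fin 3 ⊕ Unit → ℂ) : Fin 3 ⊕ Fin 3 → ℂ :=
  Sum.elim (crs (fun i => X (Sum.inl i)) (fun i => Y (Sum.inl i)))
    (fun i => X (Sum.inl i) * Y (Sum.inr ()) - Y (Sum.inl i) * X (Sum.inr ()))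

/-- The exterior product in the coordinates `X`. -/
def wd (X Y : IX → ℂ) : IY → ℂ := fun p => wdv (fun s => X (s, ())) (fun s => Y (s, ())) p.1

/-- The exterior product in the coordinates `x`. -/
def we (x y : IX → ℂ) : IY → ℂ := sw (wd (sw x) (sw y))

/-- The action of a matrix on the exterior square. -/
def e2 (g : Matrix (Fin 3 ⊕ Unit) (Fin 3 ⊕ Unit) ℂ) : Matrix (Fin 3 ⊕ Fin 3) (Fin 3 ⊕ Fin 3) ℂ :=
  Matrix.of fun p q => wdv
    (fun s => g s (Sum.elim (fun i => Sum.inl (i + 1)) (fun i => Sum.inl i) q))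
    (fun s => g s (Sum.elim (fun i => Sum.inl (i + 2)) (fun _ => Sum.inr ()) q)) p

/-- The embedding of the ball in the domain of type `I_{3,3}`: the matrix of `y ↦ y × w`. -/
def rho (w : WX → ℂ) : WY → ℂ := fun p =>
  (if p.2 = p.1 + 1 then w (p.1 + 2, ()) else 0) - (if p.2 = p.1 + 2 then w (p.1 + 1, ()) else 0)

/-- The functions to which Siegel's lemma is applied. -/
noncomputable def YF (θ : (IX → ℂ) → ℂ) (θY : (IY → ℂ) → ℂ) (y : Option WX → IX → ℂ)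
    (y' : Bool → IY → ℂ) (w : WX → ℂ) : Option (Option WX) → ℂ
  | some i => psi θ w (y i) * psi θY (rho w) (y' false)
  | none => psi θ w (y none) * psi θY (rho w) (y' true)

/-- The exterior product maps `L × L` to `s⁻¹ LY`, and generates a sublattice of finite index. -/
structure Cms (s : ℝ) (M : ℕ) (L : Submodule ℤ (IX → ℂ)) (LY : Submodule ℤ (IY → ℂ)) : Prop where
  s0 : s ≠ 0
  m0 : M ≠ 0
  into : ∀ l ∈ L, ∀ m ∈ L, (s : ℂ) • we l m ∈ LY
  onto : ∀ y ∈ LY, (M : ℤ) • y ∈ Submodule.span ℤ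
    {v : IY → ℂ | ∃ l ∈ L, ∃ m ∈ L, v = (s : ℂ) • we l m}

/-- Cocompactness up to half planes, for the pair of lattices. -/
def CocP (e : ℕ) (L : Submodule ℤ (IX → ℂ)) (LY : Submodule ℤ (IY → ℂ)) : Prop :=
  ∀ n : ℕ, n ≠ 0 → ∃ (K : Set (WX → ℂ)) (C : ℝ), IsCompact K ∧ K.Nonempty ∧
    K ⊆ Om (Fin 3) Unit ∧
    ∀ p ∈ K, ∃ U ∈ nhds p, ∀ w ∈ U, ∃ z : ℂ → WX → ℂ, z Complex.I = w ∧
      DifferentiableOn ℂ z {t | 0 < t.im} ∧ ContinuousOn z {t | 0 ≤ t.im} ∧
      (∀ t : ℂ, 0 ≤ t.im → ∃ ρ : ℝ, 0 ≤ ρ ∧ ρ < 1 ∧ z t ∈ OmC (Fin 3) Unit ρ ∧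
        1 ≤ C * (1 - ρ) * (1 + ‖t‖) ^ 2) ∧
      ∀ t : ℝ, ∃ g : Matrix (Fin 3 ⊕ Unit) (Fin 3 ⊕ Unit) ℂ, Gam e n L g ∧
        (∀ x : IY → ℂ, x ∈ LY ↔ act (e2 g) x ∈ LY) ∧
        (∀ l ∈ LY, ∃ m ∈ LY, act (e2 g) l = l + (n : ℤ) • m) ∧ mob g (z t) ∈ K

/-- `d^(-1/4)` -/
noncomputable def d4 (d : ℚ) : ℝ := (Real.sqrt (Real.sqrt (d : ℝ)))⁻¹

/-- The numbers `r` of the exterior square. -/
noncomputable def rY (d : ℚ) (r : Fin 3 ⊕ Unit → ℝ) : Fin 3 ⊕ Fin 3 → ℝ :=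
  Sum.elim (fun i => d4 d * (r (Sum.inl (i + 1)) * r (Sum.inl (i + 2))))
    (fun i => d4 d * (r (Sum.inl i) * r (Sum.inr ())))

/-- The numbers `q` of the exterior square. -/
def qY (d : ℚ) (q : Fin 3 ⊕ Unit → ℚ) : Fin 3 ⊕ Fin 3 → ℚ :=
  Sum.elim (fun i => q (Sum.inl (i + 1)) * q (Sum.inl (i + 2)) / d)
    (fun i => q (Sum.inl i) * q (Sum.inr ()) / d)

end ext

/-! ## Operators of the second order -/

section ops

variable {ι : Type} [Fintype ι] [DecidableEq ι]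

/-- The operator `gop` with a second order term. -/
noncomputable def gop2 (k : ℂ) (B C D : Matrix ι ι ℂ) (G : (ι → ℂ) → ℂ) (v : ι → ℂ) : ℂ :=
  gop k B C G v + 1 / (2 * Real.pi) * ∑ a, ∑ b, D a b * pd a (pd b G) v

/-- `δ` acts on the functions `F_x`, `x` of odd order, by the operator `gop2`. -/
structure HasGop2 (δ : Derivation ℚ ℂ ℂ) (L : Submodule ℤ (ι → ℂ)) (θ : (ι → ℂ) → ℂ) (k : ℂ)
    (B C D : Matrix ι ι ℂ) : Prop where
  symmC : C.transpose = C
  symmD : D.transpose = D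
  del : ∀ x, OddTor L x → IsDel δ (F θ x) (gop2 k B C D (F θ x))

variable {α β μ : Type} [Fintype α] [Fintype β] [Fintype μ]
  [DecidableEq α] [DecidableEq β] [DecidableEq μ]

/-- The operator `hop` with the second order term `(1/π) ∑ b_ij D_ij`. -/
noncomputable def hop2 (k : ℂ) (Bp : Matrix α α ℂ) (Bm : Matrix β β ℂ) (c b : Matrix α β ℂ)
    (G : (Ix α β μ → ℂ) → ℂ) (v : Ix α β μ → ℂ) : ℂ :=
  hop k Bp Bm c G v + 1 / Real.pi * ∑ i, ∑ j, b i j * Dij (i, j) G v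

/-- `δ` acts on the functions `F_x`, `x` of odd order, by the operator `hop2`. -/
def HasHat2 (δ : Derivation ℚ ℂ ℂ) (L : Submodule ℤ (Ix α β μ → ℂ))
    (θ : (Ix α β μ → ℂ) → ℂ) (k : ℂ) (Bp : Matrix α α ℂ) (Bm : Matrix β β ℂ)
    (c b : Matrix α β ℂ) : Prop :=
  ∀ x, OddTor L x → IsDel δ (F θ x) (hop2 k Bp Bm c b (F θ x))

/-- The difference of the vector fields on the domain of type `I_{3,3}`, along the ball. -/
noncomputable def vY (Bp : Matrix (Fin 3) (Fin 3) ℂ) (Bm : Matrix Unit Unit ℂ)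
    (c b : Matrix (Fin 3) Unit ℂ) (BpY BmY cY bY : Matrix (Fin 3) (Fin 3) ℂ) (w : WX → ℂ)
    (p : WY) : ℂ :=
  xi BpY BmY cY (rho w) p + bY p.1 p.2 - rho (fun q => xi Bp Bm c w q + b q.1 q.2) p

/-- The matrix of the bilinear form `(y, z) ↦ det (κ, y, z)`. -/
def kY (κ : Matrix (Fin 3) Unit ℂ) : Matrix (Fin 3) (Fin 3) ℂ :=
  Matrix.of fun i j => crs (fun s => κ s ()) (Pi.single i 1) j

/-- The symmetric matrix with the blocks `κ`, `κᵀ` outside the diagonal. -/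
def qb (κ : Matrix α β ℂ) : Matrix (Ix α β Unit) (Ix α β Unit) ℂ :=
  Matrix.of fun p q => Matrix.fromBlocks 0 κ κ.transpose 0 p.1 q.1

/-- The matrix `T^+` of the exterior square. -/
noncomputable def TpY (μ : ℂ) (Tp : Matrix (Fin 3) (Fin 3) ℂ) : Matrix (Fin 3) (Fin 3) ℂ :=
  (μ * Tp.det) • (Tp⁻¹).transpose

/-- The matrix `T^-` of the exterior square. -/
noncomputable def TmY (μ : ℂ) (Tp : Matrix (Fin 3) (Fin 3) ℂ) (Tm : Matrix Unit Unit ℂ) :
    Matrix (Fin 3) (Fin 3) ℂ :=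
  (μ⁻¹ * Tm () ()) • (Tp⁻¹).transpose

end ops

/-! ## Theta functions with algebraic coefficients -/

section norm

variable {ι : Type} [Fintype ι] [DecidableEq ι]

/-- The normalised functions. -/
noncomputable def Tg (θ : (ι → ℂ) → ℂ) (T q : Matrix ι ι ℂ) (y x z : ι → ℂ) : ℂ :=
  Complex.exp (1 / 2 * ∑ a, ∑ b, q a b * z a * z b) * F θ x (T.mulVec z) / F θ y 0

/-- Their Taylor coefficients are killed by all derivations. -/
structure NormG (L : Submodule ℤ (ι → ℂ)) (θ : (ι → ℂ) → ℂ) (T S q : Matrix ι ι ℂ)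
    (y : ι → ℂ) : Prop where
  ts : T * S = 1
  symm : q.transpose = q
  tor : OddTor L y
  ney : F θ y 0 ≠ 0
  del : ∀ (δ : Derivation ℚ ℂ ℂ) x, OddTor L x → IsDel δ (Tg θ T q y x) (fun _ => 0)

/-- The abelian variety attached to the lattice `N S L`. -/
structure AbG (L : Submodule ℤ (ι → ℂ)) (T S q : Matrix ι ι ℂ) (Y : AbVar) (e : Fin Y.g ≃ ι)
    (N : ℕ) : Prop where
  ts : T * S = 1
  pos : N ≠ 0
  lat : ∀ z, z ∈ Y.Λ ↔ ∃ l ∈ L, ∀ j, z j = (N : ℂ) * S.mulVec l (e j)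
  herm : ∀ z w, hermForm Y.H z w =
    H (T.mulVec fun a => z (e.symm a)) (T.mulVec fun a => w (e.symm a))
  q : ∀ i j, Y.q i j = q (e i) (e j)

end norm

/-! ## Coordinates of the homology -/

section hom

variable {α β : Type} [Fintype α] [Fintype β] [DecidableEq α] [DecidableEq β]

/-- The linear map equal to `x` on the periods. -/
noncomputable def cx {ι : Type} (X : AbVar) (T : Matrix ι (Fin X.g) ℂ) (v : X.H1) : ι → ℂ :=
  T.mulVec (X.zz v)

/-- The linear map equal to the conjugate of `x` on the periods. -/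
noncomputable def cy {ι : Type} (X : AbVar) (S : Matrix (Fin X.g) ι ℂ) (v : X.H1) : ι → ℂ :=
  fun a => 1 / Real.pi * S.transpose.mulVec (fun i => v (Sum.inr i) - X.q.mulVec (X.zz v) i) a

/-- The linear map equal to `X = sw x` on the periods. -/
noncomputable def XX (X : AbVar) (T : Matrix (Ix α β Unit) (Fin X.g) ℂ)
    (S : Matrix (Fin X.g) (Ix α β Unit) ℂ) (v : X.H1) : Ix α β Unit → ℂ := fun p =>
  Sum.elim (fun _ => cx X T v p) (fun _ => cy X S v p) p.1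

/-- The linear map equal to the conjugate of `X = sw x` on the periods. -/
noncomputable def XT (X : AbVar) (T : Matrix (Ix α β Unit) (Fin X.g) ℂ)
    (S : Matrix (Fin X.g) (Ix α β Unit) ℂ) (v : X.H1) : Ix α β Unit → ℂ := fun p =>
  Sum.elim (fun _ => cy X S v p) (fun _ => cx X T v p) p.1

/-- The normal form of an abelian variety with multiplication by an imaginary quadratic field. -/
structure NS (X : AbVar) (d : ℚ) (α β : Type) [Fintype α] [Fintype β] [DecidableEq α]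
    [DecidableEq β] (T : Matrix (Ix α β Unit) (Fin X.g) ℂ)
    (S : Matrix (Fin X.g) (Ix α β Unit) ℂ) (Tp : Matrix α α ℂ) (Tm : Matrix β β ℂ)
    (Ta : Matrix (Ix α β Unit) (Fin X.g) ℂ) (Tb : Matrix (Fin X.g) (Ix α β Unit) ℂ)
    (κ : Matrix α β ℂ) (L : Submodule ℤ (Ix α β Unit → ℂ)) : Prop where
  pos : 0 < d
  ts : T * S = 1
  st : S * T = 1
  herm : ∀ z w, hermForm X.H z w = H (T.mulVec z) (T.mulVec w)
  dp : Tp.det ≠ 0
  dm : Tm.det ≠ 0
  fac : T = blk Unit Tp Tm * Ta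
  facb : Tb = S * blk Unit Tp Tm
  alg : ∀ p i, IsAlgebraic ℚ (Ta p i)
  algb : ∀ i p, IsAlgebraic ℚ (Tb i p)
  qq : ∀ p p', IsAlgebraic ℚ ((Tb.transpose * X.q * Tb) p p' - qb κ p p')
  lat : ∀ z, (∃ n : ℕ, n ≠ 0 ∧ (n : ℤ) • z ∈ X.Λ) ↔ ∃ n : ℕ, n ≠ 0 ∧ T.mulVec ((n : ℤ) • z) ∈ L
  kl : ∃ N : ℕ, N ≠ 0 ∧ KL d N L

/-- The bilinear form of signature `(3,3)`. -/
def bl (P Q : IY → ℂ) : ℂ :=
  (∑ i, P (Sum.inl i, ()) * Q (Sum.inl i, ())) - ∑ i, P (Sum.inr i, ()) * Q (Sum.inr i, ())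

/-- The class of the exterior square. -/
noncomputable def Tcl (X Y Z : AbVar) (T : Matrix IX (Fin X.g) ℂ) (S : Matrix (Fin X.g) IX ℂ)
    (T' : Matrix IY (Fin Y.g) ℂ) (S' : Matrix (Fin Y.g) IY ℂ)
    (T'' : Matrix (Ix Empty Unit Unit) (Fin Z.g) ℂ)
    (S'' : Matrix (Fin Z.g) (Ix Empty Unit Unit) ℂ) (u v : X.H1) (w : Y.H1) (l : Z.H1) : ℂ :=
  (2 * Real.pi * Complex.I) ^ 2 * (Complex.I * (cy Z S'' l (Sum.inr (), ()) *
      bl (wd (XX X T S u) (XX X T S v)) (XT Y T' S' w)) -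
    Complex.I * (cx Z T'' l (Sum.inr (), ()) *
      bl (wd (XT X T S u) (XT X T S v)) (XX Y T' S' w)))

end hom

end DWY
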