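import Pool.Agent.DWY.StA

/-!
# The determinant of the exterior square (helper59)
-/

set_option autoImplicit false

namespace DWY

theorem DetE_diag (D : Fin 3 ⊕ Unit → ℂ) : e2 (Matrix.diagonal D) = Matrix.diagonal
    (Sum.elim (fun i : Fin 3 => D (Sum.inl (i + 1)) * D (Sum.inl (i + 2)))
      (fun i : Fin 3 => D (Sum.inl i) * D (Sum.inr ()))) := by
  ext p q
  unfold e2 wdv crs
  rcases p with i | i <;> rcases q with j | j <;> fin_cases i <;> fin_cases j <;>
    simp [Matrix.diagonal_apply, Matrix.of_apply]

theorem DetE_detdiag (D : Fin 3 ⊕ Unit → ℂ) :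
    (e2 (Matrix.diagonal D)).det = (Matrix.diagonal D).det ^ 3 := by
  rw [DetE_diag, Matrix.det_diagonal, Matrix.det_diagonal, Fintype.prod_sum_type, Fintype.prod_sum_type]
  simp only [Sum.elim_inl, Sum.elim_inr, Fin.prod_univ_three, Finset.univ_unique, Finset.prod_singleton]
  show D (Sum.inl 1) * D (Sum.inl 2) * (D (Sum.inl 2) * D (Sum.inl 0)) *
    (D (Sum.inl 0) * D (Sum.inl 1)) * (D (Sum.inl 0) * D (Sum.inr ()) * (D (Sum.inl 1) * D (Sum.inr ())) *
    (D (Sum.inl 2) * D (Sum.inr ()))) = (D (Sum.inl 0) * D (Sum.inl 1) * D (Sum.inl 2) * D (Sum.inr ())) ^ 3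
  ring

theorem thm_DetE (h : St_WedA) : St_DetE := by
  obtain ⟨-, -, hm, h1, -⟩ := h
  intro g
  refine Matrix.diagonal_transvection_induction (fun g => (e2 g).det = g.det ^ 3) g
    (fun D _ => DetE_detdiag D) ?_ ?_
  · intro t
    obtain ⟨i, j, hij, c⟩ := t
    show (e2 (Matrix.transvection i j c)).det = (Matrix.transvection i j c).det ^ 3
    rw [Matrix.det_transvection_of_ne i j hij c, one_pow]
    have hadd : ∀ a b : ℂ, (e2 (Matrix.transvection i j (a + b))).det =
        (e2 (Matrix.transvection i j a)).det * (e2 (Matrix.transvection i j b)).det := by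
      intro a b
      rw [← Matrix.det_mul, ← hm, Matrix.transvection_mul_transvection_same i j hij]
    have h0 : (e2 (Matrix.transvection i j 0)).det = 1 := by
      rw [Matrix.transvection_zero, h1, Matrix.det_one]
    have hne : (e2 (Matrix.transvection i j c)).det ≠ 0 := by
      intro h2
      have h3 := hadd c (-c)
      rw [add_neg_cancel, h0, h2, zero_mul] at h3
      exact one_ne_zero h3
    set D : Fin 3 ⊕ Unit → ℂ := Function.update (fun _ => 1) i 2 with hD
    have hDi : D i = 2 := by rw [hD, Function.update_self]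
    have hDj : D j = 1 := by rw [hD, Function.update_of_ne hij.symm]
    have hcom : Matrix.diagonal D * Matrix.transvection i j c =
        Matrix.transvection i j (c + c) * Matrix.diagonal D := by
      unfold Matrix.transvection
      ext p q
      rw [Matrix.mul_add, Matrix.add_mul, Matrix.mul_one, Matrix.one_mul, Matrix.add_apply,
        Matrix.add_apply, Matrix.diagonal_mul, Matrix.mul_diagonal, Matrix.single_apply,
        Matrix.single_apply]
      by_cases hp : i = p ∧ j = q
      · rw [if_pos hp, if_pos hp, ← hp.1, ← hp.2, hDi, hDj]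
        ring
      · rw [if_neg hp, if_neg hp]
        ring
    have h4 := congrArg (fun M => (e2 M).det) hcom
    simp only [hm, Matrix.det_mul] at h4
    have hdet : (e2 (Matrix.diagonal D)).det ≠ 0 := by
      rw [DetE_detdiag, Matrix.det_diagonal]
      refine pow_ne_zero _ (Finset.prod_ne_zero_iff.2 fun s _ => ?_)
      rw [hD]
      by_cases hs : s = i
      · rw [hs, Function.update_self]
        exact two_ne_zero
      · rw [Function.update_of_ne hs]
        exact one_ne_zero
    rw [hadd c c, mul_comm] at h4
    have h5 := mul_right_cancel₀ hdet h4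
    have h6 : (e2 (Matrix.transvection i j c)).det * 1 =
        (e2 (Matrix.transvection i j c)).det * (e2 (Matrix.transvection i j c)).det := by
      rw [mul_one]
      exact h5
    exact (mul_left_cancel₀ hne h6).symm
  · intro A B hA hB
    show (e2 (A * B)).det = (A * B).det ^ 3
    rw [hm, Matrix.det_mul, Matrix.det_mul, hA, hB, mul_pow]

end DWY
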