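import Pool.Agent.DWY.StA
import Pool.Agent.GAM.C2
import Pool.Agent.GAM.FCalc
import Pool.Agent.GAM.Imm
import Pool.Agent.GAM.Ind1
import Pool.Agent.GAM.OddD
import Pool.Agent.GAM.Hol
import Pool.Agent.GAM.DelR
import Pool.Agent.GAM.Der

/-!
# DWY [PreS]: `ld`, `β` and diagonal endomorphisms
-/

set_option autoImplicit false
set_option linter.unusedSectionVars false

namespace DWY

open scoped ComplexConjugate Topology
open GAM Filter

theorem PreS_DelR : GAM.St_DelR := GAM.thm_DelR GAM.thm_Hol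

theorem PreS_Imm : GAM.St_Imm := GAM.thm_Imm (GAM.thm_Ind1 GAM.thm_OddD) GAM.thm_OddD

section

variable {ι : Type} [Fintype ι] [DecidableEq ι] {δ : Derivation ℚ ℂ ℂ}
  {L : Submodule ℤ (ι → ℂ)} {χ θ : (ι → ℂ) → ℂ}

/-- pulling back by a diagonal endomorphism -/
theorem PreS_diag (hR : DelRules ι δ) {s : ι → ℂ} (halg : ∀ a, IsAlgebraic ℚ (s a))
    (hne : ∀ a, s a ≠ 0) (hlat : ∀ l ∈ L, (fun a => s a * l a) ∈ L) {a b a' b' : (ι → ℂ) → ℂ}
    (h : QD δ L a b a' b') :
    QD δ L (fun v => a fun i => s i * v i) (fun v => b fun i => s i * v i)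
      (fun v => a' fun i => s i * v i) (fun v => b' fun i => s i * v i) where
  da := del_diag hR halg h.da
  db := del_diag hR halg h.db
  nz := by
    obtain ⟨v, hv⟩ := h.nz
    refine ⟨fun i => (s i)⁻¹ * v i, ?_⟩
    have : (fun i => s i * ((s i)⁻¹ * v i)) = v := by
      funext i; rw [mul_inv_cancel_left₀ (hne i)]
    simpa only [this] using hv
  fac := by
    obtain ⟨e, N, h1, h2, h3⟩ := h.fac
    have hadd : ∀ v l : ι → ℂ, (fun i => s i * (v + l) i) =
        (fun i => s i * v i) + fun i => s i * l i := by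
      intro v l; funext i; simp [mul_add]
    refine ⟨fun l v => e (fun i => s i * l i) (fun i => s i * v i), fun v => N fun i => s i * v i,
      ⟨h1.cont.comp (by fun_prop), fun l hl => (h1.hol _ (hlat l hl)).comp (by fun_prop), ?_⟩,
      ?_, ?_⟩
    · intro l hl v
      rw [h1.norm _ (hlat l hl), hadd]
    · intro l hl v
      simp only [hadd]
      exact h2 _ (hlat l hl) _
    · intro l hl v
      simp only [hadd]
      exact h3 _ (hlat l hl) _

/-- the first part -/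
theorem PreS_ld {s : ι → ℂ} {G : (ι → ℂ) → (ι → ℂ) → ℂ} {ld : (ι → ℂ) → ι → ℂ} (hP : PLat L χ)
    (hT : IsTh L χ θ) (h0 : ∃ v, θ v ≠ 0) (halg : ∀ a, IsAlgebraic ℚ (s a))
    (hne : ∀ a, s a ≠ 0) (hlat : ∀ l ∈ L, (fun a => s a * l a) ∈ L) (hPre : Pre0 δ L θ G ld)
    {l : ι → ℂ} (hl : l ∈ L) (j : ι) : ld (fun a => s a * l a) j = s j * ld l j := by
  have hR := PreS_DelR ι δ
  obtain ⟨w, hw⟩ := F_nz h0 0
  obtain ⟨n, c, hn, hy, hc, hJ⟩ := PreS_Imm ι L χ θ hP hT h0 0 w OddTor.zero hw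
  have hodd : ∀ i, OddTor L (c i) := fun i => ⟨n, hn, hc i⟩
  have hQ : ∀ i, QD δ L (fun v => F θ (c i) v ^ n) (fun v => F θ 0 v ^ n)
      (fun v => n * F θ (c i) v ^ (n - 1) * G (c i) v)
      (fun v => n * F θ 0 v ^ (n - 1) * G 0 v) := fun i =>
    QD_pow hR hP hT h0 (hc i) hy (hPre.del _ (hodd i)) (hPre.del 0 OddTor.zero)
  set f : ι → (ι → ℂ) → ℂ := fun i z => F θ (c i) z ^ n / F θ 0 z ^ n with hf
  set v : ι → ℂ := fun i => (s i)⁻¹ * w i with hv
  have hsv : (fun i => s i * v i) = w := by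
    funext i; simp only [hv]; rw [mul_inv_cancel_left₀ (hne i)]
  have hd0 := F_differentiable hT (0 : ι → ℂ)
  have key : ∀ i, ∑ j, (ld (fun a => s a * l a) j - s j * ld l j) * pd j (f i) w = 0 := by
    intro i
    have h1 := hPre.per _ _ _ _ (hQ i) _ (hlat l hl) w (pow_ne_zero n hw)
    have h2 := hPre.per _ _ _ _ (PreS_diag hR halg hne hlat (hQ i)) l hl v (by
      simp only [hsv]; exact pow_ne_zero n hw)
    have h3 : ∀ z : ι → ℂ, qd (fun v => (fun v => F θ (c i) v ^ n) fun i => s i * v i)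
        (fun v => (fun v => F θ 0 v ^ n) fun i => s i * v i)
        (fun v => (fun v => n * F θ (c i) v ^ (n - 1) * G (c i) v) fun i => s i * v i)
        (fun v => (fun v => n * F θ 0 v ^ (n - 1) * G 0 v) fun i => s i * v i) z =
        qd (fun v => F θ (c i) v ^ n) (fun v => F θ 0 v ^ n)
      (fun v => n * F θ (c i) v ^ (n - 1) * G (c i) v)
      (fun v => n * F θ 0 v ^ (n - 1) * G 0 v) (fun i => s i * z i) := fun z => rfl
    have h4 : (fun i => s i * (v + l) i) = w + fun i => s i * l i := by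
      rw [← hsv]; funext i; simp [mul_add]
    rw [h3, h3, h4, hsv, h1] at h2
    have h5 : ∀ j, pd j (fun z => (fun v => F θ (c i) v ^ n) (fun i => s i * z i) /
        (fun v => F θ 0 v ^ n) (fun i => s i * z i)) v = s j * pd j (f i) w := by
      intro j
      have h6 : DifferentiableAt ℂ (f i) (fun a => s a * v a) := by
        rw [hsv]
        exact diff_div ((F_differentiable hT (c i) w).pow n) ((hd0 w).pow n) (pow_ne_zero n hw)
      have h7 := pd_diag' s v j h6
      rw [hsv] at h7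
      exact h7
    simp only [h5] at h2
    simp only [sub_mul, Finset.sum_sub_distrib]
    rw [sub_eq_zero]
    rw [h2]
    exact Finset.sum_congr rfl fun j _ => by ring
  have h8 : (fun j => ld (fun a => s a * l a) j - s j * ld l j) = 0 := by
    apply Matrix.eq_zero_of_mulVec_eq_zero hJ
    funext i
    have := key i
    simp only [Matrix.mulVec, dotProduct, jac, Matrix.of_apply, Pi.zero_apply]
    rw [← this]
    exact Finset.sum_congr rfl fun j _ => mul_comm _ _
  exact sub_eq_zero.1 (congrFun h8 j)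

/-- the differences of the derivatives of `G / F` -/
theorem PreS_dw {G : (ι → ℂ) → (ι → ℂ) → ℂ} {ld : (ι → ℂ) → ι → ℂ} {β₀ : (ι → ℂ) → ℂ}
    {β : (ι → ℂ) → ι → ℂ} (hP : PLat L χ) (hT : IsTh L χ θ) (hPre : Pre δ L θ G ld β₀ β)
    {l : ι → ℂ} (hl : l ∈ L) (a : ι) {w : ι → ℂ} (hw : F θ 0 w ≠ 0) :
    pd a (fun z => G 0 z / F θ 0 z) (w + l) - pd a (fun z => G 0 z / F θ 0 z) w =
      β l a + ∑ j, ld l j * pd j (fun z => pd a (F θ 0) z / F θ 0 z) w := by
  have hd := F_differentiable hT (0 : ι → ℂ)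
  have hG := hPre.del 0 OddTor.zero
  have hwl : F θ 0 (w + l) ≠ 0 := F_ne_lat hP hT hl hw
  have hu : ∀ z, F θ 0 z ≠ 0 → DifferentiableAt ℂ (fun z => G 0 z / F θ 0 z) z := fun z hz =>
    diff_div (hG.ent' z) (hd z) hz
  have hom : ∀ j, DifferentiableAt ℂ (fun z => pd j (F θ 0) z / F θ 0 z) w := fun j =>
    diff_div (ent_pd hd j w) (hd w) hw
  have h1 : ∀ᶠ z in 𝓝 w, G 0 (z + l) / F θ 0 (z + l) - G 0 z / F θ 0 z =
      (β₀ l + ∑ j, β l j * z j) + ∑ j, ld l j * (pd j (F θ 0) z / F θ 0 z) := by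
    filter_upwards [hd.continuous.continuousAt.eventually_ne hw] with z hz
    exact hPre.diff l hl 0 OddTor.zero z hz
  have h2 := pd_congr' h1 a
  have hul : DifferentiableAt ℂ (fun z => G 0 (z + l) / F θ 0 (z + l)) w := by
    have h3 := hu (w + l) hwl
    have h4 : DifferentiableAt ℂ (fun z : ι → ℂ => z + l) w := by fun_prop
    exact DifferentiableAt.comp (f := fun z : ι → ℂ => z + l) w h3 h4
  have hsum : DifferentiableAt ℂ
      (fun z : ι → ℂ => ∑ j, ld l j * (pd j (F θ 0) z / F θ 0 z)) w :=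
    DifferentiableAt.fun_sum fun j _ => (hom j).const_mul _
  rw [pd_sub' hul (hu w hw), pd_add' (by fun_prop) hsum, pd_add' (by fun_prop) (by fun_prop),
    pd_const', zero_add] at h2
  have h5 : pd a (fun z => G 0 (z + l) / F θ 0 (z + l)) w =
      pd a (fun z => G 0 z / F θ 0 z) (w + l) := pd_shift' (fun z => G 0 z / F θ 0 z) l w a
  have h6 : pd a (fun z : ι → ℂ => ∑ j, β l j * z j) w = β l a := by
    rw [pd_sum Finset.univ (f := fun j (z : ι → ℂ) => β l j * z j) (fun j _ => by fun_prop)]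
    have h7 : ∀ j, pd a (fun z : ι → ℂ => β l j * z j) w = if j = a then β l j else 0 := by
      intro j
      rw [pd_const_mul' (by fun_prop), pd_coord']
      by_cases hj : j = a <;> simp [hj]
    simp [h7]
  have h8 : pd a (fun z : ι → ℂ => ∑ j, ld l j * (pd j (F θ 0) z / F θ 0 z)) w =
      ∑ j, ld l j * pd j (fun z => pd a (F θ 0) z / F θ 0 z) w := by
    rw [pd_sum Finset.univ (f := fun j (z : ι → ℂ) => ld l j * (pd j (F θ 0) z / F θ 0 z))
      (fun j _ => (hom j).const_mul _)]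
    refine Finset.sum_congr rfl fun j _ => ?_
    rw [pd_const_mul' (hom j), om_comm hd a j hw]
  rw [h5, h6, h8] at h2
  exact h2

/-- the second part -/
theorem PreS_be {s : ι → ℂ} {G : (ι → ℂ) → (ι → ℂ) → ℂ} {ld : (ι → ℂ) → ι → ℂ}
    {β₀ : (ι → ℂ) → ℂ} {β : (ι → ℂ) → ι → ℂ} (hP : PLat L χ)
    (hT : IsTh L χ θ) (h0 : ∃ v, θ v ≠ 0) (halg : ∀ a, IsAlgebraic ℚ (s a))
    (hne : ∀ a, s a ≠ 0) (hlat : ∀ l ∈ L, (fun a => s a * l a) ∈ L)
    (hPre : Pre δ L θ G ld β₀ β) {l : ι → ℂ} (hl : l ∈ L) (a : ι) :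
    β (fun a => s a * l a) a = conj (s a) * β l a := by
  have hR := PreS_DelR ι δ
  have hd := F_differentiable hT (0 : ι → ℂ)
  have hG := hPre.del 0 OddTor.zero
  obtain ⟨S, hS⟩ : ∃ S : (ι → ℂ) → ι → ℂ, ∀ v, S v = fun i => s i * v i := ⟨_, fun _ => rfl⟩
  have hSadd : ∀ v w : ι → ℂ, S (v + w) = S v + S w := by
    intro v w
    rw [hS, hS, hS]
    funext i
    simp [mul_add]
  have hSl : S l ∈ L := by
    rw [hS]
    exact hlat l hl
  have hSf : S = fun v i => s i * v i := funext hS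
  have hSd : Differentiable ℂ S := by
    rw [hSf]
    fun_prop
  have hc : δ (conj (s a)) = 0 := by
    have h1 : IsAlgebraic ℚ (conj (s a)) :=
      (halg a).algHom ((starRingEnd ℂ : ℂ →+* ℂ).toRatAlgHom)
    exact (thm_Der _).1 h1 δ
  have hc' : δ (-conj (s a)) = 0 := by rw [map_neg, hc, neg_zero]
  -- derivatives of the composites
  have hdS : ∀ {x y : (ι → ℂ) → ℂ}, IsDel δ x y → IsDel δ (fun v => x (S v)) (fun v => y (S v)) := by
    intro x y h
    simp only [hS]
    exact del_diag hR halg h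
  have hfS := hdS hG
  have hpd := hR.pd a _ _ hG
  have hpS := hdS hpd
  have hA := hR.add _ _ _ _ (hR.mul _ _ _ _ hpS hG)
    (hR.mul _ _ _ _ (hR.const (-conj (s a))) (hR.mul _ _ _ _ hfS hpd))
  have hB := hR.mul _ _ _ _ hfS hG
  have hnzS : ∃ v, F θ 0 (S v) ≠ 0 := by
    obtain ⟨v, hv⟩ := F_nz h0 (0 : ι → ℂ)
    refine ⟨fun i => (s i)⁻¹ * v i, ?_⟩
    rw [hS]
    have : (fun i => s i * ((s i)⁻¹ * v i)) = v := by
      funext i; rw [mul_inv_cancel_left₀ (hne i)]
    simpa only [this] using hv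
  obtain ⟨v, hv⟩ := ent_mul_ne (hd.comp hSd) hd hnzS (F_nz h0 0)
  have hv1 : F θ 0 (S v) ≠ 0 := left_ne_zero_of_mul hv
  have hv2 : F θ 0 v ≠ 0 := right_ne_zero_of_mul hv
  -- the periodic function
  have hfac1 : Fac L (fun l v => fac χ 0 (S l) (S v))
      (fun v => Real.pi / 2 * (H (S v) (S v)).re) := by
    have h1 := fac_F hP (0 : ι → ℂ)
    refine ⟨h1.cont.comp hSd.continuous, fun l hl => ?_, fun l hl v => ?_⟩
    · have h2 : S l ∈ L := by
        rw [hS]
        exact hlat l hl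
      exact (h1.hol _ h2).comp hSd
    · have h2 : S l ∈ L := by
        rw [hS]
        exact hlat l hl
      rw [h1.norm _ h2, hSadd]
  have hQ := QD.mk hA hB ⟨v, hv⟩ ⟨fun l v => fac χ 0 (S l) (S v) * fac χ 0 l v,
    fun v => Real.pi / 2 * (H (S v) (S v)).re + Real.pi / 2 * (H v v).re,
    hfac1.mul (fac_F hP 0), ?_, ?_⟩
  rotate_left
  · intro l hl z
    have h2 : S l ∈ L := by
      rw [hS]
      exact hlat l hl
    have e1 := F_quasi hT h2 (0 : ι → ℂ) (S z)
    have e2 := F_quasi hT hl (0 : ι → ℂ) z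
    have e3 := pd_F_quasi hT h2 (0 : ι → ℂ) (S z) a
    have e4 := pd_F_quasi hT hl (0 : ι → ℂ) z a
    have e5 : conj (S l a) = conj (s a) * conj (l a) := by
      rw [hS]
      simp
    change F θ 0 (S z + S l) = fac χ 0 (S l) (S z) * F θ 0 (S z) at e1
    change F θ 0 (z + l) = fac χ 0 l z * F θ 0 z at e2
    simp only [hSadd]
    rw [e1, e2, e3, e4, e5]
    ring
  · intro l hl z
    have h2 : S l ∈ L := by
      rw [hS]
      exact hlat l hl
    have e1 := F_quasi hT h2 (0 : ι → ℂ) (S z)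
    have e2 := F_quasi hT hl (0 : ι → ℂ) z
    change F θ 0 (S z + S l) = fac χ 0 (S l) (S z) * F θ 0 (S z) at e1
    change F θ 0 (z + l) = fac χ 0 l z * F θ 0 z at e2
    simp only [hSadd]
    rw [e1, e2]
    ring
  have hper := hPre.per _ _ _ _ hQ l hl v hv
  -- the derivative of the periodic function
  have hq : ∀ z, F θ 0 (S z) ≠ 0 → F θ 0 z ≠ 0 →
      qd (fun v => pd a (F θ 0) (S v) * F θ 0 v + -conj (s a) * (F θ 0 (S v) * pd a (F θ 0) v))
        (fun v => F θ 0 (S v) * F θ 0 v)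
        (fun v => (pd a (G 0) (S v) * F θ 0 v + pd a (F θ 0) (S v) * G 0 v) +
          (δ (-conj (s a)) * (F θ 0 (S v) * pd a (F θ 0) v) +
            -conj (s a) * (G 0 (S v) * pd a (F θ 0) v + F θ 0 (S v) * pd a (G 0) v)))
        (fun v => G 0 (S v) * F θ 0 v + F θ 0 (S v) * G 0 v) z =
      pd a (fun z => G 0 z / F θ 0 z) (S z) - conj (s a) * pd a (fun z => G 0 z / F θ 0 z) z := by
    intro z hz1 hz2
    rw [pd_div' (hG.ent' _) (hd _) hz1, pd_div' (hG.ent' _) (hd _) hz2, qd, hc']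
    field_simp
    ring
  have hvl2 : F θ 0 (v + l) ≠ 0 := F_ne_lat hP hT hl hv2
  have hvl1 : F θ 0 (S (v + l)) ≠ 0 := by
    rw [hSadd]
    exact F_ne_lat hP hT hSl hv1
  have e1 := hq v hv1 hv2
  have e2 := hq (v + l) hvl1 hvl2
  have hom : ∀ z, F θ 0 z ≠ 0 → DifferentiableAt ℂ (fun z => pd a (F θ 0) z / F θ 0 z) z :=
    fun z hz => diff_div (ent_pd hd a z) (hd z) hz
  have e3 : ∀ j, pd j (fun z => (pd a (F θ 0) (S z) * F θ 0 z +
      -conj (s a) * (F θ 0 (S z) * pd a (F θ 0) z)) / (F θ 0 (S z) * F θ 0 z)) v =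
      s j * pd j (fun z => pd a (F θ 0) z / F θ 0 z) (S v) -
        conj (s a) * pd j (fun z => pd a (F θ 0) z / F θ 0 z) v := by
    intro j
    have h1 : ∀ᶠ z in 𝓝 v, (pd a (F θ 0) (S z) * F θ 0 z +
        -conj (s a) * (F θ 0 (S z) * pd a (F θ 0) z)) / (F θ 0 (S z) * F θ 0 z) =
        pd a (F θ 0) (S z) / F θ 0 (S z) - conj (s a) * (pd a (F θ 0) z / F θ 0 z) := by
      filter_upwards [((hd.comp hSd).mul hd).continuous.continuousAt.eventually_ne hv] with z hz
      have hz1 : F θ 0 (S z) ≠ 0 := left_ne_zero_of_mul hz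
      have hz2 : F θ 0 z ≠ 0 := right_ne_zero_of_mul hz
      field_simp
      ring
    rw [pd_congr' h1 j]
    have d1 : DifferentiableAt ℂ (fun z => pd a (F θ 0) (S z) / F θ 0 (S z)) v :=
      DifferentiableAt.comp (f := S) v (hom (S v) hv1) (hSd v)
    rw [pd_sub' d1 ((hom v hv2).const_mul _), pd_const_mul' (hom v hv2)]
    congr 1
    have h2 := hom (S v) hv1
    rw [hS v] at h2 ⊢
    have h3 := pd_diag' s v j h2
    rw [← h3]
    simp only [hS]
  have e4 := PreS_dw hP hT hPre hl a hv2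
  have e5 := PreS_dw hP hT hPre hSl a hv1
  have e6 : ∀ j, ld (S l) j = s j * ld l j := by
    intro j
    rw [hS]
    exact PreS_ld hP hT h0 halg hne hlat ⟨hPre.del, hPre.per⟩ hl j
  have e7 : β (S l) a = conj (s a) * β l a := by
    have hper2 := e2.symm.trans (eq_add_of_sub_eq hper)
    have hper3 : ∑ j, ld l j * pd j (fun z => (pd a (F θ 0) (S z) * F θ 0 z +
      -conj (s a) * (F θ 0 (S z) * pd a (F θ 0) z)) / (F θ 0 (S z) * F θ 0 z)) v =
        ∑ j, s j * ld l j * pd j (fun z => pd a (F θ 0) z / F θ 0 z) (S v) -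
        conj (s a) * ∑ j, ld l j * pd j (fun z => pd a (F θ 0) z / F θ 0 z) v := by
      rw [Finset.mul_sum, ← Finset.sum_sub_distrib]
      refine Finset.sum_congr rfl fun j _ => ?_
      rw [e3 j]
      ring
    simp only [e6] at e5
    rw [hSadd] at hper2
    have hper4 := hper2.trans (congrArg₂ (· + ·) hper3 e1)
    linear_combination hper4 - e5 + conj (s a) * e4
  rw [hS] at e7
  exact e7

end

theorem thm_PreS : St_PreS := by
  intro ι _ _ δ L χ θ G ld β₀ β s hP hT h0 hPre halg hne hlat l hl j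
  exact ⟨PreS_ld hP hT h0 halg hne hlat ⟨hPre.del, hPre.per⟩ hl j,
    PreS_be hP hT h0 halg hne hlat hPre hl j⟩

end DWY
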