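import Pool.Agent.DWY.Defs

/-!
# DWY: frozen statements, operators and Fock vectors
-/

set_option autoImplicit false

namespace DWY

open scoped ComplexConjugate
open GAM (H E F pd pdl PLat IsTh OddTor IsDel Gro IsLat Pre)
open PST DWC
open Pool.Agent.GPC (AbVar hermForm bilForm)

/-! ## Part A. The operator of the second order for any principal lattice -/

/-- [C2h] linear algebra -/
def St_C2h : Prop := ∀ (ι : Type) [Fintype ι] [DecidableEq ι] (L : Submodule ℤ (ι → ℂ))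
  (ld β : (ι → ℂ) → ι → ℂ), IsLat L →
  (∀ l ∈ L, ∀ m ∈ L, ld (l + m) = ld l + ld m ∧ β (l + m) = β l + β m ∧
    ∑ j, β l j * m j + Real.pi * ∑ j, ld l j * conj (m j) =
      ∑ j, β m j * l j + Real.pi * ∑ j, ld m j * conj (l j)) →
  ∃ B C D : Matrix ι ι ℂ, C.transpose = C ∧ D.transpose = D ∧ ∀ l ∈ L,
    (∀ j, ld l j = ∑ i, B j i * l i + ∑ i, D j i * conj (l i)) ∧
    ∀ j, β l j = ∑ i, C j i * l i + Real.pi * ∑ i, B i j * conj (l i)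

/-- [PreS] `ld`, `β` and diagonal endomorphisms -/
def St_PreS : Prop := ∀ (ι : Type) [Fintype ι] [DecidableEq ι] (δ : Derivation ℚ ℂ ℂ)
  (L : Submodule ℤ (ι → ℂ)) (χ θ : (ι → ℂ) → ℂ) (G : (ι → ℂ) → (ι → ℂ) → ℂ)
  (ld : (ι → ℂ) → ι → ℂ) (β₀ : (ι → ℂ) → ℂ) (β : (ι → ℂ) → ι → ℂ) (s : ι → ℂ),
  PLat L χ → IsTh L χ θ → (∃ v, θ v ≠ 0) → Pre δ L θ G ld β₀ β →
  (∀ a, IsAlgebraic ℚ (s a)) → (∀ a, s a ≠ 0) → (∀ l ∈ L, (fun a => s a * l a) ∈ L) →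
  ∀ l ∈ L, ∀ j, ld (fun a => s a * l a) j = s j * ld l j ∧
    β (fun a => s a * l a) j = conj (s j) * β l j

/-- [C2k] block form -/
def St_C2k : Prop := ∀ (α β : Type) [Fintype α] [Fintype β] [DecidableEq α] [DecidableEq β]
  (d : ℚ) (N : ℕ) (L : Submodule ℤ (Ix α β Unit → ℂ))
  (B C D : Matrix (Ix α β Unit) (Ix α β Unit) ℂ)
  (ld bt : (Ix α β Unit → ℂ) → Ix α β Unit → ℂ), 0 < d → N ≠ 0 → IsLat L → KL d N L →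
  (∀ l ∈ L, (∀ j, ld l j = ∑ i, B j i * l i + ∑ i, D j i * conj (l i)) ∧
    ∀ j, bt l j = ∑ i, C j i * l i + Real.pi * ∑ i, B i j * conj (l i)) →
  C.transpose = C → D.transpose = D →
  (∀ s : Ix α β Unit → ℂ, (∀ a, IsAlgebraic ℚ (s a)) → (∀ a, s a ≠ 0) →
    (∀ l ∈ L, (fun a => s a * l a) ∈ L) → ∀ l ∈ L, ∀ j,
      ld (fun a => s a * l a) j = s j * ld l j ∧ bt (fun a => s a * l a) j = conj (s j) * bt l j) →
  ∃ (Bp : Matrix α α ℂ) (Bm : Matrix β β ℂ) (c b : Matrix α β ℂ),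
    B = blk Unit Bp Bm ∧ C = qb c ∧ D = qb b

/-- [C3h] shape of the functions `δ F_x` -/
def St_C3h : Prop := ∀ (ι : Type) [Fintype ι] [DecidableEq ι] (δ : Derivation ℚ ℂ ℂ)
  (L : Submodule ℤ (ι → ℂ)) (χ θ : (ι → ℂ) → ℂ) (G : (ι → ℂ) → (ι → ℂ) → ℂ)
  (ld : (ι → ℂ) → ι → ℂ) (β₀ : (ι → ℂ) → ℂ) (β : (ι → ℂ) → ι → ℂ) (B C D : Matrix ι ι ℂ),
  PLat L χ → IsTh L χ θ → (∃ v, θ v ≠ 0) → Pre δ L θ G ld β₀ β → C.transpose = C →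
  D.transpose = D →
  (∀ l ∈ L, (∀ j, ld l j = ∑ i, B j i * l i + ∑ i, D j i * conj (l i)) ∧
    ∀ j, β l j = ∑ i, C j i * l i + Real.pi * ∑ i, B i j * conj (l i)) →
  ∃ k : (ι → ℂ) → ℂ, ∀ x, OddTor L x → ∀ v, G x v = gop2 (k x) B C D (F θ x) v

/-- [AddH] the addition formula and the second order bilinear relation -/
def St_AddH : Prop := ∀ (ι : Type) [Fintype ι] [DecidableEq ι] (L : Submodule ℤ (ι → ℂ))
  (χ θ : (ι → ℂ) → ℂ), PLat L χ → IsTh L χ θ → (∃ v, θ v ≠ 0) →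
  ∃ (r : ℕ) (c : Fin (r + 1) → ι → ℂ) (κ : Fin (r + 1) → (ι → ℂ) → ℂ)
    (κ₃ : ι → ι → Fin (r + 1) → (ι → ℂ) → ℂ),
    c 0 = 0 ∧ (∀ i, OddTor L (c i)) ∧ Continuous (κ 0) ∧ κ 0 0 = 1 ∧
    (∀ σ, LinearIndependent ℂ fun (i : Fin (r + 1)) (v : ι → ℂ) =>
      F θ (σ + c i) v * F θ (σ - c i) v) ∧
    (∀ σ ρ v, F θ (σ + ρ) v * F θ (σ - ρ) v =
      ∑ i, κ i ρ * (F θ (σ + c i) v * F θ (σ - c i) v)) ∧
    ∀ a b σ ρ v, pd a (pd b (F θ (σ + ρ))) v * F θ (σ - ρ) v +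
        F θ (σ + ρ) v * pd a (pd b (F θ (σ - ρ))) v -
        pd a (F θ (σ + ρ)) v * pd b (F θ (σ - ρ)) v -
        pd b (F θ (σ + ρ)) v * pd a (F θ (σ - ρ)) v =
      ∑ i, κ₃ a b i ρ * (F θ (σ + c i) v * F θ (σ - c i) v)

/-- [C5h] the constants are equal -/
def St_C5h : Prop := ∀ (ι : Type) [Fintype ι] [DecidableEq ι] (δ : Derivation ℚ ℂ ℂ)
  (L : Submodule ℤ (ι → ℂ)) (χ θ : (ι → ℂ) → ℂ) (B C D : Matrix ι ι ℂ) (k : (ι → ℂ) → ℂ),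
  PLat L χ → IsTh L χ θ → (∃ v, θ v ≠ 0) →
  (∀ x, OddTor L x → IsDel δ (F θ x) (gop2 (k x) B C D (F θ x))) →
  ∀ x y, OddTor L x → OddTor L y → k x = k y

/-- [HopG] `gop2` with blocks is `hop2` -/
def St_HopG : Prop := ∀ (α β : Type) [Fintype α] [Fintype β] [DecidableEq α] [DecidableEq β]
  (k : ℂ) (Bp : Matrix α α ℂ) (Bm : Matrix β β ℂ) (c b : Matrix α β ℂ)
  (G : (Ix α β Unit → ℂ) → ℂ), (gop k (blk Unit Bp Bm) (qb c) G = hop k Bp Bm c G) ∧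
  (hop2 k Bp Bm c 0 G = hop k Bp Bm c G) ∧
  (Differentiable ℂ G → gop2 k (blk Unit Bp Bm) (qb c) (qb b) G = hop2 k Bp Bm c b G)

/-- [HatU] existence of the operator -/
def St_HatU : Prop := ∀ (α β : Type) [Fintype α] [Fintype β] [DecidableEq α] [DecidableEq β]
  (d : ℚ) (N : ℕ) (δ : Derivation ℚ ℂ ℂ) (L : Submodule ℤ (Ix α β Unit → ℂ))
  (χ θ : (Ix α β Unit → ℂ) → ℂ), 0 < d → N ≠ 0 → PLat L χ → IsTh L χ θ → (∃ v, θ v ≠ 0) →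
  KL d N L → ∃ (k : ℂ) (Bp : Matrix α α ℂ) (Bm : Matrix β β ℂ) (c b : Matrix α β ℂ),
    HasHat2 δ L θ k Bp Bm c b

/-! ## Part B. Fock vectors and the exterior square -/

/-- [HatF] the operator `hop2` and the Fock functional -/
def St_HatF : Prop := ∀ (α β μ : Type) [Fintype α] [Fintype β] [Fintype μ] [DecidableEq α]
  [DecidableEq β] [DecidableEq μ] (k : ℂ) (Bp : Matrix α α ℂ) (Bm : Matrix β β ℂ)
  (c b : Matrix α β ℂ) (G : (Ix α β μ → ℂ) → ℂ), Gro G → Gro (hop2 k Bp Bm c b G) ∧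
  ∀ w ∈ Om α β, ell w (hop2 k Bp Bm c b G) =
    (k + Fintype.card μ / Real.pi * ∑ i, ∑ j, c i j * w (i, j)) * ell w G +
      ∑ p, (xi Bp Bm c w p + b p.1 p.2) * pd p (fun w => ell w G) w

/-- [DelF] `δ` and the Fock vectors -/
def St_DelF : Prop := ∀ (α β μ : Type) [Fintype α] [Fintype β] [Fintype μ] [DecidableEq α]
  [DecidableEq β] [DecidableEq μ] (δ : Derivation ℚ ℂ ℂ) (L : Submodule ℤ (Ix α β μ → ℂ))
  (χ θ : (Ix α β μ → ℂ) → ℂ) (k : ℂ) (Bp : Matrix α α ℂ) (Bm : Matrix β β ℂ)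
  (c b : Matrix α β ℂ), PLat L χ → IsTh L χ θ → HasHat2 δ L θ k Bp Bm c b →
  ∀ y, OddTor L y → IsDelG δ (fun w => psi θ w y) (fun w =>
    (k + Fintype.card μ / Real.pi * ∑ i, ∑ j, c i j * w (i, j)) * psi θ w y +
      ∑ p, (xi Bp Bm c w p + b p.1 p.2 - δ Real.pi / Real.pi * w p) *
        pd p (fun w => psi θ w y) w)

/-- [DelL] `δ` and linear substitutions with algebraic coefficients -/
def St_DelL : Prop := ∀ (κ κ' : Type) [Fintype κ] [DecidableEq κ] [Fintype κ'] [DecidableEq κ']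
  (δ : Derivation ℚ ℂ ℂ) (M : Matrix κ κ' ℂ) (a a' : (κ → ℂ) → ℂ),
  (∀ i j, IsAlgebraic ℚ (M i j)) → IsDelG δ a a' →
  IsDelG δ (fun w : κ' → ℂ => a (M.mulVec w)) (fun w => a' (M.mulVec w))

/-- [WedA] algebra of the exterior square -/
def St_WedA : Prop :=
  (∀ (g : Matrix (Fin 3 ⊕ Unit) (Fin 3 ⊕ Unit) ℂ) (X Y : IX → ℂ),
    mu (e2 g) (wd X Y) = wd (mu g X) (mu g Y)) ∧
  (∀ (g : Matrix (Fin 3 ⊕ Unit) (Fin 3 ⊕ Unit) ℂ) (x y : IX → ℂ),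
    act (e2 g) (we x y) = we (act g x) (act g y)) ∧
  (∀ g h : Matrix (Fin 3 ⊕ Unit) (Fin 3 ⊕ Unit) ℂ, e2 (g * h) = e2 g * e2 h) ∧
  e2 (1 : Matrix (Fin 3 ⊕ Unit) (Fin 3 ⊕ Unit) ℂ) = 1 ∧
  (∀ x x' y : IX → ℂ, we (x + x') y = we x y + we x' y) ∧
  (∀ x y y' : IX → ℂ, we x (y + y') = we x y + we x y') ∧
  (∀ (r : ℝ) (x y : IX → ℂ), we ((r : ℂ) • x) y = (r : ℂ) • we x y ∧
    we x ((r : ℂ) • y) = (r : ℂ) • we x y) ∧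
  (∀ X : IX → ℂ, wd X X = 0) ∧
  (∀ X X' Y : IX → ℂ, wd (X + X') Y = wd X Y + wd X' Y ∧ wd Y (X + X') = wd Y X + wd Y X') ∧
  (∀ (c : ℂ) (X Y : IX → ℂ), wd (c • X) Y = c • wd X Y ∧ wd X (c • Y) = c • wd X Y) ∧
  (∀ P : IY → ℂ, (∀ X Y : IX → ℂ, bl (wd X Y) P = 0) → P = 0)

/-- [UE2] the exterior square of the unitary group -/
def St_UE2 : Prop := ∀ g : Matrix (Fin 3 ⊕ Unit) (Fin 3 ⊕ Unit) ℂ, IsU g → IsU (e2 g)

/-- [DetE] the determinant of the exterior square -/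
def St_DetE : Prop := ∀ g : Matrix (Fin 3 ⊕ Unit) (Fin 3 ⊕ Unit) ℂ, (e2 g).det = g.det ^ 3

/-- [RhoM] the embedding of the ball -/
def St_RhoM : Prop :=
  (∀ ρ : ℝ, 0 ≤ ρ → ∀ w ∈ OmC (Fin 3) Unit ρ, rho w ∈ OmC (Fin 3) (Fin 3) ρ) ∧
  (∀ w ∈ Om (Fin 3) Unit, rho w ∈ Om (Fin 3) (Fin 3)) ∧
  (∀ g : Matrix (Fin 3 ⊕ Unit) (Fin 3 ⊕ Unit) ℂ, IsU g → ∀ w ∈ Om (Fin 3) Unit,
    mob (e2 g) (rho w) = rho (mob g w)) ∧ rho 0 = 0 ∧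
  ∃ M : Matrix WY WX ℂ, (∀ i j, IsAlgebraic ℚ (M i j)) ∧ ∀ w, rho w = M.mulVec w

/-- [DelY] the action of `δ` on the functions `YF` -/
def St_DelY : Prop := ∀ (δ : Derivation ℚ ℂ ℂ) (L : Submodule ℤ (IX → ℂ)) (χ θ : (IX → ℂ) → ℂ)
  (LY : Submodule ℤ (IY → ℂ)) (χY θY : (IY → ℂ) → ℂ) (k : ℂ) (Bp : Matrix (Fin 3) (Fin 3) ℂ)
  (Bm : Matrix Unit Unit ℂ) (c b : Matrix (Fin 3) Unit ℂ) (k' : ℂ)
  (BpY BmY cY bY : Matrix (Fin 3) (Fin 3) ℂ), PLat L χ → IsTh L χ θ → PLat LY χY →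
  IsTh LY χY θY → HasHat2 δ L θ k Bp Bm c b → HasHat2 δ LY θY k' BpY BmY cY bY →
  ∃ (K : (WX → ℂ) → ℂ) (Ξ : WX → (WX → ℂ) → ℂ),
    ∀ (y : Option WX → IX → ℂ) (y' : Bool → IY → ℂ), (∀ i, OddTor L (y i)) →
    (∀ i, OddTor LY (y' i)) → ∀ o, IsDelG δ (fun w => YF θ θY y y' w o) (fun w =>
      K w * YF θ θY y y' w o + ∑ p, Ξ p w * pd p (fun w => YF θ θY y y' w o) w +
        psi θ w (y (o.getD none)) * ∑ p, vY Bp Bm c b BpY BmY cY bY w p *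
          pd p (fun u => psi θY u (y' o.isNone)) (rho w))

/-! ## Part C. Lattices -/

/-- [CmsG] transport of the pair of lattices -/
def St_CmsG : Prop := ∀ (s : ℝ) (M : ℕ) (g : Matrix (Fin 3 ⊕ Unit) (Fin 3 ⊕ Unit) ℂ)
  (L₁ L₀ : Submodule ℤ (IX → ℂ)) (LY₁ LY₀ : Submodule ℤ (IY → ℂ)), IsU g →
  (∀ x, x ∈ L₁ ↔ act g x ∈ L₀) → (∀ x, x ∈ LY₁ ↔ act (e2 g) x ∈ LY₀) → Cms s M L₁ LY₁ →
  Cms s M L₀ LY₀

/-- [CmsK] the lattices of the CM point -/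
def St_CmsK : Prop := ∀ (d : ℚ) (r : Fin 3 ⊕ Unit → ℝ) (q : Fin 3 ⊕ Unit → ℚ), IsR d r q →
  IsR d (rY d r) (qY d q) ∧ ∀ (L : Submodule ℤ (IX → ℂ)) (LY : Submodule ℤ (IY → ℂ)),
    IsLK d r q L → IsLK d (rY d r) (qY d q) LY → ∃ N M : ℕ, Cms ((N : ℝ) * d4 d) M L LY

/-- [CocP] cocompactness up to half planes for the pair -/
def St_CocP : Prop := ∀ (e : ℕ) (s : ℝ) (M : ℕ) (L : Submodule ℤ (IX → ℂ))
  (LY : Submodule ℤ (IY → ℂ)), Cms s M L LY → CocH e L → CocP e L LY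

end DWY
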