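import Pool.Agent.DWY.StA

/-!
# DWY: frozen statements, the algebraic relation and the operator of the exterior square
-/

set_option autoImplicit false

namespace DWY

open scoped ComplexConjugate
open GAM (H E F pd pdl PLat IsTh OddTor IsDel Gro IsLat Pre)
open PST DWC
open Pool.Agent.GPC (AbVar hermForm bilForm)

/-! ## Part D. The algebraic relation -/

/-- [TorQ] invariance of the Fock vectors at the points of finite order -/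
def St_TorQ : Prop := ∀ (α β μ : Type) [Fintype α] [Fintype β] [Fintype μ] [DecidableEq α]
  [DecidableEq β] [DecidableEq μ] (g : Matrix (α ⊕ β) (α ⊕ β) ℂ)
  (L : Submodule ℤ (Ix α β μ → ℂ)) (χ θ : (Ix α β μ → ℂ) → ℂ) (n : ℕ), PLat L χ →
  IsTh L χ θ → (∃ v, θ v ≠ 0) → n ≠ 0 → IsU g → (∀ x : Ix α β μ → ℂ, x ∈ L ↔ act g x ∈ L) →
  (∀ l ∈ L, ∃ m ∈ L, act g l = l + ((2 * n ^ 2 : ℕ) : ℤ) • m) → ∀ w ∈ Om α β, ∃ j : ℂ, j ≠ 0 ∧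
    (∀ t, psi θ (mob g w) (act g t) = j * psi θ w t) ∧
    ∀ y, (n : ℤ) • y ∈ L → psi θ (mob g w) y = j * psi θ w y

/-- [SieY] existence of an algebraic relation -/
def St_SieY : Prop := ∀ (L : Submodule ℤ (IX → ℂ)) (χ θ : (IX → ℂ) → ℂ)
  (LY : Submodule ℤ (IY → ℂ)) (χY θY : (IY → ℂ) → ℂ) (e : ℕ) (y : Option WX → IX → ℂ)
  (y' : Bool → IY → ℂ), PLat L χ → IsTh L χ θ → (∃ v, θ v ≠ 0) → PLat LY χY → IsTh LY χY θY →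
  (∃ v, θY v ≠ 0) → CocP e L LY → (∀ i, OddTor L (y i)) → (∀ i, OddTor LY (y' i)) →
  ∃ (m : ℕ) (P : MvPolynomial (Option (Option WX)) ℂ), P ≠ 0 ∧ P.IsHomogeneous m ∧
    ∀ w ∈ Om (Fin 3) Unit, MvPolynomial.eval (fun i => YF θ θY y y' w i) P = 0

/-- [RelY] the algebraic relation -/
def St_RelY : Prop := ∀ (L : Submodule ℤ (IX → ℂ)) (χ θ : (IX → ℂ) → ℂ)
  (LY : Submodule ℤ (IY → ℂ)) (χY θY : (IY → ℂ) → ℂ) (e : ℕ) (y : Option WX → IX → ℂ)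
  (y' : Bool → IY → ℂ), PLat L χ → IsTh L χ θ → (∃ v, θ v ≠ 0) → PLat LY χY → IsTh LY χY θY →
  (∃ v, θY v ≠ 0) → CocP e L LY → (∀ i, OddTor L (y i)) → (∀ i, OddTor LY (y' i)) →
  psi θY 0 (y' false) ≠ 0 →
  (Matrix.of fun i j : Option WX =>
    Option.elim j (F θ (y i) 0) fun p => Dij p (F θ (y i)) 0).det ≠ 0 →
  ∃ (m : ℕ) (P : MvPolynomial (Option (Option WX)) ℂ), P.IsHomogeneous m ∧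
    (∀ w ∈ Om (Fin 3) Unit, MvPolynomial.eval (fun i => YF θ θY y y' w i) P = 0) ∧
    ∃ w ∈ Om (Fin 3) Unit, MvPolynomial.eval (fun i => YF θ θY y y' w i)
      (MvPolynomial.pderiv none P) ≠ 0

/-- The data of the comparison: the lattice `L₀`, the lattice `L₁` of a point with complex
multiplication, their exterior squares, and operators. -/
structure CoD (δ : Derivation ℚ ℂ ℂ) (g : Matrix (Fin 3 ⊕ Unit) (Fin 3 ⊕ Unit) ℂ)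
    (L₀ L₁ : Submodule ℤ (IX → ℂ)) (χ₀ θ₀ χ₁ θ₁ : (IX → ℂ) → ℂ)
    (LY₀ LY₁ : Submodule ℤ (IY → ℂ)) (χY₀ θY₀ χY₁ θY₁ : (IY → ℂ) → ℂ) (e : ℕ)
    (A k₀ kY₀ k₁ kY₁ : ℂ) (Bp : Matrix (Fin 3) (Fin 3) ℂ) (Bm : Matrix Unit Unit ℂ)
    (c b : Matrix (Fin 3) Unit ℂ) (BpY BmY cY bY : Matrix (Fin 3) (Fin 3) ℂ) : Prop where
  pl₀ : PLat L₀ χ₀
  pl₁ : PLat L₁ χ₁
  plY₀ : PLat LY₀ χY₀
  plY₁ : PLat LY₁ χY₁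
  th₀ : IsTh L₀ χ₀ θ₀
  th₁ : IsTh L₁ χ₁ θ₁
  thY₀ : IsTh LY₀ χY₀ θY₀
  thY₁ : IsTh LY₁ χY₁ θY₁
  nz₀ : ∃ v, θ₀ v ≠ 0
  nz₁ : ∃ v, θ₁ v ≠ 0
  nzY₀ : ∃ v, θY₀ v ≠ 0
  nzY₁ : ∃ v, θY₁ v ≠ 0
  maps : Maps g L₁ L₀ χ₁ χ₀
  mapsY : Maps (e2 g) LY₁ LY₀ χY₁ χY₀
  coc : CocP e L₀ LY₀
  op₀ : HasHat2 δ L₀ θ₀ k₀ Bp Bm c b
  opY₀ : HasHat2 δ LY₀ θY₀ kY₀ BpY BmY cY bY
  op₁ : HasHat δ L₁ θ₁ k₁ (A • (1 : Matrix (Fin 3) (Fin 3) ℂ)) (A • (1 : Matrix Unit Unit ℂ)) 0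
  opY₁ : HasHat δ LY₁ θY₁ kY₁ (A • (1 : Matrix (Fin 3) (Fin 3) ℂ))
    (A • (1 : Matrix (Fin 3) (Fin 3) ℂ)) 0

/-- [DelQ] `δ` applied to a homogeneous relation, with additional terms -/
def St_DelQ : Prop := ∀ (κ τ : Type) [Fintype κ] [DecidableEq κ] [Fintype τ] [DecidableEq τ]
  (δ : Derivation ℚ ℂ ℂ) (f h : τ → (κ → ℂ) → ℂ) (K : (κ → ℂ) → ℂ)
  (Ξ : κ → (κ → ℂ) → ℂ) (m : ℕ) (P : MvPolynomial τ ℂ), P.IsHomogeneous m →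
  (∀ o, IsDelG δ (f o) (fun z => K z * f o z + ∑ p, Ξ p z * pd p (f o) z + h o z)) →
  (∀ᶠ z in nhds 0, MvPolynomial.eval (fun i => f i z) P = 0) →
  ∀ᶠ z in nhds 0, (∑ m ∈ P.support, δ (P.coeff m) * MvPolynomial.eval (fun i => f i z)
      (MvPolynomial.monomial m 1)) +
    ∑ o, h o z * MvPolynomial.eval (fun i => f i z) (MvPolynomial.pderiv o P) = 0

/-- [CoreY] the core theorem for the exterior square -/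
def St_CoreY : Prop := ∀ (δ : Derivation ℚ ℂ ℂ) (g : Matrix (Fin 3 ⊕ Unit) (Fin 3 ⊕ Unit) ℂ)
  (L₀ L₁ : Submodule ℤ (IX → ℂ)) (χ₀ θ₀ χ₁ θ₁ : (IX → ℂ) → ℂ)
  (LY₀ LY₁ : Submodule ℤ (IY → ℂ)) (χY₀ θY₀ χY₁ θY₁ : (IY → ℂ) → ℂ) (e : ℕ)
  (A k₀ kY₀ k₁ kY₁ : ℂ) (Bp : Matrix (Fin 3) (Fin 3) ℂ) (Bm : Matrix Unit Unit ℂ)
  (c b : Matrix (Fin 3) Unit ℂ) (BpY BmY cY bY : Matrix (Fin 3) (Fin 3) ℂ) (y' : Bool → IY → ℂ),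
  CoD δ g L₀ L₁ χ₀ θ₀ χ₁ θ₁ LY₀ LY₁ χY₀ θY₀ χY₁ θY₁ e A k₀ kY₀ k₁ kY₁ Bp Bm c b BpY BmY cY bY →
  (∀ i, OddTor LY₀ (y' i)) → psi θY₀ 0 (y' false) ≠ 0 → ∀ᶠ w in nhds (0 : WX → ℂ),
    psi θY₀ (rho w) (y' false) * ∑ p, vY Bp Bm c b BpY BmY cY bY w p *
        pd p (fun u => psi θY₀ u (y' true)) (rho w) =
      psi θY₀ (rho w) (y' true) * ∑ p, vY Bp Bm c b BpY BmY cY bY w p *
        pd p (fun u => psi θY₀ u (y' false)) (rho w)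

/-- [IndY] the vector fields agree -/
def St_IndY : Prop := ∀ (δ : Derivation ℚ ℂ ℂ) (g : Matrix (Fin 3 ⊕ Unit) (Fin 3 ⊕ Unit) ℂ)
  (L₀ L₁ : Submodule ℤ (IX → ℂ)) (χ₀ θ₀ χ₁ θ₁ : (IX → ℂ) → ℂ)
  (LY₀ LY₁ : Submodule ℤ (IY → ℂ)) (χY₀ θY₀ χY₁ θY₁ : (IY → ℂ) → ℂ) (e : ℕ)
  (A k₀ kY₀ k₁ kY₁ : ℂ) (Bp : Matrix (Fin 3) (Fin 3) ℂ) (Bm : Matrix Unit Unit ℂ)
  (c b : Matrix (Fin 3) Unit ℂ) (BpY BmY cY bY : Matrix (Fin 3) (Fin 3) ℂ),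
  CoD δ g L₀ L₁ χ₀ θ₀ χ₁ θ₁ LY₀ LY₁ χY₀ θY₀ χY₁ θY₁ e A k₀ kY₀ k₁ kY₁ Bp Bm c b BpY BmY cY bY →
  ∀ᶠ w in nhds (0 : WX → ℂ), ∀ p, vY Bp Bm c b BpY BmY cY bY w p = 0

/-! ## Part E. The operator of the exterior square -/

/-- [LinY] the equality of the vector fields determines the operator, up to a scalar -/
def St_LinY : Prop := ∀ (Bp : Matrix (Fin 3) (Fin 3) ℂ) (Bm : Matrix Unit Unit ℂ)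
  (c : Matrix (Fin 3) Unit ℂ) (BpY BmY cY bY : Matrix (Fin 3) (Fin 3) ℂ),
  (∀ᶠ w in nhds (0 : WX → ℂ), ∀ p, vY Bp Bm c 0 BpY BmY cY bY w p = 0) →
  bY = 0 ∧ cY = kY c ∧ ∃ r : ℂ,
    BpY = (Bp.trace - r) • (1 : Matrix (Fin 3) (Fin 3) ℂ) - Bp.transpose ∧
    BmY = (Bm () () + r) • (1 : Matrix (Fin 3) (Fin 3) ℂ) - Bp.transpose

/-- [ExY] one exponent for all lattices of points with complex multiplication by `i √d` -/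
def St_ExY : Prop := ∀ d : ℚ, 0 < d → ∃ A : Derivation ℚ ℂ ℂ → ℂ,
  ∀ (α β : Type) [Fintype α] [Fintype β] [DecidableEq α] [DecidableEq β] (r : α ⊕ β → ℝ)
    (q : α ⊕ β → ℚ) (L : Submodule ℤ (Ix α β Unit → ℂ)) (χ θ : (Ix α β Unit → ℂ) → ℂ),
    IsR d r q → Nonempty (α ⊕ β) → PLat L χ → IsLK d r q L → IsTh L χ θ → (∃ v, θ v ≠ 0) →
    ∀ δ, ∃ k : ℂ, HasHat δ L θ k (A δ • (1 : Matrix α α ℂ)) (A δ • (1 : Matrix β β ℂ)) 0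

/-- [ExM] the same, with the period of an elliptic curve -/
def St_ExM : Prop := ∀ d : ℚ, 0 < d → ∃ (A : Derivation ℚ ℂ ℂ → ℂ) (m : ℂ), m ≠ 0 ∧
  (∀ δ : Derivation ℚ ℂ ℂ, δ m = A δ * m) ∧
  ∀ (α β : Type) [Fintype α] [Fintype β] [DecidableEq α] [DecidableEq β] (r : α ⊕ β → ℝ)
    (q : α ⊕ β → ℚ) (L : Submodule ℤ (Ix α β Unit → ℂ)) (χ θ : (Ix α β Unit → ℂ) → ℂ),
    IsR d r q → Nonempty (α ⊕ β) → PLat L χ → IsLK d r q L → IsTh L χ θ → (∃ v, θ v ≠ 0) →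
    ∀ δ, ∃ k : ℂ, HasHat δ L θ k (A δ • (1 : Matrix α α ℂ)) (A δ • (1 : Matrix β β ℂ)) 0

/-- [HatX] the operator in the normal form -/
def St_HatX : Prop := ∀ (X : AbVar) (d : ℚ) (α β : Type) [Fintype α] [Fintype β] [DecidableEq α]
  [DecidableEq β] (T : Matrix (Ix α β Unit) (Fin X.g) ℂ)
  (S : Matrix (Fin X.g) (Ix α β Unit) ℂ) (Tp : Matrix α α ℂ) (Tm : Matrix β β ℂ)
  (Ta : Matrix (Ix α β Unit) (Fin X.g) ℂ) (Tb : Matrix (Fin X.g) (Ix α β Unit) ℂ)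
  (κ : Matrix α β ℂ) (L : Submodule ℤ (Ix α β Unit → ℂ)) (χ θ : (Ix α β Unit → ℂ) → ℂ)
  (δ : Derivation ℚ ℂ ℂ), NS X d α β T S Tp Tm Ta Tb κ L → PLat L χ → IsTh L χ θ →
  (∃ v, θ v ≠ 0) → ∃ k : ℂ, HasHat δ L θ k (Tp * Tp⁻¹.map δ) (Tm * Tm⁻¹.map δ)
    (-((Tp⁻¹).transpose * κ.map δ * Tm⁻¹))

/-- [HatY] algebra of the operator -/
def St_HatY : Prop := ∀ (δ : Derivation ℚ ℂ ℂ) (Tp : Matrix (Fin 3) (Fin 3) ℂ)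
  (Tm : Matrix Unit Unit ℂ) (κ : Matrix (Fin 3) Unit ℂ) (m A : ℂ), Tp.det ≠ 0 → Tm.det ≠ 0 →
  m ≠ 0 → δ m = A * m →
  (TpY m Tp).det ≠ 0 ∧ (TmY m Tp Tm).det ≠ 0 ∧
  TpY m Tp * (TpY m Tp)⁻¹.map δ =
    ((Tp * Tp⁻¹.map δ).trace - A) • (1 : Matrix (Fin 3) (Fin 3) ℂ) -
      (Tp * Tp⁻¹.map δ).transpose ∧
  TmY m Tp Tm * (TmY m Tp Tm)⁻¹.map δ =
    ((Tm * Tm⁻¹.map δ) () () + A) • (1 : Matrix (Fin 3) (Fin 3) ℂ) -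
      (Tp * Tp⁻¹.map δ).transpose ∧
  -(((TpY m Tp)⁻¹).transpose * (kY κ).map δ * (TmY m Tp Tm)⁻¹) =
    kY (-((Tp⁻¹).transpose * κ.map δ * Tm⁻¹))

/-- [OpY] the operator of the exterior square -/
def St_OpY : Prop := ∀ (X : AbVar) (d : ℚ) (T : Matrix IX (Fin X.g) ℂ)
  (S : Matrix (Fin X.g) IX ℂ) (Tp : Matrix (Fin 3) (Fin 3) ℂ) (Tm : Matrix Unit Unit ℂ)
  (Ta : Matrix IX (Fin X.g) ℂ) (Tb : Matrix (Fin X.g) IX ℂ) (κ : Matrix (Fin 3) Unit ℂ)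
  (g : Matrix (Fin 3 ⊕ Unit) (Fin 3 ⊕ Unit) ℂ) (r : Fin 3 ⊕ Unit → ℝ) (q : Fin 3 ⊕ Unit → ℚ)
  (L₀ L₁ : Submodule ℤ (IX → ℂ)) (χ₀ χ₁ : (IX → ℂ) → ℂ)
  (LY₀ LY₁ : Submodule ℤ (IY → ℂ)) (χY₀ χY₁ θY₀ : (IY → ℂ) → ℂ)
  (A : Derivation ℚ ℂ ℂ → ℂ) (m : ℂ), NS X d (Fin 3) Unit T S Tp Tm Ta Tb κ L₀ →
  IsR d r q → PLat L₀ χ₀ → PLat L₁ χ₁ → PLat LY₀ χY₀ → PLat LY₁ χY₁ → IsLK d r q L₁ →
  IsLK d (rY d r) (qY d q) LY₁ → Maps g L₁ L₀ χ₁ χ₀ → Maps (e2 g) LY₁ LY₀ χY₁ χY₀ →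
  g.det = 1 → IsTh LY₀ χY₀ θY₀ → (∃ v, θY₀ v ≠ 0) → m ≠ 0 →
  (∀ δ : Derivation ℚ ℂ ℂ, δ m = A δ * m) →
  (∀ (α β : Type) [Fintype α] [Fintype β] [DecidableEq α] [DecidableEq β] (r : α ⊕ β → ℝ)
    (q : α ⊕ β → ℚ) (L : Submodule ℤ (Ix α β Unit → ℂ)) (χ θ : (Ix α β Unit → ℂ) → ℂ),
    IsR d r q → Nonempty (α ⊕ β) → PLat L χ → IsLK d r q L → IsTh L χ θ → (∃ v, θ v ≠ 0) →
    ∀ δ, ∃ k : ℂ, HasHat δ L θ k (A δ • (1 : Matrix α α ℂ)) (A δ • (1 : Matrix β β ℂ)) 0) →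
  ∀ δ : Derivation ℚ ℂ ℂ, ∃ k : ℂ, HasHat δ LY₀ θY₀ k (TpY m Tp * (TpY m Tp)⁻¹.map δ)
    (TmY m Tp Tm * (TmY m Tp Tm)⁻¹.map δ)
    (-(((TpY m Tp)⁻¹).transpose * (kY κ).map δ * (TmY m Tp Tm)⁻¹))

end DWY
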