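import Pool.Agent.DWY.StB
import Pool.Agent.GAM.StG

/-!
# DWY: frozen statements, abelian varieties and the class of the exterior square
-/

set_option autoImplicit false

namespace DWY

open scoped ComplexConjugate
open GAM (H E F pd pdl PLat IsTh OddTor IsDel Gro IsLat GoodN LinN)
open PST DWC
open Pool.Agent.GPC (AbVar hermForm bilForm IsAlgQuadratic)

/-! ## Part F. The abelian variety of a lattice with an operator -/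

/-- [NorG] normalisation -/
def St_NorG : Prop := ∀ (ι : Type) [Fintype ι] [DecidableEq ι] (L : Submodule ℤ (ι → ℂ))
  (χ θ : (ι → ℂ) → ℂ) (T S q : Matrix ι ι ℂ) (k : Derivation ℚ ℂ ℂ → ℂ),
  PLat L χ → IsTh L χ θ → (∃ v, θ v ≠ 0) → T * S = 1 → q.transpose = q →
  (∀ δ, HasGop δ L θ (k δ) (T * S.map δ) (-(S.transpose * q.map δ * S))) →
  ∃ y, NormG L θ T S q y

/-- [QuaG] the Wronskians and the second logarithmic derivatives are quadratic forms with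
algebraic coefficients -/
def St_QuaG : Prop := ∀ (ι : Type) [Fintype ι] [DecidableEq ι] (L : Submodule ℤ (ι → ℂ))
  (χ θ : (ι → ℂ) → ℂ) (T S q : Matrix ι ι ℂ) (y : ι → ℂ) (N r : ℕ)
  (c : Fin (r + 1) → ι → ℂ) (κ : Fin (r + 1) → (ι → ℂ) → ℂ)
  (κ₁ : ι → Fin (r + 1) → (ι → ℂ) → ℂ) (κ₂ : ι → ι → Fin (r + 1) → ℂ) (M : ℕ)
  (X : Fin (M + 1) → ι → ℂ), PLat L χ → IsTh L χ θ → (∃ v, θ v ≠ 0) → NormG L θ T S q y →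
  GoodN L θ N → LinN L θ N r c κ →
  (∀ a σ ρ v, pd a (F θ (σ + ρ)) v * F θ (σ - ρ) v - F θ (σ + ρ) v * pd a (F θ (σ - ρ)) v =
      ∑ i, κ₁ a i ρ * (F θ (σ + c i) v * F θ (σ - c i) v)) →
  (∀ a b σ v, F θ σ v * pd a (pd b (F θ σ)) v - pd a (F θ σ) v * pd b (F θ σ) v =
      ∑ i, κ₂ a b i * (F θ (σ + c i) v * F θ (σ - c i) v)) →
  (∀ j, (N : ℤ) • X j ∈ L) → (∀ x, (N : ℤ) • x ∈ L → ∃ j, x - X j ∈ L) →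
  (∀ a i j, ∃ Q : MvPolynomial (Fin (M + 1)) ℂ, IsAlgQuadratic Q ∧
    ∀ z, Tg θ T q y (X i) z * pd a (Tg θ T q y (X j)) z -
        Tg θ T q y (X j) z * pd a (Tg θ T q y (X i)) z =
      MvPolynomial.eval (fun k => Tg θ T q y (X k) z) Q) ∧
  (∀ a b i, ∃ Q : MvPolynomial (Fin (M + 1)) ℂ, IsAlgQuadratic Q ∧
    ∀ z, Tg θ T q y (X i) z * pd a (pd b (Tg θ T q y (X i))) z -
        pd a (Tg θ T q y (X i)) z * pd b (Tg θ T q y (X i)) z =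
      MvPolynomial.eval (fun k => Tg θ T q y (X k) z) Q)

/-- [AbVG] the abelian variety of a principal lattice with an operator -/
def St_AbVG : Prop := ∀ (ι : Type) [Fintype ι] [DecidableEq ι] (L : Submodule ℤ (ι → ℂ))
  (χ θ : (ι → ℂ) → ℂ) (T S q : Matrix ι ι ℂ) (k : Derivation ℚ ℂ ℂ → ℂ),
  PLat L χ → IsTh L χ θ → (∃ v, θ v ≠ 0) → T * S = 1 → q.transpose = q →
  (∀ δ, HasGop δ L θ (k δ) (T * S.map δ) (-(S.transpose * q.map δ * S))) →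
  ∃ (Y : AbVar) (e : Fin Y.g ≃ ι) (N : ℕ), AbG L T S q Y e N

/-- [NSY] the abelian variety of a lattice with multiplication by `i √d` -/
def St_NSY : Prop := ∀ (d : ℚ) (α β : Type) [Fintype α] [Fintype β] [DecidableEq α]
  [DecidableEq β] (Tp : Matrix α α ℂ) (Tm : Matrix β β ℂ) (κ : Matrix α β ℂ) (N : ℕ)
  (L : Submodule ℤ (Ix α β Unit → ℂ)) (χ θ : (Ix α β Unit → ℂ) → ℂ), 0 < d → N ≠ 0 →
  KL d N L → PLat L χ → IsTh L χ θ → (∃ v, θ v ≠ 0) → Tp.det ≠ 0 → Tm.det ≠ 0 →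
  (∀ δ : Derivation ℚ ℂ ℂ, ∃ k : ℂ, HasHat δ L θ k (Tp * Tp⁻¹.map δ) (Tm * Tm⁻¹.map δ)
    (-((Tp⁻¹).transpose * κ.map δ * Tm⁻¹))) →
  ∃ (Y : AbVar) (T : Matrix (Ix α β Unit) (Fin Y.g) ℂ) (S : Matrix (Fin Y.g) (Ix α β Unit) ℂ)
    (Ta : Matrix (Ix α β Unit) (Fin Y.g) ℂ) (Tb : Matrix (Fin Y.g) (Ix α β Unit) ℂ),
    NS Y d α β T S Tp Tm Ta Tb κ L ∧ Y.g = Fintype.card α + Fintype.card β

/-! ## Part G. The normal form of the fourfold -/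

/-- [NFT] the normal form in signature `(3,1)` -/
def St_NFT : Prop := ∀ (X : AbVar) (d : ℚ) (J : Module.End ℂ X.H1), X.g = 4 → IsKs X d J →
  Module.finrank ℂ (X.filEigen J (zd d)) = 1 →
  ∃ (T : Matrix IX (Fin X.g) ℂ) (S : Matrix (Fin X.g) IX ℂ) (Tp : Matrix (Fin 3) (Fin 3) ℂ)
    (Tm : Matrix Unit Unit ℂ) (Ta : Matrix IX (Fin X.g) ℂ)
    (g : Matrix (Fin 3 ⊕ Unit) (Fin 3 ⊕ Unit) ℂ) (r : Fin 3 ⊕ Unit → ℝ)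
    (q : Fin 3 ⊕ Unit → ℚ), NFK X d J (Fin 3) Unit T S Tp Tm Ta g r q

/-- [NSX] the normal form and the lattice `L = g L₁` -/
def St_NSX : Prop := ∀ (X : AbVar) (d : ℚ) (J : Module.End ℂ X.H1) (α β : Type) [Fintype α]
  [Fintype β] [DecidableEq α] [DecidableEq β] (T : Matrix (Ix α β Unit) (Fin X.g) ℂ)
  (S : Matrix (Fin X.g) (Ix α β Unit) ℂ) (Tp : Matrix α α ℂ) (Tm : Matrix β β ℂ)
  (Ta : Matrix (Ix α β Unit) (Fin X.g) ℂ) (g : Matrix (α ⊕ β) (α ⊕ β) ℂ)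
  (r : α ⊕ β → ℝ) (q : α ⊕ β → ℚ) (L L₁ : Submodule ℤ (Ix α β Unit → ℂ)) (N : ℕ),
  IsKs X d J → NFK X d J α β T S Tp Tm Ta g r q → IsLK d r q L₁ →
  (∀ x, x ∈ L₁ ↔ act g x ∈ L) → N ≠ 0 → KL d N L →
  ∃ κ : Matrix α β ℂ, NS X d α β T S Tp Tm Ta (S * blk Unit Tp Tm) κ L

/-! ## Part H. The class -/

/-- [CxA] the coordinates `cx`, `cy` -/
def St_CxA : Prop := ∀ (X : AbVar) (d : ℚ) (α β : Type) [Fintype α] [Fintype β] [DecidableEq α]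
  [DecidableEq β] (T : Matrix (Ix α β Unit) (Fin X.g) ℂ)
  (S : Matrix (Fin X.g) (Ix α β Unit) ℂ) (Tp : Matrix α α ℂ) (Tm : Matrix β β ℂ)
  (Ta : Matrix (Ix α β Unit) (Fin X.g) ℂ) (Tb : Matrix (Fin X.g) (Ix α β Unit) ℂ)
  (κ : Matrix α β ℂ) (L : Submodule ℤ (Ix α β Unit → ℂ)), NS X d α β T S Tp Tm Ta Tb κ L →
  IsLinearMap ℂ (cx X T) ∧ IsLinearMap ℂ (cy X S) ∧
  (∀ x y : Ix α β Unit → ℂ, ∃ v, cx X T v = x ∧ cy X S v = y) ∧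
  (∀ v, cx X T v = 0 → cy X S v = 0 → v = 0) ∧
  (∀ v, X.IsFil v ↔ cx X T v = 0) ∧
  (∀ v, X.IsBetti v ↔ (∀ p, cy X S v p = conj (cx X T v p)) ∧
    ∃ n : ℕ, n ≠ 0 ∧ (n : ℤ) • cx X T v ∈ L) ∧
  ∀ v, X.IsDeRham v ↔ ∃ ζ η : Ix α β Unit → ℂ, (∀ p, IsAlgebraic ℚ (ζ p)) ∧
    (∀ p, IsAlgebraic ℚ (η p)) ∧ cx X T v = (blk Unit Tp Tm).mulVec ζ ∧
    ∀ p, cy X S v p = 1 / Real.pi *
      (blk Unit Tp⁻¹ Tm⁻¹).transpose.mulVec (fun p' => η p' - (qb κ).mulVec ζ p') p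

/-- [JNS] the multiplication by `i √d` -/
def St_JNS : Prop := ∀ (X : AbVar) (d : ℚ) (α β : Type) [Fintype α] [Fintype β] [DecidableEq α]
  [DecidableEq β] (T : Matrix (Ix α β Unit) (Fin X.g) ℂ)
  (S : Matrix (Fin X.g) (Ix α β Unit) ℂ) (Tp : Matrix α α ℂ) (Tm : Matrix β β ℂ)
  (Ta : Matrix (Ix α β Unit) (Fin X.g) ℂ) (Tb : Matrix (Fin X.g) (Ix α β Unit) ℂ)
  (κ : Matrix α β ℂ) (L : Submodule ℤ (Ix α β Unit → ℂ)), NS X d α β T S Tp Tm Ta Tb κ L →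
  ∃ J : X.H1 → X.H1, X.IsEnd J ∧ (∀ v, J (J v) = (-(d : ℂ)) • v) ∧
    (∀ v p, XX X T S (J v) p = zd d * XX X T S v p) ∧
    ∀ v p, XT X T S (J v) p = -(zd d * XT X T S v p)

/-- [XXJ] the given multiplication by `i √d` -/
def St_XXJ : Prop := ∀ (X : AbVar) (d : ℚ) (α β : Type) [Fintype α] [Fintype β] [DecidableEq α]
  [DecidableEq β] (T : Matrix (Ix α β Unit) (Fin X.g) ℂ)
  (S : Matrix (Fin X.g) (Ix α β Unit) ℂ) (Tp : Matrix α α ℂ) (Tm : Matrix β β ℂ)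
  (Ta : Matrix (Ix α β Unit) (Fin X.g) ℂ) (Tb : Matrix (Fin X.g) (Ix α β Unit) ℂ)
  (κ : Matrix α β ℂ) (L : Submodule ℤ (Ix α β Unit → ℂ)) (J : X.H1 → X.H1),
  NS X d α β T S Tp Tm Ta Tb κ L → IsLat L → X.IsEnd J →
  (∀ v, T.mulVec (X.zz (J v)) =
    (rgt α β (zd d • (1 : Matrix Unit Unit ℂ))).mulVec (T.mulVec (X.zz v))) →
  (∀ v p, XX X T S (J v) p = zd d * XX X T S v p) ∧
    ∀ v p, XT X T S (J v) p = -(zd d * XT X T S v p)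

/-- The data of the class: the fourfold `X`, the sixfold `Y`, the elliptic curve `Z`. -/
structure YD (d : ℚ) (m : ℂ) (N M : ℕ) (X Y Z : AbVar)
    (T : Matrix IX (Fin X.g) ℂ) (S : Matrix (Fin X.g) IX ℂ) (Tp : Matrix (Fin 3) (Fin 3) ℂ)
    (Tm : Matrix Unit Unit ℂ) (Ta : Matrix IX (Fin X.g) ℂ) (Tb : Matrix (Fin X.g) IX ℂ)
    (κ : Matrix (Fin 3) Unit ℂ) (L : Submodule ℤ (IX → ℂ))
    (T' : Matrix IY (Fin Y.g) ℂ) (S' : Matrix (Fin Y.g) IY ℂ)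
    (Ta' : Matrix IY (Fin Y.g) ℂ) (Tb' : Matrix (Fin Y.g) IY ℂ) (LY : Submodule ℤ (IY → ℂ))
    (T'' : Matrix (Ix Empty Unit Unit) (Fin Z.g) ℂ)
    (S'' : Matrix (Fin Z.g) (Ix Empty Unit Unit) ℂ)
    (Ta'' : Matrix (Ix Empty Unit Unit) (Fin Z.g) ℂ)
    (Tb'' : Matrix (Fin Z.g) (Ix Empty Unit Unit) ℂ)
    (LZ : Submodule ℤ (Ix Empty Unit Unit → ℂ)) : Prop where
  m0 : m ≠ 0
  nx : NS X d (Fin 3) Unit T S Tp Tm Ta Tb κ L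
  ny : NS Y d (Fin 3) (Fin 3) T' S' (TpY m Tp) (TmY m Tp Tm) Ta' Tb' (kY κ) LY
  nz : NS Z d Empty Unit T'' S'' 1 (m⁻¹ • (1 : Matrix Unit Unit ℂ)) Ta'' Tb'' 0 LZ
  cms : Cms ((N : ℝ) * d4 d) M L LY
  intY : ∀ l ∈ LY, ∀ l' ∈ LY, ∃ k : ℤ, E l l' = k
  lz : IsLK d (fun _ => d4 d) (fun _ => 1) LZ

/-- [TBet] the class is rational -/
def St_TBet : Prop := ∀ (d : ℚ) (m : ℂ) (N M : ℕ) (X Y Z : AbVar)
  (T : Matrix IX (Fin X.g) ℂ) (S : Matrix (Fin X.g) IX ℂ) (Tp : Matrix (Fin 3) (Fin 3) ℂ)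
  (Tm : Matrix Unit Unit ℂ) (Ta : Matrix IX (Fin X.g) ℂ) (Tb : Matrix (Fin X.g) IX ℂ)
  (κ : Matrix (Fin 3) Unit ℂ) (L : Submodule ℤ (IX → ℂ))
  (T' : Matrix IY (Fin Y.g) ℂ) (S' : Matrix (Fin Y.g) IY ℂ)
  (Ta' : Matrix IY (Fin Y.g) ℂ) (Tb' : Matrix (Fin Y.g) IY ℂ) (LY : Submodule ℤ (IY → ℂ))
  (T'' : Matrix (Ix Empty Unit Unit) (Fin Z.g) ℂ)
  (S'' : Matrix (Fin Z.g) (Ix Empty Unit Unit) ℂ)
  (Ta'' : Matrix (Ix Empty Unit Unit) (Fin Z.g) ℂ)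
  (Tb'' : Matrix (Fin Z.g) (Ix Empty Unit Unit) ℂ)
  (LZ : Submodule ℤ (Ix Empty Unit Unit → ℂ)),
  YD d m N M X Y Z T S Tp Tm Ta Tb κ L T' S' Ta' Tb' LY T'' S'' Ta'' Tb'' LZ →
  ∀ u v w l, X.IsBetti u → X.IsBetti v → Y.IsBetti w → Z.IsBetti l →
    ∃ c : ℚ, Tcl X Y Z T S T' S' T'' S'' u v w l = (2 * Real.pi * Complex.I) ^ 2 * c

/-- [TdR] the class is algebraic -/
def St_TdR : Prop := ∀ (d : ℚ) (m : ℂ) (N M : ℕ) (X Y Z : AbVar)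
  (T : Matrix IX (Fin X.g) ℂ) (S : Matrix (Fin X.g) IX ℂ) (Tp : Matrix (Fin 3) (Fin 3) ℂ)
  (Tm : Matrix Unit Unit ℂ) (Ta : Matrix IX (Fin X.g) ℂ) (Tb : Matrix (Fin X.g) IX ℂ)
  (κ : Matrix (Fin 3) Unit ℂ) (L : Submodule ℤ (IX → ℂ))
  (T' : Matrix IY (Fin Y.g) ℂ) (S' : Matrix (Fin Y.g) IY ℂ)
  (Ta' : Matrix IY (Fin Y.g) ℂ) (Tb' : Matrix (Fin Y.g) IY ℂ) (LY : Submodule ℤ (IY → ℂ))
  (T'' : Matrix (Ix Empty Unit Unit) (Fin Z.g) ℂ)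
  (S'' : Matrix (Fin Z.g) (Ix Empty Unit Unit) ℂ)
  (Ta'' : Matrix (Ix Empty Unit Unit) (Fin Z.g) ℂ)
  (Tb'' : Matrix (Fin Z.g) (Ix Empty Unit Unit) ℂ)
  (LZ : Submodule ℤ (Ix Empty Unit Unit → ℂ)),
  YD d m N M X Y Z T S Tp Tm Ta Tb κ L T' S' Ta' Tb' LY T'' S'' Ta'' Tb'' LZ →
  ∀ u v w l, X.IsDeRham u → X.IsDeRham v → Y.IsDeRham w → Z.IsDeRham l →
    IsAlgebraic ℚ (Tcl X Y Z T S T' S' T'' S'' u v w l)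

/-- [THod] the class is a Hodge class -/
def St_THod : Prop := ∀ (d : ℚ) (m : ℂ) (N M : ℕ) (X Y Z : AbVar)
  (T : Matrix IX (Fin X.g) ℂ) (S : Matrix (Fin X.g) IX ℂ) (Tp : Matrix (Fin 3) (Fin 3) ℂ)
  (Tm : Matrix Unit Unit ℂ) (Ta : Matrix IX (Fin X.g) ℂ) (Tb : Matrix (Fin X.g) IX ℂ)
  (κ : Matrix (Fin 3) Unit ℂ) (L : Submodule ℤ (IX → ℂ))
  (T' : Matrix IY (Fin Y.g) ℂ) (S' : Matrix (Fin Y.g) IY ℂ)
  (Ta' : Matrix IY (Fin Y.g) ℂ) (Tb' : Matrix (Fin Y.g) IY ℂ) (LY : Submodule ℤ (IY → ℂ))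
  (T'' : Matrix (Ix Empty Unit Unit) (Fin Z.g) ℂ)
  (S'' : Matrix (Fin Z.g) (Ix Empty Unit Unit) ℂ)
  (Ta'' : Matrix (Ix Empty Unit Unit) (Fin Z.g) ℂ)
  (Tb'' : Matrix (Fin Z.g) (Ix Empty Unit Unit) ℂ)
  (LZ : Submodule ℤ (Ix Empty Unit Unit → ℂ)),
  YD d m N M X Y Z T S Tp Tm Ta Tb κ L T' S' Ta' Tb' LY T'' S'' Ta'' Tb'' LZ →
  ∀ u v w l, (X.IsFil u ∧ X.IsFil v ∧ Y.IsFil w) ∨ (X.IsFil u ∧ X.IsFil v ∧ Z.IsFil l) ∨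
    (X.IsFil u ∧ Y.IsFil w ∧ Z.IsFil l) → Tcl X Y Z T S T' S' T'' S'' u v w l = 0

/-- [TLin] the class is multilinear, alternating, linear over the quadratic field and
nondegenerate -/
def St_TLin : Prop := ∀ (d : ℚ) (m : ℂ) (N M : ℕ) (X Y Z : AbVar)
  (T : Matrix IX (Fin X.g) ℂ) (S : Matrix (Fin X.g) IX ℂ) (Tp : Matrix (Fin 3) (Fin 3) ℂ)
  (Tm : Matrix Unit Unit ℂ) (Ta : Matrix IX (Fin X.g) ℂ) (Tb : Matrix (Fin X.g) IX ℂ)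
  (κ : Matrix (Fin 3) Unit ℂ) (L : Submodule ℤ (IX → ℂ))
  (T' : Matrix IY (Fin Y.g) ℂ) (S' : Matrix (Fin Y.g) IY ℂ)
  (Ta' : Matrix IY (Fin Y.g) ℂ) (Tb' : Matrix (Fin Y.g) IY ℂ) (LY : Submodule ℤ (IY → ℂ))
  (T'' : Matrix (Ix Empty Unit Unit) (Fin Z.g) ℂ)
  (S'' : Matrix (Fin Z.g) (Ix Empty Unit Unit) ℂ)
  (Ta'' : Matrix (Ix Empty Unit Unit) (Fin Z.g) ℂ)
  (Tb'' : Matrix (Fin Z.g) (Ix Empty Unit Unit) ℂ)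
  (LZ : Submodule ℤ (Ix Empty Unit Unit → ℂ)) (J : X.H1 → X.H1) (JY : Y.H1 → Y.H1)
  (JZ : Z.H1 → Z.H1),
  YD d m N M X Y Z T S Tp Tm Ta Tb κ L T' S' Ta' Tb' LY T'' S'' Ta'' Tb'' LZ →
  (∀ v p, XX X T S (J v) p = zd d * XX X T S v p) →
  (∀ v p, XT X T S (J v) p = -(zd d * XT X T S v p)) →
  (∀ v p, XX Y T' S' (JY v) p = -(zd d * XX Y T' S' v p)) →
  (∀ v p, XT Y T' S' (JY v) p = zd d * XT Y T' S' v p) →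
  (∀ v p, XX Z T'' S'' (JZ v) p = zd d * XX Z T'' S'' v p) →
  (∀ v p, XT Z T'' S'' (JZ v) p = -(zd d * XT Z T'' S'' v p)) →
  (∀ v w l, IsLinearMap ℂ (fun u => Tcl X Y Z T S T' S' T'' S'' u v w l)) ∧
  (∀ u w l, IsLinearMap ℂ (fun v => Tcl X Y Z T S T' S' T'' S'' u v w l)) ∧
  (∀ u v l, IsLinearMap ℂ (fun w => Tcl X Y Z T S T' S' T'' S'' u v w l)) ∧
  (∀ u v w, IsLinearMap ℂ (fun l => Tcl X Y Z T S T' S' T'' S'' u v w l)) ∧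
  (∀ u w l, Tcl X Y Z T S T' S' T'' S'' u u w l = 0) ∧
  (∀ u v w l, Tcl X Y Z T S T' S' T'' S'' (J u) v w l =
      Tcl X Y Z T S T' S' T'' S'' u (J v) w l ∧
    Tcl X Y Z T S T' S' T'' S'' (J u) v w l = Tcl X Y Z T S T' S' T'' S'' u v (JY w) l ∧
    Tcl X Y Z T S T' S' T'' S'' (J u) v w l = Tcl X Y Z T S T' S' T'' S'' u v w (JZ l)) ∧
  ∀ w, (∀ u v l, Tcl X Y Z T S T' S' T'' S'' u v w l = 0) → w = 0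

/-- [ExS] existence of the exterior square -/
def St_ExS : Prop := ∀ (X : AbVar) (d : ℚ) (J : Module.End ℂ X.H1), X.g = 4 → IsKs X d J →
  (∃ z : ℂ, z ^ 2 = -(d : ℂ) ∧ Module.finrank ℂ (X.filEigen J z) = 1) →
  ∃ (Y Z : AbVar) (JY : Y.H1 → Y.H1) (JZ : Z.H1 → Z.H1)
    (t : X.H1 → X.H1 → Y.H1 → Z.H1 → ℂ), X.IsExteriorSquare d J Y Z JY JZ t

end DWY
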